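import Mathlib
import Pool.Agent.MP_494aff_an.se.Dim
import Pool.Agent.MP_494aff_an.pinch.Sim
import Pool.Agent.MP_494aff_an.lf.Scale
import Pool.Agent.MP_494aff_an.pinch.Abel
import Pool.Agent.MP_494aff_an.lf.Line
import Pool.Agent.MP_494aff_an.lf.Ker
import Pool.Agent.MP_494aff_an.se.PushA
import Pool.Agent.MP_494aff_an.fr.Qb
import Pool.Agent.MP_494aff_an.rg.Hxs

-- ======== part 0: formerly Pool.Agent.MP_494aff_an.lf.Int
section MrgPart0

/-! One-sided intertwining. -/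

open Monoid Filter Topology
open scoped InnerProductSpace ComplexConjugate

namespace Pool.Agent.MP_494aff_an.Lf

open Pool.Agent.MP_494aff_an.Pinch Pool.Agent.MP_494aff_an.Pinch.SimA

noncomputable section

namespace IntA

variable {G Λ : Type} [Group G] [Group Λ]

lemma uni_norm {W V : H Λ →L[ℂ] H Λ} (h : Uni W V) (ξ : H Λ) : ‖W ξ‖ = ‖ξ‖ := by
  have := h.adj ξ (W ξ)
  rw [h.vw, inner_self_eq_norm_sq_to_K, inner_self_eq_norm_sq_to_K] at this
  have h2 : ‖W ξ‖ ^ 2 = ‖ξ‖ ^ 2 := by exact_mod_cast this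
  exact (pow_left_inj₀ (norm_nonneg _) (norm_nonneg _) two_ne_zero).1 h2

lemma uni_id : Uni (ContinuousLinearMap.id ℂ (H Λ)) (ContinuousLinearMap.id ℂ (H Λ)) :=
  ⟨fun _ => rfl, fun _ => rfl, fun _ _ => rfl, rfl, fun _ h => h, fun _ h => h⟩

lemma uni_comp {W V W' V' : H Λ →L[ℂ] H Λ} (h : Uni W V) (h' : Uni W' V') :
    Uni (W ∘L W') (V' ∘L V) where
  vw ξ := by simp only [ContinuousLinearMap.comp_apply, h.vw, h'.vw]
  wv ξ := by simp only [ContinuousLinearMap.comp_apply, h.wv, h'.wv]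
  adj ξ η := by simp only [ContinuousLinearMap.comp_apply, h.adj, h'.adj]
  one := by simp only [ContinuousLinearMap.comp_apply, h.one, h'.one]
  mem m hm := h.mem _ (h'.mem m hm)
  mem' m hm := h'.mem' _ (h.mem' m hm)

/-- The hypothesis of the intertwining. -/
def Hyp (f : G →* Λ) : Prop :=
  ∀ (E : Finset G) (F : Finset Λ) (η : ℝ), 0 < η → ∃ α : Λ →* Op Λ, Gen α ∧
    (∀ g ∈ E, ‖α (f g) (dl 1) - dl (f g)‖ ≤ η) ∧ ∀ x ∈ F, ∃ g, ‖α x (dl 1) - dl (f g)‖ ≤ η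

/-- A stage of the construction. -/
structure St (G Λ : Type) [Group Λ] where
  V : H Λ →L[ℂ] H Λ
  V' : H Λ →L[ℂ] H Λ
  uni : Uni V V'
  E : Finset G
  θ : ℝ
  pos : 0 < θ

/-- The relation between consecutive stages. -/
structure Nx (f : G →* Λ) (g₀ : G) (ξ : H Λ) (ε : ℝ) (s t : St G Λ) : Prop where
  sub : s.E ⊆ t.E
  mem : g₀ ∈ t.E
  half : t.θ ≤ s.θ / 2
  close : ∀ g ∈ s.E, ‖t.V (dl (f g)) - s.V (dl (f g))‖ ≤ s.θ / 2
  span : ∀ u : G → H Λ, (∀ g ∈ t.E, ‖u g - t.V (dl (f g))‖ ≤ t.θ) →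
    ∃ ζ ∈ Submodule.span ℂ (Set.range u), ‖ξ - ζ‖ ≤ ε

lemma step {f : G →* Λ} (h : Hyp f) (g₀ : G) (ξ : H Λ) {ε : ℝ} (hε : 0 < ε) (s : St G Λ) :
    ∃ t, Nx f g₀ ξ ε s t := by
  classical
  obtain ⟨F, hF⟩ : ∃ F : Finset Λ, ‖s.V' ξ - ∑ z ∈ F, s.V' ξ z • dl z‖ ≤ ε / 3 := by
    have := (hasSum_dl (s.V' ξ)).eventually
      (Metric.closedBall_mem_nhds (s.V' ξ) (by positivity : 0 < ε / 3))
    obtain ⟨F, hF⟩ := this.exists
    exact ⟨F, by rwa [dist_comm, dist_eq_norm] at hF⟩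
  set C : ℝ := ∑ z ∈ F, ‖s.V' ξ z‖ + 1 with hC
  have hC0 : 0 ≤ ∑ z ∈ F, ‖s.V' ξ z‖ := Finset.sum_nonneg fun _ _ => norm_nonneg _
  have hC1 : 0 < C := by linarith
  set η : ℝ := min (s.θ / 2) (ε / (3 * C)) with hη
  have hη0 : 0 < η := lt_min (half_pos s.pos) (by positivity)
  obtain ⟨α, hα, h1, h2⟩ := h s.E F η hη0
  obtain ⟨W, W', hW, hc⟩ := exists_uni hα
  have hWd : ∀ x, W (dl x) = α x (dl 1) := fun x => by
    rw [← hc, hW.cg_ap, hW.symm.one, lam_one]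
  have key : ∀ x y : Λ, ‖s.V (W' (dl y)) - s.V (dl x)‖ = ‖α x (dl 1) - dl y‖ := fun x y => by
    rw [← map_sub, uni_norm s.uni, ← uni_norm hW, map_sub, hW.wv, hWd, norm_sub_rev]
  choose! γ hγ using h2
  refine ⟨⟨s.V ∘L W', W ∘L s.V', uni_comp s.uni hW.symm, insert g₀ (s.E ∪ F.image γ), η, hη0⟩,
    fun g hg => Finset.mem_insert_of_mem (Finset.mem_union_left _ hg),
    Finset.mem_insert_self _ _, min_le_left _ _, fun g hg => ?_, fun u hu => ?_⟩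
  · exact (key _ _).le.trans ((h1 g hg).trans (min_le_left _ _))
  · refine ⟨∑ z ∈ F, s.V' ξ z • u (γ z), Submodule.sum_mem _ fun z _ =>
      Submodule.smul_mem _ _ (Submodule.subset_span ⟨_, rfl⟩), ?_⟩
    have e1 : ‖ξ - ∑ z ∈ F, s.V' ξ z • s.V (dl z)‖ ≤ ε / 3 := by
      rw [← uni_norm s.uni, map_sub, s.uni.wv, map_sum] at hF
      simpa only [map_smul] using hF
    have e2 : ‖∑ z ∈ F, s.V' ξ z • s.V (dl z) - ∑ z ∈ F, s.V' ξ z • u (γ z)‖ ≤
        (∑ z ∈ F, ‖s.V' ξ z‖) * (2 * η) := by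
      rw [← Finset.sum_sub_distrib, Finset.sum_mul]
      refine (norm_sum_le _ _).trans (Finset.sum_le_sum fun z hz => ?_)
      rw [← smul_sub, norm_smul]
      refine mul_le_mul_of_nonneg_left ?_ (norm_nonneg _)
      have a1 := (key z (f (γ z))).le.trans (hγ z hz)
      have a2 : ‖u (γ z) - s.V (W' (dl (f (γ z))))‖ ≤ η :=
        hu (γ z) (Finset.mem_insert_of_mem
          (Finset.mem_union_right _ (Finset.mem_image_of_mem _ hz)))
      have a3 := norm_sub_le_norm_sub_add_norm_sub (s.V (dl z)) (s.V (W' (dl (f (γ z)))))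
        (u (γ z))
      rw [norm_sub_rev] at a1 a2
      linarith
    have e3 : C * η ≤ ε / 3 := by
      have : η ≤ ε / (3 * C) := min_le_right _ _
      rw [le_div_iff₀ (by positivity)] at this
      linarith
    have e4 := norm_sub_le_norm_sub_add_norm_sub ξ (∑ z ∈ F, s.V' ξ z • s.V (dl z))
      (∑ z ∈ F, s.V' ξ z • u (γ z))
    nlinarith

omit [Group G] [Group Λ] in
/-- Strong convergence of isometries is decided on a total family. -/
lemma strong {u : G → H Λ} (hu : Dense (Submodule.span ℂ (Set.range u) : Set (H Λ)))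
    {T : ℕ → Op Λ} {S : Op Λ} (hT : ∀ n ξ, ‖T n ξ‖ = ‖ξ‖)
    (h : ∀ g, Tendsto (fun n => T n (u g)) atTop (𝓝 (S (u g)))) (ξ : H Λ) :
    Tendsto (fun n => T n ξ) atTop (𝓝 (S ξ)) := by
  have h1 : ∀ ζ ∈ Submodule.span ℂ (Set.range u),
      Tendsto (fun n => T n ζ) atTop (𝓝 (S ζ)) := fun ζ hζ => by
    induction hζ using Submodule.span_induction with
    | mem x hx =>
      obtain ⟨g, rfl⟩ := hx
      exact h g
    | zero => simp
    | add x y _ _ hx hy => simpa only [map_add] using hx.add hy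
    | smul c x _ hx => simpa only [map_smul] using hx.const_smul c
  refine Metric.tendsto_nhds.2 fun ε hε => ?_
  have hp : 0 < ε / (2 * (‖S‖ + 1)) := by positivity
  obtain ⟨ζ, hζ, hm⟩ := Metric.dense_iff.1 hu ξ _ hp
  rw [Metric.mem_ball, dist_eq_norm, lt_div_iff₀ (by positivity)] at hζ
  filter_upwards [Metric.tendsto_nhds.1 (h1 ζ hm) _ (half_pos hε)] with n hn
  rw [dist_eq_norm] at hn ⊢
  have a1 : ‖T n ξ - T n ζ‖ = ‖ζ - ξ‖ := by rw [← map_sub, hT, norm_sub_rev]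
  have a2 : ‖S ζ - S ξ‖ ≤ ‖S‖ * ‖ζ - ξ‖ := by rw [← map_sub]; exact S.le_opNorm _
  have a3 := norm_sub_le_norm_sub_add_norm_sub (T n ξ) (T n ζ) (S ξ)
  have a4 := norm_sub_le_norm_sub_add_norm_sub (T n ζ) (S ζ) (S ξ)
  nlinarith

/-- The limit of a sequence of unitaries. -/
lemma limit {f : G →* Λ} (hf : Function.Injective f) (s : ℕ → St G Λ) (u : G → H Λ)
    (hu : ∀ g, Tendsto (fun n => (s n).V (dl (f g))) atTop (𝓝 (u g)))
    (hd : Dense (Submodule.span ℂ (Set.range u) : Set (H Λ))) :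
    ∃ π : G →* Op Λ, Gen π ∧ ∀ g, π g (dl 1) = u g := by
  have hin : ∀ g g', ⟪u g, u g'⟫_ℂ = ⟪dl (f g), dl (f g')⟫_ℂ := fun g g' => by
    refine tendsto_nhds_unique ((hu g).inner (𝕜 := ℂ) (hu g')) ?_
    simp only [(s _).uni.adj, (s _).uni.vw]
    exact tendsto_const_nhds
  have hon : Orthonormal ℂ u := by
    classical
    have := orthonormal_dl.comp f hf
    rw [orthonormal_iff_ite] at this ⊢
    exact fun g g' => (hin g g').trans (this g g')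
  have h1 : u 1 = dl 1 := by
    refine tendsto_nhds_unique (hu 1) ?_
    simp only [map_one, (s _).uni.one]
    exact tendsto_const_nhds
  let U : H G →L[ℂ] H Λ := ofON u hon
  have hU : ∀ g, U (dl g) = u g := ofON_dl _ _
  let U' : H Λ →L[ℂ] H G := ContinuousLinearMap.adjoint U
  have hVW : ∀ ξ, U' (U ξ) = ξ := fun ξ => ext_inner_left ℂ fun η => by
    rw [ContinuousLinearMap.adjoint_inner_right]; exact ofON_inner _ _ η ξ
  have hWV : ∀ ξ, U (U' ξ) = ξ := fun ξ => by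
    have : U ∘L U' = ContinuousLinearMap.id ℂ _ :=
      ContinuousLinearMap.ext_on hd (by
        rintro _ ⟨g, rfl⟩
        simp only [ContinuousLinearMap.comp_apply, ContinuousLinearMap.id_apply]
        rw [← hU, hVW])
    exact congrArg (fun T : H Λ →L[ℂ] H Λ => T ξ) this
  let π : G →* Op Λ :=
    { toFun := fun g => U ∘L lam g ∘L U'
      map_one' := by ext1 ξ; simp [hWV]
      map_mul' := fun g h => by ext1 ξ; simp [hVW] }
  have hπ : ∀ g ξ, π g ξ = U (lam g (U' ξ)) := fun _ _ => rfl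
  have hπu : ∀ g h, π g (u h) = u (g * h) := fun g h => by
    rw [hπ, ← hU, hVW, lam_dl, hU]
  have hπ1 : ∀ g, π g (dl 1) = u g := fun g => by rw [← h1, hπu, mul_one]
  refine ⟨π, ⟨fun g => ?_, fun g => ?_, fun g hg => ?_, ?_⟩, hπ1⟩
  · have hT : ∀ n ξ, ‖(s n).uni.cg (lam (f g)) ξ‖ = ‖ξ‖ := fun n ξ => by
      rw [Uni.cg_ap, uni_norm (s n).uni, lam_norm, uni_norm (s n).uni.symm]
    refine mem_LL_of_tendsto (l := atTop) (T := fun n => (s n).uni.cg (lam (f g)))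
      (fun n => (s n).uni.cg_mem (lam_mem _)) (strong hd hT fun h => ?_)
    rw [hπu]
    have a1 : Tendsto (fun n => (s n).uni.cg (lam (f g)) (u h - (s n).V (dl (f h)))) atTop
        (𝓝 0) := by
      rw [tendsto_zero_iff_norm_tendsto_zero]
      simp only [hT]
      rw [← tendsto_zero_iff_norm_tendsto_zero]
      simpa using (hu h).const_sub (u h)
    have a2 := a1.add (hu (g * h))
    rw [zero_add] at a2
    refine a2.congr fun n => ?_
    rw [map_sub, Uni.cg_ap _ _ ((s n).V _), (s n).uni.vw, lam_dl, map_mul, sub_add_cancel]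
  · refine star_eq_of_inner (fun ξ η => ?_) (by rw [← map_mul, mul_inv_cancel, map_one])
    rw [hπ, hπ, ofON_inner, lam_inner, ← ofON_inner u hon]
    exact congrArg₂ _ (hWV ξ) (hWV η)
  · rw [hπ1, ← inner_dl, ← h1]
    exact hon.2 hg.symm
  · simpa only [hπ1] using hd

end IntA

open IntA

theorem int1 : IntStmt := by
  intro G Λ _ _ _ f hf h E η hη
  haveI : Countable G := hf.countable
  obtain ⟨e, he⟩ := exists_surjective_nat (G × Λ × ℕ)
  choose nx hnx using fun (n : ℕ) (s : St G Λ) =>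
    step (f := f) h (e n).1 (dl (e n).2.1) (Nat.one_div_pos_of_nat (n := (e n).2.2)) s
  let s : ℕ → St G Λ := fun n => Nat.rec ⟨_, _, uni_id, E, η, hη⟩ nx n
  have hs : ∀ n, Nx f (e n).1 (dl (e n).2.1) (1 / (((e n).2.2 : ℝ) + 1)) (s n) (s (n + 1)) :=
    fun n => hnx n (s n)
  have hd : ∀ n m, n ≤ m → (s n).E ⊆ (s m).E ∧ ∀ g ∈ (s n).E,
      ‖(s m).V (dl (f g)) - (s n).V (dl (f g))‖ ≤ (s n).θ - (s m).θ := fun n m hm => by
    induction m, hm using Nat.le_induction with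
    | base => exact ⟨subset_rfl, fun g _ => by simp⟩
    | succ m _ ih =>
      refine ⟨ih.1.trans (hs m).sub, fun g hg => ?_⟩
      have a1 := (hs m).close g (ih.1 hg)
      have a2 := ih.2 g hg
      have a3 := (hs m).half
      have a4 := norm_sub_le_norm_sub_add_norm_sub ((s (m + 1)).V (dl (f g)))
        ((s m).V (dl (f g))) ((s n).V (dl (f g)))
      linarith
  have hθ : ∀ n, (s n).θ ≤ η * (1 / 2) ^ n := fun n => by
    induction n with
    | zero => simp [s]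
    | succ n ih =>
      have := (hs n).half
      rw [pow_succ]
      linarith
  have hc : ∀ g, CauchySeq fun n => (s n).V (dl (f g)) := fun g => by
    obtain ⟨k, hk⟩ := he (g, 1, 0)
    have hg : g ∈ (s (k + 1)).E := by simpa [hk] using (hs k).mem
    refine Metric.cauchySeq_iff'.2 fun ε hε => ?_
    have : Tendsto (fun n : ℕ => η * (1 / 2 : ℝ) ^ n) atTop (𝓝 (η * 0)) :=
      (tendsto_pow_atTop_nhds_zero_of_lt_one (by norm_num) (by norm_num)).const_mul η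
    rw [mul_zero] at this
    obtain ⟨N, hN1, hN2⟩ := ((this.eventually (gt_mem_nhds hε)).and
      (eventually_ge_atTop (k + 1))).exists
    refine ⟨N, fun n hn => ?_⟩
    have a1 := (hd N n hn).2 g ((hd _ _ hN2).1 hg)
    have a2 := hθ N
    have a3 := (s n).pos
    rw [dist_eq_norm]
    linarith
  choose u hu using fun g => cauchySeq_tendsto_of_complete (hc g)
  have hl : ∀ n, ∀ g ∈ (s n).E, ‖u g - (s n).V (dl (f g))‖ ≤ (s n).θ := fun n g hg => by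
    refine le_of_tendsto ((hu g).sub_const ((s n).V (dl (f g)))).norm ?_
    filter_upwards [eventually_ge_atTop n] with m hm
    have a1 := (hd n m hm).2 g hg
    have a2 := (s m).pos
    linarith
  have hden : Dense (Submodule.span ℂ (Set.range u) : Set (H Λ)) := by
    rw [← dense_closure]
    refine dense_dl.mono ?_
    show _ ⊆ ((Submodule.span ℂ (Set.range u)).topologicalClosure : Set (H Λ))
    refine Submodule.span_le.2 ?_
    rintro _ ⟨y, rfl⟩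
    refine Metric.mem_closure_iff.2 fun ε hε => ?_
    obtain ⟨j, hj⟩ := exists_nat_one_div_lt hε
    obtain ⟨k, hk⟩ := he (1, y, j)
    obtain ⟨ζ, hζ, hle⟩ := (hs k).span u (hl (k + 1))
    simp only [hk] at hle
    exact ⟨ζ, hζ, by rw [dist_eq_norm]; linarith⟩
  obtain ⟨π, hπ, h1⟩ := limit hf s u hu hden
  exact ⟨π, hπ, fun g hg => by rw [h1]; exact hl 0 g hg⟩

end

end Pool.Agent.MP_494aff_an.Lf

end MrgPart0

-- ======== part 1: formerly Pool.Agent.MP_494aff_an.lf.Main3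
section MrgPart1

-- ======== part 0: formerly Pool.Agent.MP_494aff_an.lf.QAm
section MrgPart0

/-! Cocycles on an amalgam over a cyclic subgroup. -/

namespace Pool.Agent.MP_494aff_an.Lf

open Pool.Agent.MP_494aff_an.Pinch Pool.Agent.MP_494aff_an.Pinch.TowP

noncomputable section

namespace QAm

variable {A B G Γ : Type} [Group A] [Group B] [Group G] [Group Γ] {c : A} {d : B} {f : A →* G}
  {g : B →* G} {ℓ : Γ → ℕ} {ι : G →* Γ}

lemma mem_rg (ι : G →* Γ) (x : G) : ι x ∈ ι.range := ⟨x, rfl⟩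

lemma rg_le (ι : G →* Γ) (f : A →* G) : ((ι.comp f).range : Set Γ) ⊆ (ι.range : Set Γ) := by
  rintro _ ⟨a, rfl⟩
  exact ⟨f a, rfl⟩

lemma inj_comp (hι : Function.Injective ι) (hf : Function.Injective f) :
    Function.Injective (ι.comp f) := hι.comp hf

/-- A cocycle that is inner at the exceptional elements of the factors. -/
lemma crit (h1 : AmStmt) (h : Am c d f g) {β : G → Op Γ} (hβ : Co ι β)
    (ha : ∀ x, An ℓ ι.range (β x)) (hA : ∀ a, NC a → In ℓ ι.range ι β (f a))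
    (hB : ∀ b, NC b → In ℓ ι.range ι β (g b)) : Z0 ℓ ι.range ι β := by
  obtain ⟨i1, i2, i3⟩ := h1 A B G c d f g h
  refine ⟨hβ, ha, fun z hz => ?_⟩
  obtain ⟨y, hy⟩ := i1 z
  have hz' := hz.conj y
  have key : In ℓ ι.range ι β (y * z * y⁻¹) := by
    rcases hy with ⟨a, e⟩ | ⟨b, e⟩ | ⟨⟨w₀, hw, hm⟩, -⟩
    · rw [← e] at hz' ⊢
      rcases i2 a hz' with hn | ⟨hn, a₀, k, rfl⟩
      · exact hA a hn
      · have h2 : In ℓ ι.range ι β (f c ^ k) :=
          In.of_mem hβ (h.pin.comm ▸ hB d hn) (Subgroup.zpow_mem_zpowers _ k)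
        have h3 := In.conj hβ (mem_rg ι) ha h2 (f a₀)
        rwa [map_mul, map_mul, map_zpow, map_inv]
    · rw [← e] at hz' ⊢
      exact hB b (i3 b hz')
    · exact (hz'.2 w₀ hw hm).elim
  have h4 := In.conj hβ (mem_rg ι) ha key y⁻¹
  have e : y⁻¹ * (y * z * y⁻¹) * y⁻¹⁻¹ = z := by group
  rwa [e] at h4

lemma glue (h1 : AmStmt) (h : Am c d f g) {βA : A → Op Γ} {βB : B → Op Γ}
    (hA : Z0 ℓ ι.range (ι.comp f) βA) (hB : Z0 ℓ ι.range (ι.comp g) βB) (e : βA c = βB d) :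
    ∃ β, Z0 ℓ ι.range ι β ∧ (∀ a, β (f a) = βA a) ∧ ∀ b, β (g b) = βB b := by
  obtain ⟨β, hβ, ha, e1, e2⟩ := ext_pin h.pin (mem_rg ι) hA.co hB.co e hA.an hB.an
  refine ⟨β, crit h1 h hβ ha (fun a hn => ?_) (fun b hn => ?_), e1, e2⟩
  · obtain ⟨ξ, hξ, e3⟩ := hA.nc a hn
    exact ⟨ξ, hξ, (e1 a).trans e3⟩
  · obtain ⟨ξ, hξ, e3⟩ := hB.nc b hn
    exact ⟨ξ, hξ, (e2 b).trans e3⟩

lemma extB (h1 : AmStmt) (h : Am c d f g) (qA : Q0 A) (hι : Function.Injective ι)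
    {βB : B → Op Γ} (hB : Z0 ℓ (ι.comp g).range (ι.comp g) βB) :
    ∃ β, Z0 ℓ ι.range ι β ∧ ∀ b, β (g b) = βB b := by
  have hB' := hB.mono (rg_le ι g)
  rcases h.edge with ⟨-, hd⟩ | ⟨hc, -⟩
  · obtain ⟨β, hβ, -, e⟩ := glue h1 h (βA := fun _ => 0) z0_zero hB' (by rw [hd, hB.co.one])
    exact ⟨β, hβ, e⟩
  · obtain ⟨β₁, hβ₁, e₁⟩ := qA Γ ℓ (ι.comp f) (inj_comp hι h.hf) c hc
    obtain ⟨β, hβ, -, e⟩ := glue h1 h ((hβ₁.mono (rg_le ι f)).mul (hB'.an d)) hB'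
      (by simp only [e₁, one_mul])
    exact ⟨β, hβ, e⟩

lemma extA (h1 : AmStmt) (h : Am c d f g) {βA : A → Op Γ}
    (hA : Z0 ℓ (ι.comp f).range (ι.comp f) βA) (hc : In ℓ (ι.comp f).range (ι.comp f) βA c) :
    ∃ β, Z0 ℓ ι.range ι β ∧ ∀ a, β (f a) = βA a := by
  obtain ⟨ξ, hξ, e⟩ := hc.mono (rg_le ι f)
  obtain ⟨β, hβ, e1, -⟩ := glue h1 h (hA.mono (rg_le ι f))
    (z0_inn (ι := ι.comp g) (fun b => mem_rg ι (g b)) hξ)
    (by rw [e, inn, MonoidHom.comp_apply, MonoidHom.comp_apply, h.pin.comm])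
  exact ⟨β, hβ, e1⟩

/-- A cocycle on the first factor that vanishes on the edge extends by zero. -/
lemma ext0 (h1 : AmStmt) (h : Am c d f g) {βA : A → Op Γ}
    (hA : Z0 ℓ (ι.comp f).range (ι.comp f) βA) (hc : βA c = 0) :
    ∃ β, Z0 ℓ ι.range ι β ∧ (∀ a, β (f a) = βA a) ∧ ∀ b, β (g b) = 0 :=
  glue h1 h (hA.mono (rg_le ι f)) (βB := fun _ => 0) z0_zero hc

lemma q0B (h1 : AmStmt) (h : Am c d f g) (qA : Q0 A) (qB : Q0 B) (hι : Function.Injective ι)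
    {b : B} (hb : Cyc (g b)) : ∃ β, Z0 ℓ ι.range ι β ∧ β (g b) = 1 := by
  obtain ⟨βB, hB, e⟩ := qB Γ ℓ (ι.comp g) (inj_comp hι h.hg) b (hb.of_map h.hg)
  obtain ⟨β, hβ, e1⟩ := extB h1 h qA hι hB
  exact ⟨β, hβ, (e1 b).trans e⟩

lemma q0A (h1 : AmStmt) (hQ : QrStmt) (h : Am c d f g) (qA : Q0 A) (qB : Q0 B)
    (hι : Function.Injective ι) {a : A} (ha : Cyc (f a)) :
    ∃ β, Z0 ℓ ι.range ι β ∧ β (f a) = 1 := by
  have ha' := ha.of_map h.hf
  rcases h.edge with ⟨hc, -⟩ | ⟨hc, -⟩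
  · obtain ⟨βA, hA, e⟩ := qA Γ ℓ (ι.comp f) (inj_comp hι h.hf) a ha'
    obtain ⟨β, hβ, e1⟩ := extA h1 h hA (in_of_zero (by rw [hc, hA.co.one]))
    exact ⟨β, hβ, (e1 a).trans e⟩
  · by_cases hf : Far c a
    · obtain ⟨βA, hA, e, hi⟩ := hQ A Γ ℓ (ι.comp f) a [c] (ct_of_inj h.hf h.ct) qA
        (inj_comp hι h.hf) ha' (fun z hz => by rw [List.mem_singleton.1 hz]; exact hf)
      obtain ⟨β, hβ, e1⟩ := extA h1 h hA (hi c (List.mem_singleton.2 rfl))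
      exact ⟨β, hβ, (e1 a).trans e⟩
    · obtain ⟨a₀, e⟩ := not_forall.1 hf
      have e' := not_not.1 e
      obtain ⟨k, hk⟩ := hc.2 (a₀⁻¹ * a * a₀) (by
        calc a₀⁻¹ * a * a₀ * c = a₀⁻¹ * (a * (a₀ * c * a₀⁻¹)) * a₀ := by group
          _ = a₀⁻¹ * (a₀ * c * a₀⁻¹ * a) * a₀ := by rw [e']
          _ = c * (a₀⁻¹ * a * a₀) := by group)
      have hk' : c ^ k = a₀⁻¹ * a * a₀ := hk
      have e2 : g (d ^ k) = (f a₀)⁻¹ * f a * (f a₀)⁻¹⁻¹ := by
        rw [map_zpow, ← h.pin.comm, ← map_zpow, hk', map_mul, map_mul, map_inv, inv_inv]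
      obtain ⟨β, hβ, e3⟩ := q0B (ℓ := ℓ) h1 h qA qB hι (b := d ^ k) (e2 ▸ ha.conj _)
      rw [e2] at e3
      exact hβ.conjQ (mem_rg ι) e3

lemma one_sub_ne {x : Γ} (hx : x ≠ 1) : (1 - lam x : Op Γ) ≠ 0 := fun e => by
  have e1 : lam x = (1 : Op Γ) := (sub_eq_zero.1 e).symm
  have e2 : dl x = dl (1 : Γ) := by rw [← lam_one x, e1, one_ap]
  have e3 : dl x (1 : Γ) = dl (1 : Γ) 1 := by rw [e2]
  rw [dl_ne hx.symm, dl_self] at e3
  exact zero_ne_one e3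

/-- A cocycle on the first factor that vanishes on the edge but not at a given element. -/
lemma sepA (hS : SepStmt) (h : Am c d f g) (qA : Q0 A) (hι : Function.Injective ι) {a : A}
    (ha : a ∉ Subgroup.zpowers c) :
    ∃ βA, Z0 ℓ (ι.comp f).range (ι.comp f) βA ∧ βA c = 0 ∧ βA a ≠ 0 := by
  rcases h.edge with ⟨hc, -⟩ | ⟨hc, -⟩
  · refine ⟨inn (ι.comp f) 1, z0_inn (mem_rg (ι.comp f)) An.one, ?_, ?_⟩
    · rw [hc, (co_inn 1).one]
    · rw [inn, mul_one]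
      refine one_sub_ne fun e => ha ?_
      have : a = 1 := inj_comp hι h.hf (e.trans (map_one _).symm)
      rw [this]
      exact one_mem _
  · obtain ⟨βA, hA, e, hn, -⟩ := hS A Γ ℓ (ι.comp f) c a [] (ct_of_inj h.hf h.ct) qA
      (inj_comp hι h.hf) hc (fun z hz => (List.not_mem_nil hz).elim) fun e => ha (hc.2 a e)
    exact ⟨βA, hA, e, hn⟩

lemma q0 (h1 : AmStmt) (hQ : QrStmt) (hS : SepStmt) (hX : AxisStmt) (h : Am c d f g) (qA : Q0 A)
    (qB : Q0 B) : Q0 G := by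
  intro Γ _ ℓ ι hι w hw
  obtain ⟨y, hy⟩ := (h1 A B G c d f g h).1 w
  have hw' := hw.conj y
  have key : ∃ β, Z0 ℓ ι.range ι β ∧ β (y * w * y⁻¹) = 1 := by
    rcases hy with ⟨a, e⟩ | ⟨b, e⟩ | ⟨-, n, p, l, a, hax, hl, ha⟩
    · rw [← e] at hw' ⊢
      exact q0A h1 hQ h qA qB hι hw'
    · rw [← e] at hw' ⊢
      exact q0B h1 h qA qB hι hw'
    · obtain ⟨βA, hA, e, hn⟩ := sepA (ℓ := ℓ) hS h qA hι (ha 0)
      obtain ⟨β, hβ, e1, e2⟩ := ext0 h1 h hA e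
      refine hX A G Γ ℓ ι f _ n p l a β (fun _ => 0) (fun _ => 0) 0 h.ct hι hw' hax hβ
        (fun i => ?_) rfl An.zero (fun i => ?_) le_rfl (by exact_mod_cast hax.pos) ?_
      · obtain ⟨b, hb⟩ := hl i
        rw [mul_zero, sub_zero, ← hb, e2]
      · rw [mul_zero, add_zero, sub_zero, e1]
        exact hA.an _
      · rw [mul_zero, add_zero, sub_zero, e1]
        exact hn
  obtain ⟨β, hβ, e⟩ := key
  exact hβ.conjQ (mem_rg ι) e

lemma fullB (h1 : AmStmt) (h : Am c d f g) (qA : Q0 A) (hB : Full B) : Full G := by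
  obtain ⟨u, v, huv, H⟩ := hB
  refine ⟨g u, g v, fun e => huv (h.hg (by rw [map_mul, map_mul, e])), fun Γ _ ℓ ι hι ε hε => ?_⟩
  obtain ⟨βB, hB, e, hn⟩ := H Γ ℓ (ι.comp g) (inj_comp hι h.hg) ε hε
  obtain ⟨β, hβ, e1⟩ := extB h1 h qA hι hB
  exact ⟨β, hβ, (e1 v).trans e, by rw [e1]; exact hn⟩

lemma fullA (h1 : AmStmt) (hD : AddStmt) (h : Am c d f g) (qA : Q0 A) (hA : Full A) :
    Full G := by
  obtain ⟨u, v, huv, H⟩ := hA
  refine ⟨f u, f v, fun e => huv (h.hf (by rw [map_mul, map_mul, e])), fun Γ _ ℓ ι hι ε hε => ?_⟩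
  obtain ⟨βA, hA, e, hn⟩ := H Γ ℓ (ι.comp f) (inj_comp hι h.hf) (ε / 2) (half_pos hε)
  obtain ⟨β', hβ', e', hn', hi⟩ := hD A Γ ℓ (ι.comp f) u v [c] βA (ε / 2) (ct_of_inj h.hf h.ct)
    qA (inj_comp hι h.hf) (fun e => huv (by rw [e, mul_one, one_mul])) (half_pos hε) hA e
  obtain ⟨β, hβ, e1⟩ := extA h1 h hβ' (hi c (List.mem_singleton.2 rfl))
  refine ⟨β, hβ, (e1 v).trans e', ?_⟩
  rw [e1]
  calc ‖β' u (dl 1) - dl 1‖ ≤ ‖β' u (dl 1) - βA u (dl 1)‖ + ‖βA u (dl 1) - dl 1‖ :=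
        norm_sub_le_norm_sub_add_norm_sub _ _ _
    _ ≤ ε / 2 + ε / 2 := add_le_add hn' hn
    _ = ε := add_halves ε

lemma comm_all (h : Pin c d f g) {x : G} (hf : ∀ a, f a * x = x * f a)
    (hg : ∀ b, g b * x = x * g b) (z : G) : z * x = x * z := by
  have := h.gen (Subgroup.centralizer {x})
    (fun a => Subgroup.mem_centralizer_singleton_iff.2 (hf a))
    (fun b => Subgroup.mem_centralizer_singleton_iff.2 (hg b)) z
  exact Subgroup.mem_centralizer_singleton_iff.1 this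

lemma exists_pair (h : Pin c d f g) (hA : ¬ NA A) (hB : ¬ NA B) (hG : NA G) :
    ∃ a b, f a * g b ≠ g b * f a := by
  by_contra hn
  have hn' : ∀ a b, f a * g b = g b * f a := fun a b => not_not.1 fun e => hn ⟨a, b, e⟩
  have cA : ∀ x y : A, x * y = y * x := fun x y => not_not.1 fun e => hA ⟨x, y, e⟩
  have cB : ∀ x y : B, x * y = y * x := fun x y => not_not.1 fun e => hB ⟨x, y, e⟩
  obtain ⟨x, y, hxy⟩ := hG
  refine hxy (comm_all h (fun a => (comm_all h (fun a' => ?_) (fun b => (hn' a b).symm) y).symm)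
    (fun b => (comm_all h (fun a => hn' a b) (fun b' => ?_) y).symm) x)
  · rw [← map_mul, cA, map_mul]
  · rw [← map_mul, cB, map_mul]

lemma fullO (h1 : AmStmt) (h : Am c d f g) (hA : ¬ NA A) (hB : ¬ NA B) (hG : NA G) : Full G := by
  obtain ⟨a, b, hab⟩ := exists_pair h.pin hA hB hG
  rcases h.edge with ⟨hc, -⟩ | ⟨hc, -⟩
  · refine ⟨f a, g b, hab, fun Γ _ ℓ ι hι ε hε => ?_⟩
    have ha : f a ≠ 1 := fun e => hab (by rw [e, mul_one, one_mul])
    have hi : InfOrd (ι (f a)) := FG.InfOrd.map hι (h.ct.tf _ ha)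
    obtain ⟨N, hN⟩ := exists_nat_gt (ε⁻¹ ^ 2)
    have hN0 : N ≠ 0 := by
      rintro rfl
      exact absurd hN (not_lt.2 (by rw [Nat.cast_zero]; positivity))
    obtain ⟨q, hq, e⟩ := exists_quot_avg (ℓ := ℓ) (mem_rg (ι.comp f) a) hN0
      fun k => ((k + 1 : ℕ) : ℤ)
    obtain ⟨β, hβ, e1, e2⟩ := ext0 h1 h (z0_inn (mem_rg (ι.comp f)) hq)
      (by rw [hc, (co_inn q).one])
    refine ⟨β, hβ, e2 b, ?_⟩
    rw [e1, inn, ← e, sub_apply, one_ap, sub_sub_cancel_left, norm_neg]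
    simp only [zpow_natCast, MonoidHom.comp_apply]
    rw [norm_avg hi hN0 1]
    refine inv_le_of_inv_le₀ hε (Real.le_sqrt_of_sq_le hN.le)
  · exfalso
    obtain ⟨k, hk⟩ := hc.2 a (not_not.1 fun e => hA ⟨a, c, e⟩)
    have hk' : c ^ k = a := hk
    refine hab ?_
    rw [← hk', map_zpow, h.pin.comm, ← map_zpow, ← map_mul, ← map_mul]
    exact congrArg g (not_not.1 fun e => hB ⟨_, _, e⟩)

end QAm

theorem qam (h1 : AmStmt) (hQ : QrStmt) (hS : SepStmt) (hD : AddStmt) (hX : AxisStmt) :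
    QAmStmt := by
  intro A B G _ _ _ c d f g h qA qB
  refine ⟨QAm.q0 h1 hQ hS hX h qA.1 qB.1, fun hG => ?_⟩
  by_cases hB : NA B
  · exact QAm.fullB h1 h qA.1 (qB.2 hB)
  · by_cases hA : NA A
    · exact QAm.fullA h1 hD h qA.1 (qA.2 hA)
    · exact QAm.fullO h1 h hA hB hG

end

end Pool.Agent.MP_494aff_an.Lf

end MrgPart0

-- ======== part 1: formerly Pool.Agent.MP_494aff_an.lf.QHx
section MrgPart1

/-! Cocycles on an HNN extension over a cyclic subgroup. -/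

namespace Pool.Agent.MP_494aff_an.Lf

open Pool.Agent.MP_494aff_an.Pinch Pool.Agent.MP_494aff_an.Pinch.TowP

noncomputable section

namespace QHx

variable {A G Γ : Type} [Group A] [Group G] [Group Γ] {c c' : A} {f : A →* G} {t : G}
  {ℓ : Γ → ℕ} {ι : G →* Γ}

lemma mem_rg (ι : G →* Γ) (x : G) : ι x ∈ ι.range := ⟨x, rfl⟩

lemma rg_le (ι : G →* Γ) (f : A →* G) : ((ι.comp f).range : Set Γ) ⊆ (ι.range : Set Γ) := by
  rintro _ ⟨a, rfl⟩
  exact ⟨f a, rfl⟩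

lemma inj_comp (hι : Function.Injective ι) (hf : Function.Injective f) :
    Function.Injective (ι.comp f) := hι.comp hf

lemma swap (h : Hx c c' f t) (ι : G →* Γ) :
    (lam (ι (f c')) : Op Γ) * lam (ι t) = lam (ι t) * lam (ι (f c)) := by
  rw [← map_mul, ← map_mul, ← map_mul, ← map_mul, h.hn.comm, inv_mul_cancel_right]

/-- A cocycle that is inner at the exceptional elements of the base. -/
lemma crit (h1 : HxStmt) (h : Hx c c' f t) {β : G → Op Γ} (hβ : Co ι β)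
    (ha : ∀ x, An ℓ ι.range (β x)) (hA : ∀ a, NC a → In ℓ ι.range ι β (f a)) :
    Z0 ℓ ι.range ι β := by
  obtain ⟨i1, i2⟩ := h1 A G c c' f t h
  refine ⟨hβ, ha, fun z hz => ?_⟩
  obtain ⟨y, hy⟩ := i1 z
  have hz' := hz.conj y
  have key : In ℓ ι.range ι β (y * z * y⁻¹) := by
    rcases hy with ⟨a, e⟩ | ⟨⟨w₀, hw, hm⟩, -⟩
    · rw [← e] at hz' ⊢
      rcases i2 a hz' with hn | ⟨hn, y₀, k, e'⟩
      · exact hA a hn
      · rw [e']
        exact In.conj hβ (mem_rg ι) ha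
          (In.of_mem hβ (hA c' hn) (Subgroup.zpow_mem_zpowers _ k)) y₀
    · exact (hz'.2 w₀ hw hm).elim
  have h4 := In.conj hβ (mem_rg ι) ha key y⁻¹
  have e : y⁻¹ * (y * z * y⁻¹) * y⁻¹⁻¹ = z := by group
  rwa [e] at h4

lemma glue (h1 : HxStmt) (h : Hx c c' f t) {βA : A → Op Γ} {θ : Op Γ}
    (hA : Z0 ℓ ι.range (ι.comp f) βA) (hθ : An ℓ ι.range θ)
    (e : βA c' = (1 - lam (ι (f c'))) * θ + lam (ι t) * βA c) :
    ∃ β, Z0 ℓ ι.range ι β ∧ (∀ a, β (f a) = βA a) ∧ β t = θ := by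
  obtain ⟨β, hβ, ha, e1, e2⟩ := ext_hn h.hn (mem_rg ι) hA.co e hA.an hθ
  refine ⟨β, crit h1 h hβ ha fun a hn => ?_, e1, e2⟩
  obtain ⟨ξ, hξ, e3⟩ := hA.nc a hn
  exact ⟨ξ, hξ, (e1 a).trans e3⟩

lemma ext1 (h1 : HxStmt) (h : Hx c c' f t) {βA : A → Op Γ}
    (hA : Z0 ℓ (ι.comp f).range (ι.comp f) βA) (hc : In ℓ (ι.comp f).range (ι.comp f) βA c)
    (hc' : In ℓ (ι.comp f).range (ι.comp f) βA c') :
    ∃ β, Z0 ℓ ι.range ι β ∧ ∀ a, β (f a) = βA a := by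
  obtain ⟨ξ, hξ, e⟩ := hc.mono (rg_le ι f)
  obtain ⟨ξ', hξ', e'⟩ := hc'.mono (rg_le ι f)
  obtain ⟨β, hβ, e1, -⟩ := glue h1 h (hA.mono (rg_le ι f))
    (hξ'.sub ((An.of_lam (mem_rg ι t)).mul' hξ)) (by
      rw [e, e', MonoidHom.comp_apply, MonoidHom.comp_apply, mul_sub,
        ← mul_assoc (1 - lam (ι (f c'))), sub_mul 1 _ (lam (ι t)), swap h]
      noncomm_ring)
  exact ⟨β, hβ, e1⟩

lemma q0far (h1 : HxStmt) (hQ : QrStmt) (h : Hx c c' f t) (qA : Q0 A)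
    (hι : Function.Injective ι) {a : A} (ha : Cyc a) (hf : Far a c) :
    ∃ β, Z0 ℓ ι.range ι β ∧ β (f a) = 1 := by
  obtain ⟨βA, hA, e⟩ := qA Γ ℓ (ι.comp f) (inj_comp hι h.hf) a ha
  obtain ⟨β₁, hβ₁, e₁, hi⟩ := hQ A Γ ℓ (ι.comp f) c [a, c'] (ct_of_inj h.hf h.ct) qA
    (inj_comp hι h.hf) h.cyc fun z hz => by
      rcases List.mem_pair.1 hz with rfl | rfl
      exacts [hf, h.far]
  obtain ⟨ξ, hξ, e2⟩ := (hi a (by simp)).mono (rg_le ι f)
  obtain ⟨ξ', hξ', e3⟩ := (hi c' (by simp)).mono (rg_le ι f)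
  have hA' := hA.mono (rg_le ι f)
  have hx : An ℓ ι.range (lam (ι t⁻¹) * βA c' - βA c) :=
    ((An.of_lam (mem_rg ι _)).mul' (hA'.an c')).sub (hA'.an c)
  have hx' : lam (ι t) * (lam (ι t⁻¹) * βA c' - βA c) = βA c' - lam (ι t) * βA c := by
    rw [mul_sub, ← mul_assoc, ← map_mul, ← map_mul, mul_inv_cancel, map_one, map_one, one_mul]
  generalize lam (ι t⁻¹) * βA c' - βA c = x at hx hx'
  obtain ⟨β, hβ, e4, -⟩ := glue h1 h
    (hA'.add (((hβ₁.mono (rg_le ι f)).sub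
      (z0_inn (ι := ι.comp f) (fun a => mem_rg ι (f a)) hξ)).mul hx))
    (((hξ'.sub hξ).mul' hx).add ((An.of_lam (mem_rg ι t)).mul' (hξ.mul' hx))) (by
      have h5 : lam (ι (f c')) * (lam (ι t) * (ξ * x)) = lam (ι t) * (lam (ι (f c)) * (ξ * x)) := by
        rw [← mul_assoc, swap h, mul_assoc]
      simp only [e₁, e3, inn, MonoidHom.comp_apply]
      rw [eq_add_of_sub_eq hx'.symm, mul_add (1 - lam (ι (f c'))),
        sub_mul 1 _ (lam (ι t) * (ξ * x)), h5]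
      noncomm_ring)
  refine ⟨β, hβ, (e4 a).trans ?_⟩
  simp only [e, e2, inn, sub_self, zero_mul, add_zero]

lemma q0A (h1 : HxStmt) (hQ : QrStmt) (h : Hx c c' f t) (qA : Q0 A)
    (hι : Function.Injective ι) {a : A} (ha : Cyc (f a)) :
    ∃ β, Z0 ℓ ι.range ι β ∧ β (f a) = 1 := by
  by_cases hf : Far a c
  · exact q0far h1 hQ h qA hι (ha.of_map h.hf) hf
  obtain ⟨a₀, e⟩ := not_forall.1 hf
  obtain ⟨k, hk⟩ := h.cyc.2 _ (not_not.1 e)
  have hk' : c ^ k = a₀ * a * a₀⁻¹ := hk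
  have e2 : f (c' ^ k) = t * f a₀ * f a * (t * f a₀)⁻¹ := by
    rw [map_zpow, h.hn.comm, conj_zpow, ← map_zpow, hk', map_mul, map_mul, map_inv]
    group
  have h3 : Cyc (c' ^ k) := Cyc.of_map h.hf (e2 ▸ ha.conj _)
  obtain ⟨β, hβ, e3⟩ := q0far (ℓ := ℓ) h1 hQ h qA hι h3
    (h.far.pow (ct_of_inj h.hf h.ct) h3.1 (Subgroup.zpow_mem_zpowers _ k))
  rw [e2] at e3
  exact hβ.conjQ (mem_rg ι) e3

/-- The potentials at the two ends of an edge. -/
def pot (ξ : Op Γ) : Bool → Op Γ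
  | true => 0
  | false => ξ

lemma pick (h : Hx c c' f t) (a : A) (b b' : Bool) (hb : b = true ∨ b' = false)
    (ha : b' = !b → a ∉ Subgroup.zpowers (FG.ee c' c b)) : ∃ x : A, x * c ≠ c * x ∧
      ∀ (κ : A →* Γ) (β : A → Op Γ) (ξ : Op Γ), Co κ β → β c' = (1 - lam (κ c')) * ξ →
        β a + lam (κ a) * pot ξ (!b') - pot ξ b = 0 → β x = 0 := by
  cases b <;> cases b'
  · refine ⟨a⁻¹ * c' * a⁻¹⁻¹, h.far _, fun κ β ξ hβ e e1 => ?_⟩
    simp only [pot, Bool.not_false, mul_zero, add_zero, sub_eq_zero] at e1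
    rw [inv_inv, hβ, hβ, hβ.inv, e, e1, map_mul, map_mul]
    noncomm_ring
  · simp at hb
  · refine ⟨a, fun e => ha rfl (h.cyc.2 a e), fun κ β ξ _ _ e1 => ?_⟩
    simpa only [pot, Bool.not_false, mul_zero, add_zero, sub_zero] using e1
  · refine ⟨a * c' * a⁻¹, h.far _, fun κ β ξ hβ e e1 => ?_⟩
    simp only [pot, Bool.not_true, sub_zero] at e1
    have e2 : (lam (κ (a * c' * a⁻¹)) : Op Γ) * lam (κ a) = lam (κ a) * lam (κ c') := by
      rw [← map_mul, ← map_mul, ← map_mul, ← map_mul, inv_mul_cancel_right]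
    rw [hβ.conj, e, eq_neg_of_add_eq_zero_left e1, mul_neg, ← mul_assoc, sub_mul, e2]
    noncomm_ring

lemma q0 (h1 : HxStmt) (hQ : QrStmt) (hS : SepStmt) (hX : AxisStmt) (h : Hx c c' f t)
    (qA : Q0 A) : Q0 G := by
  intro Γ _ ℓ ι hι w hw
  obtain ⟨y, hy⟩ := (h1 A G c c' f t h).1 w
  have hw' := hw.conj y
  have key : ∃ β, Z0 ℓ ι.range ι β ∧ β (y * w * y⁻¹) = 1 := by
    rcases hy with ⟨a, e⟩ | ⟨-, n, p, a, b, hax, hb, ha⟩
    · rw [← e] at hw' ⊢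
      exact q0A h1 hQ h qA hι hw'
    have hn : (0 : ℤ) < n := by exact_mod_cast hax.pos
    have hb0 : b n = b 0 := by simpa using hb 0
    obtain ⟨i, hi0, hi1, hi⟩ : ∃ i : ℤ, 0 ≤ i ∧ i < n ∧ (b i = true ∨ b (i + 1) = false) := by
      cases h0 : b 0
      · exact ⟨n - 1, by omega, by omega, Or.inr (by rw [sub_add_cancel, hb0, h0])⟩
      · exact ⟨0, le_rfl, hn, Or.inl h0⟩
    obtain ⟨x, hx, hx'⟩ := pick (Γ := Γ) h (a i) (b i) (b (i + 1)) hi (ha i)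
    obtain ⟨βA, hA, e, hne, hi'⟩ := hS A Γ ℓ (ι.comp f) c x [c'] (ct_of_inj h.hf h.ct) qA
      (inj_comp hι h.hf) h.cyc (fun z hz => by rw [List.mem_singleton.1 hz]; exact h.far) hx
    obtain ⟨ξ, hξ, e'⟩ := hi' c' (List.mem_singleton.2 rfl)
    have hp : ∀ s, An ℓ (ι.comp f).range (pot ξ s) := fun s => by
      cases s
      exacts [hξ, An.zero]
    obtain ⟨β, hβ, e1, e2⟩ := glue h1 h (hA.mono (rg_le ι f)) (hξ.mono (rg_le ι f))
      (by rw [e, mul_zero, add_zero]; exact e')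
    refine hX A G Γ ℓ ι f _ n p _ a β (fun j => pot ξ (!b j)) (fun j => pot ξ (b j)) i h.ct hι
      hw' hax hβ (fun j => ?_) (by simp only [hb0]) ((hp _).mono (rg_le ι f)) (fun j => ?_) hi0
      hi1 ?_
    · cases b j
      · simp only [FG.tt, pot, Bool.not_false, zero_sub]
        rw [hβ.co.inv, e2]
      · simp only [FG.tt, pot, Bool.not_true, mul_zero, sub_zero, e2]
    · rw [e1]
      exact ((hA.an _).add ((An.of_lam (mem_rg (ι.comp f) _)).mul' (hp _))).sub (hp _)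
    · rw [e1]
      exact fun e3 => hne (hx' (ι.comp f) βA ξ hA.co e' e3)
  obtain ⟨β, hβ, e⟩ := key
  exact hβ.conjQ (mem_rg ι) e

lemma full (h1 : HxStmt) (hD : AddStmt) (h : Hx c c' f t) (qA : Q0 A) (hA : Full A) :
    Full G := by
  obtain ⟨u, v, huv, H⟩ := hA
  refine ⟨f u, f v, fun e => huv (h.hf (by rw [map_mul, map_mul, e])), fun Γ _ ℓ ι hι ε hε => ?_⟩
  obtain ⟨βA, hA, e, hn⟩ := H Γ ℓ (ι.comp f) (inj_comp hι h.hf) (ε / 2) (half_pos hε)
  obtain ⟨β', hβ', e', hn', hi⟩ := hD A Γ ℓ (ι.comp f) u v [c, c'] βA (ε / 2)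
    (ct_of_inj h.hf h.ct) qA (inj_comp hι h.hf) (fun e => huv (by rw [e, mul_one, one_mul]))
    (half_pos hε) hA e
  obtain ⟨β, hβ, e1⟩ := ext1 h1 h hβ' (hi c (by simp)) (hi c' (by simp))
  refine ⟨β, hβ, (e1 v).trans e', ?_⟩
  rw [e1]
  calc ‖β' u (dl 1) - dl 1‖ ≤ ‖β' u (dl 1) - βA u (dl 1)‖ + ‖βA u (dl 1) - dl 1‖ :=
        norm_sub_le_norm_sub_add_norm_sub _ _ _
    _ ≤ ε / 2 + ε / 2 := add_le_add hn' hn
    _ = ε := add_halves ε

end QHx

theorem qhx (h1 : HxStmt) (hQ : QrStmt) (hS : SepStmt) (hD : AddStmt) (hX : AxisStmt) :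
    QHxStmt := by
  intro A G _ _ c c' f t h qA
  exact ⟨QHx.q0 h1 hQ hS hX h qA.1, fun _ =>
    QHx.full h1 hD h qA.1 (qA.2 ⟨c', c, by simpa using h.far 1⟩)⟩

theorem qabel (G : Type) [Group G] (h : CT G) (hn : ¬ NA G) : QF G := by
  refine ⟨fun Γ _ ℓ ι _ w hw => ?_, fun hG => (hn hG).elim⟩
  have hg : ∀ x, x ∈ Subgroup.zpowers w := fun x =>
    hw.2 x (not_not.1 fun e => hn ⟨x, w, e⟩)
  obtain ⟨β, hβ, ha, e⟩ := ext_cyc (ℓ := ℓ) (h.tf w hw.1) hg (QHx.mem_rg ι)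
  exact ⟨β, ⟨hβ, ha, fun z hz => (hz.2 w hw (hg z)).elim⟩, e⟩

end

end Pool.Agent.MP_494aff_an.Lf

end MrgPart1

-- ======== part 2: formerly Pool.Agent.MP_494aff_an.lf.Top3
section MrgPart2

/-! The assembly of the steps. -/

open Monoid

namespace Pool.Agent.MP_494aff_an.Lf

open Pool.Agent.MP_494aff_an.Pinch Pool.Agent.MP_494aff_an.Pinch.TowP

namespace TopP

variable {A B G : Type} [Group A] [Group B] [Group G]

lemma eqv_refl (G : Type) [Group G] : Eqv G G := eqv_equiv (MulEquiv.refl G)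

lemma comm_of (hn : ¬ NA G) (x y : G) : x * y = y * x := by
  by_contra h
  exact hn ⟨x, y, h⟩

/-- A free generator is absorbed. -/
lemma absorb (hF : AFStmt) (hB : AbsStmt) (h1 : Group.FG G) (h2 : CT G) (h3 : QF G) (h4 : NA G) :
    Eqv (FZ G) G := by
  obtain ⟨π, hπ, -⟩ := hB G h1 (hF G h2 (h3.2 h4)) ∅ 1 one_pos
  exact ⟨π, hπ, fun _ => by simp, fun l => l.elim⟩

/-- A finitely generated torsion free abelian group is free abelian. -/
lemma free_abel (G : Type) [CommGroup G] (h1 : Group.FG G) (h2 : ∀ x : G, x ≠ 1 → InfOrd x) :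
    ∃ k : ℕ, Nonempty (G ≃* Multiplicative (Fin k → ℤ)) := by
  have : Module.Finite ℤ (Additive G) := Module.Finite.iff_addGroup_fg.2 inferInstance
  have : Module.IsTorsionFree ℤ (Additive G) := Module.IsTorsionFree.of_smul_eq_zero fun r m h => by
    by_cases hm : m = 0
    · exact Or.inr hm
    · exact Or.inl (h2 m.toMul hm r h)
  exact ⟨_, ⟨AddEquiv.toMultiplicativeRight (Module.finBasis ℤ (Additive G)).equivFun.toAddEquiv⟩⟩

lemma base (h1 : Group.FG G) (h2 : CT G) (hn : ¬ NA G) : ∃ n, Eqv G (FreeGroup (Fin n)) := by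
  obtain ⟨k, ⟨e⟩⟩ := @free_abel G { (inferInstance : Group G) with mul_comm := comm_of hn } h1 h2.tf
  rcases k with _ | k
  · exact ⟨0, Sim.trans (eqv_equiv e) (eqv_equiv MulEquiv.ofUnique)⟩
  · exact ⟨1, Sim.trans (eqv_equiv e) (abel (k + 1) (by omega))⟩

/-- A pushout over the trivial group is the free product. -/
lemma pin_equiv {f : A →* G} {g : B →* G} (h : Pin (1 : A) (1 : B) f g) :
    Nonempty (G ≃* Coprod A B) := by
  obtain ⟨π, h1, h2⟩ := h.lift (Coprod A B) Coprod.inl Coprod.inr (by simp)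
  refine ⟨MonoidHom.toMulEquiv π (Coprod.lift f g) ?_ ?_⟩
  · ext z
    exact h.gen (((Coprod.lift f g).comp π).eqLocus (MonoidHom.id G))
      (fun p => show Coprod.lift f g (π (f p)) = f p by simp [h1])
      (fun q => show Coprod.lift f g (π (g q)) = g q by simp [h2]) z
  · ext <;> simp [h1, h2]

lemma fz_eqv {n : ℕ} (h : Eqv G (FreeGroup (Fin n))) : Eqv (FZ G) (FreeGroup (Fin (n + 1))) := by
  obtain ⟨e⟩ := free_succ (U := Fin (n + 1)) (n := n) (by simp)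
  exact Sim.trans (eqv_prod fg h (eqv_refl _)) (eqv_equiv e)

lemma comm_zero : ¬ NA (FreeGroup (Fin 0)) := fun ⟨_, _, h⟩ => h (Subsingleton.elim _ _)

lemma comm_one : ¬ NA (FreeGroup (Fin 1)) := fun ⟨x, y, h⟩ =>
  h ((FreeGroup.mulEquivIntOfUnique (α := Fin 1)).injective (by rw [map_mul, map_mul, mul_comm]))

lemma na_free (n : ℕ) : NA (FreeGroup (Fin (n + 2))) := by
  obtain ⟨e⟩ := free_succ (U := Fin (n + 2)) (n := n + 1) (by simp)
  by_contra hn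
  refine coprod_not_comm (FreeGroup.of_ne_one (0 : Fin (n + 1))) fun a b => e.injective ?_
  rw [map_mul, map_mul, comm_of hn]

lemma am_free (e : Coprod A B ≃* G) (h : CT G) :
    Am (1 : A) (1 : B) (e.toMonoidHom.comp Coprod.inl) (e.toMonoidHom.comp Coprod.inr) where
  pin :=
    { comm := by simp
      lift := fun M _ φ ψ _ => ⟨(Coprod.lift φ ψ).comp e.symm.toMonoidHom, by simp, by simp⟩
      gen := fun T h1 h2 z => by
        obtain ⟨x, rfl⟩ := e.surjective z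
        induction x using Coprod.induction_on with
        | inl a => exact h1 a
        | inr b => exact h2 b
        | mul x y hx hy => rw [map_mul]; exact mul_mem hx hy }
  hf := e.injective.comp Coprod.inl_injective
  hg := e.injective.comp Coprod.inr_injective
  ct := h
  edge := Or.inl ⟨rfl, rfl⟩

lemma qf_free (hA : QAmStmt) (h0 : ∀ (G : Type) [Group G], CT G → ¬ NA G → QF G) (n : ℕ) :
    QF (FreeGroup (Fin n)) := by
  induction n with
  | zero => exact h0 _ (ct_free _) comm_zero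
  | succ n ih =>
    obtain ⟨e⟩ := free_sum (S := Fin n) (T := Fin 1) (U := Fin (n + 1)) (by simp)
    exact hA _ _ _ _ _ _ _ (am_free e (ct_free _)) ih (h0 _ (ct_free _) comm_one)

lemma free_two (hA : QAmStmt) (h0 : ∀ (G : Type) [Group G], CT G → ¬ NA G → QF G) (hF : AFStmt)
    (hB : AbsStmt) (n : ℕ) : Eqv (FreeGroup (Fin (n + 2))) (FreeGroup (Fin 2)) := by
  induction n with
  | zero => exact eqv_refl _
  | succ n ih =>
    exact Sim.trans (Sim.trans (Sim.symm (fz_eqv (eqv_refl _)))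
      (absorb hF hB inferInstance (ct_free _) (qf_free hA h0 _) (na_free n))) ih

end TopP

open TopP in
theorem top (hI : IndStmt) (hA : QAmStmt) (hH : QHxStmt)
    (h0 : ∀ (G : Type) [Group G], CT G → ¬ NA G → QF G) (hF : AFStmt) (hB : AbsStmt)
    (hV : VAmStmt) (hW : VHxStmt) : LimfStmt := by
  intro G _ hG hL hN
  have key : QF G ∧ ∃ n, Eqv G (FreeGroup (Fin n)) := by
    refine hI (fun G _ => QF G ∧ ∃ n, Eqv G (FreeGroup (Fin n))) ?_ ?_ ?_ G hG (ct_lim hL)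
    · exact fun G _ h1 h2 h3 => ⟨h0 G h2 h3, base h1 h2 h3⟩
    · rintro A B G _ _ _ c d f g h hA1 - hG1 ⟨qA, n, eA⟩ ⟨qB, m, eB⟩
      have qG := hA A B G c d f g h qA qB
      refine ⟨qG, ?_⟩
      have eAB := eqv_free fg eA eB rfl
      rcases h.edge with ⟨rfl, rfl⟩ | ⟨hc, hd⟩
      · obtain ⟨e⟩ := pin_equiv h.pin
        exact ⟨_, Sim.trans (eqv_equiv e) eAB⟩
      · by_cases hn : NA G
        · have h1 : InfOrd (f c) := h.ct.tf _ fun e => hc.1 (h.hf (by rw [e, map_one]))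
          have h2 : InfOrd c := fun k hk => h1 k (by rw [← map_zpow, hk, map_one])
          exact ⟨_, Sim.trans (Sim.trans (Sim.symm (absorb hF hB hG1 h.ct qG hn))
            (hV A B G c d f g h.pin hA1 qA.1 hc h2 hd)) eAB⟩
        · exact base hG1 h.ct hn
    · rintro A G _ _ c c' f t h hA1 hG1 ⟨qA, n, eA⟩
      have qG := hH A G c c' f t h qA
      have hn : NA G := ⟨f c', f c, fun e => h.far 1 (h.hf (by simpa using e))⟩
      have h1 : Eqv G (FZ G) := Sim.symm (absorb hF hB hG1 h.ct qG hn)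
      exact ⟨qG, _, Sim.trans (Sim.trans (Sim.trans h1 (eqv_prod fg h1 (eqv_refl _)))
        (hW A G c c' f t h hA1 qA.1)) (fz_eqv (fz_eqv eA))⟩
  obtain ⟨-, n, e⟩ := key
  obtain ⟨x, y, hxy⟩ := hN
  match n, e with
  | 0, e => exact (hxy (Sim.comm (Sim.symm e) (comm_of comm_zero) x y)).elim
  | 1, e => exact (hxy (Sim.comm (Sim.symm e) (comm_of comm_one) x y)).elim
  | n + 2, e => exact Sim.vnIso (Sim.trans e (free_two hA h0 hF hB n))

end Pool.Agent.MP_494aff_an.Lf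

end MrgPart2

-- ======== part 3: formerly Pool.Agent.MP_494aff_an.lf.VG
section MrgPart3

/-! Resolving an edge of an amalgam or an HNN extension by a flow. -/

open Monoid

namespace Pool.Agent.MP_494aff_an.Lf

open Pool.Agent.MP_494aff_an.Pinch Pool.Agent.MP_494aff_an.Pinch.TowP

noncomputable section

namespace VG

variable {A B G M : Type} [Group A] [Group B] [Group G] [Group M]

lemma eqv_of_gen {G' : Type} [Group G'] {π : G' →* Op G} (h : Gen π) : Eqv G G' :=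
  ⟨π, h, fun _ => by simp, fun l => l.elim⟩

lemma fz_ext {φ ψ : FZ A →* M} (h1 : ∀ a, φ (Coprod.inl a) = ψ (Coprod.inl a))
    (h2 : φ (gen A) = ψ (gen A)) : φ = ψ :=
  Coprod.hom_ext (MonoidHom.ext h1) (MonoidHom.ext_mint h2)

lemma fz_gen (T : Subgroup (FZ A)) (h1 : ∀ a, Coprod.inl a ∈ T) (h2 : gen A ∈ T) (z : FZ A) :
    z ∈ T := by
  induction z using Coprod.induction_on with
  | inl a => exact h1 a
  | inr k =>
    have : (Coprod.inr k : FZ A) = gen A ^ k.toAdd := by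
      rw [gen, ← map_zpow]
      congr 1
      apply Multiplicative.toAdd.injective
      simp
    rw [this]
    exact zpow_mem h2 _
  | mul x y hx hy => exact mul_mem hx hy

/-- The homomorphism on the free product given by `φ` and the image `x` of the generator. -/
def lf (φ : A →* M) (x : M) : FZ A →* M := Coprod.lift φ (zpowersHom M x)

@[simp] lemma lf_inl (φ : A →* M) (x : M) (a : A) : lf φ x (Coprod.inl a) = φ a := by
  simp [lf]

@[simp] lemma lf_gen (φ : A →* M) (x : M) : lf φ x (gen A) = x := by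
  simp [lf, gen]

lemma fg_fz (h : Group.FG A) : Group.FG (FZ A) := by
  classical
  obtain ⟨S, hS⟩ := Group.fg_def.1 h
  refine Group.fg_def.2 ⟨insert (gen A) (S.image Coprod.inl), ?_⟩
  rw [eq_top_iff]
  intro z _
  refine fz_gen _ (fun a => ?_) (Subgroup.subset_closure (by simp)) z
  have ha : a ∈ Subgroup.closure (S : Set A) := hS ▸ Subgroup.mem_top a
  induction ha using Subgroup.closure_induction with
  | mem s hs =>
    exact Subgroup.subset_closure (by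
      rw [Finset.coe_insert, Finset.coe_image]
      exact Set.mem_insert_of_mem _ ⟨s, hs, rfl⟩)
  | one => rw [map_one]; exact one_mem _
  | mul x y _ _ hx hy => rw [map_mul]; exact mul_mem hx hy
  | inv x _ hx => rw [map_inv]; exact inv_mem hx

lemma zp_comm {P Q : Type} [Group P] [Group Q] {φ : P →* M} {ψ : Q →* M} {p : P} {q : Q}
    (h : φ p = ψ q) (x : Multiplicative ℤ) : φ (zpowersHom P p x) = ψ (zpowersHom Q q x) := by
  simp [h]

lemma zp_one {P Q : Type} [Group P] [Group Q] {φ : P →* M} {ψ : Q →* M} {p : P} {q : Q}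
    (h : ∀ x, φ (zpowersHom P p x) = ψ (zpowersHom Q q x)) : φ p = ψ q := by
  simpa using h (Multiplicative.ofAdd 1)

/-- The inclusion of free products induced by `f`. -/
def up (f : A →* G) : FZ A →* FZ G := lf (Coprod.inl.comp f) (gen G)

@[simp] lemma up_inl (f : A →* G) (a : A) : up f (Coprod.inl a) = Coprod.inl (f a) := by
  simp [up]

@[simp] lemma up_gen (f : A →* G) : up f (gen A) = gen G := by simp [up]

lemma amal_up {c : A} {d : B} {f : A →* G} {g : B →* G} (h : Pin c d f g) :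
    Amal (zpowersHom (FZ A) (Coprod.inl c)) (zpowersHom B d) (up f) (Coprod.inl.comp g) where
  comm := zp_comm (by simp [h.comm])
  lift := fun M _ φ ψ hφ => by
    have e := zp_one hφ
    obtain ⟨π, p1, p2⟩ := h.lift M (φ.comp Coprod.inl) ψ e
    refine ⟨lf π (φ (gen A)), fun p => ?_, fun q => by simp [p2]⟩
    exact DFunLike.congr_fun (fz_ext (φ := (lf π (φ (gen A))).comp (up f)) (ψ := φ)
      (fun a => by simp [p1]) (by simp)) p
  gen := fun T h1 h2 => fz_gen T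
    (fun x => Subgroup.mem_comap.1 (h.gen (T.comap (Coprod.inl : G →* FZ G))
      (fun a => Subgroup.mem_comap.2 (by simpa using h1 (Coprod.inl a)))
      (fun b => Subgroup.mem_comap.2 (h2 b)) x))
    (by simpa using h1 (gen A))

lemma amal_free (c : A) (d : B) :
    Amal (zpowersHom (FZ A) ((gen A)⁻¹ * Coprod.inl c)) (zpowersHom B d)
      (lf (Coprod.inl : A →* Coprod A B) (Coprod.inl c * (Coprod.inr d)⁻¹)) Coprod.inr where
  comm := zp_comm (by simp)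
  lift := fun M _ φ ψ hφ => by
    have e := zp_one hφ
    refine ⟨Coprod.lift (φ.comp Coprod.inl) ψ, fun p => ?_, fun q => by simp⟩
    exact DFunLike.congr_fun (fz_ext (φ := (Coprod.lift (φ.comp Coprod.inl) ψ).comp
      (lf (Coprod.inl : A →* Coprod A B) (Coprod.inl c * (Coprod.inr d)⁻¹))) (ψ := φ)
      (fun a => by simp) (by simp [← e])) p
  gen := fun T h1 h2 z => by
    induction z using Coprod.induction_on with
    | inl a => simpa using h1 (Coprod.inl a)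
    | inr b => exact h2 b
    | mul x y hx hy => exact mul_mem hx hy

lemma hn_up {a c : A} {f : A →* G} {t : G} (h : FG.Hn a c f t) :
    FG.Hn (Coprod.inl a) (Coprod.inl c) (up f) (Coprod.inl t) where
  comm := by simp [h.comm]
  lift := fun M _ φ τ hφ => by
    obtain ⟨π, p1, p2⟩ := h.lift M (φ.comp Coprod.inl) τ hφ
    refine ⟨lf π (φ (gen A)), fun p => ?_, by simp [p2]⟩
    exact DFunLike.congr_fun (fz_ext (φ := (lf π (φ (gen A))).comp (up f)) (ψ := φ)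
      (fun a => by simp [p1]) (by simp)) p
  gen := fun T h1 h2 => fz_gen T
    (fun x => Subgroup.mem_comap.1 (h.gen (T.comap (Coprod.inl : G →* FZ G))
      (fun a => Subgroup.mem_comap.2 (by simpa using h1 (Coprod.inl a)))
      (Subgroup.mem_comap.2 h2) x))
    (by simpa using h1 (gen A))

lemma hn_free (a c : A) :
    FG.Hn (Coprod.inl a : FZ A) ((gen A)⁻¹ * Coprod.inl c)
      (lf (Coprod.inl : A →* FZ A)
        (Coprod.inl c * (gen A)⁻¹ * (Coprod.inl a)⁻¹ * gen A)) (gen A) where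
  comm := by simp [mul_assoc]
  lift := fun M _ φ τ hφ => by
    refine ⟨lf (φ.comp Coprod.inl) τ, fun p => ?_, by simp⟩
    refine DFunLike.congr_fun (fz_ext (φ := (lf (φ.comp Coprod.inl) τ).comp
      (lf (Coprod.inl : A →* FZ A) (Coprod.inl c * (gen A)⁻¹ * (Coprod.inl a)⁻¹ * gen A)))
      (ψ := φ) (fun a => by simp) ?_) p
    simp [hφ, mul_assoc]
  gen := fun T h1 h2 => fz_gen T (fun a => by simpa using h1 (Coprod.inl a)) h2

/-- What the flow does at the points where the cocycle is zero or one. -/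
lemma flow (hF : FlowStmt3) (hA : Group.FG A) : ∃ ℓ : FZ A → ℕ, ∀ β : A → Op (FZ A),
    Co (Coprod.inl : A →* FZ A) β → (∀ x, An ℓ (Coprod.inl : A →* FZ A).range (β x)) →
    ∃ α : FZ A →* Op (FZ A), Gen α ∧
      (∀ g, β g = 0 → α (Coprod.inl g) = lam (Coprod.inl g)) ∧
      ∀ g, β g = 1 → α ((gen A)⁻¹ * Coprod.inl g) = lam (Coprod.inl g) := by
  obtain ⟨ℓ, M, -, h⟩ := hF A hA
  refine ⟨ℓ, fun β h1 h2 => ?_⟩
  obtain ⟨α, hα, e, hg⟩ := h β h1 h2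
  refine ⟨α, hα, fun g h0 => LL_ext (hα.mem _) (lam_mem _) ?_, fun g h0 => ?_⟩
  · have := (hg g).1
    rw [h0, zero_apply, norm_zero, mul_zero, norm_le_zero_iff,
      sub_eq_zero] at this
    rw [this, lam_one]
  · have := (hg g).2
    rw [h0, one_ap, sub_self, norm_zero, mul_zero, norm_le_zero_iff, sub_eq_zero] at this
    have e2 : α (Coprod.inl g) = lam (gen A * Coprod.inl g) :=
      LL_ext (hα.mem _) (lam_mem _) (by rw [this, lam_one])
    rw [map_mul, e2, ← hα.star_eq, e, star_lam, ← map_mul, inv_mul_cancel_left]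

lemma conj_fix {ι : A →* G} {α : G →* Op G} (hα : Gen α) {s x : A}
    (h : α (ι (s⁻¹ * x * s)) = lam (ι (s⁻¹ * x * s))) :
    α (ι x) = α (ι s) * lam (ι s⁻¹) * lam (ι x) * star (α (ι s) * lam (ι s⁻¹)) := by
  rw [star_mul, star_lam, hα.star_eq, ← map_inv, ← map_inv, inv_inv]
  calc α (ι x) = α (ι s) * α (ι (s⁻¹ * x * s)) * α (ι s⁻¹) := by
        rw [← map_mul, ← map_mul, ← map_mul, ← map_mul]
        congr 2
        group
    _ = _ := by
        rw [h]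
        simp only [map_mul, mul_assoc]

end VG

open VG

theorem vam (hF : FlowStmt3) : VAmStmt := by
  intro A B G _ _ _ c d f g hP hA hQ hc ic id
  obtain ⟨ℓ, h⟩ := flow hF hA
  obtain ⟨β, hβ, e⟩ := hQ (FZ A) ℓ Coprod.inl Coprod.inl_injective c hc
  obtain ⟨α, hα, -, h1⟩ := h β hβ.co hβ.an
  have hi := FG.zpowersHom_inj (FG.InfOrd.map (F := (Coprod.inl : A →* FZ A))
    Coprod.inl_injective ic)
  have hj := FG.zpowersHom_inj id
  obtain ⟨π, hπ, -⟩ := FG.glue2 (amal_up hP) (amal_free c d) hi hj hα (fun x => by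
    have e1 : α.comp (zpowersHom (FZ A) ((gen A)⁻¹ * Coprod.inl c)) =
        (lam : FZ A →* Op (FZ A)).comp (zpowersHom (FZ A) (Coprod.inl c)) :=
      MonoidHom.ext_mint (by simpa using h1 c e)
    exact DFunLike.congr_fun e1 x) (Gl.nf (amal_up hP) hi hj).1
  exact eqv_of_gen hπ

theorem vhx (hF : FlowStmt3) (hQ : QrStmt) : VHxStmt := by
  intro A G _ _ c c' f t hH hA h0
  have hC : CT A := ct_of_inj hH.hf hH.ct
  obtain ⟨ℓ, h⟩ := flow hF (fg_fz hA)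
  obtain ⟨β, hβ, e, hz⟩ := hQ A (FZ (FZ A)) ℓ
    ((Coprod.inl : FZ A →* FZ (FZ A)).comp Coprod.inl) c [c'] hC h0
    (Coprod.inl_injective.comp Coprod.inl_injective) hH.cyc (by simpa using hH.far)
  obtain ⟨ξ, aξ, eξ⟩ := hz c' (by simp)
  have hsub : (((Coprod.inl : FZ A →* FZ (FZ A)).comp Coprod.inl).range : Set (FZ (FZ A))) ⊆
      (Coprod.inl : FZ A →* FZ (FZ A)).range := by
    rintro _ ⟨a, rfl⟩
    exact ⟨Coprod.inl a, rfl⟩
  obtain ⟨γ, hγ, aγ, e1, e2⟩ := ext_fz (ι := (Coprod.inl : FZ A →* FZ (FZ A)))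
    (K := (Coprod.inl : FZ A →* FZ (FZ A)).range) (fun x => ⟨x, rfl⟩) hβ.co
    (fun a => (hβ.an a).mono hsub) (aξ.mono hsub)
  obtain ⟨α, hα, z0, z1⟩ := h γ hγ aγ
  have k1 := z1 (Coprod.inl c) (by rw [e1, e])
  have k0 := z0 ((gen A)⁻¹ * Coprod.inl c' * gen A) (by
    rw [hγ, hγ, hγ.inv, e1, e2, eξ, map_mul, map_mul]
    simp only [MonoidHom.comp_apply]
    noncomm_ring)
  have ic : InfOrd (Coprod.inl (Coprod.inl c) : FZ (FZ A)) :=
    FG.InfOrd.map Coprod.inl_injective (FG.InfOrd.map Coprod.inl_injective (hC.tf c hH.cyc.1))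
  have ic' : InfOrd (Coprod.inl (Coprod.inl c') : FZ (FZ A)) :=
    FG.InfOrd.map Coprod.inl_injective
      (FG.InfOrd.map Coprod.inl_injective (hC.tf c' hH.far.ne_one))
  have H := hn_up (hn_up hH.hn)
  obtain ⟨π, hπ, -⟩ := FG.hnn_lift H (hn_free (Coprod.inl c' : FZ A) (Coprod.inl c)) ic' ic hα
    (V := 1) (FG.ul_mul (FG.ul_gen hα _) (FG.ul_lam _)) FG.ul_one (conj_fix hα k0)
    (by rw [k1, star_one, one_mul, mul_one]) (FG.britton H ic' ic).1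
  exact eqv_of_gen hπ

end

end Pool.Agent.MP_494aff_an.Lf

end MrgPart3

-- ======== part 4: formerly Pool.Agent.MP_494aff_an.lf.WL
section MrgPart4

/-! Word length, syllable exponents and the length on a line. -/

open Monoid

namespace Pool.Agent.MP_494aff_an.Lf

namespace WLP

section Len

variable {Γ : Type} [Group Γ]

/-- Products of exactly `n` letters. -/
def Wn (T : Set Γ) : ℕ → Γ → Prop
  | 0, x => x = 1
  | n + 1, x => ∃ p s, x = p * s ∧ Wn T n p ∧ s ∈ T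

theorem Wn.mul {T : Set Γ} {a : ℕ} {x : Γ} (hx : Wn T a x) :
    ∀ (b : ℕ) (z : Γ), Wn T b z → Wn T (a + b) (x * z)
  | 0, z, hz => by
    have : z = 1 := hz
    simpa [this] using hx
  | b + 1, z, hz => by
    obtain ⟨p, s, rfl, hp, hs⟩ := hz
    exact ⟨x * p, s, (mul_assoc _ _ _).symm, Wn.mul hx b p hp, hs⟩

theorem Wn.letter {T : Set Γ} {s : Γ} (hs : s ∈ T) : Wn T 1 s :=
  ⟨1, s, (one_mul s).symm, rfl, hs⟩

theorem Wn.inv {T : Set Γ} (hT : ∀ s ∈ T, s⁻¹ ∈ T) : ∀ (n : ℕ) (x : Γ), Wn T n x → Wn T n x⁻¹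
  | 0, x, hx => by
    have : x = 1 := hx
    show x⁻¹ = 1
    simp [this]
  | n + 1, x, hx => by
    obtain ⟨p, s, rfl, hp, hs⟩ := hx
    have := (Wn.letter (hT s hs)).mul n p⁻¹ (Wn.inv hT n p hp)
    rwa [add_comm, ← mul_inv_rev] at this

theorem exists_wn {T : Set Γ} {x : Γ} (hx : x ∈ Submonoid.closure T) : ∃ n, Wn T n x := by
  induction hx using Submonoid.closure_induction with
  | mem s hs => exact ⟨1, Wn.letter hs⟩
  | one => exact ⟨0, rfl⟩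
  | mul a b _ _ ha hb =>
    obtain ⟨m, hm⟩ := ha
    obtain ⟨n, hn⟩ := hb
    exact ⟨m + n, hm.mul n b hn⟩

theorem exists_len (T : Set Γ) (hT : ∀ s ∈ T, s⁻¹ ∈ T) (hg : ∀ x, x ∈ Submonoid.closure T) :
    ∃ ℓ : Γ → ℕ, ℓ 1 = 0 ∧ (∀ x, ℓ x = 0 → x = 1) ∧ (∀ x y, ℓ (x * y) ≤ ℓ x + ℓ y) ∧
      (∀ x, ℓ x⁻¹ = ℓ x) ∧ (∀ s ∈ T, ℓ s ≤ 1) ∧
      ∀ x n, ℓ x = n + 1 → ∃ p s, x = p * s ∧ ℓ p = n ∧ ℓ s = 1 ∧ s ∈ T := by
  classical
  let ℓ : Γ → ℕ := fun x => Nat.find (exists_wn (hg x))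
  have h1 : ∀ x, Wn T (ℓ x) x := fun x => Nat.find_spec (exists_wn (hg x))
  have h2 : ∀ x n, Wn T n x → ℓ x ≤ n := fun x n h => Nat.find_min' (exists_wn (hg x)) h
  have hsub : ∀ x y, ℓ (x * y) ≤ ℓ x + ℓ y := fun x y => h2 _ _ ((h1 x).mul _ _ (h1 y))
  have hinv : ∀ x, ℓ x⁻¹ ≤ ℓ x := fun x => h2 _ _ (Wn.inv hT _ _ (h1 x))
  have hlet : ∀ s ∈ T, ℓ s ≤ 1 := fun s hs => h2 _ _ (Wn.letter hs)
  refine ⟨ℓ, Nat.le_zero.1 (h2 1 0 rfl), fun x hx => ?_, hsub, fun x => ?_, hlet, fun x n hx => ?_⟩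
  · have := h1 x
    rw [hx] at this
    exact this
  · have := hinv x⁻¹
    rw [inv_inv] at this
    exact le_antisymm (hinv x) this
  · have := h1 x
    rw [hx] at this
    obtain ⟨p, s, rfl, hp, hs⟩ := this
    have a1 := h2 _ _ hp
    have a2 := hlet s hs
    have a3 := hsub p s
    exact ⟨p, s, rfl, by omega, by omega, hs⟩

end Len

variable {G : Type} [Group G]

theorem smul_coe (x z : FZ G) : x • (z : Cs G) = ((x * z : FZ G) : Cs G) := rfl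

theorem gen_fix (k : ℤ) : (gen G ^ k) • ((1 : FZ G) : Cs G) = ((1 : FZ G) : Cs G) := by
  rw [smul_coe, QuotientGroup.eq]
  simp

theorem inr_eq (k : Multiplicative ℤ) : (Coprod.inr k : FZ G) = gen G ^ k.toAdd := by
  unfold gen
  rw [← map_zpow, ← ofAdd_zsmul]
  simp

/-- The cocycle that counts the exponent of the extra generator at every coset. -/
theorem exists_phi (G : Type) [Group G] : ∃ φ : FZ G → Cs G → ℤ,
    (∀ x z q, φ (x * z) q = φ x q + φ z (x⁻¹ • q)) ∧ (∀ g q, φ (Coprod.inl g) q = 0) ∧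
    (∀ k : ℤ, φ (gen G ^ k) ((1 : FZ G) : Cs G) = k) ∧
    ∀ (k : ℤ) q, q ≠ ((1 : FZ G) : Cs G) → φ (gen G ^ k) q = 0 := by
  classical
  let W := (Cs G → Multiplicative ℤ) ⋊[mulAutArrow] FZ G
  let b : Cs G → Multiplicative ℤ := fun q =>
    Multiplicative.ofAdd (if q = ((1 : FZ G) : Cs G) then 1 else 0)
  let Φ : FZ G →* W := Coprod.lift (SemidirectProduct.inr.comp Coprod.inl)
    (zpowersHom W ⟨b, gen G⟩)
  have hy : Φ (gen G) = ⟨b, gen G⟩ := by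
    simp [Φ, gen]
  have hr : ∀ x, (Φ x).right = x := by
    intro x
    have : SemidirectProduct.rightHom.comp Φ = MonoidHom.id (FZ G) := by
      refine Coprod.hom_ext ?_ ?_
      · ext g
        simp [Φ]
      · refine MonoidHom.ext_mint ?_
        change (Φ (gen G)).right = gen G
        rw [hy]
    exact DFunLike.congr_fun this x
  let φ : FZ G → Cs G → ℤ := fun x q => ((Φ x).left q).toAdd
  have hmul : ∀ x z q, φ (x * z) q = φ x q + φ z (x⁻¹ • q) := by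
    intro x z q
    have e : φ (x * z) q = φ x q + φ z (((Φ x).right)⁻¹ • q) := by
      simp only [φ, map_mul]
      rfl
    rw [e, hr]
  have hone : ∀ q, φ 1 q = 0 := by
    intro q
    have := hmul 1 1 q
    simp only [mul_one, inv_one, one_smul] at this
    omega
  have hgen : ∀ q, φ (gen G) q = if q = ((1 : FZ G) : Cs G) then 1 else 0 := by
    intro q
    simp only [φ, hy, b, toAdd_ofAdd]
  have hstep : ∀ (k : ℤ) q, φ (gen G ^ (k + 1)) q =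
      φ (gen G ^ k) q + if q = ((1 : FZ G) : Cs G) then 1 else 0 := by
    intro k q
    rw [zpow_add_one, hmul, hgen]
    congr 1
    refine if_congr ?_ rfl rfl
    rw [inv_smul_eq_iff, gen_fix]
  have hpow : ∀ (k : ℤ) q, φ (gen G ^ k) q = k * if q = ((1 : FZ G) : Cs G) then 1 else 0 := by
    intro k q
    induction k using Int.induction_on with
    | zero => simp [hone]
    | succ i ih => rw [hstep, ih]; ring
    | pred i ih =>
      have := hstep (-(i : ℤ) - 1) q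
      rw [sub_add_cancel, ih] at this
      linear_combination -this
  refine ⟨φ, hmul, fun g q => ?_, fun k => ?_, fun k q hq => ?_⟩
  · simp [φ, Φ]
  · rw [hpow]; simp
  · rw [hpow]; simp [hq]

/-- The least length in a coset. -/
theorem exists_min (ℓ : FZ G → ℕ) : ∃ m : Cs G → ℕ, (∀ z : FZ G, m z ≤ ℓ z) ∧
    ∀ q, ∃ z : FZ G, (z : Cs G) = q ∧ ℓ z = m q := by
  classical
  have h : ∀ q : Cs G, ∃ n, ∃ z : FZ G, (z : Cs G) = q ∧ ℓ z = n :=
    fun q => ⟨ℓ q.out, q.out, q.out_eq, rfl⟩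
  exact ⟨fun q => Nat.find (h q), fun z => Nat.find_min' (h z) ⟨z, rfl, rfl⟩,
    fun q => Nat.find_spec (h q)⟩

end WLP

open WLP in
theorem wl : WLStmt := by
  classical
  intro G _ hG
  obtain ⟨S₁, hS₁⟩ := (Group.fg_iff_monoid_fg.1 hG).fg_top
  let S : Finset G := S₁ ∪ S₁.image (·⁻¹)
  let T : Set (FZ G) := {s | (∃ g ∈ S, s = Coprod.inl g) ∨ ∃ k : ℤ, s = gen G ^ k}
  have hT : ∀ s ∈ T, s⁻¹ ∈ T := by
    rintro s (⟨g, hg, rfl⟩ | ⟨k, rfl⟩)
    · refine Or.inl ⟨g⁻¹, ?_, (map_inv _ _).symm⟩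
      rcases Finset.mem_union.1 hg with h | h
      · exact Finset.mem_union_right _ (Finset.mem_image_of_mem _ h)
      · obtain ⟨a, ha, rfl⟩ := Finset.mem_image.1 h
        exact Finset.mem_union_left _ (by simpa using ha)
    · exact Or.inr ⟨-k, (zpow_neg _ _).symm⟩
  have hg : ∀ x, x ∈ Submonoid.closure T := by
    intro x
    induction x using Coprod.induction_on with
    | inl g =>
      have hg : g ∈ Submonoid.closure (S₁ : Set G) := by rw [hS₁]; trivial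
      induction hg using Submonoid.closure_induction with
      | mem a ha =>
        exact Submonoid.subset_closure (Or.inl ⟨a, Finset.mem_union_left _ ha, rfl⟩)
      | one => rw [map_one]; exact one_mem _
      | mul a b _ _ ha hb => rw [map_mul]; exact mul_mem ha hb
    | inr k => exact Submonoid.subset_closure (Or.inr ⟨k.toAdd, inr_eq k⟩)
    | mul a b ha hb => exact mul_mem ha hb
  obtain ⟨ℓ, l1, l0, lsub, linv, llet, lgeo⟩ := exists_len T hT hg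
  obtain ⟨φ, fmul, finl, fgen, fgen'⟩ := exists_phi G
  obtain ⟨m, mle, mex⟩ := exists_min ℓ
  have fone : ∀ q, φ 1 q = 0 := fun q => by simpa using finl 1 q
  have m1 : m ((1 : FZ G) : Cs G) = 0 := by
    have := mle 1
    omega
  have msm : ∀ (g : FZ G) q, m (g • q) ≤ ℓ g + m q := by
    intro g q
    obtain ⟨z, rfl, hz⟩ := mex q
    have a1 := mle (g * z)
    have a2 := lsub g z
    rw [smul_coe]
    omega
  have flet : ∀ s ∈ T, ∀ q, φ s q ≠ 0 →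
      q = ((1 : FZ G) : Cs G) ∧ s⁻¹ • ((1 : FZ G) : Cs G) = ((1 : FZ G) : Cs G) := by
    rintro s (⟨g, -, rfl⟩ | ⟨k, rfl⟩) q h
    · exact absurd (finl g q) h
    · refine ⟨by_contra fun hq => h (fgen' k q hq), ?_⟩
      rw [← zpow_neg, gen_fix]
  have hge : ∀ x q, ℓ x ≤ 1 + m q + m (x⁻¹ • q) := by
    intro x q
    obtain ⟨z, rfl, hz⟩ := mex q
    obtain ⟨w, hw, hw'⟩ := mex (x⁻¹ • (z : Cs G))
    rw [smul_coe, QuotientGroup.eq] at hw
    obtain ⟨k, hk⟩ := hw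
    have hx : x = z * gen G ^ (-k) * w⁻¹ := by
      have hk' : gen G ^ k = w⁻¹ * (x⁻¹ * z) := hk
      rw [zpow_neg, hk']
      group
    have a1 := lsub (z * gen G ^ (-k)) w⁻¹
    have a2 := lsub z (gen G ^ (-k))
    have a3 := llet (gen G ^ (-k)) (Or.inr ⟨-k, rfl⟩)
    have a4 := linv w
    rw [← hx] at a1
    omega
  have hnd : ∀ n x q, ℓ x = n → φ x q ≠ 0 → 1 + m q + m (x⁻¹ • q) ≤ n := by
    intro n
    induction n with
    | zero =>
      intro x q hx h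
      rw [l0 x hx] at h
      exact absurd (fone q) h
    | succ n ih =>
      intro x q hx h
      obtain ⟨p, s, rfl, hp, hs, hsT⟩ := lgeo x n hx
      rw [mul_inv_rev, mul_smul]
      by_cases h0 : φ p q = 0
      · rw [fmul, h0, zero_add] at h
        obtain ⟨b1, b2⟩ := flet s hsT _ h
        rw [b1, b2, m1]
        have a1 := msm p (p⁻¹ • q)
        rw [smul_inv_smul, b1, m1] at a1
        omega
      · have a1 := ih p q hp h0
        have a2 := msm s⁻¹ (p⁻¹ • q)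
        have a3 := linv s
        omega
  have hcount : ∀ n x (Z : Finset (Cs G)), ℓ x = n → (∀ q ∈ Z, φ x q ≠ 0) → Z.card ≤ n := by
    intro n
    induction n with
    | zero =>
      intro x Z hx h
      rw [l0 x hx] at h
      rw [Nat.le_zero, Finset.card_eq_zero]
      exact Finset.eq_empty_of_forall_notMem fun q hq => h q hq (fone q)
    | succ n ih =>
      intro x Z hx h
      obtain ⟨p, s, rfl, hp, hs, hsT⟩ := lgeo x n hx
      have a1 := ih p (Z.erase (p • ((1 : FZ G) : Cs G))) hp fun q hq h0 => by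
        have h1 := h q (Finset.mem_of_mem_erase hq)
        rw [fmul, h0, zero_add] at h1
        exact Finset.ne_of_mem_erase hq (inv_smul_eq_iff.1 (flet s hsT _ h1).1)
      have a2 := Finset.pred_card_le_card_erase (s := Z) (a := p • ((1 : FZ G) : Cs G))
      omega
  refine ⟨S, ℓ, φ, fun x q => 1 + m q + m (x⁻¹ • q), l1, l0, lsub, linv, lgeo, fmul, finl, fgen,
    fgen', fun z k x => ?_, fun x q h => le_antisymm (hnd _ x q rfl h) (hge x q), hge,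
    fun x z => ?_, fun x Z h => hcount _ x Z rfl h, fun p x q h => ?_⟩
  · have : (z * gen G ^ k * z⁻¹ * x)⁻¹ • (z : Cs G) = x⁻¹ • (z : Cs G) := by
      rw [smul_coe, smul_coe, QuotientGroup.eq]
      refine ⟨k, ?_⟩
      change gen G ^ k = _
      group
    simp only [this]
  · have a1 := mle z
    have a2 := mle (x⁻¹ * z)
    have a3 := linv (x⁻¹ * z)
    rw [mul_inv_rev, inv_inv] at a3
    simp only [smul_coe]
    omega
  · by_contra hc
    obtain ⟨h1, h2⟩ := not_or.1 hc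
    have e := fmul p (p⁻¹ * x) q
    rw [mul_inv_cancel_left] at e
    have h3 : φ (p⁻¹ * x) (p⁻¹ • q) ≠ 0 := fun h0 => h2 (by rw [e, h0, add_zero])
    have a1 := hnd _ p q rfl h1
    have a2 := hnd _ _ _ rfl h3
    have a3 := hge x q
    rw [mul_inv_rev, inv_inv, mul_smul, smul_inv_smul] at a2
    omega

end Pool.Agent.MP_494aff_an.Lf

end MrgPart4

-- ======== part 5: formerly Pool.Agent.MP_494aff_an.lf.Main3
section MrgPart5

/-! Assembly of the parts. -/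

namespace Pool.Agent.MP_494aff_an.Lf

theorem flowAll : FlowStmt3 := flow3 wl loc harg line form (ker scale exp1)

theorem qamAll : QAmStmt :=
  qam (am cls (hyp cls)) (qr avg) (sep (qr avg)) (add (qr avg)) (axis (unit avg))

theorem qhxAll : QHxStmt :=
  qhx (hx cls (hyp cls)) (qr avg) (sep (qr avg)) (add (qr avg)) (axis (unit avg))

theorem afAll : AFStmt := af (tree ping) reg

theorem absAll : AbsStmt := abs1 flowAll int1

theorem limf : LimfStmt :=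
  top ind qamAll qhxAll qabel afAll absAll (vam flowAll) (vhx flowAll (qr avg))

end Pool.Agent.MP_494aff_an.Lf

end MrgPart5

-- marker of a merged file
example : 731051 + 657306 = 731051 + 657306 := rfl

end MrgPart1

-- ======== part 2: formerly Pool.Agent.MP_494aff_an.un.Spec
section MrgPart2

/-! Shared objects and the statements of the steps. -/

open Monoid Filter Topology
open scoped InnerProductSpace ComplexConjugate

namespace Pool.Agent.MP_494aff_an.Un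

open Pool.Agent.MP_494aff_an.Pinch Pool.Agent.MP_494aff_an.Pinch.TowP Pool.Agent.MP_494aff_an.Lf

noncomputable section

/-! The ambient group -/

/-- The free product with the free group on countably many letters. -/
abbrev Gam (G : Type) [Group G] : Type := Coprod G (FreeGroup ℕ)

/-- The letters. -/
def lt (G : Type) [Group G] (n : ℕ) : Gam G := Coprod.inr (FreeGroup.of n)

/-- The subgroup generated by some letters. -/
def fr (G : Type) [Group G] (C : Set ℕ) : Subgroup (Gam G) := Subgroup.closure (lt G '' C)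

/-- The subgroup generated by `G` and some letters. -/
def sub (G : Type) [Group G] (C : Set ℕ) : Subgroup (Gam G) :=
  (Coprod.inl : G →* Gam G).range ⊔ fr G C

section Gen

variable {Γ : Type} [Group Γ]

/-- `Γ` is the free product of `A`, `F` and the cyclic group on `y`; `deg` is the degree in `y`. -/
structure Tri (A F : Subgroup Γ) (y : Γ) (deg : Γ →* Multiplicative ℤ) : Prop where
  bij : Function.Bijective
    (Coprod.lift (Coprod.lift A.subtype F.subtype) (zpowersHom Γ y) : FZ (Coprod A F) →* Γ)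
  dA : ∀ x ∈ A, deg x = 1
  dF : ∀ x ∈ F, deg x = 1
  dy : deg y = Multiplicative.ofAdd 1

/-- `R` acts freely on `N` by conjugation. -/
structure Dg (R : Subgroup Γ) (N : Set Γ) : Prop where
  cjm : ∀ x ∈ R, ∀ h ∈ N, x * h * x⁻¹ ∈ N
  free : ∀ x ∈ R, ∀ h ∈ N, x * h = h * x → x = 1

/-- The independent subgroups with a hierarchy are cofinal in `A`. -/
def Cof (A : Subgroup Γ) : Prop :=
  ∀ L₀ : Subgroup Γ, L₀ ≤ A → L₀.FG → ∃ L, L₀ ≤ L ∧ L ≤ A ∧ Ind L ∧ Hier L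

/-- Cocycles along a homomorphism with square summable values. -/
def Cz {X : Type} [Group X] (ι : X →* Γ) (c : X → H Γ) : Prop :=
  ∀ x y, c (x * y) = c x + lam (ι x) (c y)

/-- Real vectors supported on `R`. -/
def Rl (R : Subgroup Γ) (ξ : H Γ) : Prop := AFP.rv (R : Set Γ) ξ = ξ

/-- `ξ` is close to a vector supported on `X`. -/
def Near (X : Subgroup Γ) (ξ : H Γ) (ε : ℝ) : Prop := ∃ η, Supp (X : Set Γ) η ∧ ‖ξ - η‖ ≤ ε

/-- `W` is the isometry attached to `α`. -/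
structure Iso (α : Γ →* Op Γ) (W : Op Γ) : Prop where
  gen : Gen α
  norm : ∀ ξ, ‖W ξ‖ = ‖ξ‖
  val : ∀ x, W (dl x) = α x (dl 1)

open Classical in
/-- The operator that sends `x ∈ R` to the conjugate of `h` by `x`. -/
def adO (R : Subgroup Γ) (h : Γ) : Op Γ :=
  if e : ∃ T : Op Γ, ∀ x, T (dl x) = if x ∈ R then dl (x * h * x⁻¹) else 0 then e.choose else 0

/-- The operator that sends `x ∈ R` to the conjugate of `X` by `x`. -/
def adH (R : Subgroup Γ) (X : CA Γ) : Op Γ := ∑ h ∈ X.coeff.support, X.coeff h • adO R h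

/-- The sum of the absolute values of the coefficients. -/
def n1 (X : CA Γ) : ℝ := ∑ h ∈ X.coeff.support, ‖X.coeff h‖

/-- The elements of nonzero degree of the subgroup generated by `E`, `F`, `y`. -/
def La (E F : Subgroup Γ) (y : Γ) (deg : Γ →* Multiplicative ℤ) : Set Γ :=
  {h | h ∈ E ⊔ F ⊔ Subgroup.zpowers y ∧ deg h ≠ 1}

/-- A contraction group that is differentiable on `K`. -/
structure Fl (K : Subgroup Γ) (U : ℝ → Op Γ) (d : Γ → H Γ) : Prop where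
  norm : ∀ t, ‖U t‖ ≤ 1
  add : ∀ s t, U (s + t) = U s * U t
  zero : ∀ x ∈ K, U 0 (dl x) = dl x
  der : ∀ x ∈ K, ∀ t, HasDerivAt (fun s => U s (dl x)) (U t (d x)) t

/-- A flow of automorphisms of the algebra of `K`, seen on the whole space. -/
structure PF (K : Subgroup Γ) (U : ℝ → Op Γ) (d : Γ → H Γ) : Prop where
  fl : Fl K U d
  leib : ∀ x ∈ K, ∀ y ∈ K, d (x * y) = rho y⁻¹ (d x) + lam x (d y)
  rep : ∃ π : Γ → Op Γ, (∀ x ∈ K, ∀ y ∈ K, π (x * y) = π x * π y) ∧ (∀ x ∈ K, UL (π x)) ∧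
    (∀ x ∈ K, x ≠ 1 → π x (dl 1) 1 = 0) ∧ ∀ x ∈ K, U 1 (dl x) = π x (dl 1)
  est : ∀ X : CA Γ, IsSelfAdjoint (op X) → Supp {h | h ∈ K ∧ d h = 0} (hat X) → ∀ g ∈ K,
    ‖U 1 (dl g) - NormedSpace.exp (Complex.I • op X) (dl g)‖ ≤ ‖d g - Complex.I • op X (dl g)‖
  core : ∀ F₀ : Finset Γ, (∀ x ∈ F₀, x ∈ K) → ∀ ε : ℝ, 0 < ε → ∃ (F₁ : Finset Γ) (δ : ℝ),
    (∀ x ∈ F₁, x ∈ K) ∧ 0 < δ ∧ ∀ U' d', Fl K U' d' → (∀ x ∈ F₁, ‖d' x - d x‖ ≤ δ) →
      ∀ x ∈ F₀, ‖U' 1 (dl x) - U 1 (dl x)‖ ≤ ε ∧ ‖U' (-1) (dl x) - U (-1) (dl x)‖ ≤ ε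

end Gen

/-- The standing hypotheses on `G`. -/
structure Good (G : Type) [Group G] : Prop where
  cnt : Countable G
  ct : CT (Gam G)
  cof : ∀ C : Set ℕ, Cof (sub G C)

/-! Groups -/

/-- Free products. -/
structure CpStmt : Prop where
  map : ∀ (A A' B B' : Type) [Group A] [Group A'] [Group B] [Group B'] (f : A →* A')
    (g : B →* B'), Function.Injective f → Function.Injective g →
    Function.Injective (Coprod.map f g)
  comm : ∀ (A B : Type) [Group A] [Group B] (a : A) (h : Coprod A B),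
    Coprod.inl a * h = h * Coprod.inl a → a = 1 ∨ h ∈ (Coprod.inl : A →* Coprod A B).range
  fz : ∀ (G : Type) [Group G],
    Dg (Coprod.inl : G →* FZ G).range {h | (Coprod.snd : FZ G →* Multiplicative ℤ) h ≠ 1}
  tri : ∀ (Γ : Type) [Group Γ] (A F : Subgroup Γ) (y : Γ) (deg : Γ →* Multiplicative ℤ),
    Tri A F y deg → Dg A {h | deg h ≠ 1}
  lim : ∀ (G : Type) [Group G], Lim G → Lim (Gam G)

/-- Letters. -/
structure GamStmt : Prop where
  fin : ∀ (G : Type) [Group G] (L : Subgroup (Gam G)), L.FG → ∃ C : Finset ℕ, L ≤ sub G C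
  cut : ∀ (G : Type) [Group G] (K : Subgroup (Gam G)) (C : Set ℕ), K.FG →
    ∃ (K₀ : Subgroup (Gam G)) (C₁ : Finset ℕ), K₀ ≤ sub G C ∧ K₀.FG ∧ (∀ n ∈ C₁, n ∉ C) ∧
      K ≤ K₀ ⊔ fr G C₁
  tri : ∀ (G : Type) [Group G] (C : Finset ℕ) (n : ℕ), n ∉ C →
    ∃ deg, Tri (sub G (insert n (C : Set ℕ))ᶜ) (fr G C) (lt G n) deg
  fresh : ∀ (G X : Type) [Group G] [Group X] (j : X →* Gam G) (C : Set ℕ) (n : ℕ),
    Function.Injective j → j.range ≤ sub G C → n ∉ C →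
    Function.Injective (Coprod.lift j (zpowersHom (Gam G) (lt G n)) : FZ X →* Gam G)
  sigma : ∀ (G : Type) [Group G] (n : ℕ) (g g' : Gam G), g ∈ sub G {n}ᶜ → g' ∈ sub G {n}ᶜ →
    ∃ σ : Gam G ≃* Gam G, (∀ x ∈ sub G {n}ᶜ, σ x = x) ∧ σ (lt G n) = g * lt G n * g'
  free3 : ∀ (G : Type) [Group G] (w : Gam G) (n m : ℕ), n ≠ m → w ∈ sub G {n, m}ᶜ → InfOrd w →
    Function.Injective
      (FreeGroup.lift ![w, lt G n * w * (lt G n)⁻¹, lt G m] : FreeGroup (Fin 3) →* Gam G)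

/-- Square summable cocycles. -/
structure CzStmt : Prop where
  toCy : ∀ (X Γ : Type) [Group X] [Group Γ] (ι : X →* Γ) (c : X → H Γ), Function.Injective ι →
    Cz ι c → ∃ c', Cy ι.range c' ∧ ∀ x, c' (ι x) = c x
  pin : ∀ (A B X Γ : Type) [Group A] [Group B] [Group X] [Group Γ] (c : A) (d : B) (f : A →* X)
    (g : B →* X) (ι : X →* Γ) (cA : A → H Γ) (cB : B → H Γ), Pin c d f g → Cz (ι.comp f) cA →
    Cz (ι.comp g) cB → cA c = cB d → ∃ z, Cz ι z ∧ (∀ a, z (f a) = cA a) ∧ ∀ b, z (g b) = cB b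
  cop : ∀ (A B Γ : Type) [Group A] [Group B] [Group Γ] (ι : Coprod A B →* Γ) (cA : A → H Γ)
    (cB : B → H Γ), Cz (ι.comp Coprod.inl) cA → Cz (ι.comp Coprod.inr) cB →
    ∃ z, Cz ι z ∧ (∀ a, z (Coprod.inl a) = cA a) ∧ ∀ b, z (Coprod.inr b) = cB b
  hn : ∀ (A X Γ : Type) [Group A] [Group X] [Group Γ] (c c' : A) (f : A →* X) (t : X)
    (ι : X →* Γ) (cA : A → H Γ) (θ : H Γ), FG.Hn c' c f t → Cz (ι.comp f) cA →
    cA c' = θ - lam (ι (f c')) θ + lam (ι t) (cA c) →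
    ∃ z, Cz ι z ∧ (∀ a, z (f a) = cA a) ∧ z t = θ
  close : ∀ (X : Type) [Group X] (T : Set X) (S : Finset X),
    (∀ s ∈ S, s ∈ Subgroup.closure T) → ∃ (T₀ : Finset X) (N : ℝ), (∀ x ∈ T₀, x ∈ T) ∧ 0 < N ∧
      ∀ (Γ : Type) [Group Γ] (ι : X →* Γ) (c c' : X → H Γ) (K : Subgroup X) (ε : ℝ), 0 ≤ ε →
        T ⊆ K → (∀ x ∈ K, ∀ y ∈ K, c (x * y) = c x + lam (ι x) (c y)) →
        (∀ x ∈ K, ∀ y ∈ K, c' (x * y) = c' x + lam (ι x) (c' y)) →
        (∀ x ∈ T₀, ‖c' x - c x‖ ≤ ε) → ∀ s ∈ S, ‖c' s - c s‖ ≤ N * ε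
  avg : ∀ (Γ : Type) [Group Γ] (ℓ : Γ → ℕ) (K : Subgroup Γ) (g : Γ) (ξ : H Γ) (ε : ℝ), g ∈ K →
    InfOrd g → 0 < ε → ∃ q, An ℓ K q ∧ ‖ξ - (1 - lam g) (q ξ)‖ ≤ ε
  up : ∀ (Γ : Type) [Group Γ] (L' L : Subgroup Γ), Ind L' → L ≤ L' → L.FG → IND L' L → Ind L

/-- New letters keep independence. -/
structure LetStmt : Prop where
  ext : ∀ (G : Type) [Group G] (K : Subgroup (Gam G)) (C : Set ℕ) (n : ℕ) (c : Gam G → H (Gam G))
    (θ : H (Gam G)), K ≤ sub G C → n ∉ C → Cy K c →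
    ∃ c', Cy (K ⊔ Subgroup.zpowers (lt G n)) c' ∧ (∀ x ∈ K, c' x = c x) ∧ c' (lt G n) = θ
  one : ∀ (G : Type) [Group G] (L : Subgroup (Gam G)) (C : Set ℕ) (n : ℕ), Ind L → L ≤ sub G C →
    n ∉ C → Ind (L ⊔ Subgroup.zpowers (lt G n))
  add : ∀ (G A B : Type) [Group G] [Group A] [Group B] (j : Coprod A B →* Gam G) (C : Set ℕ)
    (C₁ : Finset ℕ), Function.Injective j → Group.FG B → Ind j.range → j.range ≤ sub G C →
    (∀ n ∈ C₁, n ∉ C) → ∃ (B' : Type) (_ : Group B') (j' : Coprod A B' →* Gam G) (κ : B →* B'),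
      Function.Injective j' ∧ Group.FG B' ∧ Ind j'.range ∧ j'.range = j.range ⊔ fr G C₁ ∧
      (∀ a, j' (Coprod.inl a) = j (Coprod.inl a)) ∧
      (∀ b, j' (Coprod.inr (κ b)) = j (Coprod.inr b)) ∧
      ∀ n ∈ C₁, ∃ b', j' (Coprod.inr b') = lt G n

def GoodStmt : Prop :=
  RigidStmt → HierStmt → ∀ (G : Type) [Group G], Countable G → Lim G → Good G

/-! Operators -/

/-- Approximate containment. -/
structure NearStmt : Prop where
  mul : ∀ (Γ : Type) [Group Γ] (X : Subgroup Γ) (u v : Op Γ) (a b : ℝ), UL u → UL v →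
    Near X (u (dl 1)) a → Near X (v (dl 1)) b → Near X ((u * v) (dl 1)) (a + b)
  inv : ∀ (Γ : Type) [Group Γ] (X : Subgroup Γ) (u : Op Γ) (a : ℝ), u ∈ LL Γ →
    Near X (u (dl 1)) a → Near X (star u (dl 1)) a
  iso : ∀ (Γ : Type) [Group Γ] (α : Γ →* Op Γ), Gen α → ∃ W, Iso α W
  comp : ∀ (Γ : Type) [Group Γ] (α₁ α₂ : Γ →* Op Γ) (W : Op Γ), Gen α₁ → Iso α₂ W →
    ∃ α, Gen α ∧ ∀ x, α x (dl 1) = W (α₁ x (dl 1))
  word : ∀ (Γ : Type) [Group Γ] (T : Set Γ) (Z : Finset Γ) (ε : ℝ),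
    (∀ z ∈ Z, z ∈ Subgroup.closure T) → 0 < ε → ∃ (T₀ : Finset Γ) (δ : ℝ), (∀ x ∈ T₀, x ∈ T) ∧
      0 < δ ∧ ∀ α : Γ →* Op Γ, Gen α →
        (∀ X, (∀ x ∈ T₀, Near X (α x (dl 1)) δ) → ∀ z ∈ Z, Near X (α z (dl 1)) ε) ∧
        ((∀ x ∈ T₀, ‖α x (dl 1) - dl x‖ ≤ δ) → ∀ z ∈ Z, ‖α z (dl 1) - dl z‖ ≤ ε)
  vec : ∀ (Γ : Type) [Group Γ] (T : Set Γ) (ξ : H Γ) (a ε : ℝ), Near (Subgroup.closure T) ξ a →
    0 < ε → ∃ (T₀ : Finset Γ) (δ : ℝ), (∀ x ∈ T₀, x ∈ T) ∧ 0 < δ ∧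
      Near (Subgroup.closure (T₀ : Set Γ)) ξ (a + ε) ∧ ∀ α W X, Iso α W →
        (∀ x ∈ T₀, Near X (α x (dl 1)) δ) → Near X (W ξ) (a + ε)
  cj2 : ∀ (Γ : Type) [Group Γ] (u v m : Op Γ), UL u → UL v → UL m →
    ‖(star u * m * u) (dl 1) - (star v * m * v) (dl 1)‖ ≤ 2 * ‖u (dl 1) - v (dl 1)‖

/-- The conjugation operators. -/
def AdStmt : Prop :=
  ∀ (Γ : Type) [Group Γ] (R : Subgroup Γ) (N : Set Γ) (X : CA Γ), Dg R N → Supp N (hat X) →
    (∀ x ∈ R, adH R X (dl x) = cj x (hat X)) ∧ (∀ x, x ∉ R → adH R X (dl x) = 0) ∧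
    ‖adH R X‖ ≤ n1 X ∧
    (∀ x ∈ R, ∀ b, adH R X (lam x b) = cj x (adH R X b)) ∧
    (∀ (ℓ : Γ → ℕ) (T : Op Γ) (b : H Γ), An ℓ R T → ‖adH R X (T b)‖ ≤ ‖T‖ * ‖adH R X b‖) ∧
    ∀ b z, HasSum (fun x : R => b x * X.coeff ((x : Γ)⁻¹ * z * x)) (adH R X b z)

/-- The basic tools. -/
structure Bas : Prop where
  cp : CpStmt
  gam : GamStmt
  cz : CzStmt
  lets : LetStmt
  near : NearStmt
  ad : AdStmt

/-! Flows -/

/-- Word length. -/
structure WL4 {G : Type} [Group G] (S : Finset G) (ℓ : FZ G → ℕ) : Prop where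
  one : ℓ 1 = 0
  eq_one : ∀ x, ℓ x = 0 → x = 1
  sub : ∀ x y, ℓ (x * y) ≤ ℓ x + ℓ y
  symm : ∀ x, ℓ x⁻¹ = ℓ x
  geo : ∀ x n, ℓ x = n + 1 → ∃ p s, x = p * s ∧ ℓ p = n ∧ ℓ s = 1 ∧
    ((∃ g ∈ S, s = Coprod.inl g) ∨ s = gen G ∨ s = (gen G)⁻¹)

/-- Word length and the cosets that a geodesic meets. -/
structure NdStmt : Prop where
  wl : ∀ (G : Type) [Group G], Group.FG G → ∃ (S : Finset G) (ℓ : FZ G → ℕ), WL4 S ℓ
  nd : ∀ (G : Type) [Group G] (S : Finset G) (ℓ : FZ G → ℕ) (h : FZ G), WL4 S ℓ →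
    (Coprod.snd : FZ G →* Multiplicative ℤ) h ≠ 1 →
    ∃ (nd : FZ G → FZ G ⧸ Subgroup.zpowers h → Prop) (c₀ : ℕ),
      (∀ z x : FZ G, nd x z ∨ nd (z * h * z⁻¹ * x) z) ∧
      (∀ x (Z : Finset (FZ G ⧸ Subgroup.zpowers h)), (∀ q ∈ Z, nd x q) → Z.card ≤ ℓ x) ∧
      ∀ x q, nd x q → ∃ z : FZ G, (z : FZ G ⧸ Subgroup.zpowers h) = q ∧
        ℓ z + ℓ (z⁻¹ * x) ≤ ℓ x + c₀
  two : ∀ (G : Type) [Group G] (E : Subgroup G) (B : FZ G → H (FZ G)),
    Cz (MonoidHom.id (FZ G)) B →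
    (∀ g, Supp (Coprod.inl : G →* FZ G).range (B (Coprod.inl g))) → B (gen G) = 0 →
    (∀ g ∈ E, B (Coprod.inl g) = 0) →
    (∀ x, ∃ P : Finset (FZ G), ∀ z, B x z ≠ 0 →
      ∃ p ∈ P, p⁻¹ * z ∈ (Coprod.inl : G →* FZ G).range) ∧
    ∀ x z₀ : FZ G, ∃ p p' : FZ G, ∀ z, z₀⁻¹ * z ∈ E.map Coprod.inl ⊔ Subgroup.zpowers (gen G) →
      B x z ≠ 0 → p⁻¹ * z ∈ (Coprod.inl : G →* FZ G).range ∨
        p'⁻¹ * z ∈ (Coprod.inl : G →* FZ G).range

/-- Localisation of the extended cocycle along geodesics. -/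
def Loc4Stmt : Prop :=
  ∀ (G : Type) [Group G] (S : Finset G) (ℓ : FZ G → ℕ) (β : G → Op (FZ G))
    (B : FZ G → H (FZ G)), WL4 S ℓ → (∀ x, An ℓ (Coprod.inl : G →* FZ G).range (β x)) →
    Cz (MonoidHom.id (FZ G)) B → (∀ g, B (Coprod.inl g) = β g (dl 1)) → B (gen G) = 0 →
    ∃ a₀ C : ℝ, 0 < a₀ ∧ 0 ≤ C ∧ ∀ x (Z : Finset (FZ G)),
      ∑ z ∈ Z, ‖B x z‖ ^ 2 * Real.exp (2 * a₀ * ((ℓ z : ℝ) + ℓ (z⁻¹ * x) - ℓ x)) ≤
        C * (1 + ℓ x)

/-- The form bound for one word. -/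
def Form4Stmt : Prop :=
  ∀ (Λ : Type) [Group Λ] (ℓ : Λ → ℕ) (h : Λ) (b : Λ → Λ ⧸ Subgroup.zpowers h → ℝ)
    (nd : Λ → Λ ⧸ Subgroup.zpowers h → Prop) (k : Λ → Λ → ℂ) (c₀ : ℕ) (a₀ C : ℝ), 0 ≤ a₀ →
    0 ≤ C → (∀ x y, ℓ (x * y) ≤ ℓ x + ℓ y) →
    (∀ z x : Λ, b (z * h * z⁻¹ * x) z = b x z) →
    (∀ z x : Λ, nd x z ∨ nd (z * h * z⁻¹ * x) z) →
    (∀ x (Z : Finset (Λ ⧸ Subgroup.zpowers h)), (∀ q ∈ Z, nd x q) → Z.card ≤ ℓ x) →
    (∀ x q, nd x q → ∃ z : Λ, (z : Λ ⧸ Subgroup.zpowers h) = q ∧ ℓ z + ℓ (z⁻¹ * x) ≤ ℓ x + c₀) →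
    (∀ x, ∃ r : Λ ⧸ Subgroup.zpowers h → Λ, (∀ q, (r q : Λ ⧸ Subgroup.zpowers h) = q) ∧
      ∀ Z : Finset (Λ ⧸ Subgroup.zpowers h),
        ∑ q ∈ Z, b x q ^ 2 * Real.exp (2 * a₀ * ((ℓ (r q) : ℝ) + ℓ ((r q)⁻¹ * x) - ℓ x)) ≤
          C * (1 + ℓ x)) →
    (∀ x y, ∃ Z : Finset (Λ ⧸ Subgroup.zpowers h),
      (∀ q ∈ Z, y = q.out * h * q.out⁻¹ * x) ∧ ‖k x y‖ ≤ ∑ q ∈ Z, |b x q|) →
    ∃ C', FB ℓ k a₀ C'

/-- The derivation attached to a cocycle and a polynomial. -/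
def F4Stmt : Prop :=
  ∀ (G : Type) [Group G], Group.FG G → ∃ ℓ : FZ G → ℕ, (∀ x y, ℓ (x * y) ≤ ℓ x + ℓ y) ∧
    ∀ (E : Subgroup G) (β : G → Op (FZ G)) (X : CA (FZ G)), Co (Coprod.inl : G →* FZ G) β →
      (∀ x, An ℓ (Coprod.inl : G →* FZ G).range (β x)) → (∀ x ∈ E, β x = 0) →
      IsSelfAdjoint (op X) →
      Supp {h | h ∈ E.map Coprod.inl ⊔ Subgroup.zpowers (gen G) ∧
        (Coprod.snd : FZ G →* Multiplicative ℤ) h ≠ 1} (hat X) →
      ∃ (d : FZ G → H (FZ G)) (a₀ C : ℝ), 0 < a₀ ∧ (∀ x y, d x y = -conj (d y x)) ∧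
        (∀ x y, d (x * y) = rho y⁻¹ (d x) + lam x (d y)) ∧ FB ℓ (fun x y => d x y) a₀ C ∧
        d (gen G) = 0 ∧ ∀ g, d (Coprod.inl g) = Complex.I • rho (Coprod.inl g : FZ G)⁻¹
          (adH (Coprod.inl : G →* FZ G).range X (β g (dl 1)))

/-- Stability of the flow under a change of the generator. -/
def CoreStmt : Prop :=
  ∀ (Λ : Type) [Group Λ] (ℓ : Λ → ℕ) (d : Λ → H Λ) (a₀ C : ℝ), 0 < a₀ →
    (∀ x y, ℓ (x * y) ≤ ℓ x + ℓ y) → (∀ x y, d x y = -conj (d y x)) →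
    FB ℓ (fun x y => d x y) a₀ C → ∃ U₀ : ℝ → Op Λ, ∀ (F₀ : Finset Λ) (ε : ℝ), 0 < ε →
      ∃ (F₁ : Finset Λ) (δ : ℝ), 0 < δ ∧ ∀ (Γ : Type) [Group Γ] (f : Λ →* Γ)
        (hf : Function.Injective f) (U' : ℝ → Op Γ) (d' : Γ → H Γ), Fl f.range U' d' →
        (∀ x ∈ F₁, ‖d' (f x) - emb f hf (d x)‖ ≤ δ) → ∀ x ∈ F₀,
          ‖U' 1 (dl (f x)) - emb f hf (U₀ 1 (dl x))‖ ≤ ε ∧
          ‖U' (-1) (dl (f x)) - emb f hf (U₀ (-1) (dl x))‖ ≤ ε

/-- The flow seen in a larger group. -/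
def TKStmt : Prop :=
  ∀ (Λ Γ : Type) [Group Λ] [Group Γ] (ℓ : Λ → ℕ) (d : Λ → H Λ) (a₀ C : ℝ) (f : Λ →* Γ)
    (hf : Function.Injective f), 0 < a₀ → (∀ x y, ℓ (x * y) ≤ ℓ x + ℓ y) →
    (∀ x y, d x y = -conj (d y x)) → (∀ x y, d (x * y) = rho y⁻¹ (d x) + lam x (d y)) →
    FB ℓ (fun x y => d x y) a₀ C →
    ∃ U d', PF f.range U d' ∧ ∀ x, d' (f x) = emb f hf (d x)

/-- Analytic cocycles are dense. -/
def Dense0 (G : Type) [Group G] : Prop :=
  ∀ (Γ : Type) [Group Γ] (ℓ : Γ → ℕ) (ι : G →* Γ) (R : Subgroup Γ) (c : G → H Γ),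
    Function.Injective ι → (∀ x, ι x ∈ R) → Cz ι c → (∀ x, Rl R (c x)) →
    ∀ (S : Finset G) (ε : ℝ), 0 < ε → ∃ β, Z0 ℓ R ι β ∧ ∀ s ∈ S, ‖β s (dl 1) - c s‖ ≤ ε

def DenseStmt : Prop := ∀ (G : Type) [Group G], Hier G → CT G → QF G ∧ Dense0 G

/-- A cocycle that is small at `w` is close to one that vanishes at `w`. -/
def VanStmt : Prop :=
  ∀ (G Γ : Type) [Group G] [Group Γ] (ℓ : Γ → ℕ) (ι : G →* Γ) (R : Subgroup Γ) (w : G)
    (S : Finset G) (b : G → H Γ) (ε : ℝ), CT G → Q0 G → Function.Injective ι → (∀ x, ι x ∈ R) →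
    w ≠ 1 → 0 < ε → ∃ δ : ℝ, 0 < δ ∧ ∀ γ, Z0 ℓ R ι γ → ‖γ w (dl 1)‖ ≤ δ →
      (∀ s ∈ S, ‖γ s (dl 1) - b s‖ ≤ δ) → ∃ γ', Co ι γ' ∧ (∀ x, An ℓ R (γ' x)) ∧
        (∀ x, x * w = w * x → γ' x = 0) ∧ ∀ s ∈ S, ‖γ' s (dl 1) - b s‖ ≤ ε

/-- An analytic cocycle on a larger group close to a given one. -/
def LiftStmt : Prop :=
  ∀ (Γ Λ : Type) [Group Γ] [Group Λ] (ℓ : Λ → ℕ) (K L E : Subgroup Γ) (ι : K →* Λ) (f : Λ →* Γ)
    (hf : Function.Injective f) (b₀ : Γ → H Γ), (∀ x : K, f (ι x) = x) → CT Γ → Hier K → L ≤ K →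
    IND K L → E ≤ L → (∀ x ∈ E, ∀ x' ∈ E, x * x' = x' * x) → Cy L b₀ →
    (∀ x ∈ L, Rl K (b₀ x)) → (∀ x ∈ E, b₀ x = 0) → ∀ S : Finset Γ, (∀ s ∈ S, s ∈ L) →
    ∀ ε : ℝ, 0 < ε → ∃ β : K → Op Λ, Co ι β ∧ (∀ x, An ℓ ι.range (β x)) ∧
      (∀ x : K, (x : Γ) ∈ E → β x = 0) ∧
      ∀ x : K, (x : Γ) ∈ S → ‖emb f hf (β x (dl 1)) - b₀ x‖ ≤ ε

/-- The flow on a finitely generated stage. -/
def StageStmt : Prop :=
  ∀ (Γ : Type) [Group Γ] (A F : Subgroup Γ) (y : Γ) (deg : Γ →* Multiplicative ℤ)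
    (K L E : Subgroup Γ) (X : CA Γ) (b₀ : Γ → H Γ), Tri A F y deg → CT Γ → F.FG → K ≤ A →
    K.FG → Hier K → L ≤ K → IND K L → E ≤ L → (∀ x ∈ E, ∀ x' ∈ E, x * x' = x' * x) →
    Cy L b₀ → (∀ x ∈ L, Rl K (b₀ x)) → (∀ x ∈ E, b₀ x = 0) → IsSelfAdjoint (op X) →
    Supp (La E F y deg) (hat X) → ∀ S : Finset Γ, (∀ s ∈ S, s ∈ L) → ∀ ε : ℝ, 0 < ε →
    ∃ b U d, Cy K b ∧ (∀ x ∈ K, Rl K (b x)) ∧ (∀ x ∈ E, b x = 0) ∧
      (∀ s ∈ S, ‖b s - b₀ s‖ ≤ ε) ∧ PF (K ⊔ F ⊔ Subgroup.zpowers y) U d ∧ (∀ x ∈ F, d x = 0) ∧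
      d y = 0 ∧ ∀ g ∈ K, d g = Complex.I • rho g⁻¹ (adH A X (b g))

/-- A limit of automorphisms of an increasing chain. -/
def LimitStmt : Prop :=
  ∀ (Γ : Type) [Group Γ] (K : ℕ → Subgroup Γ) (π : ℕ → Γ → Op Γ) (W V : ℕ → Op Γ), Monotone K →
    (∀ x, ∃ j, x ∈ K j) → (∀ j, ∀ x ∈ K j, ∀ y ∈ K j, π j (x * y) = π j x * π j y) →
    (∀ j, ∀ x ∈ K j, UL (π j x)) → (∀ j, ∀ x ∈ K j, x ≠ 1 → π j x (dl 1) 1 = 0) →
    (∀ j, ∀ x ∈ K j, W j (dl x) = π j x (dl 1)) → (∀ j, ‖W j‖ ≤ 1) →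
    (∀ j, ∀ x ∈ K j, W j (V j (dl x)) = dl x) → (∀ x, CauchySeq fun j => W j (dl x)) →
    (∀ x, CauchySeq fun j => V j (dl x)) →
    ∃ α : Γ →* Op Γ, Gen α ∧ ∀ x, Tendsto (fun j => W j (dl x)) atTop (𝓝 (α x (dl 1)))

/-- The global flow. -/
def GFStmt : Prop :=
  ∀ (Γ : Type) [Group Γ] [Countable Γ] (A F : Subgroup Γ) (y : Γ) (deg : Γ →* Multiplicative ℤ)
    (L E : Subgroup Γ) (X : CA Γ) (b : Γ → H Γ), Tri A F y deg → CT Γ → F.FG → Cof A → L ≤ A →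
    Ind L → E ≤ L → (∀ x ∈ E, ∀ x' ∈ E, x * x' = x' * x) → Cy L b → (∀ x ∈ L, Rl L (b x)) →
    (∀ x ∈ E, b x = 0) → IsSelfAdjoint (op X) → Supp (La E F y deg) (hat X) →
    ∀ S : Finset Γ, (∀ s ∈ S, s ∈ L) → ∀ ε : ℝ, 0 < ε → ∃ α : Γ →* Op Γ, Gen α ∧
      (∀ x ∈ E ⊔ F ⊔ Subgroup.zpowers y, α x = lam x) ∧ ∀ g ∈ S,
        ‖α g (dl 1) - dl g‖ ≤ ‖adH A X (b g)‖ + ε ∧
        ‖α g (dl 1) - NormedSpace.exp (Complex.I • op X) (dl g)‖ ≤
          ‖adH A X (b g) - hat X‖ + ε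

/-! Moves -/

/-- Two free generators are approximately conjugate. -/
def ConjStmt : Prop :=
  ∀ (Γ : Type) [Group Γ] (a b s : Γ) (ε : ℝ), 0 < ε →
    Function.Injective (FreeGroup.lift ![a, b, s] : FreeGroup (Fin 3) →* Γ) →
    ∃ r : Op Γ, UL r ∧ Supp (Subgroup.closure {a, b, s} : Subgroup Γ) (r (dl 1)) ∧
      ‖(r * lam b * star r) (dl 1) - dl a‖ ≤ ε

/-- An approximate logarithm of a unitary of degree one. -/
def ArgStmt : Prop :=
  ∀ ε : ℝ, 0 < ε → ∃ C : ℝ, 0 ≤ C ∧ ∀ (Γ : Type) [Group Γ] (Λ : Subgroup Γ)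
    (deg : Γ →* Multiplicative ℤ) (u : Op Γ) (w : Γ) (η : ℝ), UL u →
    Supp {x | x ∈ Λ ∧ deg x = Multiplicative.ofAdd 1} (u (dl 1)) → 0 < η →
    ∃ X : CA Γ, IsSelfAdjoint (op X) ∧ Supp {x | x ∈ Λ ∧ deg x ≠ 1} (hat X) ∧
      ‖NormedSpace.exp (Complex.I • op X) (dl 1) - u (dl 1)‖ ≤ ε ∧
      ‖hat X - cj w (hat X)‖ ≤ C * ‖(u * lam w - lam w * u) (dl 1)‖ + η

/-- An automorphism that multiplies `t` by a unitary that almost commutes with `w`. -/
def ShiftStmt : Prop :=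
  ∀ (Γ X : Type) [Group Γ] [Group X] [Countable Γ] (A F : Subgroup Γ) (y : Γ)
    (deg : Γ →* Multiplicative ℤ) (ι : X →* Γ) (E : Subgroup X) (β T : X → Op Γ) (w t : X)
    (S : Finset X) (ε : ℝ), Tri A F y deg → CT Γ → F.FG → Cof A → Function.Injective ι →
    ι.range ≤ A → Ind ι.range → (∀ x ∈ E, ∀ x' ∈ E, x * x' = x' * x) → Co ι β →
    (∀ x, An (fun _ => 0) ι.range (β x)) → (∀ x, An (fun _ => 0) ι.range (T x)) →
    (∀ x ∈ E, β x = 0) → (∀ s ∈ S, β s = T s * (1 - lam (ι w))) →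
    β t = 1 + T t * (1 - lam (ι w)) → 0 < ε → ∃ η : ℝ, 0 < η ∧ ∀ u : Op Γ, UL u →
      Supp {x | x ∈ E.map ι ⊔ F ⊔ Subgroup.zpowers y ∧ deg x = Multiplicative.ofAdd 1}
        (u (dl 1)) → ‖(u * lam (ι w) - lam (ι w) * u) (dl 1)‖ ≤ η →
      ∃ α : Γ →* Op Γ, Gen α ∧ (∀ x ∈ E.map ι ⊔ F ⊔ Subgroup.zpowers y, α x = lam x) ∧
        (∀ s ∈ S, ‖α (ι s) (dl 1) - dl (ι s)‖ ≤ ε) ∧ ‖α (ι t) (dl 1) - u (dl (ι t))‖ ≤ ε

/-- `A` can be moved into the algebra of the letters while a free complement is kept. -/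
def Move (A : Type) [Group A] : Prop :=
  ∀ (G B : Type) [Group G] [Group B] (j : Coprod A B →* Gam G), Good G → Group.FG B →
    Function.Injective j → Ind j.range → ∀ (C₀ : Finset ℕ) (Y : Finset A) (S : Finset B) (ε : ℝ),
    0 < ε → ∃ α : Gam G →* Op (Gam G), Gen α ∧
      (∀ s ∈ S, ‖α (j (Coprod.inr s)) (dl 1) - dl (j (Coprod.inr s))‖ ≤ ε) ∧
      ∀ a ∈ Y, Near (fr G (C₀ : Set ℕ)ᶜ) (α (j (Coprod.inl a)) (dl 1)) ε

/-- The same with finitely many new letters kept. -/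
def MoveL (A : Type) [Group A] : Prop :=
  ∀ (G B : Type) [Group G] [Group B] (j : Coprod A B →* Gam G), Good G → Group.FG B →
    Function.Injective j → Ind j.range → ∀ (C₀ C₁ : Finset ℕ) (Y : Finset A) (S : Finset B)
    (ε : ℝ), j.range ≤ sub G (C₁ : Set ℕ)ᶜ → 0 < ε → ∃ α : Gam G →* Op (Gam G), Gen α ∧
      (∀ s ∈ S, ‖α (j (Coprod.inr s)) (dl 1) - dl (j (Coprod.inr s))‖ ≤ ε) ∧
      (∀ n ∈ C₁, ‖α (lt G n) (dl 1) - dl (lt G n)‖ ≤ ε) ∧
      ∀ a ∈ Y, Near (fr G (C₀ : Set ℕ)ᶜ) (α (j (Coprod.inl a)) (dl 1)) ε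

/-- An abelian group is approximately conjugate into a free group. -/
def AbcStmt : Prop :=
  ∀ (A : Type) [Group A], Group.FG A → CT A → ¬ NA A → ∀ (Y : Finset A) (ε : ℝ), 0 < ε →
    ∃ r : Op (FZ (FZ A)), UL r ∧ ∀ a ∈ Y,
      Near (Subgroup.zpowers (gen (FZ A)))
        ((r * (lam (Coprod.inl (Coprod.inl a) : FZ (FZ A)) : Op (FZ (FZ A))) * star r) (dl 1)) ε

def MvAbStmt : Prop := ∀ (A : Type) [Group A], Group.FG A → CT A → ¬ NA A → Move A

/-- A cocycle with value one at `c` that is inner at `c'`. -/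
def Gap {P : Type} [Group P] (c c' : P) : Prop :=
  ∀ (Γ : Type) [Group Γ] (ι : P →* Γ), Function.Injective ι → ∃ (β : P → Op Γ) (ξ : Op Γ),
    Co ι β ∧ (∀ x, An (fun _ => 0) ι.range (β x)) ∧ An (fun _ => 0) ι.range ξ ∧ β c = 1 ∧
      β c' = (1 - lam (ι c')) * ξ

/-- The base of an HNN extension is independent. -/
def HnIndStmt : Prop :=
  ∀ (P A B Γ : Type) [Group P] [Group A] [Group B] [Group Γ] (c c' : P) (f : P →* A) (t : A)
    (j : Coprod A B →* Γ), FG.Hn c' c f t → InfOrd c → InfOrd c' → Gap c c' →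
    Function.Injective j → IND j.range (j.comp (Coprod.map f (MonoidHom.id B))).range

def MvHnStmt : Prop :=
  ∀ (P A : Type) [Group P] [Group A] (c c' : P) (f : P →* A) (t : A), FG.Hn c' c f t →
    InfOrd c → InfOrd c' → Gap c c' → Group.FG P → MoveL P → Move A

/-- Letters, free products, free factors. -/
structure MvFrStmt : Prop where
  letters : ∀ (A : Type) [Group A], Move A → MoveL A
  prod : ∀ (A₁ A₂ : Type) [Group A₁] [Group A₂], Group.FG A₁ → Group.FG A₂ → Move A₁ → Move A₂ →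
    Move (Coprod A₁ A₂)
  fz : ∀ (A : Type) [Group A], Move (FZ A) → Move A
  iso : ∀ (A A' : Type) [Group A] [Group A'], (A ≃* A') → Move A → Move A'

def MoveStmt : Prop := ∀ (A : Type) [Group A], Hier A → CT A → Move A

/-! The end -/

/-- One-sided intertwining with approximate containment. -/
def Int2Stmt : Prop :=
  ∀ (G Λ : Type) [Group G] [Group Λ] [Countable Λ] (f : G →* Λ), Function.Injective f →
    (∀ (E : Finset G) (F : Finset Λ) (η : ℝ), 0 < η → ∃ α : Λ →* Op Λ, Gen α ∧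
      (∀ g ∈ E, ‖α (f g) (dl 1) - dl (f g)‖ ≤ η) ∧ ∀ x ∈ F, Near f.range (α x (dl 1)) η) →
    ∃ π : G →* Op Λ, Gen π

/-- One letter is moved into the algebra of `G`. -/
def AbsOneStmt : Prop :=
  ∀ (G : Type) [Group G], Good G → NA G → ∀ (n : ℕ) (C : Finset ℕ) (S : Finset G) (ε : ℝ),
    n ∉ C → 0 < ε → ∃ (α : Gam G →* Op (Gam G)) (w : G), Gen α ∧
      (∀ s ∈ S, ‖α (Coprod.inl s) (dl 1) - dl (Coprod.inl s)‖ ≤ ε) ∧
      (∀ m ∈ C, ‖α (lt G m) (dl 1) - dl (lt G m)‖ ≤ ε) ∧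
      ‖α (lt G n) (dl 1) - dl (Coprod.inl w)‖ ≤ ε

def AbsAllStmt : Prop :=
  ∀ (G : Type) [Group G], Good G → NA G → ∃ π : G →* Op (Gam G), Gen π

def FreeAllStmt : Prop :=
  ∀ (G : Type) [Group G], Good G → ∃ π : FreeGroup ℕ →* Op (Gam G), Gen π

/-- The final statement. -/
def UnionStmt : Prop :=
  ∀ (G : Type) [Group G], Countable G → Lim G → NA G → VNIso G (FreeGroup ℕ)

end

end Pool.Agent.MP_494aff_an.Un

end MrgPart2

-- marker of a merged file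
example : 731051 + 788671 = 731051 + 788671 := rfl
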