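import Mathlib
import Pool.Agent.MP_494aff_an.un.Spec

/-! An approximate logarithm of a unitary of degree one. -/

open Monoid Filter Topology Complex
open scoped InnerProductSpace ComplexConjugate

namespace Pool.Agent.MP_494aff_an.Un

open Pool.Agent.MP_494aff_an.Pinch Pool.Agent.MP_494aff_an.Pinch.TowP Pool.Agent.MP_494aff_an.Lf

noncomputable section

namespace ArgP

open Hs SimA

variable {Γ : Type} [Group Γ] {u : Op Γ}

/-- The analytic half. -/
def pu (u : Op Γ) (r : ℝ) (N : ℕ) : Op Γ := ∑ j ∈ Finset.range (N + 1), (co r j : ℂ) • u ^ j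

/-- The trigonometric polynomial in `u`. -/
def xu (u : Op Γ) (r : ℝ) (N : ℕ) : Op Γ := (-I) • (pu u r N - star (pu u r N))

lemma normal (hu : UL u) : IsStarNormal u := ⟨hu.2.1.trans hu.2.2.symm⟩

lemma spec (hu : UL u) {z : ℂ} (hz : z ∈ spectrum ℂ u) : ‖z‖ = 1 := by
  have h1 : u ∈ unitary (Op Γ) := Unitary.mem_iff.2 hu.2
  exact mem_sphere_zero_iff_norm.1 (spectrum.subset_circle_of_unitary h1 hz)

lemma pu_eq (hu : UL u) (r : ℝ) (N : ℕ) : pu u r N = cfc (tp r N) u := by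
  have := normal hu
  rw [tp_eq, cfc_sum _ _ _ (fun j _ => by fun_prop), pu]
  refine Finset.sum_congr rfl fun j _ => ?_
  rw [cfc_const_mul _ _ _ (by fun_prop), cfc_pow_id u j this]

lemma xu_eq (hu : UL u) (r : ℝ) (N : ℕ) : xu u r N = cfc (gg r N) u := by
  have h := cont_tp r N
  have e : gg r N = fun z => -I * (tp r N z - star (tp r N z)) := rfl
  have c1 : Continuous fun z => tp r N z - star (tp r N z) := h.sub h.star
  rw [xu, pu_eq hu, e, cfc_const_mul _ _ _ c1.continuousOn,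
    cfc_sub _ _ _ h.continuousOn h.star.continuousOn, cfc_star]

lemma xu_sa (hu : UL u) (r : ℝ) (N : ℕ) : IsSelfAdjoint (xu u r N) := by
  rw [IsSelfAdjoint, xu_eq hu, ← cfc_star]
  congr 1
  ext z
  rw [gg_eq]
  exact conj_ofReal _

lemma pu_mem (hu : UL u) (r : ℝ) (N : ℕ) : pu u r N ∈ LL Γ :=
  sum_mem fun j _ => SMulMemClass.smul_mem _ (pow_mem hu.1 j)

lemma xu_mem (hu : UL u) (r : ℝ) (N : ℕ) : xu u r N ∈ LL Γ :=
  SMulMemClass.smul_mem _ (sub_mem (pu_mem hu r N) (star_mem (pu_mem hu r N)))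

lemma exp_xu (hu : UL u) (r : ℝ) (N : ℕ) :
    NormedSpace.exp (I • xu u r N) = cfc (fun z => cexp (I * gg r N z)) u := by
  have := normal hu
  have h := cont_gg r N
  rw [xu_eq hu, ← cfc_const_mul _ _ _ h.continuousOn,
    cfc_comp' cexp (fun z => I * gg r N z) _ continuous_exp.continuousOn
      (continuous_const.mul h).continuousOn,
    CFC.complex_exp_eq_normedSpace_exp (cfc_predicate _ _)]

lemma exp_op (hu : UL u) {r : ℝ} {N : ℕ} (h0 : 0 ≤ r) (h1 : r < 1)
    (hN : 1 ≤ (1 - r) ^ 2 * (N + 1)) :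
    ‖NormedSpace.exp (I • xu u r N) * (1 + (r : ℂ) • star u) - (1 + (r : ℂ) • u)‖ ≤
      4 * (1 - r) := by
  have := normal hu
  have h := cont_gg r N
  have e1 : (1 + (r : ℂ) • star u : Op Γ) = cfc (fun z : ℂ => 1 + r * star z) u := by
    rw [cfc_const_add _ _ _ (by fun_prop), cfc_const_mul _ _ _ (by fun_prop),
      cfc_star_id (a := u), map_one]
  have e2 : (1 + (r : ℂ) • u : Op Γ) = cfc (fun z : ℂ => 1 + r * z) u := by
    rw [cfc_const_add _ _ _ (by fun_prop), cfc_const_mul _ _ _ (by fun_prop), cfc_id' ℂ u,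
      map_one]
  have c1 : Continuous fun z => cexp (I * gg r N z) := continuous_exp.comp (continuous_const.mul h)
  have c2 : Continuous fun z : ℂ => 1 + r * star z :=
    continuous_const.add (continuous_const.mul continuous_star)
  have c3 : Continuous fun z : ℂ => 1 + r * z :=
    continuous_const.add (continuous_const.mul continuous_id)
  have c4 : Continuous fun z => cexp (I * gg r N z) * (1 + r * star z) := c1.mul c2
  rw [exp_xu hu, e1, e2, ← cfc_mul _ _ _ c1.continuousOn c2.continuousOn,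
    ← cfc_sub _ _ _ c4.continuousOn c3.continuousOn]
  exact norm_cfc_le (by linarith) fun z hz => exp_close h0 h1 hN (spec hu hz)

lemma UL_pow (hu : UL u) (k : ℕ) : UL (u ^ k) := by
  induction k with
  | zero => rw [pow_zero]; exact UL_one
  | succ k ih => rw [pow_succ]; exact UL_mul ih hu

lemma exists_xi {d : Op Γ} (hd : UL d) (ho : ∀ k : ℕ, (d ^ (k + 1)) (dl 1) 1 = 0) {r : ℝ}
    (h0 : 0 ≤ r) (h1 : r < 1) :
    ∃ ξ : H Γ, ξ + (r : ℂ) • d ξ = dl 1 ∧ (1 - r ^ 2) * ‖ξ‖ ^ 2 = 1 := by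
  have hs : Summable fun k : ℕ => (-(r : ℂ)) ^ k • (d ^ k) (dl 1) := by
    refine Summable.of_norm ?_
    have hn : ∀ k : ℕ, ‖(d ^ k) (dl 1)‖ = 1 := fun k => by
      rw [norm_of_star_mul_self (UL_pow hd k).2.1, norm_dl]
    simp only [norm_smul, norm_pow, norm_neg, norm_real, Real.norm_of_nonneg h0, hn, mul_one]
    exact summable_geometric_of_lt_one h0 h1
  set ξ : H Γ := ∑' k : ℕ, (-(r : ℂ)) ^ k • (d ^ k) (dl 1) with hξ
  have h2 : HasSum (fun k : ℕ => (-(r : ℂ)) ^ k • (d ^ (k + 1)) (dl 1)) (d ξ) := by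
    have e : (fun k : ℕ => (-(r : ℂ)) ^ k • (d ^ (k + 1)) (dl 1)) =
        fun k : ℕ => d ((-(r : ℂ)) ^ k • (d ^ k) (dl 1)) := by
      funext k
      rw [map_smul, pow_succ', mul_ap]
    rw [e]
    exact hs.hasSum.mapL d
  have h3 : ξ = dl 1 + (-(r : ℂ)) • d ξ := by
    conv_lhs => rw [hξ, hs.tsum_eq_zero_add]
    rw [pow_zero, pow_zero, one_smul, one_ap, ← (h2.const_smul (-(r : ℂ))).tsum_eq]
    simp only [smul_smul, ← pow_succ']
  have h4 : ⟪dl (1 : Γ), d ξ⟫_ℂ = 0 := by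
    have := h2.mapL (innerSL ℂ (dl (1 : Γ)))
    simp only [innerSL_apply_apply, inner_smul_right, inner_dl, ho, mul_zero] at this
    rw [inner_dl]
    exact this.unique hasSum_zero
  refine ⟨ξ, ?_, ?_⟩
  · rw [neg_smul, ← sub_eq_add_neg] at h3
    exact eq_sub_iff_add_eq.1 h3
  · have h6 := norm_add_sq_eq_norm_sq_add_norm_sq_of_inner_eq_zero (𝕜 := ℂ) (dl (1 : Γ))
      ((-(r : ℂ)) • d ξ) (by rw [inner_smul_right, h4, mul_zero])
    rw [← h3, norm_dl, norm_smul, norm_neg, norm_real, Real.norm_of_nonneg h0,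
      norm_of_star_mul_self hd.2.1] at h6
    nlinarith

lemma exp_vec (hu : UL u) (ho : ∀ k : ℕ, (star u ^ (k + 1)) (dl 1) 1 = 0) {r : ℝ} {N : ℕ}
    (h0 : 0 ≤ r) (h1 : r < 1) (hN : 1 ≤ (1 - r) ^ 2 * (N + 1)) :
    ‖NormedSpace.exp (I • xu u r N) (dl 1) - u (dl 1)‖ ≤ 6 * √(1 - r) := by
  obtain ⟨ξ, h2, h3⟩ := exists_xi (UL_star hu) ho h0 h1
  set E := NormedSpace.exp (I • xu u r N) with hE
  have h4 : u (dl 1) = u ξ + (r : ℂ) • ξ := by
    rw [← h2, map_add, map_smul, ← mul_ap, hu.2.2, one_ap]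
  have h5 : E (dl 1) - u (dl 1) = (E * (1 + (r : ℂ) • star u) - (1 + (r : ℂ) • u)) ξ +
      ((1 - r : ℝ) : ℂ) • (ξ - u ξ) := by
    rw [h4, ← h2]
    simp only [sub_apply, mul_ap, add_apply, one_ap, smul_apply]
    push_cast
    module
  have h6 : ‖ξ - u ξ‖ ≤ 2 * ‖ξ‖ := by
    have := norm_sub_le ξ (u ξ)
    rw [norm_of_star_mul_self hu.2.1] at this
    linarith
  have hd : 0 < 1 - r := by linarith
  have h7 : ‖E (dl 1) - u (dl 1)‖ ≤ 6 * ((1 - r) * ‖ξ‖) := by
    rw [h5]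
    refine (norm_add_le _ _).trans ?_
    have a1 := (ContinuousLinearMap.le_opNorm _ ξ).trans
      (mul_le_mul_of_nonneg_right (exp_op hu h0 h1 hN) (norm_nonneg ξ))
    rw [norm_smul, norm_real, Real.norm_of_nonneg hd.le]
    have a2 := mul_le_mul_of_nonneg_left h6 hd.le
    rw [← hE] at a1
    linarith
  refine h7.trans (mul_le_mul_of_nonneg_left ?_ (by norm_num))
  refine Real.le_sqrt_of_sq_le ?_
  have h8 : (1 - r) * ‖ξ‖ ^ 2 ≤ 1 := by nlinarith [sq_nonneg ‖ξ‖, mul_nonneg h0 hd.le]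
  nlinarith

/-- The exponential is Lipschitz for the norm of the coefficients. -/
lemma exp_diff {X Y : Op Γ} (hX : IsSelfAdjoint X) (hY : IsSelfAdjoint Y) (mX : X ∈ LL Γ)
    (mY : Y ∈ LL Γ) :
    ‖NormedSpace.exp (I • X) (dl 1) - NormedSpace.exp (I • Y) (dl 1)‖ ≤ ‖(X - Y) (dl 1)‖ := by
  have eY : -(I • -Y) = I • Y := by simp
  have eX : -(I • -X) = I • X := by simp
  have h1 : ∀ t : ℝ, HasDerivAt
      (fun s : ℝ => NormedSpace.exp (s • -(I • X)) (NormedSpace.exp (s • I • Y) (dl 1)))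
      (NormedSpace.exp (t • -(I • X))
        ((-I) • (X - Y) (NormedSpace.exp (t • I • Y) (dl 1)))) t := fun t => by
    have h2 := Fl3.der_exp (-(I • X)) t
    have h2' := Fl3.der_exp (I • Y) t
    have h3 := ((ContinuousLinearMap.restrictScalarsL ℂ (H Γ) (H Γ) ℝ ℝ).hasFDerivAt.comp_hasDerivAt
      t h2').clm_apply (hasDerivAt_const t (dl (1 : Γ)))
    have h4 := ((ContinuousLinearMap.restrictScalarsL ℂ (H Γ) (H Γ) ℝ ℝ).hasFDerivAt.comp_hasDerivAt
      t h2).clm_apply h3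
    have hc : NormedSpace.exp (t • I • Y) * (I • Y) = (I • Y) * NormedSpace.exp (t • I • Y) :=
      (Commute.exp_right ((Commute.refl (I • Y)).smul_right t)).eq.symm
    have h5 : NormedSpace.exp (t • -(I • X))
        ((-I) • (X - Y) (NormedSpace.exp (t • I • Y) (dl 1))) =
        (NormedSpace.exp (t • -(I • X)) * -(I • X)) (NormedSpace.exp (t • I • Y) (dl 1)) +
        NormedSpace.exp (t • -(I • X)) ((NormedSpace.exp (t • I • Y) * (I • Y)) (dl 1) + 0) := by
      rw [hc, mul_ap, mul_ap, ← map_add, neg_apply, smul_apply, smul_apply, sub_apply]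
      congr 1
      module
    rw [h5]
    exact h4.congr_deriv (by simp)
  have h4 := Fl3.move_le h1 (c := ‖(X - Y) (dl 1)‖) fun t => by
    have mE : NormedSpace.exp (t • I • Y) ∈ LL Γ := mem_LL.2 fun x =>
      Commute.exp_right (Commute.smul_right (Commute.smul_right (mem_LL.1 mY x) _) _)
    have nE : ‖NormedSpace.exp (t • I • Y)‖ ≤ 1 :=
      ContinuousLinearMap.opNorm_le_bound _ zero_le_one fun ξ => by
        rw [← eY, Fl3.exp_norm hY.neg, one_mul]
    rw [Fl3.exp_norm hX, norm_smul, norm_neg, norm_I, one_mul]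
    exact (norm_mul_hat (sub_mem mX mY) mE).trans (mul_le_of_le_one_right (norm_nonneg _) nE)
  have h5 := Fl3.exp_norm hX.neg 1
    (NormedSpace.exp (-(I • X)) (NormedSpace.exp (I • Y) (dl 1)) - dl 1)
  rw [eX, one_smul, map_sub, ← mul_ap, Fl3.exp_inv, one_ap, norm_sub_rev] at h5
  rw [zero_smul, zero_smul, NormedSpace.exp_zero, one_ap, one_ap, one_smul, one_smul] at h4
  exact h5.trans_le h4

/-- The defect of invariance under conjugation. -/
def df (w : Γ) (m : Op Γ) : Op Γ := m - lam w * m * lam w⁻¹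

lemma df_mem (w : Γ) {m : Op Γ} (hm : m ∈ LL Γ) : df w m ∈ LL Γ :=
  sub_mem hm (mul_mem (mul_mem (lam_mem w) hm) (lam_mem _))

lemma df_hat (w : Γ) {m : Op Γ} (hm : m ∈ LL Γ) : m (dl 1) - cj w (m (dl 1)) = df w m (dl 1) := by
  show _ - lam w (rho w (m (dl 1))) = _
  rw [rho_LL hm, rho_dl, df, sub_apply, mul_ap, mul_ap, lam_dl, mul_one, one_mul]

lemma df_star (w : Γ) (m : Op Γ) : df w (star m) = star (df w m) := by
  rw [df, df, star_sub, star_mul, star_mul, star_lam, star_lam, inv_inv, mul_assoc]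

lemma df_comm (w : Γ) {m : Op Γ} (hm : m ∈ LL Γ) :
    ‖df w m (dl 1)‖ = ‖(m * lam w - lam w * m) (dl 1)‖ := by
  have e : m * lam w - lam w * m = df w m * lam w := by
    rw [df, sub_mul, mul_assoc _ (lam w⁻¹), ← map_mul, inv_mul_cancel, map_one, mul_one]
  rw [e, mul_ap, lam_one, LL_dl (df_mem w hm) w, rho_norm]

lemma df_pow (hu : UL u) (w : Γ) (k : ℕ) : ‖df w (u ^ k) (dl 1)‖ ≤ k * ‖df w u (dl 1)‖ := by
  induction k with
  | zero =>
    rw [pow_zero, df, mul_one, ← map_mul, mul_inv_cancel, map_one, sub_self]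
    simp
  | succ k ih =>
    have hv : UL (lam w * u * lam w⁻¹) := UL_mul (UL_mul (UL_lam w) hu) (UL_lam _)
    have h1 : lam w⁻¹ * lam w = 1 := by rw [← map_mul, inv_mul_cancel, map_one]
    have e : df w (u ^ (k + 1)) = u ^ k * df w u + df w (u ^ k) * (lam w * u * lam w⁻¹) := by
      have : lam w * u ^ k * lam w⁻¹ * (lam w * u * lam w⁻¹) = lam w * (u ^ k * u) * lam w⁻¹ := by
        calc _ = lam w * u ^ k * (lam w⁻¹ * lam w) * u * lam w⁻¹ := by simp only [mul_assoc]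
          _ = _ := by rw [h1, mul_one]; simp only [mul_assoc]
      rw [df, df, df, sub_mul, this, pow_succ, mul_sub]
      abel
    rw [e, add_apply, mul_ap, mul_ap]
    refine (norm_add_le _ _).trans ?_
    have a1 := norm_of_star_mul_self (UL_pow hu k).2.1 (df w u (dl 1))
    have a2 := (norm_mul_hat (df_mem w (pow_mem hu.1 k)) hv.1).trans
      (mul_le_of_le_one_right (norm_nonneg _) (opNorm_le_one hv.2.1))
    rw [Nat.cast_succ, add_mul, one_mul]
    linarith

lemma df_xu (hu : UL u) (w : Γ) (r : ℝ) (N : ℕ) : ‖df w (xu u r N) (dl 1)‖ ≤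
    2 * (∑ j ∈ Finset.range (N + 1), |co r j| * j) * ‖df w u (dl 1)‖ := by
  have e1 : df w (pu u r N) = ∑ j ∈ Finset.range (N + 1), (co r j : ℂ) • df w (u ^ j) := by
    simp only [df, pu, Finset.mul_sum, Finset.sum_mul, smul_sub, Finset.sum_sub_distrib,
      mul_smul_comm, smul_mul_assoc]
  have h1 : ‖df w (pu u r N) (dl 1)‖ ≤
      (∑ j ∈ Finset.range (N + 1), |co r j| * j) * ‖df w u (dl 1)‖ := by
    rw [e1, _root_.sum_apply, Finset.sum_mul]
    refine (norm_sum_le _ _).trans (Finset.sum_le_sum fun j _ => ?_)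
    rw [smul_apply, norm_smul, norm_real, Real.norm_eq_abs, mul_assoc]
    exact mul_le_mul_of_nonneg_left (df_pow hu w j) (abs_nonneg _)
  have e2 : df w (xu u r N) = (-I) • (df w (pu u r N) - star (df w (pu u r N))) := by
    rw [← df_star]
    simp only [df, xu, mul_smul_comm, smul_mul_assoc, mul_sub, sub_mul, smul_sub]
    abel
  have h2 := norm_star_hat (df_mem w (pu_mem hu r N))
  rw [e2, smul_apply, norm_smul, norm_neg, norm_I, one_mul, sub_apply]
  refine (norm_sub_le _ _).trans ?_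
  linarith

lemma supp_star {m : Op Γ} (hm : m ∈ LL Γ) {X Y : Set Γ} (h : Supp X (m (dl 1)))
    (hXY : ∀ x, x⁻¹ ∈ X → x ∈ Y) : Supp Y (star m (dl 1)) := fun y hy => by
  rw [star_coef hm, h _ fun hx => hy (hXY y hx), map_zero]

lemma supp_pow (hu : UL u) {Λ : Subgroup Γ} {deg : Γ →* Multiplicative ℤ}
    (hs : Supp {x | x ∈ Λ ∧ deg x = Multiplicative.ofAdd 1} (u (dl 1))) (k : ℕ) :
    Supp {x | x ∈ Λ ∧ deg x = Multiplicative.ofAdd (k : ℤ)} ((u ^ k) (dl 1)) := by
  induction k with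
  | zero => exact supp_dl ⟨one_mem _, map_one _⟩
  | succ k ih =>
    rw [pow_succ', mul_ap]
    refine supp_LL hu.1 hs ih fun x hx y hy => ⟨mul_mem hx.1 hy.1, ?_⟩
    rw [map_mul, hx.2, hy.2, ← ofAdd_add]
    push_cast
    rw [add_comm]

lemma supp_xu (hu : UL u) {Λ : Subgroup Γ} {deg : Γ →* Multiplicative ℤ}
    (hs : Supp {x | x ∈ Λ ∧ deg x = Multiplicative.ofAdd 1} (u (dl 1))) (r : ℝ) (N : ℕ) :
    Supp {x | x ∈ Λ ∧ deg x ≠ 1} (xu u r N (dl 1)) := by
  have h1 : Supp {x | x ∈ Λ ∧ deg x ≠ 1} (pu u r N (dl 1)) := by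
    rw [pu, _root_.sum_apply]
    refine supp_sum _ _ fun k _ => ?_
    rw [smul_apply]
    by_cases hk : k = 0
    · subst hk
      have : co r 0 = 0 := by simp [co]
      rw [this, ofReal_zero, zero_smul]
      exact supp_zero _
    · refine Supp.smul ((supp_pow hu hs k).mono fun x hx => And.intro hx.1 ?_) _
      rw [hx.2]
      intro h
      have h5 := congrArg Multiplicative.toAdd h
      simp only [toAdd_one, toAdd_ofAdd] at h5
      omega
  rw [xu, smul_apply, sub_apply]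
  refine (h1.sub (supp_star (pu_mem hu r N) h1 fun x hx => ⟨inv_mem_iff.1 hx.1, fun h => ?_⟩)).smul _
  exact hx.2 (by rw [map_inv, h, _root_.inv_one])

/-- Self adjoint truncations. -/
lemma trunc {m : Op Γ} (hm : m ∈ LL Γ) (hsa : IsSelfAdjoint m) {Z : Set Γ}
    (hZ : ∀ x, x⁻¹ ∈ Z → x ∈ Z) (hs : Supp Z (m (dl 1))) {θ : ℝ} (hθ : 0 < θ) :
    ∃ X : CA Γ, IsSelfAdjoint (op X) ∧ Supp Z (hat X) ∧ ‖(op X - m) (dl 1)‖ ≤ θ := by
  obtain ⟨s, h1⟩ := (Metric.tendsto_nhds.1 (hasSum_dl (m (dl 1))) θ hθ).exists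
  set p : CA Γ := ∑ x ∈ s, MonoidAlgebra.single x (m (dl 1) x) with hp
  set q : CA Γ := ∑ x ∈ s, MonoidAlgebra.single x⁻¹ (conj (m (dl 1) x)) with hq
  have e1 : op q = star (op p) := by
    simp only [hp, hq, map_sum, star_sum]
    refine Finset.sum_congr rfl fun x _ => ?_
    rw [op_single, op_single, star_smul, star_lam]
    rfl
  have e2 : op p (dl 1) = ∑ x ∈ s, m (dl 1) x • dl x := by
    show hat p = _
    simp only [hp, hat_sum, hat_single]
  have h2 : Supp Z (op p (dl 1)) := by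
    rw [e2]
    refine supp_sum _ _ fun x _ => ?_
    by_cases hx : x ∈ Z
    · exact (supp_dl hx).smul _
    · rw [hs x hx, zero_smul]
      exact supp_zero _
  have e3 : op ((1 / 2 : ℂ) • (p + q)) = (1 / 2 : ℂ) • (op p + star (op p)) := by
    rw [map_smul, map_add, e1]
  refine ⟨(1 / 2 : ℂ) • (p + q), ?_, ?_, ?_⟩
  · rw [IsSelfAdjoint, e3, star_smul, star_add, star_star, add_comm]
    simp
  · rw [hat, e3, smul_apply, add_apply]
    exact (h2.add (supp_star (op_mem p) h2 hZ)).smul _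
  · have e4 : op ((1 / 2 : ℂ) • (p + q)) - m = (1 / 2 : ℂ) • ((op p - m) + star (op p - m)) := by
      rw [e3, star_sub, hsa.star_eq]
      module
    have h3 : ‖(op p - m) (dl 1)‖ ≤ θ := by
      rw [sub_apply, e2, ← dist_eq_norm]
      exact h1.le
    have h4 := norm_star_hat (sub_mem (op_mem p) hm)
    have h5 := norm_add_le ((op p - m) (dl 1)) (star (op p - m) (dl 1))
    rw [e4, smul_apply, norm_smul, add_apply]
    have h6 : ‖(1 / 2 : ℂ)‖ = 1 / 2 := by simp
    rw [h6]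
    linarith

end ArgP

open ArgP in
theorem argS : ArgStmt := by
  intro ε hε
  obtain ⟨j, hj⟩ : ∃ j : ℕ, 6 * √(1 - Hs.rr j) < ε / 2 := by
    have := ((Hs.rr_tendsto.const_sub 1).sqrt).const_mul 6
    rw [sub_self, Real.sqrt_zero, mul_zero] at this
    exact (this.eventually (gt_mem_nhds (half_pos hε))).exists
  refine ⟨2 * ∑ i ∈ Finset.range ((j + 1) ^ 2 + 1), |Hs.co (Hs.rr j) i| * i, by positivity, ?_⟩
  intro Γ _ Λ deg u w η hu hs hη
  have hm := xu_mem hu (Hs.rr j) ((j + 1) ^ 2)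
  have hsa := xu_sa hu (Hs.rr j) ((j + 1) ^ 2)
  obtain ⟨X, h1, h2, h3⟩ := trunc hm hsa (Z := {x | x ∈ Λ ∧ deg x ≠ 1})
    (fun x hx => ⟨inv_mem_iff.1 hx.1, fun h => hx.2 (by rw [map_inv, h, _root_.inv_one])⟩)
    (supp_xu hu hs _ _) (lt_min (half_pos hε) (half_pos hη))
  refine ⟨X, h1, h2, ?_, ?_⟩
  · have a1 := exp_diff h1 hsa (op_mem X) hm
    have a2 := exp_vec hu (fun k => by
      rw [← star_pow, star_coef (pow_mem hu.1 _), _root_.inv_one, supp_pow hu hs (k + 1) 1, map_zero]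
      intro h
      have h4 := h.2
      rw [map_one] at h4
      have h5 := congrArg Multiplicative.toAdd h4
      simp only [toAdd_one, toAdd_ofAdd] at h5
      omega) (Hs.rr_nonneg j) (Hs.rr_lt j) (Hs.rr_N j)
    have a3 := norm_sub_le_norm_sub_add_norm_sub (NormedSpace.exp (I • op X) (dl 1))
      (NormedSpace.exp (I • xu u (Hs.rr j) ((j + 1) ^ 2)) (dl 1)) (u (dl 1))
    have a4 := min_le_left (ε / 2) (η / 2)
    linarith
  · have a1 := df_xu hu w (Hs.rr j) ((j + 1) ^ 2)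
    rw [← df_hat w hm, df_comm w hu.1] at a1
    set ζ := xu u (Hs.rr j) ((j + 1) ^ 2) (dl 1) with hζ
    have e : hat X - cj w (hat X) = (ζ - cj w ζ) + ((hat X - ζ) - cj w (hat X - ζ)) := by
      rw [map_sub]
      abel
    have a2 := norm_sub_le (hat X - ζ) (cj w (hat X - ζ))
    have a3 : ‖hat X - ζ‖ ≤ η / 2 := h3.trans (min_le_right _ _)
    rw [cj_norm] at a2
    rw [e]
    refine (norm_add_le _ _).trans ?_
    linarith

end

end Pool.Agent.MP_494aff_an.Un
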