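import Mathlib
import Pool.Agent.MP_494aff_an.rg.Hxs
import Pool.Agent.MP_494aff_an.se.PushA
import Pool.Agent.MP_494aff_an.lf.Scale
import Pool.Agent.MP_494aff_an.lf.Ker
import Pool.Agent.MP_494aff_an.se.Dim
import Pool.Agent.MP_494aff_an.se.Ult

-- ======== part 0: formerly Pool.Agent.MP_494aff_an.rg.AmsA
section MrgPart0

/-! Tools for the dimension counts over a cyclic edge group. -/

open scoped InnerProductSpace ComplexConjugate

namespace Pool.Agent.MP_494aff_an.Rg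

open Pool.Agent.MP_494aff_an.Pinch Pool.Agent.MP_494aff_an.Pinch.TowP Pool.Agent.MP_494aff_an.Lf
open Pool.Agent.MP_494aff_an.Se

noncomputable section

namespace AmsP

variable {A K G Ω Ξ Ξ' κ κ' κ'' μ : Type} [Group A] [Group K] [Group G]

lemma ker_le (hD : DimStmt) [Fintype κ] [Fintype κ'] [Fintype κ'']
    {U : Submodule ℂ (κ'' → H G)} {W : Submodule ℂ (κ → H G)} {R : Submodule ℂ (κ' → H G)}
    {S : (κ'' → H G) →L[ℂ] (κ → H G)} {D : (κ → H G) →L[ℂ] (κ' → H G)} (hU : Se.Inv U)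
    (hW : Se.Inv W) (hS : Eqi S) (hE : Eqi D) (hi : ∀ η, S η = 0 → η = 0)
    (h : ∀ η ∈ U, S η ∈ W ∧ D (S η) = 0) (hR : R ≤ (W.map D.toLinearMap).topologicalClosure) :
    dim U + dim R ≤ dim W := by
  have h1 := hD.rn G _ _ W D hW hE
  have h2 := ZintP.dim_inj hD hU hS fun η _ => hi η
  have h3 : dim (U.map S.toLinearMap) ≤ dim (W ⊓ LinearMap.ker D.toLinearMap) :=
    hD.mono G _ _ _ (by
      rintro _ ⟨η, hη, rfl⟩
      exact h η hη)
  have h4 := hD.mono G _ _ _ hR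
  rw [hD.clo] at h4
  linarith

lemma ker_ge (hD : DimStmt) [Fintype κ] [Fintype κ'] {U W : Submodule ℂ (κ → H G)}
    {R : Submodule ℂ (κ' → H G)} {D : (κ → H G) →L[ℂ] (κ' → H G)} (hW : Se.Inv W) (hE : Eqi D)
    (h : ∀ η ∈ W, D η = 0 → η ∈ U) (hR : ∀ η ∈ W, D η ∈ R) : dim W ≤ dim U + dim R := by
  have h1 := hD.rn G _ _ W D hW hE
  have h3 : dim (W ⊓ LinearMap.ker D.toLinearMap) ≤ dim U :=
    hD.mono G _ _ _ fun η hη => h η hη.1 hη.2
  have h4 : dim (W.map D.toLinearMap) ≤ dim R := hD.mono G _ _ _ (by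
    rintro _ ⟨η, hη, rfl⟩
    exact hR η hη)
  linarith

lemma gn_map {a : κ → Ξ × A × Ξ} {a' : κ' → Ξ' × K × Ξ'} (p : Ξ → Ξ') (f : A →* K) (q : κ → κ')
    (h : ∀ i, a' (q i) = (p (a i).1, f (a i).2.1, p (a i).2.2)) {x y : Ξ} {g : A}
    (hg : Gn a x g y) : Gn a' (p x) (f g) (p y) := by
  induction hg with
  | one x => rw [map_one]; exact Gn.one _
  | fwd i x g _ ih =>
    have := Gn.fwd (a := a') (q i) (p x) (f g) (by rw [h]; exact ih)
    rw [h] at this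
    rw [map_mul]
    exact this
  | bwd i x g _ ih =>
    have := Gn.bwd (a := a') (q i) (p x) (f g) (by rw [h]; exact ih)
    rw [h] at this
    rw [map_mul, map_inv]
    exact this

lemma gn_arrow (a : κ → Ξ × K × Ξ) (i : κ) : Gn a (a i).1 (a i).2.1 (a i).2.2 := by
  have := Gn.fwd (a := a) i _ _ (Gn.one _)
  rwa [mul_one] at this

lemma gc_map {ι : K →* G} {a : κ → Ξ × A × Ξ} {a' : κ' → Ξ' × K × Ξ'} (p : Ξ → Ξ') (f : A →* K)
    (q : κ → κ') (h : ∀ i, a' (q i) = (p (a i).1, f (a i).2.1, p (a i).2.2))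
    {c : Ξ' → K → Ξ' → H G} (hc : Gc ι a' c) :
    Gc (ι.comp f) a fun x g y => c (p x) (f g) (p y) := fun x g y k z h1 h2 => by
  show c (p x) (f (k * g)) (p z) = _
  rw [map_mul]
  exact hc _ _ _ _ _ (gn_map p f q h h1) (gn_map p f q h h2)

lemma sep_comp {σ : K →* Equiv.Perm Ω} (h : Sep σ) {f : A →* K} (hf : Function.Injective f) :
    Sep (σ.comp f) := fun ω ω' hω => by
  obtain ⟨φ, h1, h2⟩ := h ω ω' hω
  exact ⟨φ, fun x y => (h1 x y).comp_injective hf, h2⟩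

lemma exists_sec {f : A →* K} (hf : Function.Injective f) {w : K} (hw : w ∈ f.range) :
    ∃ i : Subgroup.zpowers w →* A, ∀ x, f (i x) = x :=
  ⟨(MonoidHom.ofInjective hf).symm.toMonoidHom.comp
    (Subgroup.inclusion (Subgroup.zpowers_le.2 hw)), fun _ =>
      MonoidHom.apply_ofInjective_symm hf _⟩

lemma gz_gen (w : K) (x : Subgroup.zpowers w) : x ∈ Subgroup.zpowers (gz w) := by
  obtain ⟨_, n, rfl⟩ := x
  exact ⟨n, Subtype.ext rfl⟩

lemma gz_top (w : K) : Subgroup.closure (Set.range fun _ : Unit => gz w) = ⊤ := by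
  rw [Set.range_const, ← Subgroup.zpowers_eq_closure, Subgroup.eq_top_iff']
  exact gz_gen w

lemma zp_comm (w : K) (x y : Subgroup.zpowers w) : x * y = y * x := by
  obtain ⟨_, n, rfl⟩ := x
  obtain ⟨_, m, rfl⟩ := y
  exact Subtype.ext ((Commute.refl w).zpow_zpow n m).eq

lemma cy_sec {ι : K →* G} {f : A →* K} {w : K} {i : Subgroup.zpowers w →* A}
    (hi : ∀ x, f (i x) = x) {α : A → H G} (hα : Cy (ι.comp f) α) :
    Cy (ι.comp (Subgroup.subtype _)) fun x => α (i x) := fun x y => by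
  have := ZintP.cy_comp hα i x y
  simp only [MonoidHom.comp_apply, hi] at this
  exact this

/-- Finitely many steps produce a given group element. -/
lemma exists_steps {S : Type} (σ : K →* Equiv.Perm Ω) (lab : S → K) (s₀ : S) (h0 : lab s₀ = 1)
    (hinv : ∀ s, ∃ s', lab s' = (lab s)⁻¹)
    (hgen : ∀ T : Subgroup K, (∀ s, lab s ∈ T) → ∀ k, k ∈ T) (k : K) (ω : Ω) :
    ∃ X : Set (Ω × S), X.Finite ∧ ∀ R : Ω → K → Prop,
      (∀ ω h k, R ω h → R (σ h ω) k → R ω (k * h)) → (∀ p ∈ X, R p.1 (lab p.2)) → R ω k := by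
  let P : K → Prop := fun k => ∀ ω, ∃ X : Set (Ω × S), X.Finite ∧ ∀ R : Ω → K → Prop,
      (∀ ω h k, R ω h → R (σ h ω) k → R ω (k * h)) → (∀ p ∈ X, R p.1 (lab p.2)) → R ω k
  have h1 : ∀ s, P (lab s) := fun s ω =>
    ⟨{(ω, s)}, Set.finite_singleton _, fun R _ h => h _ rfl⟩
  have h2 : ∀ k h, P k → P h → P (k * h) := fun k h hk hh ω => by
    obtain ⟨X, hX, e⟩ := hh ω
    obtain ⟨X', hX', e'⟩ := hk (σ h ω)
    exact ⟨X ∪ X', hX.union hX', fun R hR hp => hR _ _ _ (e R hR fun p hp' => hp p (Or.inl hp'))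
      (e' R hR fun p hp' => hp p (Or.inr hp'))⟩
  let T : Subgroup K :=
    { carrier := {k | P k ∧ P k⁻¹}
      mul_mem' := fun {x y} hx hy => ⟨h2 _ _ hx.1 hy.1, by
        rw [mul_inv_rev]; exact h2 _ _ hy.2 hx.2⟩
      one_mem' := ⟨h0 ▸ h1 s₀, by rw [inv_one]; exact h0 ▸ h1 s₀⟩
      inv_mem' := fun {x} hx => ⟨hx.2, by rw [inv_inv]; exact hx.1⟩ }
  refine (hgen T (fun s => ⟨h1 s, ?_⟩) k).1 ω
  obtain ⟨s', hs⟩ := hinv s
  exact hs ▸ h1 s'

/-- Restriction of equivariant affine maps to the edge group. -/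
lemma exists_res (hG : GcStmt) (hB : BfStmt) [Fintype μ] {ι : K →* G} {σ : K →* Equiv.Perm Ω}
    {f : A →* K} {w : K} {i : Subgroup.zpowers w →* A} (hι : Function.Injective ι)
    (hf : Function.Injective f) (hi : ∀ x, f (i x) = x) {y : μ → A}
    (hy : Subgroup.closure (Set.range y) = ⊤) {π : Ξ → Ω} {π' : Ξ' → Ω} {j : Ξ → Ξ'}
    (hj : ∀ x, π' (j x) = π x) {a : κ → Ξ × Subgroup.zpowers w × Ξ} {a' : κ' → Ξ' × A × Ξ'}
    (ho : Over (σ.comp f) π' a')
    (hg : ∀ s, Gn a' (j (a s).1) (i (a s).2.1) (j (a s).2.2)) :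
    ∃ R : (μ ⊕ Ξ' → H G) →L[ℂ] (Unit ⊕ Ξ → H G), Eqi R ∧
      (∀ η α, Cy (ι.comp f) α → (∀ m, α (y m) = η (Sum.inl m)) →
        R η = Sum.elim (fun _ => α (i (gz w))) fun x => η (Sum.inr (j x))) ∧
      (∀ η ∈ Af (ι.comp f) y a',
        R η ∈ Af (ι.comp (Subgroup.subtype _)) (fun _ : Unit => gz w) a) ∧
      (∀ v, ∃ η ∈ Af (ι.comp f) y a', R η = tv Ξ (ι w) v) ∧
      ∀ φ, DD (σ.comp f) φ → ∀ x ω, ∃ η ∈ Af (ι.comp f) y a',
        R η = bv (ι.comp f) (σ.comp f) φ x ω (σ w ω) π := by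
  obtain ⟨T, h1, hT⟩ := ZintP.exT (ι.comp f) hy (i (gz w))
  let R : (μ ⊕ Ξ' → H G) →L[ℂ] (Unit ⊕ Ξ → H G) := ContinuousLinearMap.pi
    (Sum.elim (fun _ => T.comp (ZintP.rs G Sum.inl)) fun x =>
      ContinuousLinearMap.proj (Sum.inr (j x)))
  have hR1 : ∀ η u, R η (Sum.inl u) = T fun m => η (Sum.inl m) := fun _ _ => rfl
  have hR2 : ∀ η x, R η (Sum.inr x) = η (Sum.inr (j x)) := fun _ _ => rfl
  clear_value R
  have hR : ∀ η α, Cy (ι.comp f) α → (∀ m, α (y m) = η (Sum.inl m)) →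
      R η = Sum.elim (fun _ => α (i (gz w))) fun x => η (Sum.inr (j x)) := fun η α hα e => by
    funext s
    rcases s with u | x
    · rw [hR1, Sum.elim_inl, hT α hα, funext e]
    · exact hR2 _ _
  have hw : f (i (gz w)) = w := hi _
  refine ⟨R, fun g ξ => ?_, hR, ?_, fun v => ?_, fun φ hφ x ω => ?_⟩
  · funext s
    rcases s with u | x
    · rw [hR1, hR1]
      exact h1 g fun m => ξ (Sum.inl m)
    · rw [hR2, hR2]
  · rintro η ⟨α, hα, e, p⟩
    rw [hR η α hα e]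
    refine ⟨_, cy_sec hi hα, fun _ => rfl, fun s => ?_⟩
    have := hG.af_gn A G Ξ' κ' (ι.comp f) a' α _ hα p _ _ _ (hg s)
    simp only [pv, MonoidHom.comp_apply, hi] at this
    exact this
  · refine ⟨Sum.elim (fun m => v - lam (ι (f (y m))) v) fun _ => v,
      ⟨_, ZintP.cy_cob (ι.comp f) v, fun _ => rfl, fun s => ?_⟩, ?_⟩
    · simp only [pv, Sum.elim_inr]
      abel
    · rw [hR _ _ (ZintP.cy_cob (ι.comp f) v) fun _ => rfl]
      simp only [MonoidHom.comp_apply, hw]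
      rfl
  · obtain ⟨-, -, b3, b4, -⟩ := hB A G Ω (ι.comp f) (σ.comp f) φ x (hι.comp hf) hφ
    have hα : Cy (ι.comp f) fun k => bf (ι.comp f) (σ.comp f) φ x (σ.comp f k ω) ω :=
      fun k k' => by
        rw [b4, add_comm, b3]
        simp only [map_mul, Equiv.Perm.mul_apply]
    refine ⟨Sum.elim (fun m => bf (ι.comp f) (σ.comp f) φ x (σ.comp f (y m) ω) ω)
      fun ξ => bf (ι.comp f) (σ.comp f) φ x (π' ξ) ω, ⟨_, hα, fun _ => rfl, fun s => ?_⟩, ?_⟩
    · simp only [pv, Sum.elim_inr]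
      rw [b4, ho s, add_comm, b3, sub_self]
    · rw [hR _ _ hα fun _ => rfl]
      simp only [MonoidHom.comp_apply, hw, Sum.elim_inr, hj]
      rfl

end AmsP

end

end Pool.Agent.MP_494aff_an.Rg

end MrgPart0

-- ======== part 1: formerly Pool.Agent.MP_494aff_an.rg.Ams
section MrgPart1

/-! The dimension count for an amalgam over a cyclic group. -/

open scoped InnerProductSpace ComplexConjugate

namespace Pool.Agent.MP_494aff_an.Rg

open Pool.Agent.MP_494aff_an.Pinch Pool.Agent.MP_494aff_an.Pinch.TowP Pool.Agent.MP_494aff_an.Lf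
open Pool.Agent.MP_494aff_an.Se

noncomputable section

namespace AmsP

variable {A B K G Ω T ΞA ΞB κA κB κC μA μB : Type} [Group A] [Group B] [Group K] [Group G]

/-- The arrows of the glued groupoid. -/
def glue (f : A →* K) (g : B →* K) (aA : κA → ΞA × A × ΞA) (aB : κB → ΞB × B × ΞB)
    (jA : T → ΞA) (jB : T → ΞB) : κA ⊕ κB ⊕ T → (ΞA ⊕ ΞB) × K × (ΞA ⊕ ΞB) :=
  Sum.elim (fun i => (Sum.inl (aA i).1, f (aA i).2.1, Sum.inl (aA i).2.2))
    (Sum.elim (fun i => (Sum.inr (aB i).1, g (aB i).2.1, Sum.inr (aB i).2.2))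
      fun x => (Sum.inl (jA x), 1, Sum.inr (jB x)))

variable {f : A →* K} {g : B →* K} {aA : κA → ΞA × A × ΞA} {aB : κB → ΞB × B × ΞB}
  {jA : T → ΞA} {jB : T → ΞB} {ι : K →* G} {w : K}

lemma gn_left {x y : ΞA} {h : A} (hx : Gn aA x h y) :
    Gn (glue f g aA aB jA jB) (Sum.inl x) (f h) (Sum.inl y) :=
  gn_map Sum.inl f Sum.inl (fun _ => rfl) hx

lemma gn_right {x y : ΞB} {h : B} (hx : Gn aB x h y) :
    Gn (glue f g aA aB jA jB) (Sum.inr x) (g h) (Sum.inr y) :=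
  gn_map Sum.inr g (fun i => Sum.inr (Sum.inl i)) (fun _ => rfl) hx

lemma gn_mid (x : T) : Gn (glue f g aA aB jA jB) (Sum.inl (jA x)) 1 (Sum.inr (jB x)) :=
  gn_arrow (glue f g aA aB jA jB) (Sum.inr (Sum.inr x))

/-- Cocycles of the glued groupoid. -/
lemma count_zg (hD : DimStmt) (hG : GcStmt) [Fintype T] [Fintype κA] [Fintype κB] [Fintype κC]
    {iA : Subgroup.zpowers w →* A} {iB : Subgroup.zpowers w →* B} (hA : ∀ x, f (iA x) = x)
    (hB : ∀ x, g (iB x) = x) {aC : κC → T × Subgroup.zpowers w × T}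
    (gA : ∀ s, Gn aA (jA (aC s).1) (iA (aC s).2.1) (jA (aC s).2.2))
    (gB : ∀ s, Gn aB (jB (aC s).1) (iB (aC s).2.1) (jB (aC s).2.2)) :
    dim (Zg ι (glue f g aA aB jA jB)) + dim (Ph0 (ι.comp (Subgroup.subtype _)) aC) ≤
      dim (Zg (ι.comp f) aA) + (dim (Zg (ι.comp g) aB) + Fintype.card T) := by
  choose TA eA vA using fun s => hG.ev A G ΞA κA (ι.comp f) aA _ _ _ (gA s)
  choose TB eB vB using fun s => hG.ev B G ΞB κB (ι.comp g) aB _ _ _ (gB s)
  obtain ⟨i1, d1⟩ := hD.sum G κB T _ ⊤ _ (hG.inv_z B G ΞB κB (ι.comp g) aB)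
    ⟨isClosed_univ, fun _ _ _ => trivial⟩ ZintP.mem_pw
  obtain ⟨i2, d2⟩ := hD.sum G κA (κB ⊕ T) _ _ _ (hG.inv_z A G ΞA κA (ι.comp f) aA) i1 ZintP.mem_pw
  rw [d1, hD.top] at d2
  rw [← d2]
  let D : (κA ⊕ κB ⊕ T → H G) →L[ℂ] (κC → H G) := ContinuousLinearMap.pi fun s =>
    (TB s).comp (ZintP.rs G fun i => Sum.inr (Sum.inl i)) +
      (lam (ι (aC s).2.1)).comp (ContinuousLinearMap.proj (Sum.inr (Sum.inr (aC s).1))) -
      ContinuousLinearMap.proj (Sum.inr (Sum.inr (aC s).2.2)) - (TA s).comp (ZintP.rs G Sum.inl)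
  have hDa : ∀ η s, D η s = (TB s fun i => η (Sum.inr (Sum.inl i))) +
      lam (ι (aC s).2.1) (η (Sum.inr (Sum.inr (aC s).1))) - η (Sum.inr (Sum.inr (aC s).2.2)) -
      TA s fun i => η (Sum.inl i) := fun _ _ => rfl
  clear_value D
  refine ker_le hD (S := ContinuousLinearMap.id ℂ _) (D := D) (hG.inv_z K G _ _ ι _) i2
    (fun _ _ => rfl) (fun x ξ => funext fun s => ?_) (fun _ h => h) ?_ ?_
  · simp only [hDa, map_sub, map_add, ZintP.rl]
    rw [eA s x fun i => ξ (Sum.inl i), eB s x fun i => ξ (Sum.inr (Sum.inl i))]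
  · rintro η ⟨c, hc, e⟩
    have cA := gc_map Sum.inl f Sum.inl (a := aA) (fun _ => rfl) hc
    have cB := gc_map Sum.inr g (fun i => Sum.inr (Sum.inl i)) (a := aB) (fun _ => rfl) hc
    refine ⟨⟨⟨_, cA, fun i => e (Sum.inl i)⟩, ⟨_, cB, fun i => e (Sum.inr (Sum.inl i))⟩, trivial⟩,
      funext fun s => ?_⟩
    have h1 := vA s _ cA
    have h2 := vB s _ cB
    have h3 := hc _ _ _ _ _ (gn_mid (aC s).1) (gn_right (gB s))
    have h4 := hc _ _ _ _ _ (gn_left (gA s)) (gn_mid (aC s).2.2)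
    rw [hB, mul_one] at h3
    rw [hA, one_mul, map_one, map_one, h3] at h4
    rw [hA] at h1
    rw [hB] at h2
    have e1 : (fun i => η (Sum.inl i)) = _ := funext fun i => (e (Sum.inl i)).symm
    have e2 : (fun i => η (Sum.inr (Sum.inl i))) = _ :=
      funext fun i => (e (Sum.inr (Sum.inl i))).symm
    rw [ContinuousLinearMap.id_apply, hDa, e1, e2, ← e (Sum.inr (Sum.inr (aC s).1)),
      ← e (Sum.inr (Sum.inr (aC s).2.2)), sub_sub]
    refine sub_eq_zero.2 ?_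
    exact (congrArg₂ (· + ·) h2.symm rfl).trans (h4.trans (congrArg₂ (· + ·) rfl h1))
  · rintro η ⟨φ, e⟩
    refine Submodule.le_topologicalClosure _ ⟨Sum.elim 0 (Sum.elim 0 φ),
      ⟨(Zg (ι.comp f) aA).zero_mem, (Zg (ι.comp g) aB).zero_mem, trivial⟩, funext fun s => ?_⟩
    rw [← e s]
    refine (hDa _ s).trans ?_
    show TB s 0 + _ - _ - TA s 0 = _
    rw [map_zero, map_zero, sub_zero]
    rfl

/-- Cocycles of the amalgam. -/
lemma count_zc (hD : DimStmt) [Fintype μA] [Fintype μB] {c : A} {d : B} (h : Am c d f g)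
    {iA : Subgroup.zpowers (f c) →* A} {iB : Subgroup.zpowers (f c) →* B} (hA : ∀ x, f (iA x) = x)
    (hB : ∀ x, g (iB x) = x) {yA : μA → A} {yB : μB → B}
    (gA : Subgroup.closure (Set.range yA) = ⊤) (gB : Subgroup.closure (Set.range yB) = ⊤) :
    dim (Zc (ι.comp f) yA) + dim (Zc (ι.comp g) yB) ≤
      dim (Zc ι (Sum.elim (fun k => f (yA k)) fun k => g (yB k))) +
      dim (Zc (ι.comp (Subgroup.subtype _)) fun _ : Unit => gz (f c)) := by
  obtain ⟨hW, eW⟩ := hD.sum G μA μB _ _ _ (ZintP.inv_Zc (ι.comp f) gA)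
    (ZintP.inv_Zc (ι.comp g) gB) ZintP.mem_pw
  obtain ⟨TA, h1, hT⟩ := ZintP.exT (ι.comp f) gA c
  obtain ⟨TB, h2, hS⟩ := ZintP.exT (ι.comp g) gB d
  let D : (μA ⊕ μB → H G) →L[ℂ] (Unit → H G) :=
    ContinuousLinearMap.pi fun _ => TA.comp (ZintP.rs G Sum.inl) - TB.comp (ZintP.rs G Sum.inr)
  have hDa : ∀ η, D η = fun _ => TA (fun k => η (Sum.inl k)) - TB fun k => η (Sum.inr k) :=
    fun _ => rfl
  clear_value D
  rw [← eW]
  refine ker_ge hD (D := D) hW (fun x ξ => funext fun _ => ?_) ?_ ?_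
  · simp only [hDa, map_sub]
    rw [h1 x fun k => ξ (Sum.inl k), h2 x fun k => ξ (Sum.inr k)]
  · rintro η ⟨⟨α, hα, e1⟩, ⟨β, hβ, e2⟩⟩ h0
    have h3 : α c = β d := by
      rw [hT α hα, hS β hβ, funext e1, funext e2]
      exact sub_eq_zero.1 (congrFun ((hDa η).symm.trans h0) ())
    obtain ⟨π, p1, p2⟩ := h.pin.lift (ZintP.Af G) (ZintP.toAf hα) (ZintP.toAf hβ)
      (ZintP.Af.ext h3 (congrArg ι h.pin.comm))
    refine ⟨_, ZintP.cy_of (π := π) (h.pin.gen _ (fun p => congrArg ZintP.Af.g (p1 p))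
      fun q => congrArg ZintP.Af.g (p2 q)), ?_⟩
    rintro (k | k)
    · exact (congrArg ZintP.Af.v (p1 _)).trans (e1 k)
    · exact (congrArg ZintP.Af.v (p2 _)).trans (e2 k)
  · rintro η ⟨⟨α, hα, e1⟩, ⟨β, hβ, e2⟩⟩
    have h3 : iA (gz (f c)) = c := h.hf (hA _)
    have h4 : iB (gz (f c)) = d := h.hg ((hB _).trans h.pin.comm)
    have h5 : D η = (fun _ => α (iA (gz (f c)))) - fun _ => β (iB (gz (f c))) := by
      rw [hDa, h3, h4, hT α hα, hS β hβ, funext e1, funext e2]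
      rfl
    rw [h5]
    exact Submodule.sub_mem _ ⟨_, cy_sec hA hα, fun _ => rfl⟩ ⟨_, cy_sec hB hβ, fun _ => rfl⟩

omit [Group G] in
lemma ip_neg {κ : Type} [Fintype κ] (ζ η : κ → H G) : ip ζ (-η) = -ip ζ η := by
  simp [ip]

/-- Equivariant affine maps of the glued groupoid. -/
lemma count_af (hD : DimStmt) (hG : GcStmt) (hF : BfStmt) (hK : KeyAStmt) [Fintype T]
    [Fintype ΞA] [Fintype ΞB] [Fintype κA] [Fintype κB] [Fintype κC] [Fintype μA] [Fintype μB]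
    {c : A} {d : B} (h : Am c d f g) {σ : K →* Equiv.Perm Ω} (hT : TF G)
    (hι : Function.Injective ι) (hσ : Sep σ) {π : T → Ω} (hπ : Function.Injective π)
    {iA : Subgroup.zpowers (f c) →* A} {iB : Subgroup.zpowers (f c) →* B} (hA : ∀ x, f (iA x) = x)
    (hB : ∀ x, g (iB x) = x) {yA : μA → A} {yB : μB → B}
    (gA : Subgroup.closure (Set.range yA) = ⊤) (gB : Subgroup.closure (Set.range yB) = ⊤)
    (gK : Subgroup.closure (Set.range (Sum.elim (fun k => f (yA k)) fun k => g (yB k))) = ⊤)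
    {aC : κC → T × Subgroup.zpowers (f c) × T} (oC : Over (σ.comp (Subgroup.subtype _)) π aC)
    (cC : Cmp (σ.comp (Subgroup.subtype _)) π aC) {πA : ΞA → Ω} {πB : ΞB → Ω}
    (pA : ∀ x, πA (jA x) = π x) (pB : ∀ x, πB (jB x) = π x) (oA : Over (σ.comp f) πA aA)
    (oB : Over (σ.comp g) πB aB)
    (nA : ∀ s, Gn aA (jA (aC s).1) (iA (aC s).2.1) (jA (aC s).2.2))
    (nB : ∀ s, Gn aB (jB (aC s).1) (iB (aC s).2.1) (jB (aC s).2.2)) :
    dim (Af ι (Sum.elim (fun k => f (yA k)) fun k => g (yB k)) (glue f g aA aB jA jB)) +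
      dim (Af (ι.comp (Subgroup.subtype _)) (fun _ : Unit => gz (f c)) aC) ≤
      dim (Af (ι.comp f) yA aA) + dim (Af (ι.comp g) yB aB) := by
  obtain ⟨RA, a1, a2, a3, a4, a5⟩ := exists_res hG hF hι h.hf hA gA pA oA nA
  obtain ⟨RB, b1, b2, b3, -, b5⟩ := exists_res hG hF hι h.hg hB gB pB oB nB
  obtain ⟨hW, eW⟩ := hD.sum G (μA ⊕ ΞA) (μB ⊕ ΞB) _ _ _ (hG.af A G ΞA κA μA (ι.comp f) yA aA gA).1
    (hG.af B G ΞB κB μB (ι.comp g) yB aB gB).1 ZintP.mem_pw
  rw [← eW]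
  let D : ((μA ⊕ ΞA) ⊕ (μB ⊕ ΞB) → H G) →L[ℂ] (Unit ⊕ T → H G) :=
    RA.comp (ZintP.rs G Sum.inl) - RB.comp (ZintP.rs G Sum.inr)
  have hDa : ∀ η, D η = RA (fun k => η (Sum.inl k)) - RB fun k => η (Sum.inr k) := fun _ => rfl
  clear_value D
  let p : (μA ⊕ ΞA) ⊕ (μB ⊕ ΞB) → (μA ⊕ μB) ⊕ (ΞA ⊕ ΞB) :=
    Sum.elim (Sum.map Sum.inl Sum.inl) (Sum.map Sum.inr Sum.inr)
  refine ker_le hD (S := ZintP.rs G p) (D := D) (hG.af K G _ _ _ ι _ _ gK).1 hW
    (fun _ _ => rfl) (fun x ξ => ?_) (fun η h0 => funext ?_) ?_ ?_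
  · rw [hDa, hDa, a1 x fun k => ξ (Sum.inl k), b1 x fun k => ξ (Sum.inr k)]
    exact funext fun s => (map_sub (rho x) _ _).symm
  · rintro ((m | m) | (x | x))
    · exact congrFun h0 (Sum.inl (Sum.inl m))
    · exact congrFun h0 (Sum.inr (Sum.inl m))
    · exact congrFun h0 (Sum.inl (Sum.inr x))
    · exact congrFun h0 (Sum.inr (Sum.inr x))
  · rintro η ⟨γ, hγ, e, q⟩
    refine ⟨⟨⟨_, ZintP.cy_comp hγ f, fun m => e (Sum.inl m), fun i => q (Sum.inl i)⟩,
      ⟨_, ZintP.cy_comp hγ g, fun m => e (Sum.inr m), fun i => q (Sum.inr (Sum.inl i))⟩⟩, ?_⟩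
    rw [hDa, a2 (fun k => ZintP.rs G p η (Sum.inl k)) _ (ZintP.cy_comp hγ f)
        fun m => e (Sum.inl m),
      b2 (fun k => ZintP.rs G p η (Sum.inr k)) _ (ZintP.cy_comp hγ g) fun m => e (Sum.inr m),
      sub_eq_zero, hA, hB]
    funext s
    rcases s with u | x
    · rfl
    · have := q (Sum.inr (Sum.inr x))
      simp only [pv, glue, Sum.elim_inr, ZintP.cy_one hγ, map_one, zero_add] at this
      exact sub_eq_zero.1 this
  · refine (hG.orth G _ _ _ ?_ (hG.af _ G T κC Unit _ _ aC (gz_top (f c))).1.1 ?_).ge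
    · rintro _ ⟨η, hη, rfl⟩
      exact (hDa η).symm ▸ Submodule.sub_mem _ (a3 _ hη.1) (b3 _ hη.2)
    · intro ζ hζ h0
      have h1 : ∀ η ∈ Af (ι.comp f) yA aA, ip ζ (RA η) = 0 := fun η hη =>
        h0 _ ⟨Sum.elim η 0, ⟨hη, (Af (ι.comp g) yB aB).zero_mem⟩, (hDa _).trans (by
          show RA η - RB 0 = _
          rw [map_zero, sub_zero])⟩
      have h2 : ∀ η ∈ Af (ι.comp g) yB aB, ip ζ (RB η) = 0 := fun η hη =>
        neg_eq_zero.1 ((ip_neg ζ _).symm.trans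
          (h0 _ ⟨Sum.elim 0 η, ⟨(Af (ι.comp f) yA aA).zero_mem, hη⟩, (hDa _).trans (by
            show RA 0 - RB η = _
            rw [map_zero, zero_sub])⟩))
      refine hK A B K G Ω T κC c d f g ι σ π aC ζ h hT hι hσ hπ oC cC hζ (fun v => ?_)
        (fun φ hφ x ω => ?_) fun φ hφ x ω => ?_
      · obtain ⟨η, hη, e⟩ := a4 v
        exact e ▸ h1 η hη
      · obtain ⟨η, hη, e⟩ := a5 φ hφ x ω
        exact e ▸ h1 η hη
      · obtain ⟨η, hη, e⟩ := b5 φ hφ x ω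
        exact e ▸ h2 η hη

end AmsP

open AmsP in
theorem ams (hD : DimStmt) (_hC : CocStmt) (hG : GcStmt) (hO : CobStmt) (hB : BfStmt)
    (hK : KeyAStmt) : AmsStmt := by
  intro A B K _ _ _ c d f g h fA fB pA pB G Ω Ξ₀ κ₀ _ _ _ ι σ π₀ a₀ hT hι hσ _ ho
  obtain ⟨iA, hA⟩ := exists_sec h.hf (w := f c) ⟨c, rfl⟩
  obtain ⟨iB, hB'⟩ := exists_sec h.hg (w := f c) ⟨d, h.pin.comm.symm⟩
  choose X hX hR using fun i => exists_steps σ (Sum.elim f g) (Sum.inl 1) (map_one f)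
    (by
      rintro (s | s)
      · exact ⟨Sum.inl s⁻¹, map_inv f s⟩
      · exact ⟨Sum.inr s⁻¹, map_inv g s⟩)
    (fun T hs => h.pin.gen T (fun p => hs (Sum.inl p)) fun q => hs (Sum.inr q))
    (a₀ i).2.1 (π₀ (a₀ i).1)
  have hY : (⋃ i, X i).Finite := Set.finite_iUnion hX
  obtain ⟨Y, hYX⟩ : ∃ Y, Y = ⋃ i, X i := ⟨_, rfl⟩
  rw [← hYX] at hY
  obtain ⟨T, hTd⟩ : ∃ T : Set Ω, T = Set.range π₀ ∪
    ((fun p => p.1) '' Y ∪ (fun p => σ (Sum.elim f g p.2) p.1) '' Y) := ⟨_, rfl⟩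
  have hTf : T.Finite := hTd ▸ (Set.finite_range _).union ((hY.image _).union (hY.image _))
  have t0 : ∀ x, π₀ x ∈ T := fun x => hTd ▸ Or.inl ⟨x, rfl⟩
  have t1 : ∀ p : Y, p.1.1 ∈ T := fun p => hTd ▸ Or.inr (Or.inl ⟨p, p.2, rfl⟩)
  have t2 : ∀ p : Y, σ (Sum.elim f g p.1.2) p.1.1 ∈ T := fun p =>
    hTd ▸ Or.inr (Or.inr ⟨p, p.2, rfl⟩)
  let _ := hY.fintype
  let _ := hTf.fintype
  obtain ⟨κC, _, aC, oC, cC⟩ := hG.cmp _ Ω T (gz (f c)) (σ.comp (Subgroup.subtype _)) Subtype.val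
    (gz_gen (f c))
  have sA : ∀ p : Y, ∃ s : T × A × T, σ (f s.2.1) s.1 = s.2.2 ∧ ∀ u, p.1.2 = Sum.inl u →
      s.1.1 = p.1.1 ∧ s.2.1 = u := by
    intro p
    rcases hp : p.1.2 with u | u
    · exact ⟨(⟨_, t1 p⟩, u, ⟨_, t2 p⟩), (congrArg (fun s => σ (Sum.elim f g s) p.1.1) hp).symm,
        fun u' e => ⟨rfl, Sum.inl_injective e⟩⟩
    · exact ⟨(⟨_, t1 p⟩, 1, ⟨_, t1 p⟩), by simp, fun u' e => by cases e⟩
  have sB : ∀ p : Y, ∃ s : T × B × T, σ (g s.2.1) s.1 = s.2.2 ∧ ∀ u, p.1.2 = Sum.inr u →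
      s.1.1 = p.1.1 ∧ s.2.1 = u := by
    intro p
    rcases hp : p.1.2 with u | u
    · exact ⟨(⟨_, t1 p⟩, 1, ⟨_, t1 p⟩), by simp, fun u' e => by cases e⟩
    · exact ⟨(⟨_, t1 p⟩, u, ⟨_, t2 p⟩), (congrArg (fun s => σ (Sum.elim f g s) p.1.1) hp).symm,
        fun u' e => ⟨rfl, Sum.inr_injective e⟩⟩
  choose sA sA1 sA2 using sA
  choose sB sB1 sB2 using sB
  obtain ⟨ΞA, κA, _, _, πA, jA, aA, pA1, oA, nA, dA⟩ := pA G Ω T (Y ⊕ κC) (ι.comp f) (σ.comp f)
    Subtype.val (Sum.elim sA fun s => ((aC s).1, iA (aC s).2.1, (aC s).2.2)) hT (hι.comp h.hf)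
    (sep_comp hσ h.hf) Subtype.val_injective (by
      rintro (p | s)
      · exact sA1 p
      · exact (congrArg (fun k => σ k (aC s).1.1) (hA _)).trans (oC s))
  obtain ⟨ΞB, κB, _, _, πB, jB, aB, pB1, oB, nB, dB⟩ := pB G Ω T (Y ⊕ κC) (ι.comp g) (σ.comp g)
    Subtype.val (Sum.elim sB fun s => ((aC s).1, iB (aC s).2.1, (aC s).2.2)) hT (hι.comp h.hg)
    (sep_comp hσ h.hg) Subtype.val_injective (by
      rintro (p | s)
      · exact sB1 p
      · exact (congrArg (fun k => σ k (aC s).1.1) (hB' _)).trans (oC s))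
  refine ⟨ΞA ⊕ ΞB, κA ⊕ κB ⊕ T, inferInstance, inferInstance, Sum.elim πA πB,
    fun x => Sum.inl (jA ⟨π₀ x, t0 x⟩), glue f g aA aB jA jB, fun x => pA1 _, ?_, fun i => ?_, ?_⟩
  · rintro (i | i | x)
    · exact oA i
    · exact oB i
    · show σ 1 (πA (jA x)) = πB (jB x)
      rw [map_one, pA1, pB1]
      rfl
  · obtain ⟨x, y, hx, hy, e⟩ := hR i (fun ω k => ∃ x y : T, x.1 = ω ∧ y.1 = σ k ω ∧
        Gn (glue f g aA aB jA jB) (Sum.inl (jA x)) k (Sum.inl (jA y)))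
      (by
        rintro ω k k' ⟨x, y, hx, hy, e⟩ ⟨y', z, hy', hz, e'⟩
        obtain rfl : y = y' := Subtype.ext (hy.trans hy'.symm)
        exact ⟨x, z, hx, by rw [hz, map_mul]; rfl, hG.trans _ _ _ _ _ _ _ _ _ e e'⟩)
      (by
        intro p hp
        have hp' : p ∈ Y := hYX ▸ Set.mem_iUnion.2 ⟨i, hp⟩
        rcases hu : p.2 with u | u
        · obtain ⟨e1, e2⟩ := sA2 ⟨p, hp'⟩ u hu
          refine ⟨_, _, e1, ?_, e2 ▸ gn_left (nA (Sum.inl ⟨p, hp'⟩))⟩
          rw [← e1, ← e2]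
          exact (sA1 _).symm
        · obtain ⟨e1, e2⟩ := sB2 ⟨p, hp'⟩ u hu
          have e3 := hG.trans _ _ _ _ _ _ _ _ _ (hG.trans _ _ _ _ _ _ _ _ _
            (gn_mid (f := f) (g := g) (aA := aA) (aB := aB) (jA := jA) (jB := jB) _)
            (gn_right (nB (Sum.inl ⟨p, hp'⟩)))) (hG.symm _ _ _ _ _ _ _ (gn_mid _))
          rw [inv_one, one_mul, mul_one] at e3
          refine ⟨_, _, e1, ?_, e2 ▸ e3⟩
          rw [← e1, ← e2]
          exact (sB1 _).symm)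
    obtain rfl : x = ⟨_, t0 _⟩ := Subtype.ext hx
    obtain rfl : y = ⟨_, t0 _⟩ := Subtype.ext (hy.trans (ho i))
    exact e
  · obtain ⟨μA, _, yA, gA⟩ := ZintP.fam fA
    obtain ⟨μB, _, yB, gB⟩ := ZintP.fam fB
    have gK : Subgroup.closure
        (Set.range (Sum.elim (fun k => f (yA k)) fun k => g (yB k))) = ⊤ := by
      refine (Subgroup.eq_top_iff' _).2 (h.pin.gen _ (fun p => ?_) fun q => ?_)
      · exact ZintP.map_mem gA f (fun k => by exact Subgroup.subset_closure ⟨Sum.inl k, rfl⟩) p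
      · exact ZintP.map_mem gB g (fun k => by exact Subgroup.subset_closure ⟨Sum.inr k, rfl⟩) q
    have c1 := count_zg (ι := ι) hD hG hA hB' (fun s => nA (Sum.inr s)) fun s => nB (Sum.inr s)
    have c2 := count_zc (ι := ι) hD h hA hB' gA gB
    have c3 := count_af hD hG hB hK h hT hι hσ Subtype.val_injective hA hB' gA gB gK oC cC pA1 pB1
      oA oB (fun s => nA (Sum.inr s)) fun s => nB (Sum.inr s)
    have c4 := (hG.af K G _ _ _ ι _ (glue f g aA aB jA jB) gK).2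
    have c5 := (hG.af A G _ _ _ (ι.comp f) yA aA gA).2
    have c6 := (hG.af B G _ _ _ (ι.comp g) yB aB gB).2
    have c7 := (hG.af _ G _ _ _ (ι.comp (Subgroup.subtype _)) _ aC (gz_top (f c))).2
    have c8 := hO _ G _ _ (ι.comp (Subgroup.subtype _)) aC hT
      (hι.comp (Subgroup.subtype_injective _)) (zp_comm (f c))
    have c9 := hD.mono G _ _ _ (hG.le _ G _ _ (ι.comp (Subgroup.subtype _)) aC).2
    rw [Fintype.card_sum, Nat.cast_add] at c4
    linarith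

end

end Pool.Agent.MP_494aff_an.Rg

end MrgPart1

-- ======== part 2: formerly Pool.Agent.MP_494aff_an.rg.Bf
section MrgPart2

/-! Difference vectors on cosets, and sums over unions of cosets. -/

open scoped InnerProductSpace ComplexConjugate

namespace Pool.Agent.MP_494aff_an.Rg

open Pool.Agent.MP_494aff_an.Pinch Pool.Agent.MP_494aff_an.Pinch.TowP Pool.Agent.MP_494aff_an.Lf
open Pool.Agent.MP_494aff_an.Se

namespace BfP

variable {K G Ω : Type} [Group K] [Group G] {ι : K →* G} {σ : K →* Equiv.Perm Ω} {f : Ω → ℝ}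

theorem inj (hι : Function.Injective ι) (x : G) : Function.Injective fun k => ι k * x :=
  fun _ _ h => hι (mul_right_cancel h)

theorem spec (hι : Function.Injective ι) (hf : DD σ f) (x : G) (ω ω' : Ω) :
    (∀ k, bf ι σ f x ω ω' (ι k * x) = ((f (σ k⁻¹ ω) - f (σ k⁻¹ ω') : ℝ) : ℂ)) ∧
      ∀ z, (∀ k, z ≠ ι k * x) → bf ι σ f x ω ω' z = 0 := by
  have hm : Memℓp (fun k : K => ((f (σ k⁻¹ ω) - f (σ k⁻¹ ω') : ℝ) : ℂ)) 2 := by
    refine memℓp_gen (((hf ω ω').comp_injective inv_injective).congr fun k => ?_)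
    rw [Complex.norm_real, Real.norm_eq_abs, ENNReal.toReal_ofNat, Real.rpow_two, sq_abs]
    rfl
  have h : ∃ ξ : H G, (∀ k, ξ (ι k * x) = ((f (σ k⁻¹ ω) - f (σ k⁻¹ ω') : ℝ) : ℂ)) ∧
      ∀ z, (∀ k, z ≠ ι k * x) → ξ z = 0 :=
    ⟨emb _ (inj hι x) ⟨_, hm⟩, fun k => emb_coef _ (inj hι x) _ k, fun z hz =>
      supp_emb _ (inj hι x) (supp_univ _) z fun ⟨k, _, e⟩ => hz k e.symm⟩
  rw [bf, dif_pos h]
  exact h.choose_spec

end BfP

open BfP

theorem bfS : BfStmt := by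
  intro K G Ω _ _ ι σ f x hι hf
  have h1 := fun ω ω' => (spec hι hf x ω ω').1
  have h2 := fun ω ω' => (spec hι hf x ω ω').2
  refine ⟨h1, h2, fun ω ω' ω'' => lp.ext (funext fun z => ?_),
    fun ω ω' k => lp.ext (funext fun z => ?_), fun ω ω' ζ => ?_⟩
  · rw [lp.coeFn_add, Pi.add_apply]
    by_cases hz : ∀ k, z ≠ ι k * x
    · rw [h2 _ _ z hz, h2 _ _ z hz, h2 _ _ z hz, add_zero]
    · obtain ⟨k, hk⟩ := not_forall.1 hz
      rw [not_not.1 hk, h1, h1, h1]
      push_cast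
      ring
  · rw [lam_coef]
    by_cases hz : ∀ l, z ≠ ι l * x
    · rw [h2 _ _ z hz, h2]
      intro l e
      exact hz (k * l) (by rw [map_mul, mul_assoc, ← e, mul_inv_cancel_left])
    · obtain ⟨l, hl⟩ := not_forall.1 hz
      rw [not_not.1 hl, ← mul_assoc, ← map_inv, ← map_mul, h1, h1]
      simp only [mul_inv_rev, inv_inv, map_mul, Equiv.Perm.mul_apply]
  · have h := lp.hasSum_inner (𝕜 := ℂ) ζ (bf ι σ f x ω ω')
    rw [← (inj hι x).hasSum_iff fun z hz => by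
      rw [h2 ω ω' z fun k e => hz ⟨k, e.symm⟩, inner_zero_right]] at h
    refine (congrArg (HasSum · _) (funext fun k => ?_)).mp h
    rw [Function.comp_apply, h1, RCLike.inner_apply, mul_comm]

theorem lone : LoneStmt := by
  intro A K _ _ f z Y hf hz hY h0
  let e : Quotient (QuotientGroup.rightRel f.range) × A → K := fun p => f p.2 * p.1.out
  have mk : ∀ q a, Quotient.mk _ (e (q, a)) = q := fun q a => by
    conv_rhs => rw [← q.out_eq]
    refine Quotient.sound (QuotientGroup.rightRel_apply.2 ⟨a⁻¹, ?_⟩)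
    simp [e]
  have he : Function.Bijective e := by
    refine ⟨fun ⟨q, a⟩ ⟨q', a'⟩ h => ?_, fun k => ?_⟩
    · obtain rfl : q = q' := by rw [← mk q a, h, mk]
      rw [hf (mul_right_cancel h : f a = f a')]
    · obtain ⟨a, ha⟩ := QuotientGroup.rightRel_apply.1
        (Quotient.exact (Quotient.mk (QuotientGroup.rightRel f.range) k).out_eq)
      exact ⟨(Quotient.mk _ k, a), by simp [e, ha]⟩
  have hs : Summable fun p => Y.indicator z (e p) := (hz.indicator Y).comp_injective he.1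
  rw [← (Equiv.ofBijective e he).tsum_eq]
  refine (hs.tsum_prod.trans (tsum_congr fun q => ?_)).trans tsum_zero
  by_cases hq : q.out ∈ Y
  · rw [← h0 q.out]
    exact tsum_congr fun a => Set.indicator_of_mem (hY a _ hq) z
  · refine (tsum_congr fun a => Set.indicator_of_notMem (fun h => hq ?_) z).trans tsum_zero
    simpa [e] using hY a⁻¹ _ h

end Pool.Agent.MP_494aff_an.Rg

end MrgPart2

-- ======== part 3: formerly Pool.Agent.MP_494aff_an.rg.Bump
section MrgPart3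

/-! Bump functions of finite energy. -/

open Filter Topology

namespace Pool.Agent.MP_494aff_an.Rg

open Pool.Agent.MP_494aff_an.Pinch Pool.Agent.MP_494aff_an.Pinch.TowP Pool.Agent.MP_494aff_an.Lf

namespace Bump

variable {K Ω : Type} [Group K] {σ : K →* Equiv.Perm Ω}

lemma dd_sub {f g : Ω → ℝ} (hf : DD σ f) (hg : DD σ g) : DD σ fun x => f x - g x := by
  intro ω ω'
  refine Summable.of_nonneg_of_le (fun _ => sq_nonneg _) (fun k => ?_)
    (((hf ω ω').mul_left 2).add ((hg ω ω').mul_left 2))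
  nlinarith [sq_nonneg (f (σ k ω) - f (σ k ω') + (g (σ k ω) - g (σ k ω')))]

lemma dd_lip {f : Ω → ℝ} (hf : DD σ f) (φ : ℝ → ℝ) (C : ℝ)
    (h : ∀ s t, |φ s - φ t| ≤ C * |s - t|) : DD σ fun x => φ (f x) := by
  intro ω ω'
  refine Summable.of_nonneg_of_le (fun _ => sq_nonneg _) (fun k => ?_) ((hf ω ω').mul_left (C ^ 2))
  have h1 := pow_le_pow_left₀ (abs_nonneg _) (h (f (σ k ω)) (f (σ k ω'))) 2
  rwa [mul_pow, sq_abs, sq_abs] at h1

lemma dd_mul {f g : Ω → ℝ} (hf : DD σ f) (hg : DD σ g) (f0 : ∀ x, 0 ≤ f x) (f1 : ∀ x, f x ≤ 1)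
    (g0 : ∀ x, 0 ≤ g x) (g1 : ∀ x, g x ≤ 1) : DD σ fun x => f x * g x := by
  intro ω ω'
  refine Summable.of_nonneg_of_le (fun _ => sq_nonneg _) (fun k => ?_)
    (((hf ω ω').mul_left 2).add ((hg ω ω').mul_left 2))
  set a := f (σ k ω)
  set a' := f (σ k ω')
  set b := g (σ k ω)
  set b' := g (σ k ω')
  have ha : a ^ 2 ≤ 1 := pow_le_one₀ (f0 _) (f1 _)
  have hb : b' ^ 2 ≤ 1 := pow_le_one₀ (g0 _) (g1 _)
  have e : a * b - a' * b' = a * (b - b') + b' * (a - a') := by ring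
  have h1 : (a * (b - b')) ^ 2 ≤ (b - b') ^ 2 := by
    rw [mul_pow]
    exact mul_le_of_le_one_left (sq_nonneg _) ha
  have h2 : (b' * (a - a')) ^ 2 ≤ (a - a') ^ 2 := by
    rw [mul_pow]
    exact mul_le_of_le_one_left (sq_nonneg _) hb
  rw [e]
  nlinarith [sq_nonneg (a * (b - b') - b' * (a - a'))]

lemma dd_shift {f : Ω → ℝ} (hf : DD σ f) (c : K) : DD σ fun x => f (σ c x) := by
  intro ω ω'
  have h := (Equiv.mulLeft c).summable_iff.2 (hf ω ω')
  refine h.congr fun k => ?_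
  simp [Function.comp]

lemma dd_one : DD σ fun _ => 1 := fun _ _ => by simp

/-- Cut off to the unit interval. -/
def clamp (t : ℝ) : ℝ := max 0 (min 1 t)

lemma clamp_nonneg (t : ℝ) : 0 ≤ clamp t := le_max_left _ _

lemma clamp_le (t : ℝ) : clamp t ≤ 1 := max_le zero_le_one (min_le_left _ _)

lemma clamp_one : clamp 1 = 1 := by simp [clamp]

lemma clamp_zero {t : ℝ} (h : t ≤ 0) : clamp t = 0 :=
  max_eq_left ((min_le_right _ _).trans h)

lemma clamp_lip (s t : ℝ) : |clamp s - clamp t| ≤ |s - t| := by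
  have h1 : |max 0 (min 1 s) - max 0 (min 1 t)| ≤ |min 1 s - min 1 t| := by
    rw [max_comm 0, max_comm 0]
    exact abs_max_sub_max_le_abs _ _ _
  have h2 := abs_min_sub_min_le_max 1 s 1 t
  rw [sub_self, abs_zero, max_eq_right (abs_nonneg _)] at h2
  exact h1.trans h2

lemma sep01 (hS : Sep σ) {ω₀ ω : Ω} (h : ω ≠ ω₀) :
    ∃ f, DD σ f ∧ (∀ x, 0 ≤ f x) ∧ (∀ x, f x ≤ 1) ∧ f ω₀ = 1 ∧ f ω = 0 := by
  obtain ⟨f, hf, hne⟩ := hS ω₀ ω h.symm
  have hd : f ω₀ - f ω ≠ 0 := sub_ne_zero.2 hne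
  refine ⟨fun x => clamp ((f x - f ω) / (f ω₀ - f ω)),
    dd_lip hf (fun t => clamp ((t - f ω) / (f ω₀ - f ω))) (|f ω₀ - f ω|⁻¹) fun s t => ?_,
    fun _ => clamp_nonneg _, fun _ => clamp_le _, ?_, ?_⟩
  · refine (clamp_lip _ _).trans (le_of_eq ?_)
    rw [← sub_div, abs_div, sub_sub_sub_cancel_right, div_eq_inv_mul]
  · simp only [div_self hd, clamp_one]
  · exact clamp_zero (by simp)

lemma sepFin (hS : Sep σ) (ω₀ : Ω) {N : Set Ω} (hN : N.Finite) :
    ∃ f, DD σ f ∧ (∀ x, 0 ≤ f x) ∧ (∀ x, f x ≤ 1) ∧ f ω₀ = 1 ∧ ∀ ω ∈ N, ω ≠ ω₀ → f ω = 0 := by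
  induction N, hN using Set.Finite.induction_on with
  | empty => exact ⟨fun _ => 1, dd_one, fun _ => zero_le_one, fun _ => le_rfl, rfl, by simp⟩
  | @insert a s _ _ ih =>
    obtain ⟨f, hf, f0, f1, e, hz⟩ := ih
    by_cases ha : a = ω₀
    · refine ⟨f, hf, f0, f1, e, fun ω hω hne => ?_⟩
      rcases hω with rfl | hω
      · exact absurd ha hne
      · exact hz ω hω hne
    · obtain ⟨g, hg, g0, g1, e', hz'⟩ := sep01 hS ha
      refine ⟨fun x => f x * g x, dd_mul hf hg f0 f1 g0 g1, fun x => mul_nonneg (f0 x) (g0 x),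
        fun x => mul_le_one₀ (f1 x) (g0 x) (g1 x), by simp [e, e'], fun ω hω hne => ?_⟩
      rcases hω with rfl | hω
      · simp [hz']
      · simp [hz ω hω hne]

end Bump

open Bump in
theorem bump : BumpStmt := by
  intro K Ω _ σ c L ω₀ hS hc hL h0
  rcases hc with rfl | hc
  · obtain ⟨f, hf, -, -, e, hz⟩ := sepFin hS ω₀ hL
    refine ⟨f, hf, e, fun ω hω n hn => ?_⟩
    rw [one_zpow, map_one] at hn ⊢
    exact hz ω hω hn
  have hinj : Function.Injective fun n : ℤ => c ^ n := by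
    intro m n h
    have h1 : c ^ (m - n) = 1 := by
      rw [zpow_sub, mul_inv_eq_one]
      exact h
    exact sub_eq_zero.1 (hc _ h1)
  have hne : ω₀ ≠ σ c ω₀ := by
    intro h
    have h1 := h0 1 (by rw [zpow_one]; exact h.symm)
    exact one_ne_zero (hc 1 h1)
  obtain ⟨f, hf, hfe⟩ := hS _ _ hne
  set e : Ω → ℝ := fun x => f x - f (σ c x) with he
  have hde : DD σ e := dd_sub hf (dd_shift hf c)
  have hγ : 0 < |e ω₀| := abs_pos.2 (sub_ne_zero.2 hfe)
  have hfin : ∀ ω, {n : ℤ | ¬ e (σ (c ^ n) ω) ^ 2 < (|e ω₀| / 2) ^ 2}.Finite := by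
    intro ω
    have h1 : Summable fun n : ℤ => e (σ (c ^ n) ω) ^ 2 := by
      refine ((hf ω (σ c ω)).comp_injective hinj).congr fun n => ?_
      have h2 : σ (c ^ n) (σ c ω) = σ c (σ (c ^ n) ω) := by
        rw [← Equiv.Perm.mul_apply, ← Equiv.Perm.mul_apply, ← map_mul, ← map_mul,
          (Commute.self_zpow c n).eq]
      simp only [Function.comp, he, h2]
    have h3 := (tendsto_order.1 h1.tendsto_cofinite_zero).2 ((|e ω₀| / 2) ^ 2) (by positivity)
    exact eventually_cofinite.1 h3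
  have hN : (⋃ ω ∈ L, (fun n : ℤ => σ (c ^ n) ω) ''
      {n : ℤ | ¬ e (σ (c ^ n) ω) ^ 2 < (|e ω₀| / 2) ^ 2}).Finite :=
    hL.biUnion fun ω _ => (hfin ω).image _
  obtain ⟨g, hg, g0, g1, eg, hz⟩ := sepFin hS ω₀ hN
  have hu : DD σ fun x => clamp (2 * |e x| / |e ω₀| - 1) := by
    refine dd_lip hde (fun t => clamp (2 * |t| / |e ω₀| - 1)) (2 / |e ω₀|) fun s t => ?_
    refine (clamp_lip _ _).trans ?_
    have h1 : 2 * |s| / |e ω₀| - 1 - (2 * |t| / |e ω₀| - 1) = 2 / |e ω₀| * (|s| - |t|) := by ring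
    rw [h1, abs_mul, abs_of_pos (by positivity : 0 < 2 / |e ω₀|)]
    exact mul_le_mul_of_nonneg_left (abs_abs_sub_abs_le_abs_sub s t) (by positivity)
  refine ⟨fun x => clamp (2 * |e x| / |e ω₀| - 1) * g x,
    dd_mul hu hg (fun _ => clamp_nonneg _) (fun _ => clamp_le _) g0 g1, ?_, fun ω hω n hn => ?_⟩
  · have h1 : 2 * |e ω₀| / |e ω₀| - 1 = 1 := by
      field_simp
      norm_num
    simp only [h1, clamp_one, eg, mul_one]
  · by_cases h : e (σ (c ^ n) ω) ^ 2 < (|e ω₀| / 2) ^ 2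
    · have h1 : |e (σ (c ^ n) ω)| < |e ω₀| / 2 := abs_lt_of_sq_lt_sq h (by positivity)
      have h2 : 2 * |e (σ (c ^ n) ω)| / |e ω₀| - 1 ≤ 0 := by
        rw [sub_nonpos, div_le_one hγ]
        linarith
      simp only [clamp_zero h2, zero_mul]
    · have h1 := hz (σ (c ^ n) ω) (Set.mem_biUnion hω ⟨n, h, rfl⟩) hn
      simp only [h1, mul_zero]

end Pool.Agent.MP_494aff_an.Rg

end MrgPart3

-- ======== part 4: formerly Pool.Agent.MP_494aff_an.rg.Cob
section MrgPart4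

/-! Density of coboundaries over an abelian group; closures of subgroups. -/

namespace Pool.Agent.MP_494aff_an.Rg

open Pool.Agent.MP_494aff_an.Pinch Pool.Agent.MP_494aff_an.Pinch.TowP Pool.Agent.MP_494aff_an.Lf
open Pool.Agent.MP_494aff_an.Se

noncomputable section

namespace CobP

lemma inj_le (hD : DimStmt) {G α β : Type} [Group G] [Fintype α] [Fintype β]
    {W : Submodule ℂ (α → H G)} (T : (α → H G) →L[ℂ] (β → H G)) (hW : Se.Inv W) (hT : Eqi T)
    (h : ∀ η ∈ W, T η = 0 → η = 0) : dim W ≤ Fintype.card β := by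
  have h1 : W ⊓ LinearMap.ker T.toLinearMap = ⊥ :=
    (Submodule.eq_bot_iff _).2 fun η hη => h η hη.1 hη.2
  rw [hD.rn G α β W T hW hT, h1, hD.bot, zero_add, ← hD.top G β]
  exact hD.mono _ _ _ _ le_top

lemma rho_lam' {G : Type} [Group G] (g h : G) (ξ : H G) : rho g (lam h ξ) = lam h (rho g ξ) :=
  congrArg (fun T : Op G => T ξ) (rho_lam g h)

lemma base (hG : GcStmt) {K Ξ κ : Type} [Group K] (a : κ → Ξ × K × Ξ) :
    ∃ (r : Ξ → Ξ) (τ : Ξ → K), (∀ x, Gn a (r x) (τ x) x) ∧ (∀ x, r x = x → τ x = 1) ∧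
      ∀ x g y, Gn a x g y → r x = r y := by
  classical
  let s : Setoid Ξ := ⟨fun x y => ∃ g, Gn a x g y, fun x => ⟨1, Gn.one x⟩,
    fun ⟨g, h⟩ => ⟨_, hG.symm _ _ _ a _ _ _ h⟩,
    fun ⟨g, h⟩ ⟨g', h'⟩ => ⟨_, hG.trans _ _ _ a _ _ _ _ _ h h'⟩⟩
  choose τ hτ using fun x => (Quotient.mk_out (s := s) x : ∃ g, Gn a _ g x)
  refine ⟨fun x => (Quotient.mk s x).out, fun x => if (Quotient.mk s x).out = x then 1 else τ x,
    fun x => ?_, fun x h => if_pos h, fun x g y h => ?_⟩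
  · by_cases h : (Quotient.mk s x).out = x
    · simp only [h, if_true]
      exact Gn.one x
    · simp only [h, if_false]
      exact hτ x
  · exact congrArg Quotient.out (Quotient.sound (s := s) ⟨g, h⟩)

end CobP

open CobP

theorem cob (hD : DimStmt) (hG : GcStmt) : CobStmt := by
  intro K G Ξ κ _ _ _ _ ι a hT hι hc
  classical
  obtain ⟨r, τ, h1, h2, h3⟩ := base hG a
  let M : Ξ → Prop := fun b => r b = b ∧ ∀ g, Gn a b g b → g = 1
  have hl : ∀ x, ∃ g, Gn a (r x) g x ∧ (r x ≠ x → g = τ x) ∧ (¬ M x → r x = x → g ≠ 1) := by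
    intro x
    by_cases h : r x = x ∧ ¬ M x
    · obtain ⟨g, hg⟩ := not_forall.1 fun h' => h.2 ⟨h.1, h'⟩
      obtain ⟨k1, k2⟩ := Classical.not_imp.1 hg
      exact ⟨g, by rwa [h.1], fun e => absurd h.1 e, fun _ _ => k2⟩
    · exact ⟨τ x, h1 x, fun _ => rfl, fun k1 k2 => absurd ⟨k2, k1⟩ h⟩
  choose l l1 l2 l3 using hl
  have fix : ∀ g : K, g ≠ 1 → ∀ v : H G, lam (ι g) v = v → v = 0 := fun g hg v hv =>
    CoP.fix_zero (hT _ fun e => hg (hι (e.trans (map_one ι).symm))) hv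
  have hr : ∀ x, r (r x) = r x := fun x => h3 _ _ _ (h1 x)
  choose T T1 T2 using fun x => hG.ev K G Ξ κ ι a _ _ _ (l1 x)
  have e1 : dim (Zg ι a) ≤ Fintype.card {x // ¬ M x} := by
    refine inj_le hD (ContinuousLinearMap.pi fun x : {x // ¬ M x} => T x) (hG.inv_z _ _ _ _ ι a)
      (fun g ξ => funext fun x => T1 x g ξ) ?_
    rintro η ⟨c, k1, k2⟩ h
    have k3 : ∀ x, ¬ M x → c (r x) (l x) x = 0 := fun x hx => by
      rw [T2 x c k1, funext k2]
      exact congrFun h ⟨x, hx⟩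
    have k4 : ∀ x, c x 1 x = 0 := fun x => by
      simpa using k1 x 1 x 1 x (Gn.one x) (Gn.one x)
    have k5 : ∀ x, c (r x) (τ x) x = 0 := fun x => by
      by_cases e : r x = x
      · rw [h2 x e, e, k4]
      · rw [← l2 x e]
        exact k3 x fun h => e h.1
    have k6 : ∀ b, r b = b → ∀ g, Gn a b g b → c b g b = 0 := fun b hb g hg => by
      by_cases e : M b
      · rw [e.2 g hg, k4]
      · have m1 := k3 b e
        have m2 := l1 b
        rw [hb] at m1 m2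
        have m3 := k1 b g b _ b hg m2
        rw [hc, k1 b _ b g b m2 hg, m1, map_zero, add_zero, zero_add] at m3
        exact fix _ (l3 b e hb) _ m3.symm
    have k7 : ∀ x g y, Gn a x g y → c x g y = 0 := fun x g y h => by
      have m1 := h1 y
      have m2 := k5 y
      rw [← h3 x g y h] at m1 m2
      have m3 := hG.trans _ _ _ a _ _ _ _ _ (hG.trans _ _ _ a _ _ _ _ _ (h1 x) h)
        (hG.symm _ _ _ a _ _ _ m1)
      have m4 := k1 _ _ _ _ _ m3 m1
      rw [mul_inv_cancel_left, k1 _ _ _ _ _ (h1 x) h, k5, m2, k6 _ (hr x) _ m3] at m4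
      simpa using m4
    funext i
    rw [← k2]
    exact k7 _ _ _ (by simpa using Gn.fwd i _ 1 (Gn.one (a := a) (a i).1))
  let D : (Ξ → H G) →L[ℂ] (κ → H G) := ContinuousLinearMap.pi fun i =>
    (lam (ι (a i).2.1)).comp (ContinuousLinearMap.proj (φ := fun _ : Ξ => H G) (a i).1) -
      ContinuousLinearMap.proj (φ := fun _ : Ξ => H G) (a i).2.2
  have hD1 : ∀ φ i, D φ i = pv ι (fun _ => 0) φ (a i) := fun φ i => by simp [D, pv]
  have hD2 : Eqi D := fun g ξ => funext fun i => by simp [hD1, pv, rho_lam']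
  have hI : Se.Inv (⊤ : Submodule ℂ (Ξ → H G)) := ⟨isClosed_univ, fun _ _ _ => trivial⟩
  have e2 : dim (⊤ ⊓ LinearMap.ker D.toLinearMap) ≤ Fintype.card {x // M x} := by
    refine inj_le hD (ContinuousLinearMap.pi fun x : {x // M x} => ContinuousLinearMap.proj x.1)
      (hD.inv_ker _ _ _ _ _ hI hD2) (fun g ξ => rfl) fun φ hφ h => ?_
    have k1 := hG.af_gn K G Ξ κ ι a (fun _ => 0) φ (fun _ _ => by simp) fun i => by
      rw [← hD1]
      exact congrFun hφ.2 i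
    simp only [pv, zero_add, sub_eq_zero] at k1
    have k2 : ∀ b, r b = b → φ b = 0 := fun b hb => by
      by_cases e : M b
      · exact congrFun h ⟨b, e⟩
      · have m2 := l1 b
        rw [hb] at m2
        exact fix _ (l3 b e hb) _ (k1 _ _ _ m2)
    funext x
    rw [← k1 _ _ _ (h1 x), k2 _ (hr x), map_zero, Pi.zero_apply]
  have e3 := hD.rn G Ξ κ ⊤ D hI hD2
  have e4 : dim (Submodule.map D.toLinearMap ⊤) ≤ dim (Ph0 ι a) := hD.mono _ _ _ _ (by
    rintro _ ⟨φ, -, rfl⟩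
    exact ⟨φ, fun i => (hD1 φ i).symm⟩)
  have e5 : (Fintype.card {x // ¬ M x} : ℝ) + Fintype.card {x // M x} = Fintype.card Ξ := by
    rw [Fintype.card_subtype_compl, ← Nat.cast_add,
      Nat.sub_add_cancel (Fintype.card_subtype_le M)]
  rw [hD.top] at e3
  linarith

theorem clo : CloStmt := by
  intro K G _ _ ι L hι
  let D : Set (K → ℝ) := {f | (∀ g, ∀ l ∈ L, f (g * l) = f g) ∧
    ∀ g g', Summable fun k => (f (k * g) - f (k * g')) ^ 2}
  have hD : ∀ f ∈ D, ∀ k, (fun g => f (k * g)) ∈ D := fun f hf k =>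
    ⟨fun g l hl => by simp only [← mul_assoc, hf.1 _ l hl], fun g g' => by
      simpa only [Function.comp_def, Equiv.coe_mulLeft, mul_assoc] using
        (Equiv.mulLeft k).summable_iff.2 (hf.2 g g')⟩
  let s : Setoid K := ⟨fun g g' => ∀ f ∈ D, f g = f g', fun _ _ _ => rfl,
    fun h f hf => (h f hf).symm, fun h h' f hf => (h f hf).trans (h' f hf)⟩
  let _ : MulAction K (Quotient s) :=
    { smul := fun k => Quotient.map' (k * ·) fun g g' h f hf => h _ (hD f hf k)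
      one_smul := fun ω => Quotient.inductionOn' ω fun g => congrArg (Quotient.mk s) (one_mul g)
      mul_smul := fun k k' ω => Quotient.inductionOn' ω fun g =>
        congrArg (Quotient.mk s) (mul_assoc k k' g) }
  refine ⟨Quotient s, MulAction.toPermHom K _, Quotient.mk s 1, fun ω ω' => ?_,
    fun l hl => Quotient.sound (s := s) (a := l * 1) fun f hf => ?_, fun c hc hL k hk => ?_⟩
  · refine Quotient.inductionOn₂ ω ω' fun g g' h => ?_
    obtain ⟨f, hf⟩ := not_forall.1 (mt (Quotient.sound (s := s)) h)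
    obtain ⟨h1, h2⟩ := Classical.not_imp.1 hf
    exact ⟨Quotient.lift f fun _ _ h => h f h1,
      fun ω ω' => Quotient.inductionOn₂ ω ω' fun g g' => h1.2 g g', h2⟩
  · rw [mul_one, ← hf.1 1 l hl, one_mul]
  have h0 : c 1 = 0 := hL 1 L.one_mem
  have key : ∀ (x : G) (T : ℂ →+ ℝ), (∀ z, T z ^ 2 ≤ ‖z‖ ^ 2) → T (c k x) = 0 := by
    intro x T hT
    have h1 := (Quotient.exact (s := s) (a := k * 1) hk) (fun g => T (c g x))
      ⟨fun g l hl => by simp only [hc g l, hL l hl, map_zero, add_zero], fun g g' => ?_⟩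
    · simpa [h0] using h1
    have h2 : Summable fun y => ‖(c g - c g') y‖ ^ 2 := by
      simpa using (lp.memℓp (c g - c g')).summable (by norm_num)
    refine (h2.comp_injective (i := fun k => (ι k)⁻¹ * x) fun k k' e =>
      hι (inv_injective (mul_right_cancel e))).of_nonneg_of_le (fun _ => sq_nonneg _) fun k => ?_
    rw [← map_sub]
    convert hT _ using 3
    rw [Function.comp_apply, ← lam_coef, map_sub, hc, hc]
    simp
  refine lp.ext (funext fun x => Complex.ext ?_ ?_)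
  · exact key x Complex.reAddGroupHom fun z =>
      sq_le_sq.2 ((Complex.abs_re_le_norm z).trans (le_abs_self _))
  · exact key x Complex.imAddGroupHom fun z =>
      sq_le_sq.2 ((Complex.abs_im_le_norm z).trans (le_abs_self _))

end

end Pool.Agent.MP_494aff_an.Rg

end MrgPart4

-- ======== part 5: formerly Pool.Agent.MP_494aff_an.rg.Cut
section MrgPart5

/-! The two sides of an edge of the tree. -/

namespace Pool.Agent.MP_494aff_an.Rg

open Pool.Agent.MP_494aff_an.Pinch Pool.Agent.MP_494aff_an.Pinch.TowP Pool.Agent.MP_494aff_an.Lf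
open Pool.Agent.MP_494aff_an.Se

namespace CutP

section A

variable {A B K : Type} [Group A] [Group B] [Group K] {c : A} {d : B} {f : A →* K} {g : B →* K}

/-- Alternating words whose last letter lies in the first factor. -/
inductive W (c : A) (d : B) (f : A →* K) (g : B →* K) : Bool → K → Prop
  | base (a : A) : a ∉ Subgroup.zpowers c → W c d f g true (f a)
  | rgt (b : B) (w : K) : b ∉ Subgroup.zpowers d → W c d f g true w → W c d f g false (g b * w)
  | lft (a : A) (w : K) : a ∉ Subgroup.zpowers c → W c d f g false w → W c d f g true (f a * w)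

lemma W.edge (h : AmP.Sy c d f g) {a : A} (ha : a ∈ Subgroup.zpowers c) {s : Bool} {w : K}
    (hw : W c d f g s w) : W c d f g s (f a * w) := by
  cases hw with
  | base a' ha' =>
    rw [← map_mul]
    exact W.base _ fun hh => ha' ((Subgroup.mul_mem_cancel_left _ ha).1 hh)
  | rgt b w hb hw =>
    obtain ⟨k, rfl⟩ := Subgroup.mem_zpowers_iff.1 ha
    rw [h.pow k, ← mul_assoc, ← map_mul]
    exact W.rgt _ w
      (fun hh => hb ((Subgroup.mul_mem_cancel_left _ (Subgroup.zpow_mem_zpowers d k)).1 hh)) hw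
  | lft a' w ha' hw =>
    rw [← mul_assoc, ← map_mul]
    exact W.lft _ w (fun hh => ha' ((Subgroup.mul_mem_cancel_left _ ha).1 hh)) hw

lemma W.edge' (h : AmP.Sy c d f g) {b : B} (hb : b ∈ Subgroup.zpowers d) {s : Bool} {w : K}
    (hw : W c d f g s w) : W c d f g s (g b * w) := by
  obtain ⟨k, rfl⟩ := Subgroup.mem_zpowers_iff.1 hb
  rw [← h.pow k]
  exact hw.edge h (Subgroup.zpow_mem_zpowers c k)

lemma W.g_mul (h : AmP.Sy c d f g) (b : B) {s : Bool} {w : K} (hw : W c d f g s w) :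
    ∃ s', W c d f g s' (g b * w) := by
  by_cases hb : b ∈ Subgroup.zpowers d
  · exact ⟨s, hw.edge' h hb⟩
  cases s with
  | true => exact ⟨_, W.rgt b w hb hw⟩
  | false =>
    cases hw with
    | rgt b' w hb' hw =>
      rw [← mul_assoc, ← map_mul]
      by_cases hbb : b * b' ∈ Subgroup.zpowers d
      · exact ⟨_, hw.edge' h hbb⟩
      · exact ⟨_, W.rgt _ w hbb hw⟩

lemma w_base (a : A) : (∃ s, W c d f g s (f a)) ∨ f a ∈ Subgroup.zpowers (f c) := by
  by_cases ha : a ∈ Subgroup.zpowers c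
  · exact Or.inr (HxP.map_mem f ha)
  · exact Or.inl ⟨_, W.base a ha⟩

lemma W.f_mul (h : AmP.Sy c d f g) (a : A) {s : Bool} {w : K} (hw : W c d f g s w) :
    (∃ s', W c d f g s' (f a * w)) ∨ f a * w ∈ Subgroup.zpowers (f c) := by
  by_cases ha : a ∈ Subgroup.zpowers c
  · exact Or.inl ⟨s, hw.edge h ha⟩
  cases s with
  | false => exact Or.inl ⟨_, W.lft a w ha hw⟩
  | true =>
    cases hw with
    | base a' _ =>
      rw [← map_mul]
      exact w_base _
    | lft a' w ha' hw =>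
      rw [← mul_assoc, ← map_mul]
      by_cases haa : a * a' ∈ Subgroup.zpowers c
      · exact Or.inl ⟨_, hw.edge h haa⟩
      · exact Or.inl ⟨_, W.lft _ w haa hw⟩

lemma W.ne_one (h : AmP.Sy c d f g) {s : Bool} {w : K} (hw : W c d f g s w) : w ≠ 1 := by
  let i := (Subgroup.zpowers c).subtype
  let j : Subgroup.zpowers c →* B := (MonoidHom.ofInjective h.hg).symm.toMonoidHom.comp
    ((f.comp i).codRestrict g.range fun x => h.edge x.2)
  have hj : ∀ x, f (i x) = g (j x) := fun x =>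
    (MonoidHom.apply_ofInjective_symm h.hg ⟨f (i x), h.edge x.2⟩).symm
  have hi : Function.Injective i := Subtype.val_injective
  have hj' : Function.Injective j := fun x y e => hi (h.hf (by rw [hj, hj, e]))
  have hc : j ⟨c, Subgroup.mem_zpowers c⟩ = d := h.hg ((hj _).symm.trans h.pin.comm)
  have hA : Amal i j f g :=
    ⟨hj, fun M _ φ ψ e => h.pin.lift M φ ψ (by rw [← hc]; exact e ⟨c, Subgroup.mem_zpowers c⟩),
      h.pin.gen⟩
  have ri : ∀ a, a ∉ Subgroup.zpowers c → a ∉ i.range := by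
    rintro a ha ⟨y, rfl⟩
    exact ha y.2
  have rj : ∀ b, b ∉ Subgroup.zpowers d → b ∉ j.range := by
    rintro b hb ⟨⟨_, k, rfl⟩, rfl⟩
    exact hb ⟨k, h.hg ((h.pow k).symm.trans (hj ⟨c ^ k, k, rfl⟩))⟩
  have ht : Gl.Typ i j f g (some s) w := by
    induction hw with
    | base a ha =>
      have := Gl.Typ.left (f := f) (g := g) (j := j) a _ none (ri a ha) (Gl.Typ.base (i := i) 1)
        (by simp)
      rwa [map_one, map_one, mul_one] at this
    | rgt b w hb _ ih => exact Gl.Typ.right b w _ (rj b hb) ih (by simp)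
    | lft a w ha _ ih => exact Gl.Typ.left a w _ (ri a ha) ih (by simp)
  exact (Gl.nf hA hi hj').2 _ _ ht

end A

section H

variable {A K : Type} [Group A] [Group K] {c c' : A} {f : A →* K} {t : K}

/-- Reduced words whose last stable letter is `t`, followed by a power of `c`. -/
inductive R (c c' : A) (f : A →* K) (t : K) : Bool → K → Prop
  | one (p : A) : p ∈ Subgroup.zpowers c → R c c' f t true (FG.tt t true * f p)
  | cons (b : Bool) (p : A) (b' : Bool) (z : K) : R c c' f t b' z →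
      (b' = !b → p ∉ Subgroup.zpowers (FG.ee c' c b)) → R c c' f t b (FG.tt t b * f p * z)

lemma R.rd {b : Bool} {z : K} (h : R c c' f t b z) : FG.Rd c' c f t b z := by
  induction h with
  | one p _ => exact FG.Rd.one true p
  | cons b p b' z _ hp ih => exact FG.Rd.cons b p b' z ih hp

/-- The far side. -/
def N (c c' : A) (f : A →* K) (t : K) (k : K) : Prop := ∃ p b z, R c c' f t b z ∧ k = f p * z

lemma N.f_mul {k : K} (h : N c c' f t k) (a : A) : N c c' f t (f a * k) := by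
  obtain ⟨p, b, z, hz, rfl⟩ := h
  exact ⟨a * p, b, z, hz, by rw [map_mul, mul_assoc]⟩

lemma R.strip {b : Bool} {z : K} (hz : R c c' f t b z) :
    (b = true ∧ ∃ p ∈ Subgroup.zpowers c, z = FG.tt t b * f p) ∨
      ∃ p b' z', R c c' f t b' z' ∧ z = FG.tt t b * f p * z' := by
  cases hz with
  | one p hp => exact Or.inl ⟨rfl, p, hp, rfl⟩
  | cons _ p b' z' hz' _ => exact Or.inr ⟨p, b', z', hz', rfl⟩

lemma N.t_mul (h : FG.Hn c' c f t) (b : Bool) {k : K} (hk : N c c' f t k) :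
    N c c' f t (FG.tt t b * k) ∨ (b = false ∧ FG.tt t b * k ∈ Subgroup.zpowers (f c)) := by
  obtain ⟨q, b', y, hy, rfl⟩ := hk
  by_cases hp : b' = !b → q ∉ Subgroup.zpowers (FG.ee c' c b)
  · exact Or.inl ⟨1, b, _, R.cons b q b' y hy hp, by rw [map_one, one_mul, mul_assoc]⟩
  rw [Classical.not_imp, not_not] at hp
  obtain ⟨rfl, hq⟩ := hp
  obtain ⟨k, rfl⟩ := Subgroup.mem_zpowers_iff.1 hq
  have e := h.conj_zpow b k
  rw [← FG.tt_not] at e
  rcases hy.strip with ⟨hb, p, hp, rfl⟩ | ⟨p, b'', y', hy', rfl⟩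
  · have hb' : b = false := by simpa using hb
    refine Or.inr ⟨hb', ?_⟩
    have e2 : FG.tt t b * (f (FG.ee c' c b ^ k) * (FG.tt t (!b) * f p)) =
        f (FG.ee c' c (!b) ^ k * p) := by
      rw [map_mul, ← e]; simp only [mul_assoc]
    rw [e2, hb]
    exact HxP.map_mem f (mul_mem (Subgroup.zpow_mem_zpowers c k) hp)
  · refine Or.inl ⟨FG.ee c' c (!b) ^ k * p, b'', y', hy', ?_⟩
    rw [map_mul, ← e]; simp only [mul_assoc]

end H

end CutP

open CutP

theorem cutA : CutAStmt := by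
  intro A B K _ _ _ c d f g h
  have hs : AmP.Sy c d f g := ⟨h.pin, h.hf, h.hg, h.ct⟩
  refine ⟨{k | ∃ s, W c d f g s k}, ?_, ?_, ?_⟩
  · rintro a k (⟨s, hk⟩ | hk)
    · exact hk.f_mul hs a
    · obtain ⟨n, rfl⟩ := Subgroup.mem_zpowers_iff.1 hk
      rw [← map_zpow, ← map_mul]
      exact w_base _
  · rintro b k ⟨s, hk⟩
    exact hk.g_mul hs b
  · rintro k ⟨s, hk⟩ hm
    obtain ⟨n, rfl⟩ := Subgroup.mem_zpowers_iff.1 hm
    refine (hk.edge hs (Subgroup.zpow_mem_zpowers c (-n))).ne_one hs ?_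
    rw [map_zpow, ← zpow_add, neg_add_cancel, zpow_zero]

theorem cutH : CutHStmt := by
  intro A K _ _ c c' f t h
  have hB := (FG.britton h.hn (HxP.infOrd h (HxP.ne_one' h)) (HxP.infOrd h h.cyc.1)).2
  refine ⟨{k | ¬ N c c' f t k}, fun a k hk hn => hk ?_, fun k hk => ?_, fun k hk => ?_⟩
  · have := hn.f_mul a⁻¹
    rwa [map_inv, inv_mul_cancel_left] at this
  · obtain ⟨n, rfl⟩ := Subgroup.mem_zpowers_iff.1 hk
    rw [← map_zpow]
    refine ⟨?_, fun hn => hn ⟨1, true, _, R.one _ (Subgroup.zpow_mem_zpowers c n), ?_⟩⟩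
    · rintro ⟨p, b, z, hz, e⟩
      exact hB b z hz.rd ⟨p⁻¹ * c ^ n, by rw [map_mul, e, map_inv, inv_mul_cancel_left]⟩
    · rw [map_one, one_mul]
      rfl
  · refine not_congr ⟨fun hn => ?_, fun hn => ?_⟩
    · rcases hn.t_mul h.hn true with h1 | ⟨h1, -⟩
      · exact h1
      · cases h1
    · have e : FG.tt t false * (t * k) = k := inv_mul_cancel_left t k
      rcases hn.t_mul h.hn false with h1 | ⟨-, h1⟩
      · rwa [e] at h1
      · exact absurd (e ▸ h1) hk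

end Pool.Agent.MP_494aff_an.Rg

end MrgPart5

-- ======== part 6: formerly Pool.Agent.MP_494aff_an.rg.Gc
section MrgPart6

/-! Row GC: basic facts on groupoid cocycles. -/

open scoped InnerProductSpace

namespace Pool.Agent.MP_494aff_an.Rg

open Pool.Agent.MP_494aff_an.Pinch Pool.Agent.MP_494aff_an.Pinch.TowP Pool.Agent.MP_494aff_an.Lf
open Pool.Agent.MP_494aff_an.Se

noncomputable section

namespace GcP

variable {K G Ξ κ : Type} [Group K] [Group G] {a : κ → Ξ × K × Ξ} {ι : K →* G}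

lemma trans {x y z : Ξ} {g h : K} (p : Gn a x g y) (q : Gn a y h z) : Gn a x (h * g) z := by
  induction q with
  | one => rwa [one_mul]
  | fwd i y h _ ih => rw [mul_assoc]; exact Gn.fwd i x _ (ih p)
  | bwd i y h _ ih => rw [mul_assoc]; exact Gn.bwd i x _ (ih p)

lemma arr (a : κ → Ξ × K × Ξ) (i : κ) : Gn a (a i).1 (a i).2.1 (a i).2.2 := by
  simpa using Gn.fwd i _ 1 (Gn.one (a := a) _)

lemma symm {x y : Ξ} {g : K} (p : Gn a x g y) : Gn a y g⁻¹ x := by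
  induction p with
  | one => rw [inv_one]; exact Gn.one _
  | fwd i x g _ ih => simpa using trans (Gn.bwd i _ 1 (Gn.one _)) ih
  | bwd i x g _ ih => simpa using trans (arr a i) ih

lemma rl (g h : G) (v : H G) : rho g (lam h v) = lam h (rho g v) :=
  congrArg (fun T : Op G => T v) (rho_lam g h)

lemma lam_lam (g h : G) (v : H G) : lam g (lam h v) = lam (g * h) v := by rw [map_mul]; rfl

lemma lam_inv (k : K) (v : H G) : lam (ι k⁻¹) (lam (ι k) v) = v := by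
  rw [lam_lam, ← map_mul, inv_mul_cancel, map_one, map_one]; rfl

lemma ev [Fintype κ] (ι : K →* G) {x y : Ξ} {g : K} (p : Gn a x g y) :
    ∃ T : (κ → H G) →L[ℂ] H G, (∀ h η, T (fun i => rho h (η i)) = rho h (T η)) ∧
      ∀ c, Gc ι a c → c x g y = T fun i => c (a i).1 (a i).2.1 (a i).2.2 := by
  induction p with
  | one x =>
    refine ⟨0, fun _ _ => by simp, fun c hc => ?_⟩
    have := hc x 1 x 1 x (Gn.one x) (Gn.one x)
    rw [mul_one, map_one, map_one, one_ap] at this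
    simpa using this
  | fwd i x g p ih =>
    obtain ⟨T, h1, h2⟩ := ih
    refine ⟨ContinuousLinearMap.proj i + (lam (ι (a i).2.1)).comp T, fun h η => ?_, fun c hc => ?_⟩
    · simp [h1, rl]
    · rw [hc x g _ _ _ p (arr a i), h2 c hc]; rfl
  | bwd i x g p ih =>
    obtain ⟨T, h1, h2⟩ := ih
    refine ⟨(lam (ι (a i).2.1⁻¹)).comp (T - ContinuousLinearMap.proj i), fun h η => ?_,
      fun c hc => ?_⟩
    · simp [h1, rl]
    · have := hc x _ _ _ _ (Gn.bwd i x g p) (arr a i)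
      rw [mul_inv_cancel_left, h2 c hc] at this
      simp only [ContinuousLinearMap.comp_apply, sub_apply,
        ContinuousLinearMap.proj_apply]
      rw [this, add_sub_cancel_left, lam_inv]

lemma inv_z [Fintype κ] (ι : K →* G) (a : κ → Ξ × K × Ξ) : Se.Inv (Zg ι a) := by
  classical
  constructor
  · choose T h1 h2 using fun x g y (p : Gn a x g y) => ev ι p
    refine isClosed_of_closure_subset fun η hη => ?_
    refine ⟨fun x g y => if p : Gn a x g y then T x g y p η else 0, fun x g y h z p q => ?_,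
      fun i => ?_⟩
    · simp only [dif_pos p, dif_pos q, dif_pos (trans p q)]
      refine (isClosed_eq (T _ _ _ (trans p q)).continuous ((T _ _ _ q).continuous.add
        ((lam (ι h)).continuous.comp (T _ _ _ p).continuous))).closure_subset_iff.2 ?_ hη
      rintro _ ⟨c, hc, e⟩
      obtain rfl := funext e
      change T _ _ _ _ _ = T _ _ _ _ _ + lam (ι h) (T _ _ _ _ _)
      rw [← h2 _ _ _ _ c hc, ← h2 _ _ _ _ c hc, ← h2 _ _ _ _ c hc]
      exact hc x g y h z p q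
    · simp only [dif_pos (arr a i)]
      refine (isClosed_eq (T _ _ _ (arr a i)).continuous
        (continuous_apply i)).closure_subset_iff.2 ?_ hη
      rintro _ ⟨c, hc, e⟩
      obtain rfl := funext e
      exact (h2 _ _ _ _ c hc).symm
  · rintro g _ ⟨c, hc, e⟩
    refine ⟨fun x k y => rho g (c x k y), fun x k y h z p q => ?_, fun i => congrArg _ (e i)⟩
    simp only [hc x k y h z p q, map_add, rl]

lemma pv_mul {c : K → H G} (hc : Cy ι c) (φ : Ξ → H G) (x y z : Ξ) (g h : K) :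
    pv ι c φ (x, h * g, z) = pv ι c φ (y, h, z) + lam (ι h) (pv ι c φ (x, g, y)) := by
  simp only [pv, hc h g, map_add, map_sub, lam_lam, map_mul ι]
  abel

lemma ph_le : Ph ι a ≤ Zg ι a := by
  rintro _ ⟨c, φ, hc, e⟩
  exact ⟨fun x g y => pv ι c φ (x, g, y), fun x g y h z _ _ => pv_mul hc φ x y z g h, e⟩

lemma inv_ph : Se.Inv (Ph ι a).topologicalClosure := by
  refine ⟨Submodule.isClosed_topologicalClosure _, fun g ξ hξ => ?_⟩
  refine map_mem_closure (f := fun (η : κ → H G) i => rho g (η i))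
    (continuous_pi fun i => (rho g).continuous.comp (continuous_apply i)) hξ ?_
  rintro _ ⟨c, φ, hc, e⟩
  refine ⟨fun k => rho g (c k), fun x => rho g (φ x), fun x y => ?_, fun i => ?_⟩
  · simp only [hc x y, map_add, rl]
  · simp only [← e i, pv, map_add, map_sub, rl]

lemma af_gn {c : K → H G} {φ : Ξ → H G} (hc : Cy ι c) (h : ∀ i, pv ι c φ (a i) = 0) {x y : Ξ}
    {g : K} (p : Gn a x g y) : pv ι c φ (x, g, y) = 0 := by
  induction p with
  | one x =>
    have := pv_mul hc φ x x x 1 1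
    rw [mul_one, map_one, map_one, one_ap] at this
    simpa using this
  | fwd i x g _ ih =>
    rw [pv_mul hc φ x (a i).1, ih, map_zero, add_zero]
    exact h i
  | bwd i x g _ ih =>
    have := pv_mul hc φ x (a i).1 (a i).2.2 ((a i).2.1⁻¹ * g) (a i).2.1
    rw [mul_inv_cancel_left, ih, show pv ι c φ ((a i).1, (a i).2.1, (a i).2.2) = 0 from h i,
      zero_add] at this
    rw [← lam_inv (ι := ι) (a i).2.1 (pv ι c φ _), ← this, map_zero]

lemma af (hD : DimStmt) (hC : CocStmt) {μ : Type} [Fintype Ξ] [Fintype κ] [Fintype μ]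
    (ι : K →* G) (y : μ → K) (a : κ → Ξ × K × Ξ) (hy : Subgroup.closure (Set.range y) = ⊤) :
    Se.Inv (Af ι y a) ∧ dim (Ph ι a) + dim (Af ι y a) = dim (Zc ι y) + Fintype.card Ξ := by
  obtain ⟨hZ, hT, -⟩ := hC K G μ ι y hy
  choose T h1 h2 using hT
  let L : (μ ⊕ Ξ → H G) →L[ℂ] (μ → H G) :=
    ContinuousLinearMap.pi fun m => ContinuousLinearMap.proj (Sum.inl m)
  let Φ : (μ ⊕ Ξ → H G) →L[ℂ] (κ → H G) := ContinuousLinearMap.pi fun i =>
    (T (a i).2.1).comp L + (lam (ι (a i).2.1)).comp (ContinuousLinearMap.proj (Sum.inr (a i).1)) -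
      ContinuousLinearMap.proj (Sum.inr (a i).2.2)
  have hΦ : ∀ η i, Φ η i = T (a i).2.1 (fun m => η (Sum.inl m)) +
      lam (ι (a i).2.1) (η (Sum.inr (a i).1)) - η (Sum.inr (a i).2.2) := fun _ _ => rfl
  have hE : Eqi Φ := fun g ξ => funext fun i => by
    simp only [hΦ, h1 _ g fun m => ξ (Sum.inl m), map_add, map_sub, rl]
  obtain ⟨hW, hd⟩ := hD.sum G μ Ξ (Zc ι y) ⊤ ((Zc ι y).comap L.toLinearMap) hZ
    ⟨by simp, fun _ _ _ => trivial⟩ fun η => ⟨fun h => ⟨h, trivial⟩, fun h => h.1⟩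
  have key : ∀ (η : μ ⊕ Ξ → H G) c, Cy ι c → (∀ m, c (y m) = η (Sum.inl m)) → ∀ i,
      Φ η i = pv ι c (fun x => η (Sum.inr x)) (a i) := fun η c hc e i => by
    rw [hΦ, pv, h2 _ c hc, funext e]
  have e1 : (Zc ι y).comap L.toLinearMap ⊓ LinearMap.ker Φ.toLinearMap = Af ι y a := by
    ext η
    constructor
    · rintro ⟨⟨c, hc, e⟩, h⟩
      exact ⟨c, hc, e, fun i => (key η c hc e i).symm.trans (congrFun h i)⟩
    · rintro ⟨c, hc, e, h⟩
      exact ⟨⟨c, hc, e⟩, funext fun i => (key η c hc e i).trans (h i)⟩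
  have e2 : ((Zc ι y).comap L.toLinearMap).map Φ.toLinearMap = Ph ι a := by
    ext ζ
    constructor
    · rintro ⟨η, ⟨c, hc, e⟩, rfl⟩
      exact ⟨c, _, hc, fun i => (key η c hc e i).symm⟩
    · rintro ⟨c, φ, hc, e⟩
      exact ⟨Sum.elim (fun m => c (y m)) φ, ⟨c, hc, fun _ => rfl⟩,
        funext fun i => (key _ c hc (fun _ => rfl) i).trans (e i)⟩
  have h3 := hD.rn G _ _ _ Φ hW hE
  have h4 := hD.inv_ker G _ _ _ Φ hW hE
  rw [e1] at h4
  rw [e1, e2, hd, hD.top] at h3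
  exact ⟨h4, by linarith⟩

omit [Group G] in
lemma orth [Fintype κ] (W W' : Submodule ℂ (κ → H G)) (hle : W ≤ W')
    (hc : IsClosed (W' : Set (κ → H G))) (h : ∀ ζ ∈ W', (∀ η ∈ W, ip ζ η = 0) → ζ = 0) :
    W.topologicalClosure = W' := by
  have h0 : W.topologicalClosure ≤ W' := W.topologicalClosure_minimal hle hc
  refine le_antisymm h0 fun w hw => ?_
  let e := toL2 G κ
  let S := (W.map e.toLinearEquiv.toLinearMap).topologicalClosure
  have hp : e.symm (S.starProjection (e w)) ∈ W.topologicalClosure := by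
    refine map_mem_closure e.symm.continuous (S.starProjection_apply_mem (e w)) ?_
    rintro _ ⟨v, hv, rfl⟩
    simpa using hv
  have h1 := h (w - e.symm (S.starProjection (e w))) (W'.sub_mem hw (h0 hp)) fun η hη => by
    have h2 : ⟪e w - S.starProjection (e w), e η⟫_ℂ = 0 :=
      S.starProjection_inner_eq_zero (e w) _ (Submodule.le_topologicalClosure _ ⟨η, hη, rfl⟩)
    have h3 : e (w - e.symm (S.starProjection (e w))) = e w - S.starProjection (e w) := by simp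
    rw [← h3, PiLp.inner_apply] at h2
    exact h2
  rw [sub_eq_zero.1 h1]
  exact hp

lemma cmp {C Ω : Type} [Group C] [Fintype Ξ] (c : C) (σ : C →* Equiv.Perm Ω) (π : Ξ → Ω)
    (hc : ∀ g, g ∈ Subgroup.zpowers c) :
    ∃ (κ : Type) (_ : Fintype κ) (a : κ → Ξ × C × Ξ), Over σ π a ∧ Cmp σ π a := by
  classical
  have : IsCyclic C := ⟨⟨c, hc⟩⟩
  have h1 : ∀ x : Ξ, ∃ s : C, σ s (π x) = π x ∧ ∀ g, σ g (π x) = π x → ∃ n : ℤ, s ^ n = g := by
    intro x
    obtain ⟨s, hs⟩ := IsCyclic.exists_generator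
      (α := (MulAction.stabilizer (Equiv.Perm Ω) (π x)).comap σ)
    refine ⟨s, s.2, fun g hg => ?_⟩
    obtain ⟨n, hn⟩ := hs ⟨g, hg⟩
    exact ⟨n, congrArg Subtype.val hn⟩
  choose s h2 h3 using h1
  let a : {p : Ξ × Ξ // ∃ g, σ g (π p.1) = π p.2} ⊕ Ξ → Ξ × C × Ξ :=
    Sum.elim (fun p => (p.1.1, p.2.choose, p.1.2)) fun x => (x, s x, x)
  refine ⟨_, inferInstance, a, ?_, fun x g y hg => ?_⟩
  · rintro (p | x)
    · exact p.2.choose_spec
    · exact h2 x
  · have h4 : ∃ g, σ g (π (x, y).1) = π (x, y).2 := ⟨g, hg⟩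
    have h5 : σ h4.choose (π x) = π y := h4.choose_spec
    have h6 : Gn a x h4.choose y := arr a (Sum.inl ⟨(x, y), h4⟩)
    have h7 : Gn a x (s x) x := arr a (Sum.inr x)
    generalize h4.choose = k at h5 h6
    obtain ⟨n, hn⟩ := h3 x (k⁻¹ * g) (by
      rw [map_mul, map_inv, Equiv.Perm.mul_apply, hg, ← h5]; simp)
    have h8 : ∀ n : ℤ, Gn a x (s x ^ n) x := by
      intro n
      induction n using Int.induction_on with
      | zero => rw [zpow_zero]; exact Gn.one x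
      | succ n ih => rw [zpow_add_one]; exact trans h7 ih
      | pred n ih => rw [zpow_sub_one]; exact trans (symm h7) ih
    have := trans (h8 n) h6
    rwa [hn, mul_inv_cancel_left] at this

end GcP

theorem gc (hD : DimStmt) (hC : CocStmt) : GcStmt where
  trans := fun _ _ _ _ _ _ _ _ _ _ p q => GcP.trans p q
  symm := fun _ _ _ _ _ _ _ _ p => GcP.symm p
  inv_z := fun _ _ _ _ _ _ _ ι a => GcP.inv_z ι a
  ev := fun _ _ _ _ _ _ _ ι _ _ _ _ p => GcP.ev ι p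
  le := fun _ _ _ _ _ _ _ _ =>
    ⟨fun _ ⟨φ, e⟩ => ⟨fun _ => 0, φ, fun _ _ => by simp, e⟩, GcP.ph_le⟩
  inv_ph := fun _ _ _ _ _ _ _ _ => GcP.inv_ph
  af_gn := fun _ _ _ _ _ _ _ _ _ _ hc h _ _ _ p => GcP.af_gn hc h p
  af := fun _ _ _ _ _ _ _ _ _ _ ι y a hy => GcP.af hD hC ι y a hy
  orth := fun _ _ _ _ W W' h1 h2 h3 => GcP.orth W W' h1 h2 h3
  cmp := fun _ _ _ _ _ c σ π h => GcP.cmp c σ π h

end

end Pool.Agent.MP_494aff_an.Rg

end MrgPart6

-- ======== part 7: formerly Pool.Agent.MP_494aff_an.rg.Key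
section MrgPart7

/-! Density over a cyclic group. -/

open scoped InnerProductSpace ComplexConjugate

namespace Pool.Agent.MP_494aff_an.Rg

open Pool.Agent.MP_494aff_an.Pinch Pool.Agent.MP_494aff_an.Pinch.TowP Pool.Agent.MP_494aff_an.Lf
open Pool.Agent.MP_494aff_an.Se

noncomputable section

namespace KeyP

variable {C G Ω Ξ κ : Type} [Group C] [Group G]

lemma rl (g h : G) (ξ : H G) : rho g (lam h ξ) = lam h (rho g ξ) :=
  congrArg (fun T : Op G => T ξ) (rho_lam g h)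

lemma cy_one {u : C →* G} {γ : C → H G} (h : Se.Cy u γ) : γ 1 = 0 := by
  have := h 1 1
  rw [mul_one, map_one, map_one, one_ap] at this
  exact left_eq_add.1 this

/-- The inner product with a family. -/
def ipL [Fintype κ] (ζ : κ → H G) : (κ → H G) →L[ℂ] ℂ :=
  ∑ i, (innerSL ℂ (ζ i)).comp (ContinuousLinearMap.proj i)

omit [Group G] in
lemma ipL_apply [Fintype κ] (ζ η : κ → H G) : ipL ζ η = ip ζ η := by
  simp [ipL, ip]

omit [Group G] in
lemma ip_self [Fintype κ] {ζ : κ → H G} (h : ip ζ ζ = 0) : ζ = 0 := by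
  unfold ip at h
  simp only [inner_self_eq_norm_sq_to_K] at h
  have h1 : ∑ i, ‖ζ i‖ ^ 2 = 0 := by
    have : ((∑ i, ‖ζ i‖ ^ 2 : ℝ) : ℂ) = 0 := by
      push_cast
      exact h
    exact_mod_cast this
  funext i
  have := (Finset.sum_eq_zero_iff_of_nonneg fun i _ => sq_nonneg ‖ζ i‖).1 h1 i (Finset.mem_univ i)
  exact norm_eq_zero.1 (pow_eq_zero_iff two_ne_zero |>.1 this)

/-- `p` is the vector of values of `f` along the orbit of `ω`. -/
def Gd (u : C →* G) (σ : C →* Equiv.Perm Ω) (f : Ω → ℝ) (x : G) (ω : Ω) (p : H G) : Prop :=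
  (∀ k, p (u k * x) = ((f (σ k⁻¹ ω) : ℝ) : ℂ)) ∧ ∀ z, (∀ k, z ≠ u k * x) → p z = 0

variable {u : C →* G} {σ : C →* Equiv.Perm Ω} {f : Ω → ℝ} {x : G} {ω ω' ω₀ : Ω}

lemma bf_eq (hB : BfStmt) (hu : Function.Injective u) (hf : DD σ f) {p q : H G}
    (hp : Gd u σ f x ω p) (hq : Gd u σ f x ω' q) : bf u σ f x ω ω' = p - q := by
  obtain ⟨b1, b2, -⟩ := hB C G Ω u σ f x hu hf
  refine lp.ext (funext fun z => ?_)
  rw [lp.coeFn_sub, Pi.sub_apply]
  by_cases hz : ∀ k, z ≠ u k * x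
  · rw [b2 _ _ z hz, hp.2 z hz, hq.2 z hz, sub_zero]
  · obtain ⟨k, hk⟩ := not_forall.1 hz
    rw [not_not.1 hk, b1, hp.1, hq.1, Complex.ofReal_sub]

lemma gd_dl (hu : Function.Injective u) (h0 : ∀ g, σ g ω₀ = ω₀ → g = 1) (h1 : f ω₀ = 1)
    (h2 : ∀ g, σ g ω ≠ ω₀ → f (σ g ω) = 0) {g : C} (hg : σ g ω₀ = ω) :
    Gd u σ f x ω (lam (u g) (dl x)) := by
  rw [lam_dl]
  refine ⟨fun k => ?_, fun z hz => dl_ne (hz g)⟩
  by_cases hk : k = g
  · rw [hk, dl_self, ← hg, ← Equiv.Perm.mul_apply, ← map_mul, inv_mul_cancel, map_one,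
      Equiv.Perm.one_apply, h1, Complex.ofReal_one]
  · rw [dl_ne fun e => hk (hu (mul_right_cancel e)), h2 _ fun e => hk ?_, Complex.ofReal_zero]
    rw [← hg, ← Equiv.Perm.mul_apply, ← map_mul] at e
    exact inv_mul_eq_one.1 (h0 _ e)

lemma gd_zero (h2 : ∀ g, σ g ω ≠ ω₀ → f (σ g ω) = 0) (hg : ¬∃ g, σ g ω₀ = ω) :
    Gd u σ f x ω 0 := by
  refine ⟨fun k => ?_, fun z _ => rfl⟩
  rw [h2 _ fun e => hg ⟨k, ?_⟩, Complex.ofReal_zero]
  · rfl
  · rw [← e, ← Equiv.Perm.mul_apply, ← map_mul, mul_inv_cancel, map_one, Equiv.Perm.one_apply]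

lemma orth0 [Fintype Ξ] (hB : BfStmt) (hG : TF G) (hu : Function.Injective u) {c : C}
    {π : Ξ → Ω} {ζ : Unit ⊕ Ξ → H G} (h1 : ∀ v, ip ζ (tv Ξ (u c) v) = 0)
    (h2 : ∀ ξ₀, (∀ g, σ g (π ξ₀) = π ξ₀ → g = 1) → ∃ f, DD σ f ∧ f (π ξ₀) = 1 ∧
      (∀ ξ g, σ g (π ξ) ≠ π ξ₀ → f (σ g (π ξ)) = 0) ∧
      ∀ x, ip ζ (bv u σ f x (π ξ₀) (σ c (π ξ₀)) π) = 0)
    {η : Ξ → H G} (hη : ∀ x g y, σ g (π x) = π y → η y = lam (u g) (η x)) :
    ∑ ξ, ⟪ζ (Sum.inr ξ), η ξ⟫_ℂ = 0 := by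
  classical
  let S : Setoid Ξ := ⟨fun x y => ∃ g, σ g (π x) = π y, fun x => ⟨1, by simp⟩,
    fun ⟨g, h⟩ => ⟨g⁻¹, by
      rw [← h, ← Equiv.Perm.mul_apply, ← map_mul, inv_mul_cancel, map_one, Equiv.Perm.one_apply]⟩,
    fun ⟨g, h⟩ ⟨g', h'⟩ => ⟨g' * g, by rw [map_mul, Equiv.Perm.mul_apply, h, h']⟩⟩
  rw [← Finset.sum_fiberwise Finset.univ (Quotient.mk S)]
  refine Finset.sum_eq_zero fun q _ => ?_
  obtain ⟨ξ₀, rfl⟩ := q.exists_rep
  have hq : ∀ ξ, Quotient.mk S ξ = Quotient.mk S ξ₀ ↔ ∃ g, σ g (π ξ₀) = π ξ := fun ξ => by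
    rw [eq_comm, Quotient.eq]
    rfl
  by_cases h0 : ∀ g, σ g (π ξ₀) = π ξ₀ → g = 1
  · obtain ⟨f, f1, f2, f3, f4⟩ := h2 ξ₀ h0
    obtain ⟨τ, t1, t2⟩ : ∃ τ : Ξ → Op G,
        (∀ ξ, (∃ g, σ g (π ξ₀) = π ξ) → ∃ g, σ g (π ξ₀) = π ξ ∧ τ ξ = lam (u g)) ∧
        ∀ ξ, (¬∃ g, σ g (π ξ₀) = π ξ) → τ ξ = 0 :=
      ⟨fun ξ => if h : ∃ g, σ g (π ξ₀) = π ξ then lam (u h.choose) else 0,
        fun ξ h => ⟨h.choose, h.choose_spec, dif_pos h⟩, fun ξ h => dif_neg h⟩
    have g0 : ∀ x, Gd u σ f x (π ξ₀) (dl x) := fun x => by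
      have := gd_dl (x := x) hu h0 f2 (f3 ξ₀) (g := 1) (by simp)
      rwa [map_one, map_one, one_ap] at this
    have g1 : ∀ x, Gd u σ f x (σ c (π ξ₀)) (lam (u c) (dl x)) := fun x =>
      gd_dl hu h0 f2 (fun g => by
        rw [← Equiv.Perm.mul_apply, ← map_mul]
        exact f3 ξ₀ _) rfl
    have g2 : ∀ x ξ, Gd u σ f x (π ξ) (τ ξ (dl x)) := fun x ξ => by
      by_cases h : ∃ g, σ g (π ξ₀) = π ξ
      · obtain ⟨g, e, e'⟩ := t1 ξ h
        rw [e']
        exact gd_dl hu h0 f2 (f3 ξ) e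
      · rw [t2 ξ h]
        exact gd_zero (f3 ξ) h
    have hL : ∑ ξ, (innerSL ℂ (ζ (Sum.inr ξ))).comp (τ ξ) = 0 := op_ext fun x => by
      have a1 := f4 x
      have a2 := h1 (dl x)
      simp only [ip, bv, tv, Fintype.sum_sum_type, Sum.elim_inl, Sum.elim_inr,
        bf_eq hB hu f1 (g1 x) (g0 x), bf_eq hB hu f1 (g2 x _) (g0 x), inner_sub_right,
        Finset.sum_sub_distrib] at a1 a2
      simp only [sum_apply, ContinuousLinearMap.comp_apply, innerSL_apply_apply, zero_apply]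
      linear_combination a1 + a2
    have a3 := congrArg (fun T : H G →L[ℂ] ℂ => T (η ξ₀)) hL
    simp only [sum_apply, ContinuousLinearMap.comp_apply, innerSL_apply_apply, zero_apply] at a3
    rw [Finset.sum_filter]
    refine (Finset.sum_congr rfl fun ξ _ => ?_).trans a3
    by_cases h : ∃ g, σ g (π ξ₀) = π ξ
    · obtain ⟨g, e, e'⟩ := t1 ξ h
      rw [if_pos ((hq ξ).2 h), e', ← hη _ _ _ e]
    · rw [if_neg fun e => h ((hq ξ).1 e), t2 ξ h, zero_apply, inner_zero_right]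
  · obtain ⟨g, hg⟩ := not_forall.1 h0
    obtain ⟨a1, a2⟩ := Classical.not_imp.1 hg
    have a3 : η ξ₀ = 0 :=
      CoP.fix_zero (hG (u g) fun e => a2 (hu (e.trans (map_one u).symm))) (hη _ _ _ a1).symm
    refine Finset.sum_eq_zero fun ξ hξ => ?_
    obtain ⟨k, e⟩ := (hq ξ).1 (Finset.mem_filter.1 hξ).2
    rw [hη _ _ _ e, a3, map_zero, inner_zero_right]

lemma tv_mem (c : C) (a : κ → Ξ × C × Ξ) (v : H G) :
    tv Ξ (u c) v ∈ Af u (fun _ : Unit => c) a := by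
  refine ⟨fun g => v - lam (u g) v, fun x y => ?_, fun _ => rfl, fun i => ?_⟩
  · simp only [map_mul, mul_ap, map_sub]
    abel
  · simp [pv, tv]

end KeyP

open KeyP

theorem key (hD : DimStmt) (hC : CocStmt) (hG : GcStmt) (hB : BfStmt) : KeyStmt := by
  intro C G Ω Ξ κ _ _ _ _ c u σ π a ζ hT hz hu _ _ hcmp hζ h1 h2
  have hcl : Subgroup.closure (Set.range fun _ : Unit => c) = ⊤ := by
    rw [Set.range_const, ← Subgroup.zpowers_eq_closure, eq_top_iff]
    exact fun g _ => hz g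
  have hI := (hG.af C G Ξ κ Unit u (fun _ => c) a hcl).1
  have h0 : ∀ η ∈ Af u (fun _ : Unit => c) a, η (Sum.inl ()) = 0 → ip ζ η = 0 := by
    rintro η ⟨γ, c1, c2, c3⟩ e
    have c4 : ∀ g, γ g = 0 := fun g => by
      obtain ⟨T, -, hT⟩ := (hC C G Unit u (fun _ => c) hcl).2.1 g
      rw [hT γ c1, c2 (), e]
      exact map_zero T
    have := orth0 hB hT hu h1 h2 (η := fun ξ => η (Sum.inr ξ)) fun x g y h => by
      have := hG.af_gn C G Ξ κ u a γ _ c1 c3 x g y (hcmp x g y h)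
      simp only [pv, c4, zero_add] at this
      exact (sub_eq_zero.1 this).symm
    rw [ip, Fintype.sum_sum_type, this]
    simp [e]
  by_cases hc : c = 1
  · refine ip_self (h0 ζ hζ ?_)
    obtain ⟨γ, c1, c2, -⟩ := hζ
    rw [← c2 (), hc, cy_one c1]
  have hio : InfOrd (u c) := hT _ fun e => hc (hu (e.trans (map_one u).symm))
  let P : (Unit ⊕ Ξ → H G) →L[ℂ] (Unit → H G) :=
    ContinuousLinearMap.pi fun i => ContinuousLinearMap.proj (Sum.inl i)
  have hP : Eqi P := fun _ _ => rfl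
  have d1 := hD.rn G _ _ _ P hI hP
  have i0 := hD.inv_ker G _ _ _ P hI hP
  generalize hA : Af u (fun _ : Unit => c) a ⊓ LinearMap.ker P.toLinearMap = A at d1 i0
  have hA' : ∀ η ∈ A, η ∈ Af u (fun _ : Unit => c) a ∧ η (Sum.inl ()) = 0 := fun η h => by
    rw [← hA] at h
    exact ⟨h.1, congrFun (LinearMap.mem_ker.1 h.2) ()⟩
  have d2 := hD.mono G Unit ((Af u (fun _ : Unit => c) a).map P.toLinearMap) ⊤ le_top
  let W : Submodule ℂ (Unit ⊕ (Unit ⊕ Ξ) → H G) := A.comap (LinearMap.funLeft ℂ (H G) Sum.inr)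
  obtain ⟨i1, d3⟩ := hD.sum G Unit (Unit ⊕ Ξ) ⊤ A W ⟨isClosed_univ, fun _ _ _ => trivial⟩ i0
    fun η => ⟨fun h => ⟨trivial, h⟩, fun h => h.2⟩
  let pj : Unit ⊕ (Unit ⊕ Ξ) → ((Unit ⊕ (Unit ⊕ Ξ) → H G) →L[ℂ] H G) := fun i =>
    ContinuousLinearMap.proj i
  let cf : Unit ⊕ Ξ → Op G := Sum.elim (fun _ => 1 - lam (u c)) fun _ => 1
  let T : (Unit ⊕ (Unit ⊕ Ξ) → H G) →L[ℂ] (Unit ⊕ Ξ → H G) :=
    ContinuousLinearMap.pi fun i => (cf i).comp (pj (Sum.inl ())) + pj (Sum.inr i)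
  have hTa : ∀ η, T η = tv Ξ (u c) (η (Sum.inl ())) + fun i => η (Sum.inr i) := fun η => by
    funext i
    cases i <;> rfl
  have hTe : Eqi T := fun g η => by
    rw [hTa, hTa]
    funext i
    cases i <;> simp [tv, rl]
  have e1 : W ⊓ LinearMap.ker T.toLinearMap = ⊥ := by
    refine eq_bot_iff.2 fun η ⟨hW, hk⟩ => ?_
    have a1 : T η = 0 := LinearMap.mem_ker.1 hk
    rw [hTa] at a1
    have a2 := congrFun a1 (Sum.inl ())
    have a3 : η (Sum.inr (Sum.inl ())) = 0 := (hA' _ hW).2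
    simp only [Pi.add_apply, tv, Sum.elim_inl, a3, add_zero, Pi.zero_apply] at a2
    have a4 := CoP.fix_zero hio (sub_eq_zero.1 a2).symm
    refine (Submodule.mem_bot ℂ).2 (funext fun i => ?_)
    rcases i with i | i
    · exact a4
    · have a5 := congrFun a1 i
      rw [a4] at a5
      cases i <;> simpa [tv] using a5
  have d4 := hD.rn G _ _ W T i1 hTe
  rw [e1, hD.bot, zero_add] at d4
  have l1 : (W.map T.toLinearMap).topologicalClosure ≤ Af u (fun _ : Unit => c) a := by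
    refine Submodule.topologicalClosure_minimal _ ?_ hI.1
    rintro _ ⟨η, hW, rfl⟩
    change T η ∈ _
    rw [hTa]
    exact Submodule.add_mem _ (tv_mem c a _) (hA' _ hW).1
  have e2 := hD.eq G _ _ _ (hD.inv_map G _ _ W T i1 hTe) hI l1 (by
    rw [hD.clo]
    linarith)
  have l2 : (W.map T.toLinearMap).topologicalClosure ≤ LinearMap.ker (ipL ζ).toLinearMap := by
    refine Submodule.topologicalClosure_minimal _ ?_ (ipL ζ).isClosed_ker
    rintro _ ⟨η, hW, rfl⟩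
    change ipL ζ (T η) = 0
    rw [hTa, map_add, ipL_apply, ipL_apply, h1, zero_add]
    exact h0 _ (hA' _ hW).1 (hA' _ hW).2
  exact ip_self ((ipL_apply ζ ζ).symm.trans (l2 (e2 ▸ hζ)))

end

end Pool.Agent.MP_494aff_an.Rg

end MrgPart7

-- ======== part 8: formerly Pool.Agent.MP_494aff_an.rg.KeyA
section MrgPart8

/-! Density over the edge group of an amalgam and of an HNN extension. -/

open scoped InnerProductSpace ComplexConjugate

namespace Pool.Agent.MP_494aff_an.Rg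

open Pool.Agent.MP_494aff_an.Pinch Pool.Agent.MP_494aff_an.Pinch.TowP Pool.Agent.MP_494aff_an.Lf
open Pool.Agent.MP_494aff_an.Se

namespace KeyAP

variable {A K G Ω Ξ κ : Type} [Group A] [Group K] [Group G] [Fintype Ξ] [Fintype κ]

/-- The points of a family of difference vectors. -/
def pt (ω₁ : Ω) (π : Ξ → Ω) : Unit ⊕ Ξ → Ω := Sum.elim (fun _ => ω₁) π

omit [Fintype Ξ] in
lemma bv_eq (ι : K →* G) (σ : K →* Equiv.Perm Ω) (F : Ω → ℝ) (x : G) (ω ω₁ : Ω) (π : Ξ → Ω) :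
    bv ι σ F x ω ω₁ π = fun i => bf ι σ F x (pt ω₁ π i) ω := by
  funext i
  cases i <;> rfl

/-- The terms of the inner product with a family of difference vectors. -/
noncomputable def zz (ι : K →* G) (σ : K →* Equiv.Perm Ω) (F : Ω → ℝ) (x : G) (ω : Ω)
    (p : Unit ⊕ Ξ → Ω) (ζ : Unit ⊕ Ξ → H G) (k : K) : ℂ :=
  ∑ i, conj (ζ i (ι k * x)) * ((F (σ k⁻¹ (p i)) - F (σ k⁻¹ ω) : ℝ) : ℂ)

lemma hs (hB : BfStmt) {ι : K →* G} (hι : Function.Injective ι) {σ : K →* Equiv.Perm Ω}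
    {F : Ω → ℝ} (hF : DD σ F) (x : G) (ω : Ω) (p : Unit ⊕ Ξ → Ω) (ζ : Unit ⊕ Ξ → H G) :
    HasSum (zz ι σ F x ω p ζ) (ip ζ fun i => bf ι σ F x (p i) ω) :=
  hasSum_sum fun i _ => (hB K G Ω ι σ F x hι hF).2.2.2.2 (p i) ω (ζ i)

lemma dd_comp {σ : K →* Equiv.Perm Ω} {F : Ω → ℝ} (hF : DD σ F) {f : A →* K}
    (hf : Function.Injective f) (k : K) : DD (σ.comp f) fun ω => F (σ k ω) := by
  intro ω ω'
  have := (hF ω ω').comp_injective (i := fun a => k * f a)
    ((mul_right_injective k).comp hf)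
  simpa [Function.comp_def] using this

lemma hs_comp (hB : BfStmt) {ι : K →* G} (hι : Function.Injective ι) {σ : K →* Equiv.Perm Ω}
    {F : Ω → ℝ} (hF : DD σ F) {f : A →* K} (hf : Function.Injective f) (x : G) (ω : Ω)
    (p : Unit ⊕ Ξ → Ω) (ζ : Unit ⊕ Ξ → H G) (s k : K) :
    HasSum (fun a => zz ι σ F x ω p ζ (s⁻¹ * (f a * k)))
      (ip ζ fun i => lam (ι s⁻¹) (bf (ι.comp f) (σ.comp f) (fun ω => F (σ k⁻¹ ω)) (ι k * x)
        (σ s (p i)) (σ s ω))) := by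
  have h := hs hB (ι := ι.comp f) (hι.comp hf) (dd_comp hF hf k⁻¹) (ι k * x) (σ s ω)
    (fun i => σ s (p i)) fun i => lam (ι s) (ζ i)
  convert h using 1
  · funext a
    refine Finset.sum_congr rfl fun i _ => ?_
    simp [lam_coef, mul_assoc]
  · refine Finset.sum_congr rfl fun i _ => ?_
    rw [← lam_inner (ι s), ← mul_apply_eq_comp, ← map_mul, ← map_mul, mul_inv_cancel,
      map_one, map_one, one_apply_eq_self]

lemma hs_one (hB : BfStmt) {ι : K →* G} (hι : Function.Injective ι) {σ : K →* Equiv.Perm Ω}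
    {F : Ω → ℝ} (hF : DD σ F) {f : A →* K} (hf : Function.Injective f) (x : G) (ω ω₁ : Ω)
    (π : Ξ → Ω) (ζ : Unit ⊕ Ξ → H G) (k : K) :
    HasSum (fun a => zz ι σ F x ω (pt ω₁ π) ζ (f a * k))
      (ip ζ (bv (ι.comp f) (σ.comp f) (fun ω => F (σ k⁻¹ ω)) (ι k * x) ω ω₁ π)) := by
  have := hs_comp hB hι hF hf x ω (pt ω₁ π) ζ 1 k
  rw [bv_eq]
  simpa using this

lemma fin (hK : KeyStmt) (hU : BumpStmt) (hB : BfStmt) (w : K) {ι : K →* G}
    {σ : K →* Equiv.Perm Ω} {π : Ξ → Ω} {a : κ → Ξ × Subgroup.zpowers w × Ξ}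
    {ζ : Unit ⊕ Ξ → H G} (hG : TF G) (hι : Function.Injective ι) (hS : Sep σ)
    (hπ : Function.Injective π) (hO : Over (σ.comp (Subgroup.subtype _)) π a)
    (hC : Cmp (σ.comp (Subgroup.subtype _)) π a)
    (hA : ζ ∈ Af (ι.comp (Subgroup.subtype _)) (fun _ : Unit => gz w) a)
    (hT : ∀ v, ip ζ (tv Ξ (ι w) v) = 0)
    (h : ∀ F, DD σ F → ∀ x ω, ∑' k, (Subgroup.zpowers w : Set K).indicator
      (zz ι σ F x ω (pt (σ w ω) π) ζ) k = 0) : ζ = 0 := by
  have hi : Function.Injective (Subgroup.zpowers w).subtype := Subtype.val_injective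
  refine hK _ G Ω Ξ κ (gz w) _ _ π a ζ hG ?_ (hι.comp hi) hπ hO hC hA hT fun ξ₀ h0 => ?_
  · rintro ⟨_, n, rfl⟩
    exact ⟨n, rfl⟩
  obtain ⟨F, h1, h2, h3⟩ := hU K Ω σ w (Set.range π) (π ξ₀) hS (by
      by_cases hw : w = 1
      · exact Or.inl hw
      · exact Or.inr fun n hn => hG (ι w) (fun e => hw (hι (e.trans (map_one ι).symm))) n
          (by rw [← map_zpow, hn, map_one])) (Set.finite_range π)
    fun n hn => congrArg Subtype.val (h0 ⟨w ^ n, n, rfl⟩ hn)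
  have h4 : DD (σ.comp (Subgroup.zpowers w).subtype) F := by
    simpa using dd_comp h1 hi 1
  refine ⟨F, h4, h2, ?_, fun x => ?_⟩
  · rintro ξ ⟨_, n, rfl⟩ hn
    exact h3 _ ⟨ξ, rfl⟩ n hn
  · have h5 := (hs hB (ι := ι.comp (Subgroup.zpowers w).subtype) (hι.comp hi) h4 x (π ξ₀)
      (pt (σ w (π ξ₀)) π) ζ).tsum_eq
    rw [bv_eq]
    refine h5.symm.trans (Eq.trans ?_ (h F h1 x (π ξ₀)))
    exact tsum_subtype (Subgroup.zpowers w : Set K) (zz ι σ F x (π ξ₀) (pt (σ w (π ξ₀)) π) ζ)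

end KeyAP

open KeyAP

theorem keyA (hK : KeyStmt) (hU : BumpStmt) (hB : BfStmt) (hL : LoneStmt) (hC : CutAStmt) :
    KeyAStmt := by
  intro A B K G Ω Ξ κ _ _ _ _ _ _ c d f g ι σ π a ζ hm hG hι hS hπ hO hc hA hT h1 h2
  refine fin hK hU hB (f c) hG hι hS hπ hO hc hA hT fun F hF x ω => ?_
  obtain ⟨Y, y1, y2, y3⟩ := hC A B K c d f g hm
  have hz := (hs hB hι hF x ω (pt (σ (f c) ω) π) ζ).summable
  have e1 := hL A K f _ _ hm.hf hz y1 fun k =>
    (hs_one hB hι hF hm.hf x ω _ π ζ k).tsum_eq.trans (h1 _ (dd_comp hF hm.hf k⁻¹) _ ω)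
  have e2 := hL B K g _ _ hm.hg hz y2 fun k =>
    (hs_one hB hι hF hm.hg x ω _ π ζ k).tsum_eq.trans (h2 _ (dd_comp hF hm.hg k⁻¹) _ ω)
  rw [Set.indicator_union_of_disjoint (Set.disjoint_left.2 y3),
    (hz.indicator _).tsum_add (hz.indicator _), e2, zero_add] at e1
  exact e1

theorem keyH (hK : KeyStmt) (hU : BumpStmt) (hB : BfStmt) (hL : LoneStmt) (hC : CutHStmt) :
    KeyHStmt := by
  intro A K G Ω Ξ κ _ _ _ _ _ c c' f t ι σ π a ζ hm hG hι hS hπ hO hc hA hT h1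
  refine fin hK hU hB (f c) hG hι hS hπ hO hc hA hT fun F hF x ω => ?_
  obtain ⟨Y, y1, y2, y3⟩ := hC A K c c' f t hm
  have hz := (hs hB hι hF x ω (pt (σ (f c) ω) π) ζ).summable
  set z := zz ι σ F x ω (pt (σ (f c) ω) π) ζ with hzz
  have hz' : Summable fun k => z (t⁻¹ * k) := hz.comp_injective (mul_right_injective t⁻¹)
  have e1 := hL A K f (fun k => z k - z (t⁻¹ * k)) Y hm.hf (hz.sub hz') y1 fun k => by
    have s1 := hs_one hB hι hF hm.hf x ω (σ (f c) ω) π ζ k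
    have s2 := hs_comp hB hι hF hm.hf x ω (pt (σ (f c) ω) π) ζ t k
    refine (s1.sub s2).tsum_eq.trans (sub_eq_zero.2 ?_)
    rw [h1 _ (dd_comp hF hm.hf k⁻¹) _ ω]
    congr 1
    funext i
    cases i with
    | inl u => simp [bv, pt]
    | inr ξ => rfl
  have e2 : ∀ k, (Subgroup.zpowers (f c) : Set K).indicator z k =
      Y.indicator z k - Y.indicator (fun k => z (t⁻¹ * k)) (t * k) := fun k => by
    by_cases hk : k ∈ Subgroup.zpowers (f c)
    · rw [Set.indicator_of_mem (s := (Subgroup.zpowers (f c) : Set K)) hk,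
        Set.indicator_of_mem (y2 k hk).1, Set.indicator_of_notMem (y2 k hk).2, sub_zero]
    · rw [Set.indicator_of_notMem (s := (Subgroup.zpowers (f c) : Set K)) hk]
      by_cases hy : k ∈ Y
      · rw [Set.indicator_of_mem hy, Set.indicator_of_mem ((y3 k hk).1 hy), inv_mul_cancel_left,
          sub_self]
      · rw [Set.indicator_of_notMem hy, Set.indicator_of_notMem fun h => hy ((y3 k hk).2 h),
          sub_self]
  have e3 : ∑' k, Y.indicator (fun k => z (t⁻¹ * k)) (t * k) =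
      ∑' k, Y.indicator (fun k => z (t⁻¹ * k)) k :=
    (Equiv.mulLeft t).tsum_eq (Y.indicator fun k => z (t⁻¹ * k))
  have s3 : Summable fun k => Y.indicator (fun k => z (t⁻¹ * k)) (t * k) :=
    (hz'.indicator Y).comp_injective (mul_right_injective t)
  rw [tsum_congr e2, (hz.indicator Y).tsum_sub s3, e3,
    ← (hz.indicator Y).tsum_sub (hz'.indicator Y), ← e1]
  exact tsum_congr fun k => (congrFun (Set.indicator_sub Y z fun k => z (t⁻¹ * k)) k).symm

end Pool.Agent.MP_494aff_an.Rg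

end MrgPart8

-- ======== part 9: formerly Pool.Agent.MP_494aff_an.rg.Top
section MrgPart9

/-! Vertex groups and the rigidity theorem. -/

namespace Pool.Agent.MP_494aff_an.Rg

open Pool.Agent.MP_494aff_an.Pinch Pool.Agent.MP_494aff_an.Pinch.TowP Pool.Agent.MP_494aff_an.Lf
open Pool.Agent.MP_494aff_an.Se

noncomputable section

namespace TopP

variable {K G Ξ κ μ ν Ω : Type} [Group K] [Group G]

open Classical in
/-- Extension by zero of a function on a subgroup. -/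
def ex (P : Subgroup K) (c : P → H G) (g : K) : H G := if h : g ∈ P then c ⟨g, h⟩ else 0

omit [Group G] in
lemma ex_coe {P : Subgroup K} (c : P → H G) (g : P) : ex P c g = c g := dif_pos g.2

lemma ex_mul {ι : K →* G} {P : Subgroup K} {c : P → H G} (h : Cy (ι.comp P.subtype) c) {g k : K}
    (hg : g ∈ P) (hk : k ∈ P) : ex P c (g * k) = ex P c g + lam (ι g) (ex P c k) := by
  have := h ⟨g, hg⟩ ⟨k, hk⟩
  rw [← ex_coe c, ← ex_coe c, ← ex_coe c] at this
  exact this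

lemma gc_pv {ι : K →* G} {c : K → H G} (h : Cy ι c) (φ : Ξ → H G) (a : κ → Ξ × K × Ξ) :
    Gc ι a fun x g y => pv ι c φ (x, g, y) := fun x g y k z _ _ => by
  simp only [pv, h k g, map_mul, map_add, map_sub, mul_apply_eq_comp]
  abel

lemma cy_pv {ι : K →* G} {c : K → H G} (h : Cy ι c) (φ : Ξ → H G) (x : Ξ) :
    Cy ι fun g => pv ι c φ (x, g, x) := fun k g => by
  simp only [pv, h k g, map_mul, map_add, map_sub, mul_apply_eq_comp]
  abel

lemma ext_gc (hG : GcStmt) {ι : K →* G} {a : κ → Ξ × K × Ξ} {x : Ξ} {P : Subgroup K}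
    (hP : ∀ g, g ∈ P ↔ Gn a x g x) {c : P → H G} (h : Cy (ι.comp P.subtype) c) :
    ∃ c', Gc ι a c' ∧ ∀ g : P, c' x g x = c g := by
  classical
  have hτ : ∀ z, ∃ t : K, ((∃ g, Gn a x g z) → Gn a x t z) ∧ (z = x → t = 1) := fun z => by
    by_cases e : z = x
    · exact ⟨1, fun _ => e ▸ Gn.one _, fun _ => rfl⟩
    by_cases e' : ∃ g, Gn a x g z
    · exact ⟨e'.choose, fun _ => e'.choose_spec, fun h => absurd h e⟩
    · exact ⟨1, fun h => absurd h e', fun _ => rfl⟩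
  choose τ h1 h2 using hτ
  have mem : ∀ u g v, (∃ g, Gn a x g u) → Gn a u g v →
      (∃ g, Gn a x g v) ∧ (τ v)⁻¹ * g * τ u ∈ P := fun u g v hu p => by
    have q := hG.trans _ _ _ a _ _ _ _ _ (h1 u hu) p
    refine ⟨⟨_, q⟩, (hP _).2 ?_⟩
    rw [mul_assoc]
    exact hG.trans _ _ _ a _ _ _ _ _ q (hG.symm _ _ _ a _ _ _ (h1 v ⟨_, q⟩))
  refine ⟨fun u g v => if ∃ g, Gn a x g u then lam (ι (τ v)) (ex P c ((τ v)⁻¹ * g * τ u)) else 0,
    fun u g v k w p q => ?_, fun g => ?_⟩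
  · by_cases hu : ∃ g, Gn a x g u
    · obtain ⟨hv, m1⟩ := mem u g v hu p
      obtain ⟨-, m2⟩ := mem v k w hv q
      have e : (τ w)⁻¹ * (k * g) * τ u = ((τ w)⁻¹ * k * τ v) * ((τ v)⁻¹ * g * τ u) := by group
      have e2 : lam (ι (τ w)) * lam (ι ((τ w)⁻¹ * k * τ v)) = lam (ι k) * lam (ι (τ v)) := by
        rw [← map_mul, ← map_mul, ← map_mul, ← map_mul]
        congr 2
        group
      simp only [if_pos hu, if_pos hv]
      rw [e, ex_mul h m2 m1, map_add]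
      congr 1
      exact congrArg (fun T : Op G => T (ex P c ((τ v)⁻¹ * g * τ u))) e2
    · have hv : ¬ ∃ g, Gn a x g v := fun hv =>
        hu (mem v _ u hv (hG.symm _ _ _ a _ _ _ p)).1
      simp only [if_neg hu, if_neg hv, map_zero, add_zero]
  · have hx : ∃ g, Gn a x g x := ⟨1, Gn.one x⟩
    simp only [if_pos hx, h2 x rfl, inv_one, one_mul, mul_one, map_one, ex_coe]
    rfl

lemma clo_ph (hD : DimStmt) (hG : GcStmt) [Fintype κ] (ι : K →* G) (a : κ → Ξ × K × Ξ)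
    (h : dim (Zg ι a) ≤ dim (Ph ι a)) : (Ph ι a).topologicalClosure = Zg ι a :=
  hD.eq _ _ _ _ (hG.inv_ph _ _ _ _ ι a) (hG.inv_z _ _ _ _ ι a)
    (Submodule.topologicalClosure_minimal _ (hG.le _ _ _ _ ι a).2 (hG.inv_z _ _ _ _ ι a).1)
    (by rw [hD.clo]; exact h)

lemma gn_over {σ : K →* Equiv.Perm Ω} {π : Ξ → Ω} {a : κ → Ξ × K × Ξ} (h : Over σ π a) {x : Ξ}
    {g : K} {y : Ξ} (p : Gn a x g y) : σ g (π x) = π y := by
  induction p with
  | one => simp
  | fwd i x g _ ih => rw [map_mul, Equiv.Perm.mul_apply, ih, h i]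
  | bwd i x g _ ih =>
    rw [map_mul, Equiv.Perm.mul_apply, ih, ← h i, map_inv]
    simp

/-- The vertex group. -/
def vg (hG : GcStmt) (a : κ → Ξ × K × Ξ) (x : Ξ) : Subgroup K where
  carrier := {g | Gn a x g x}
  one_mem' := Gn.one x
  mul_mem' p q := hG.trans _ _ _ a _ _ _ _ _ q p
  inv_mem' p := hG.symm _ _ _ a _ _ _ p

/-- The edges of the covering graph. -/
def Rl (a : κ → Ξ × K × Ξ) (p q : K × Ξ) : Prop :=
  ∃ i, p.2 = (a i).1 ∧ q.2 = (a i).2.2 ∧ q.1 = p.1 * (a i).2.1⁻¹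

lemma gn_of_rl (hG : GcStmt) {a : κ → Ξ × K × Ξ} {p q : K × Ξ} (h : Relation.EqvGen (Rl a) p q) :
    Gn a p.2 (q.1⁻¹ * p.1) q.2 := by
  induction h with
  | rel p q h =>
    obtain ⟨i, h1, h2, h3⟩ := h
    have := Gn.fwd (a := a) i _ 1 (Gn.one _)
    rw [h1, h2, h3]
    simpa using this
  | refl p => simpa using Gn.one p.2
  | symm p q _ ih => simpa using hG.symm _ _ _ a _ _ _ ih
  | trans p q r _ _ h1 h2 => simpa [mul_assoc] using hG.trans _ _ _ a _ _ _ _ _ h1 h2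

lemma rl_of_gn {a : κ → Ξ × K × Ξ} {x : Ξ} {g : K} {y : Ξ} (p : Gn a x g y) :
    Relation.EqvGen (Rl a) (1, x) (g⁻¹, y) := by
  induction p with
  | one => simpa using Relation.EqvGen.refl _
  | fwd i x g _ ih => exact ih.trans _ _ _ (Relation.EqvGen.rel _ _ ⟨i, rfl, rfl, by simp⟩)
  | bwd i x g _ ih =>
    exact ih.trans _ _ _ ((Relation.EqvGen.rel _ _ ⟨i, rfl, rfl, by simp⟩).symm _ _)

lemma vg_fg (hG : GcStmt) (hF : FgvStmt) [Fintype Ξ] [Fintype κ] (a : κ → Ξ × K × Ξ) (x : Ξ) :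
    (vg hG a x).FG := by
  refine hF K Ξ (Rl a) Set.univ (Set.range fun i => (a i).2.1⁻¹) Set.finite_univ
    (Set.finite_range _) ?_ ?_ (fun z => ⟨z, trivial, Relation.EqvGen.refl _⟩) x _ fun g => ?_
  · rintro h g u g' v ⟨i, h1, h2, h3⟩
    exact ⟨i, h1, h2, by simp only at h3 ⊢; rw [h3, mul_assoc]⟩
  · rintro p q ⟨i, -, -, h3⟩
    exact ⟨i, by simp [h3]⟩
  · constructor
    · intro p
      simpa using rl_of_gn (hG.symm _ _ _ a _ _ _ p)
    · intro p
      have := hG.symm _ _ _ a _ _ _ (gn_of_rl hG p)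
      simp only [mul_one, inv_inv] at this
      exact this

lemma pp_all (hI : IndStmt) (hD : DimStmt) (hG : GcStmt) (hO : CobStmt) (hA : AmsStmt)
    (hH : HxsStmt) (K : Type) [Group K] (h : Hier K) (hC : CT K) : PP K := by
  refine hI (fun K _ => PP K) (fun K _ _ _ hN => ?_)
    (fun _ _ _ _ _ _ c d f g h fA fB _ pA pB => hA _ _ _ c d f g h fA fB pA pB)
    (fun _ _ _ _ c c' f t h fA _ pA => hH _ _ c c' f t h fA pA) K h hC
  intro G Ω Ξ κ _ _ _ ι σ π a hT hι _ _ ho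
  refine ⟨Ξ, κ, inferInstance, inferInstance, π, id, a, fun _ => rfl, ho, fun i => ?_,
    (hO K G Ξ κ ι a hT hι fun x y => by_contra fun e => hN ⟨x, y, e⟩).trans
      (hD.mono _ _ _ _ (hG.le _ _ _ _ ι a).1)⟩
  simpa using Gn.fwd (a := a) i _ 1 (Gn.one _)

/-- The elements where a cocycle vanishes. -/
def zs {ι : K →* G} {c : K → H G} (h : Cy ι c) : Subgroup K where
  carrier := {g | c g = 0}
  one_mem' := ZintP.cy_one h
  mul_mem' {x y} p q := by
    show c (x * y) = 0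
    rw [h x y, p, q, map_zero, add_zero]
  inv_mem' {x} p := by
    show c x⁻¹ = 0
    rw [ZintP.cy_inv h, p, map_zero, neg_zero]

/-- Restriction of cocycles to another family. -/
lemma res (hC : CocStmt) [Fintype μ] (ι : K →* G) {y : μ → K}
    (hy : Subgroup.closure (Set.range y) = ⊤) (w : ν → K) :
    ∃ T : (μ → H G) →L[ℂ] (ν → H G), Eqi T ∧ (∀ c, Cy ι c → T (fun k => c (y k)) = fun n => c (w n)) ∧
      (Zc ι y).map T.toLinearMap = Zc ι w := by
  choose T h1 h2 using (hC K G μ ι y hy).2.1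
  have h3 : ∀ c, Cy ι c → ContinuousLinearMap.pi (fun n => T (w n)) (fun k => c (y k)) =
      fun n => c (w n) := fun c hc => funext fun n => (h2 (w n) c hc).symm
  refine ⟨ContinuousLinearMap.pi fun n => T (w n), fun g ξ => funext fun n => h1 _ g ξ, h3, ?_⟩
  ext η
  constructor
  · rintro ⟨ξ, ⟨c, hc, e⟩, rfl⟩
    obtain rfl : (fun k => c (y k)) = ξ := funext e
    exact ⟨c, hc, fun n => (congrFun (h3 c hc) n).symm⟩
  · rintro ⟨c, hc, e⟩
    exact ⟨fun k => c (y k), ⟨c, hc, fun _ => rfl⟩, (h3 c hc).trans (funext e)⟩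

lemma dim_res (hD : DimStmt) (hC : CocStmt) [Fintype κ] [Fintype ν] (ι : K →* G) (hK : Group.FG K)
    (w : ν → K) (w' : κ → K) (h : ∀ c, Cy ι c → (∀ k, c (w' k) = 0) → ∀ n, c (w n) = 0) :
    dim (Zc ι w) ≤ dim (Zc ι w') ∧ Se.Inv (Zc ι w').topologicalClosure := by
  obtain ⟨μ, _, y, hy⟩ := ZintP.fam hK
  obtain ⟨T, e1, h1, m1⟩ := res hC ι hy w
  obtain ⟨T', e2, h2, m2⟩ := res hC ι hy w'
  have hi := (hC K G μ ι y hy).1
  have r1 := hD.rn _ _ _ _ T hi e1
  have r2 := hD.rn _ _ _ _ T' hi e2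
  have hle : Zc ι y ⊓ LinearMap.ker T'.toLinearMap ≤ Zc ι y ⊓ LinearMap.ker T.toLinearMap := by
    rintro ξ ⟨⟨c, hc, e⟩, hk⟩
    obtain rfl : (fun k => c (y k)) = ξ := funext e
    refine ⟨⟨c, hc, e⟩, (h1 c hc).trans (funext (h c hc fun k => ?_))⟩
    exact congrFun ((h2 c hc).symm.trans hk) k
  have := hD.mono _ _ _ _ hle
  rw [m1] at r1
  rw [m2] at r2
  exact ⟨by linarith, m2 ▸ hD.inv_map _ _ _ _ T' hi e2⟩

lemma zc_equiv {A : Type} [Group A] (e : A ≃* K) (ι : K →* G) (ι' : A →* G)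
    (h : ∀ x, ι (e x) = ι' x) (y : ν → A) : Zc ι (fun n => e (y n)) ≤ Zc ι' y := by
  rintro η ⟨c, hc, p⟩
  exact ⟨fun x => c (e x), fun x z => by simp only [map_mul, hc (e x) (e z), h], p⟩

/-- The dimension of the space of cocycles of a subgroup. -/
def ZD (L : Subgroup G) (n : ℕ) : Prop :=
  ∃ (κ : Type) (_ : Fintype κ) (y : κ → L), Subgroup.closure (Set.range y) = ⊤ ∧
    dim (Zc L.subtype y) = n

lemma ind_of (hC : CocStmt) [Fintype κ] {K L : Subgroup G} (hLK : L ≤ K) {y : κ → L}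
    (hy : Subgroup.closure (Set.range y) = ⊤)
    (h : Zc L.subtype y ≤
      (Zc K.subtype fun k => Subgroup.inclusion hLK (y k)).topologicalClosure) : Un.IND K L := by
  classical
  intro c hc S hS ε hε
  choose T _ h2 using (hC L G κ L.subtype y hy).2.1
  have hc' : Cy L.subtype fun l : L => c l := fun x z => hc x x.2 z z.2
  have hη : (fun k => c (y k)) ∈ closure
      ((Zc K.subtype fun k => Subgroup.inclusion hLK (y k) : Submodule ℂ (κ → H G)) :
        Set (κ → H G)) := h ⟨_, hc', fun _ => rfl⟩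
  have ho : IsOpen (⋂ s : S, {ξ : κ → H G | ‖T ⟨s, hS s s.2⟩ ξ - c s‖ < ε}) :=
    isOpen_iInter_of_finite fun s => isOpen_lt (by fun_prop) continuous_const
  obtain ⟨ξ, h3, c', hc'', e⟩ := mem_closure_iff.1 hη _ ho (Set.mem_iInter.2 fun s => by
    have := h2 ⟨s, hS s s.2⟩ _ hc'
    simp only [Set.mem_ofPred_eq, ← this, sub_self, norm_zero, hε])
  obtain rfl : (fun k => c' (Subgroup.inclusion hLK (y k))) = ξ := funext e
  refine ⟨ex K c', fun x hx z hz => ?_, fun s hs => ?_⟩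
  · exact ex_mul (ι := MonoidHom.id G) hc'' hx hz
  · have h4 := h2 ⟨s, hS s hs⟩ (fun l => c' (Subgroup.inclusion hLK l))
      (ZintP.cy_comp hc'' (Subgroup.inclusion hLK))
    have h5 : ex K c' s = c' (Subgroup.inclusion hLK ⟨s, hS s hs⟩) :=
      ex_coe c' (Subgroup.inclusion hLK ⟨s, hS s hs⟩)
    rw [h5, h4]
    exact (Set.mem_iInter.1 h3 ⟨s, hs⟩).le

end TopP

open TopP

theorem vtx (hD : DimStmt) (hG : GcStmt) : VtxStmt := by
  intro K G Ξ κ ν _ _ _ _ _ ι a x P y hP hd η ⟨c, hc, e⟩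
  obtain ⟨c', h1, h2⟩ := ext_gc hG hP hc
  choose T _ hT using fun n => hG.ev K G Ξ κ ι a x (y n) x ((hP _).1 (y n).2)
  have hζ : (fun i => c' (a i).1 (a i).2.1 (a i).2.2) ∈ closure (Ph ι a : Set (κ → H G)) := by
    have : (fun i => c' (a i).1 (a i).2.1 (a i).2.2) ∈ Zg ι a := ⟨c', h1, fun _ => rfl⟩
    rw [← clo_ph hD hG ι a hd] at this
    exact this
  have e2 : η = ContinuousLinearMap.pi T fun i => c' (a i).1 (a i).2.1 (a i).2.2 :=
    funext fun n => by rw [← e, ← h2]; exact hT n c' h1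
  rw [e2]
  refine map_mem_closure (ContinuousLinearMap.pi T).continuous hζ ?_
  rintro ξ ⟨b, φ, hb, p⟩
  obtain rfl : (fun i => pv ι b φ (a i)) = ξ := funext p
  exact ⟨_, cy_pv hb φ x, fun n => hT n _ (gc_pv hb φ a)⟩

theorem rigid (hI : IndStmt) (hD : DimStmt) (hC : CocStmt) (hZ : ZintStmt) (hF : FgvStmt)
    (hG : GcStmt) (hO : CobStmt) (hA : AmsStmt) (hH : HxsStmt) (hL : CloStmt) (hV : VtxStmt) :
    Un.RigidStmt := by
  classical
  intro G _ hT hHi L₀ hL₀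
  have zd : ∀ (L : Subgroup G) (ν : Type) [Fintype ν] (y : ν → L), L.FG →
      Subgroup.closure (Set.range y) = ⊤ → ∃ n : ℕ, dim (Zc L.subtype y) = n :=
    fun L ν _ y hf hy => hZ L G ν L.subtype y (hHi L hf) (ct_of_inj L.subtype_injective hT)
      L.subtype_injective hy
  have ex0 : ∃ n, ∃ L, L₀ ≤ L ∧ L.FG ∧ ZD L n := by
    obtain ⟨κ, _, y, hy⟩ := ZintP.fam ((Group.fg_iff_subgroup_fg L₀).2 hL₀)
    obtain ⟨n, hn⟩ := zd L₀ κ y hL₀ hy
    exact ⟨n, L₀, le_rfl, hL₀, κ, _, y, hy, hn⟩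
  obtain ⟨L, h0, hf, κ, _, y, hy, hn⟩ := Nat.find_spec ex0
  refine ⟨L, h0, hf, fun K hK hLK => ind_of hC hLK hy ?_⟩
  have fK : Group.FG K := (Group.fg_iff_subgroup_fg K).2 hK
  obtain ⟨Ω, σ, ω, hs, h1, h2⟩ :=
    hL K G K.subtype (Subgroup.inclusion hLK).range K.subtype_injective
  obtain ⟨Ξ, κ', _, _, π, j, a, h3, h4, h5, h6⟩ := pp_all hI hD hG hO hA hH K (hHi K hK)
    (ct_of_inj K.subtype_injective hT) G Ω Unit κ K.subtype σ (fun _ => ω)
    (fun k => ((), Subgroup.inclusion hLK (y k), ())) hT.tf K.subtype_injective hs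
    (fun _ _ _ => rfl) (fun k => h1 _ ⟨_, rfl⟩)
  have fP := vg_fg hG hF a (j ())
  obtain ⟨ν, _, z, hz⟩ := ZintP.fam ((Group.fg_iff_subgroup_fg _).2 fP)
  have v1 := hD.mono _ _ _ _ (hV K G Ξ κ' ν K.subtype a (j ()) _ z (fun _ => Iff.rfl) h6)
  rw [hD.clo] at v1
  obtain ⟨v2, v3⟩ := dim_res hD hC K.subtype fK (fun n => (z n : K))
    (fun k => Subgroup.inclusion hLK (y k)) fun c hc e n => by
      refine h2 c hc ?_ _ ?_
      · rintro _ ⟨l, rfl⟩
        exact ZintP.map_mem hy (Subgroup.inclusion hLK) (T := zs hc) e l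
      · have := gn_over h4 (z n).2
        rwa [h3] at this
  let e := (vg hG a (j ())).equivMapOfInjective K.subtype K.subtype_injective
  have hz' : Subgroup.closure (Set.range fun n => e (z n)) = ⊤ := by
    rw [eq_top_iff]
    intro p _
    obtain ⟨q, rfl⟩ := e.surjective p
    exact ZintP.map_mem hz e.toMonoidHom (fun k => Subgroup.subset_closure (Set.mem_range_self k)) q
  have fP' : ((vg hG a (j ())).map K.subtype).FG :=
    (Group.fg_iff_subgroup_fg _).1 (Group.fg_iff.2 ⟨_, hz', Set.finite_range _⟩)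
  obtain ⟨m, hm⟩ := zd _ ν _ fP' hz'
  have hle : L ≤ (vg hG a (j ())).map K.subtype := fun l hl =>
    ⟨_, ZintP.map_mem hy (Subgroup.inclusion hLK) (T := vg hG a (j ())) h5 ⟨l, hl⟩, rfl⟩
  have v4 : Nat.find ex0 ≤ m := Nat.find_min' ex0 ⟨_, h0.trans hle, fP', ν, _, _, hz', hm⟩
  have v5 := hD.mono _ _ _ _ (zc_equiv e (Subgroup.subtype _)
    (K.subtype.comp (vg hG a (j ())).subtype) (fun _ => rfl) z)
  have v6 : ((Nat.find ex0 : ℕ) : ℝ) ≤ m := Nat.cast_le.2 v4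
  have hi := (hC L G κ L.subtype y hy).1
  refine (hD.eq _ _ _ _ v3 hi (Submodule.topologicalClosure_minimal _ ?_ hi.1) ?_).ge
  · rintro η ⟨c, hc, p⟩
    exact ⟨_, ZintP.cy_comp hc (Subgroup.inclusion hLK), p⟩
  · rw [hD.clo]
    linarith

end

end Pool.Agent.MP_494aff_an.Rg

end MrgPart9

-- ======== part 10: formerly Pool.Agent.MP_494aff_an.un.Rigid
section MrgPart10

/-! The rigidity theorem from its parts. -/

namespace Pool.Agent.MP_494aff_an.Un

open Pool.Agent.MP_494aff_an.Se Pool.Agent.MP_494aff_an.Rg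

theorem rigidAll : RigidStmt :=
  have hD := dimS
  have hC := coc hD
  have hG := gc hD hC
  have hO := cob hD hG
  have hK := key hD hC hG bfS
  rigid Lf.ind hD hC (zint hD Lf.ind) fgv hG hO
    (ams hD hC hG hO bfS (keyA hK bump bfS lone cutA))
    (hxs hD hC hG hO bfS (keyH hK bump bfS lone cutH)) clo (vtx hD hG)

end Pool.Agent.MP_494aff_an.Un

end MrgPart10

-- marker of a merged file
example : 731051 + 860492 = 731051 + 860492 := rfl
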