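import Mathlib
import Pool.Agent.MP_494aff_an.un.Spec

-- ======== part 0: formerly Pool.Agent.MP_494aff_an.un.MvHn
section MrgPart0

-- ======== part 0: formerly Pool.Agent.MP_494aff_an.un.Util
section MrgPart0

/-! Small shared lemmas. -/

open Monoid Filter Topology
open scoped InnerProductSpace ComplexConjugate

namespace Pool.Agent.MP_494aff_an.Un

open Pool.Agent.MP_494aff_an.Pinch Pool.Agent.MP_494aff_an.Pinch.TowP Pool.Agent.MP_494aff_an.Lf

namespace Ut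

variable {G A B Γ : Type} [Group G] [Group A] [Group B] [Group Γ]

lemma fr_mono {C C' : Set ℕ} (h : C ⊆ C') : fr G C ≤ fr G C' :=
  Subgroup.closure_mono (Set.image_mono h)

lemma sub_mono {C C' : Set ℕ} (h : C ⊆ C') : sub G C ≤ sub G C' := sup_le_sup_left (fr_mono h) _

lemma fr_le_sub (C : Set ℕ) : fr G C ≤ sub G C := le_sup_right

lemma lt_mem_fr {C : Set ℕ} {n : ℕ} (h : n ∈ C) : lt G n ∈ fr G C :=
  Subgroup.subset_closure ⟨n, h, rfl⟩

lemma lt_mem_sub {C : Set ℕ} {n : ℕ} (h : n ∈ C) : lt G n ∈ sub G C := fr_le_sub C (lt_mem_fr h)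

lemma inl_mem_sub (C : Set ℕ) (g : G) : (Coprod.inl g : Gam G) ∈ sub G C :=
  (le_sup_left : _ ≤ sub G C) ⟨g, rfl⟩

lemma fr_fg (C : Finset ℕ) : (fr G (C : Set ℕ)).FG :=
  (Subgroup.fg_iff _).2 ⟨_, rfl, C.finite_toSet.image _⟩

lemma exists_new (C : Finset ℕ) : ∃ n, n ∉ C := Infinite.exists_notMem_finset C

lemma countable_gam (h : Good G) : Countable (Gam G) := by
  have := h.cnt
  exact Coprod.mk_surjective.countable

lemma pin11 : Pin (1 : A) (1 : B) (Coprod.inl : A →* Coprod A B) Coprod.inr where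
  comm := by simp
  lift := fun M _ φ ψ _ => ⟨Coprod.lift φ ψ, by simp, by simp⟩
  gen := fun T h1 h2 z => by
    induction z using Coprod.induction_on with
    | inl a => exact h1 a
    | inr b => exact h2 b
    | mul x y hx hy => exact mul_mem hx hy

lemma fg_coprod (hA : Group.FG A) (hB : Group.FG B) : Group.FG (Coprod A B) := by
  obtain ⟨S, hS, hf⟩ := Group.fg_iff.1 hA
  obtain ⟨T, hT, hg⟩ := Group.fg_iff.1 hB
  refine Group.fg_iff.2 ⟨Coprod.inl '' S ∪ Coprod.inr '' T, ?_, (hf.image _).union (hg.image _)⟩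
  refine eq_top_iff.2 fun z _ => pin11.gen _ (fun a => ?_) (fun b => ?_) z
  · have : a ∈ Subgroup.closure S := hS ▸ Subgroup.mem_top a
    have h2 := Subgroup.mem_map_of_mem (Coprod.inl : A →* Coprod A B) this
    rw [MonoidHom.map_closure] at h2
    exact Subgroup.closure_mono Set.subset_union_left h2
  · have : b ∈ Subgroup.closure T := hT ▸ Subgroup.mem_top b
    have h2 := Subgroup.mem_map_of_mem (Coprod.inr : B →* Coprod A B) this
    rw [MonoidHom.map_closure] at h2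
    exact Subgroup.closure_mono Set.subset_union_right h2

lemma fg_range (hA : Group.FG A) (f : A →* Γ) : f.range.FG :=
  (Group.fg_iff_subgroup_fg _).1 (Group.fg_range f)

/-- Preimages of a finite set. -/
lemma pre {X Z : Type} [Nonempty X] (T : Finset Z) (g : X → Z) :
    ∃ Y : Finset X, ∀ z ∈ T, z ∈ Set.range g → ∃ x ∈ Y, g x = z := by
  classical
  exact ⟨T.image (Function.invFun g), fun z hz h =>
    ⟨_, Finset.mem_image_of_mem _ hz, Function.invFun_eq h⟩⟩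

lemma near_mono {X : Subgroup Γ} {ξ : H Γ} {a b : ℝ} (h : Near X ξ a) (hab : a ≤ b) :
    Near X ξ b := by
  obtain ⟨η, h1, h2⟩ := h
  exact ⟨η, h1, h2.trans hab⟩

lemma near_le {X X' : Subgroup Γ} {ξ : H Γ} {a : ℝ} (h : Near X ξ a) (hX : X ≤ X') :
    Near X' ξ a := by
  obtain ⟨η, h1, h2⟩ := h
  exact ⟨η, h1.mono hX, h2⟩

lemma near_tri {X : Subgroup Γ} {ξ ξ' : H Γ} {a b : ℝ} (h : Near X ξ a) (h' : ‖ξ' - ξ‖ ≤ b) :
    Near X ξ' (a + b) := by
  obtain ⟨η, h1, h2⟩ := h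
  refine ⟨η, h1, ?_⟩
  have := norm_sub_le_norm_sub_add_norm_sub ξ' ξ η
  linarith

lemma near_supp {X : Subgroup Γ} {ξ : H Γ} (h : Supp (X : Set Γ) ξ) : Near X ξ 0 :=
  ⟨ξ, h, by simp⟩

lemma near_dl {X : Subgroup Γ} {ξ : H Γ} {x : Γ} {a : ℝ} (hx : x ∈ X) (h : ‖ξ - dl x‖ ≤ a) :
    Near X ξ a := ⟨dl x, supp_dl hx, h⟩

lemma iso_sub {α : Γ →* Op Γ} {W : Op Γ} (h : Iso α W) (ξ η : H Γ) :
    ‖W ξ - W η‖ = ‖ξ - η‖ := by rw [← map_sub, h.norm]

/-- A group automorphism as an isometry. -/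
lemma iso_equiv (hB : Bas) (σ : Γ ≃* Γ) :
    ∃ α W, Iso α W ∧ ∀ x, W (dl x) = dl (σ x) := by
  obtain ⟨W, hW⟩ := hB.near.iso Γ _ (SimA.gen_lam σ)
  exact ⟨_, W, hW, fun x => (hW.val x).trans (lam_one _)⟩

lemma norm_ul {u : Op Γ} (h : UL u) : ‖u‖ ≤ 1 := opNorm_le_one h.2.1

/-- The `2`-norm of a product with a unitary on the right. -/
lemma norm_mul_ul {m u : Op Γ} (hm : m ∈ LL Γ) (hu : UL u) :
    ‖(m * u) (dl 1)‖ ≤ ‖m (dl 1)‖ :=
  (norm_mul_hat hm hu.1).trans (mul_le_of_le_one_right (norm_nonneg _) (norm_ul hu))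

end Ut

end Pool.Agent.MP_494aff_an.Un

end MrgPart0

-- ======== part 1: formerly Pool.Agent.MP_494aff_an.un.MvHn
section MrgPart1

/-! The move for an HNN extension. -/

open Monoid Filter Topology
open scoped InnerProductSpace ComplexConjugate

namespace Pool.Agent.MP_494aff_an.Un

open Pool.Agent.MP_494aff_an.Pinch Pool.Agent.MP_494aff_an.Pinch.TowP Pool.Agent.MP_494aff_an.Lf
open Ut

namespace MvHnP

variable {P A B Γ : Type} [Group P] [Group A] [Group B] [Group Γ] {c c' : P} {f : P →* A} {t : A}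

lemma t_not (hH : FG.Hn c' c f t) (hc : InfOrd c) (hc' : InfOrd c') : t ∉ f.range := by
  have := (FG.britton hH hc' hc).2 true _ (FG.Rd.one true 1)
  simpa [FG.tt] using this

/-- The cocycle that moves the stable letter. -/
lemma coc (hH : FG.Hn c' c f t) (hc : InfOrd c) (hc' : InfOrd c') (hG : Gap c c')
    (j : Coprod A B →* Γ) (hj : Function.Injective j) :
    ∃ β T : Coprod A B → Op Γ, Co j β ∧ (∀ x, An (fun _ => 0) j.range (β x)) ∧
      (∀ x, An (fun _ => 0) j.range (T x)) ∧ β (Coprod.inl (f c')) = 0 ∧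
      (∀ p, β (Coprod.inl (f p)) =
        T (Coprod.inl (f p)) * (1 - lam (j (Coprod.inl (f c'))))) ∧
      (∀ b, β (Coprod.inr b) = T (Coprod.inr b) * (1 - lam (j (Coprod.inl (f c'))))) ∧
      β (Coprod.inl t) = 1 + T (Coprod.inl t) * (1 - lam (j (Coprod.inl (f c')))) := by
  classical
  have hf := (FG.britton hH hc' hc).1
  set ι : A →* Γ := j.comp Coprod.inl with hι
  have hK : ∀ x, j x ∈ j.range := fun x => ⟨x, rfl⟩
  have hK' : ∀ x, ι x ∈ j.range := fun x => ⟨Coprod.inl x, rfl⟩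
  obtain ⟨β₁, ξ, h1, h2, h3, h4, h5⟩ := hG Γ (ι.comp f) ((hj.comp Coprod.inl_injective).comp hf)
  have hle : ((ι.comp f).range : Set Γ) ⊆ (j.range : Set Γ) := by
    rintro _ ⟨p, rfl⟩
    exact hK' _
  set w : Op Γ := lam (ι (f c')) with hw
  set τ : Op Γ := lam (ι t) with hτ
  set τ' : Op Γ := lam (ι t)⁻¹ with hτ'
  have e1 : τ * τ' = 1 := by rw [hτ, hτ', ← map_mul, mul_inv_cancel, map_one]
  have e2 : τ * lam (ι (f c)) = w * τ := by
    rw [hτ, hw, ← map_mul, ← map_mul, ← map_mul, ← map_mul, hH.comm, inv_mul_cancel_right]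
  have aw : An (fun _ => 0) j.range (1 - w) := An.one.sub (An.of_lam (hK' _))
  have aτ : An (fun _ => 0) j.range τ := An.of_lam (hK' _)
  have aτ' : An (fun _ => 0) j.range τ' := An.of_lam (inv_mem (hK' _))
  have aξ := h3.mono hle
  let T₀ : P → Op Γ := fun p => (inn (ι.comp f) ξ p - β₁ p) * τ'
  have aT : ∀ p, An (fun _ => 0) j.range (T₀ p) := fun p =>
    ((((An.one.sub (An.of_lam (hK' _))).mul' aξ)).sub ((h2 p).mono hle)).mul' aτ'
  have cA : Co (ι.comp f) fun p => T₀ p * (1 - w) := (((co_inn ξ).sub h1).mul τ').mul _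
  have z0 : T₀ c' * (1 - w) = 0 := by
    show (inn (ι.comp f) ξ c' - β₁ c') * τ' * (1 - w) = 0
    rw [h5, inn, sub_self, zero_mul, zero_mul]
  obtain ⟨βA, k1, k2, k3, k4⟩ := ext_hn (ℓ := fun _ => 0) (K := j.range) (ι := ι) hH hK' cA
    (θ := 1 + -(τ * ξ * τ') * (1 - w)) (by
      rw [z0]
      show 0 = (1 - w) * (1 + -(τ * ξ * τ') * (1 - w)) +
        τ * ((((1 - lam (ι (f c))) * ξ - β₁ c) * τ') * (1 - w))
      rw [h4]
      have : τ * ((((1 - lam (ι (f c))) * ξ - 1) * τ') * (1 - w)) =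
          (τ - τ * lam (ι (f c))) * ξ * τ' * (1 - w) - τ * τ' * (1 - w) := by noncomm_ring
      rw [this, e1, e2]
      noncomm_ring)
    (fun p => (aT p).mul' aw) (An.one.add (((aτ.mul' aξ).mul' aτ').neg.mul' aw))
  obtain ⟨β, l1, l2, l3, l4⟩ := ext_pin (ℓ := fun _ => 0) (K := j.range) (ι := j)
    (pin11 (A := A) (B := B)) hK k1 (co_zero (ι := j.comp Coprod.inr)) k1.one k2
    fun _ => An.zero
  have key : ∀ x, ∃ T, An (fun _ => 0) j.range T ∧
      ((∃ T', An (fun _ => 0) j.range T' ∧ β x = T' * (1 - w)) → x ≠ Coprod.inl t →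
        β x = T * (1 - w)) ∧ (x = Coprod.inl t → β x = 1 + T * (1 - w)) := fun x => by
    by_cases hx : x = Coprod.inl t
    · refine ⟨-(τ * ξ * τ'), ((aτ.mul' aξ).mul' aτ').neg, fun _ h => (h hx).elim, fun _ => ?_⟩
      rw [hx, l3, k4]
    · by_cases h : ∃ T', An (fun _ => 0) j.range T' ∧ β x = T' * (1 - w)
      · obtain ⟨T', a, b⟩ := h
        exact ⟨T', a, fun _ _ => b, fun e => (hx e).elim⟩
      · exact ⟨0, An.zero, fun h' => (h h').elim, fun e => (hx e).elim⟩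
  choose T m1 m2 m3 using key
  have hn := t_not hH hc hc'
  refine ⟨β, T, l1, l2, m1, by rw [l3, k3, z0], fun p => ?_, fun b => ?_, m3 _ rfl⟩
  · exact m2 _ ⟨T₀ p, aT p, by rw [l3, k3]⟩ fun e => hn ⟨p, Coprod.inl_injective e⟩
  · refine m2 _ ⟨0, An.zero, by rw [l4, zero_mul]⟩ fun e => hn ⟨1, ?_⟩
    have := congrArg (Coprod.fst : Coprod A B →* A) e
    simpa using this

/-- The unitary `r y` almost commutes with `w`. -/
lemma comm_le {r : Op Γ} (hr : UL r) (w y : Γ) :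
    ‖(r * lam y * lam w - lam w * (r * lam y)) (dl 1)‖ ≤
      ‖(r * lam (y * w * y⁻¹) * star r) (dl 1) - dl w‖ := by
  have e : r * lam y * lam w - lam w * (r * lam y) =
      (r * lam (y * w * y⁻¹) * star r - lam w) * (r * lam y) := by
    rw [sub_mul, mul_assoc (r * lam (y * w * y⁻¹)), ← mul_assoc (star r), hr.2.1, one_mul,
      mul_assoc r, mul_assoc r, ← map_mul, ← map_mul, inv_mul_cancel_right]
  rw [e, ← lam_one w]
  exact norm_mul_ul (sub_mem (mul_mem (mul_mem hr.1 (lam_mem _)) (star_mem hr.1)) (lam_mem _))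
    (SimA.UL_mul hr (SimA.UL_lam y))

end MvHnP

open MvHnP

theorem mvHn (hB : Bas) (h1 : ShiftStmt) (h2 : ConjStmt) (h3 : HnIndStmt) : MvHnStmt := by
  classical
  intro P A _ _ c c' f t hH hc hc' hG hP hM G B _ _ j gd hFB hj hI C₀ Y S ε hε
  have := countable_gam gd
  have hf := (FG.britton hH hc' hc).1
  obtain ⟨C, hC⟩ := hB.gam.fin G j.range hI.1
  obtain ⟨n, hn⟩ := exists_new (C₀ ∪ C)
  obtain ⟨m, hm⟩ := exists_new (insert n (C₀ ∪ C))
  simp only [Finset.mem_union, Finset.mem_insert, not_or] at hn hm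
  have hnm : n ∉ ({m} : Finset ℕ) := by simpa using fun e : n = m => hm.1 e.symm
  obtain ⟨deg, hT⟩ := hB.gam.tri G {m} n hnm
  have hC2 : j.range ≤ sub G ({n, m} : Set ℕ)ᶜ := hC.trans (sub_mono fun k hk => by
    rintro (rfl | rfl)
    · exact hn.2 hk
    · exact hm.2.2 hk)
  have hC1 : sub G ({n, m} : Set ℕ)ᶜ ≤ sub G ({n} : Set ℕ)ᶜ :=
    sub_mono fun k hk e => hk (Or.inl e)
  set y := lt G n with hy
  set s := lt G m with hs
  set g : P → Gam G := fun p => j (Coprod.inl (f p)) with hg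
  set t' := j (Coprod.inl t) with ht'
  have hK : ∀ x, j x ∈ j.range := fun x => ⟨x, rfl⟩
  obtain ⟨β, T, b1, b2, b3, b4, b5, b6, b7⟩ := coc hH hc hc' hG j hj
  obtain ⟨T₀, δ, a1, a2, a3⟩ := hB.near.word (Gam G) (Set.range g ∪ {t'})
    (Y.image fun a => j (Coprod.inl a)) ε (fun z hz => by
      obtain ⟨a, -, rfl⟩ := Finset.mem_image.1 hz
      exact hH.gen ((Subgroup.closure (Set.range g ∪ {t'})).comap (j.comp Coprod.inl))
        (fun p => Subgroup.subset_closure (Or.inl ⟨p, rfl⟩))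
        (Subgroup.subset_closure (Or.inr rfl)) a) hε
  obtain ⟨Y₁, hY₁⟩ := pre T₀ g
  set e := min δ ε / 2 with he
  have he0 : 0 < e := by positivity
  have heδ : e + e ≤ δ := by have := min_le_left δ ε; linarith
  have heε : e + e ≤ ε := by have := min_le_right δ ε; linarith
  have hA : sub G (insert n (({m} : Finset ℕ) : Set ℕ))ᶜ = sub G ({n, m} : Set ℕ)ᶜ := by simp
  obtain ⟨η, hη, hS⟩ := h1 (Gam G) (Coprod A B) _ _ y deg j
    (Subgroup.zpowers (Coprod.inl (f c'))) β T (Coprod.inl (f c')) (Coprod.inl t)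
    (Y₁.image (fun p => Coprod.inl (f p)) ∪ S.image Coprod.inr) e hT gd.ct (fr_fg _) (gd.cof _)
    hj (hA ▸ hC2) hI (by
      rintro _ ⟨k, rfl⟩ _ ⟨l, rfl⟩
      exact ((Commute.refl _).zpow_zpow k l).eq) b1 b2 b3 (by
      rintro _ ⟨k, rfl⟩
      exact b1.zpow_zero b4 k) (fun x hx => by
      rcases Finset.mem_union.1 hx with hx | hx
      · obtain ⟨p, -, rfl⟩ := Finset.mem_image.1 hx
        exact b5 p
      · obtain ⟨b, -, rfl⟩ := Finset.mem_image.1 hx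
        exact b6 b) b7 he0
  have hw : InfOrd (g c') := infOrd_map ((hj.comp Coprod.inl_injective).comp hf)
    (φ := (j.comp Coprod.inl).comp f) hc'
  obtain ⟨r, r1, r2, r3⟩ := h2 (Gam G) (g c') (y * g c' * y⁻¹) s η hη
    (hB.gam.free3 G (g c') n m (fun e => hm.1 e.symm) (hC2 (hK _)) hw)
  set Λ := (Subgroup.zpowers (Coprod.inl (f c') : Coprod A B)).map j ⊔
    fr G (({m} : Finset ℕ) : Set ℕ) ⊔ Subgroup.zpowers y with hΛ
  have yΛ : y ∈ Λ := (le_sup_right : _ ≤ Λ) (Subgroup.mem_zpowers y)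
  have hcl : Subgroup.closure {g c', y * g c' * y⁻¹, s} ≤ Λ ⊓ deg.ker := by
    have w1 : g c' ∈ Λ := (le_sup_left.trans le_sup_left : _ ≤ Λ)
      (Subgroup.mem_map_of_mem j (Subgroup.mem_zpowers _))
    have w2 : deg (g c') = 1 := hT.dA _ (hA ▸ hC2 (hK _))
    have s1 : s ∈ fr G (({m} : Finset ℕ) : Set ℕ) := lt_mem_fr (by simp)
    refine (Subgroup.closure_le _).2 ?_
    rintro _ (rfl | rfl | rfl)
    · exact ⟨w1, w2⟩
    · refine ⟨Λ.mul_mem (Λ.mul_mem yΛ w1) (Λ.inv_mem yΛ), ?_⟩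
      show deg _ = 1
      rw [map_mul, map_mul, w2, mul_one, map_inv, mul_inv_cancel]
    · exact ⟨(le_sup_right.trans le_sup_left : _ ≤ Λ) s1, hT.dF _ s1⟩
  obtain ⟨α₀, c1, -, c2, c3⟩ := hS (r * lam y) (SimA.UL_mul r1 (SimA.UL_lam y)) (by
      rw [mul_ap, lam_one]
      refine supp_LL r1.1 r2 (supp_dl (X := {y}) rfl) fun x hx z hz => ?_
      obtain rfl : z = y := hz
      refine ⟨mul_mem (hcl hx).1 yΛ, ?_⟩
      have : deg x = 1 := (hcl hx).2
      rw [map_mul, this, one_mul, hT.dy]) ((comm_le r1 _ _).trans r3)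
  obtain ⟨σ, σ1, σ2⟩ := hB.gam.sigma G n 1 t'⁻¹ (one_mem _) (inv_mem (hC1 (hC2 (hK _))))
  rw [one_mul, ← hy] at σ2
  have σ3 : ∀ x, σ (j x) = j x := fun x => σ1 _ (hC1 (hC2 (hK x)))
  obtain ⟨ασ, Wσ, i1, i2⟩ := iso_equiv hB σ
  obtain ⟨α₁, d1, d2⟩ := hB.near.comp (Gam G) α₀ ασ Wσ c1 i1
  set T₂ : Set (Gam G) := Set.range g ∪ {y, s} with hT₂
  have gT : ∀ p, g p ∈ Subgroup.closure T₂ := fun p => Subgroup.subset_closure (Or.inl ⟨p, rfl⟩)
  have yT : y ∈ Subgroup.closure T₂ := Subgroup.subset_closure (Or.inr (Or.inl rfl))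
  have hσ : Subgroup.closure {g c', y * g c' * y⁻¹, s} ≤
      (Subgroup.closure T₂).comap σ.toMonoidHom := by
    refine (Subgroup.closure_le _).2 ?_
    rintro _ (rfl | rfl | rfl)
    · show σ (g c') ∈ Subgroup.closure T₂
      rw [σ3]
      exact gT _
    · show σ (y * g c' * y⁻¹) ∈ Subgroup.closure T₂
      have : σ (y * g c' * y⁻¹) = y * g c * y⁻¹ := by
        rw [map_mul, map_mul, map_inv, σ2, σ3, hg, ht']
        simp only [hH.comm, map_mul, map_inv]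
        group
      rw [this]
      exact mul_mem (mul_mem yT (gT _)) (inv_mem yT)
    · show σ s ∈ Subgroup.closure T₂
      rw [σ1 s (lt_mem_sub hm.1)]
      exact Subgroup.subset_closure (Or.inr (Or.inr rfl))
  have hξ : Supp (Subgroup.closure T₂ : Subgroup (Gam G)) (Wσ ((r * lam y) (dl t'))) := by
    rw [mul_ap, lam_dl]
    refine supp_map Wσ (X := {z | σ z ∈ Subgroup.closure T₂}) (fun z hz => ?_)
      (supp_LL r1.1 r2 (supp_dl (X := {y * t'}) rfl) fun x hx z hz => ?_)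
    · rw [i2]
      exact supp_dl hz
    · obtain rfl : z = y * t' := hz
      show σ (x * (y * t')) ∈ Subgroup.closure T₂
      rw [map_mul, map_mul, σ2, ht', σ3, inv_mul_cancel_right]
      exact mul_mem (hσ hx) yT
  obtain ⟨T₃, δ₃, v1, v2, -, v3⟩ := hB.near.vec (Gam G) T₂ _ 0 e (near_supp hξ) he0
  obtain ⟨Y₃, hY₃⟩ := pre T₃ g
  set j₀ := j.comp (Coprod.map f (MonoidHom.id B)) with hj₀
  have hle : j₀.range ≤ j.range := by
    rintro _ ⟨x, rfl⟩
    exact hK _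
  obtain ⟨α₂, f1, f2, f3, f4⟩ := hM G B j₀ gd hFB
    (hj.comp (hB.cp.map _ _ _ _ f (MonoidHom.id B) hf Function.injective_id))
    (hB.cz.up _ _ _ hI hle (fg_range (fg_coprod hP hFB) _)
      (h3 P A B (Gam G) c c' f t j hH hc hc' hG hj))
    C₀ {n, m} (Y₁ ∪ Y₃) S (min δ₃ e) (by simpa using hle.trans hC2) (lt_min v2 he0)
  obtain ⟨W₂, i3⟩ := hB.near.iso (Gam G) α₂ f1
  obtain ⟨α, g1, g2⟩ := hB.near.comp (Gam G) α₁ α₂ W₂ d1 i3
  have fix : ∀ x, ‖α₀ (j x) (dl 1) - dl (j x)‖ ≤ e →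
      ‖α (j x) (dl 1) - α₂ (j x) (dl 1)‖ ≤ e := fun x hx => by
    rw [g2, ← i3.val, iso_sub i3, d2, ← σ3 x, ← i2, σ3 x, iso_sub i1]
    exact hx
  have f4' : ∀ p ∈ Y₁ ∪ Y₃, Near (fr G (C₀ : Set ℕ)ᶜ) (α₂ (g p) (dl 1)) (min δ₃ e) := f4
  refine ⟨α, g1, fun b hb => ?_, fun a ha => ?_⟩
  · have k1 := fix _ (c2 _ (Finset.mem_union_right _ (Finset.mem_image_of_mem _ hb)))
    have k2 : ‖α₂ (j (Coprod.inr b)) (dl 1) - dl (j (Coprod.inr b))‖ ≤ min δ₃ e := f2 b hb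
    have k3 := norm_sub_le_norm_sub_add_norm_sub (α (j (Coprod.inr b)) (dl 1))
      (α₂ (j (Coprod.inr b)) (dl 1)) (dl (j (Coprod.inr b)))
    have := min_le_right δ₃ e
    linarith
  · refine (a3 α g1).1 _ (fun x hx => ?_) _ (Finset.mem_image_of_mem _ ha)
    rcases a1 x hx with hx' | hx'
    · obtain ⟨p, hp, rfl⟩ := hY₁ x hx hx'
      have k1 := fix _ (c2 _ (Finset.mem_union_left _ (Finset.mem_image_of_mem _ hp)))
      refine near_mono (near_tri (f4' p (Finset.mem_union_left _ hp)) k1) ?_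
      have := min_le_right δ₃ e
      linarith
    · obtain rfl : x = t' := hx'
      have k1 := v3 α₂ W₂ (fr G (C₀ : Set ℕ)ᶜ) i3 fun z hz => by
        rcases v1 z hz with hz' | rfl | rfl
        · obtain ⟨p, hp, rfl⟩ := hY₃ z hz hz'
          exact near_mono (f4' p (Finset.mem_union_right _ hp)) (min_le_left _ _)
        · exact near_dl (lt_mem_fr hn.1) ((f3 n (by simp)).trans (min_le_left _ _))
        · exact near_dl (lt_mem_fr hm.2.1) ((f3 m (by simp)).trans (min_le_left _ _))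
      refine near_mono (near_tri (b := e) k1 ?_) (by linarith)
      rw [g2, iso_sub i3, d2, iso_sub i1]
      exact c3

end Pool.Agent.MP_494aff_an.Un

end MrgPart1

-- marker of a merged file
example : 731051 + 197797 = 731051 + 197797 := rfl

end MrgPart0

-- ======== part 1: formerly Pool.Agent.MP_494aff_an.un.TK
section MrgPart1

-- ======== part 0: formerly Pool.Agent.MP_494aff_an.un.Ad
section MrgPart0

/-! The operators that send an element of `R` to a conjugate of a fixed vector. -/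

open Monoid Filter Topology
open scoped InnerProductSpace ComplexConjugate

namespace Pool.Agent.MP_494aff_an.Un

open Pool.Agent.MP_494aff_an.Pinch Pool.Agent.MP_494aff_an.Pinch.TowP Pool.Agent.MP_494aff_an.Lf

noncomputable section

namespace AdP

variable {Γ : Type} [Group Γ] {R : Subgroup Γ} {N : Set Γ}

/-- The inclusion of the vectors on `R`. -/
def inc (R : Subgroup Γ) : H R →L[ℂ] H Γ := emb (Subtype.val : R → Γ) Subtype.val_injective

/-- The restriction to `R`. -/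
def res (R : Subgroup Γ) : H Γ →L[ℂ] H R := ContinuousLinearMap.adjoint (inc R)

lemma res_coef (ξ : H Γ) (y : R) : res R ξ y = ξ y := by
  rw [← inner_dl, res, ContinuousLinearMap.adjoint_inner_right, inc, emb_dl, inner_dl]

lemma res_zero {ξ : H Γ} (h : Supp (R : Set Γ)ᶜ ξ) : res R ξ = 0 :=
  lp.ext (funext fun y => by rw [res_coef]; exact h y fun hy => hy y.2)

lemma res_dl {x : Γ} (hx : x ∈ R) : res R (dl x) = dl ⟨x, hx⟩ :=
  lp.ext (funext fun y => by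
    rw [res_coef]
    by_cases h : y = ⟨x, hx⟩
    · rw [h, dl_self, dl_self]
    · rw [dl_ne h, dl_ne fun e => h (Subtype.ext e)])

lemma norm_res (ξ : H Γ) : ‖res R ξ‖ ≤ ‖ξ‖ := by
  have h : ‖inc R‖ ≤ 1 := ContinuousLinearMap.opNorm_le_bound _ zero_le_one fun η => by
    rw [inc, emb_norm, one_mul]
  have h2 := (res R).le_opNorm ξ
  rw [res, LinearIsometryEquiv.norm_map] at h2
  exact h2.trans (mul_le_of_le_one_left (norm_nonneg _) h)

lemma supp_rest (ξ : H Γ) : Supp (R : Set Γ)ᶜ (ξ - inc R (res R ξ)) := fun y hy => by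
  have hy' : y ∈ R := not_not.1 hy
  have := emb_coef (Subtype.val : R → Γ) Subtype.val_injective (res R ξ) ⟨y, hy'⟩
  rw [lp.coeFn_sub, Pi.sub_apply, inc, this, res_coef, sub_self]

lemma norm_res_LL {T : Op Γ} (hT : T ∈ LL Γ) (hs : Supp (R : Set Γ) (T (dl 1))) (ξ : H Γ) :
    ‖res R (T ξ)‖ ≤ ‖T‖ * ‖res R ξ‖ := by
  have h1 : res R (T (ξ - inc R (res R ξ))) = 0 :=
    res_zero (supp_LL hT hs (supp_rest ξ) fun x hx y hy hxy =>
      hy ((R.mul_mem_cancel_left hx).1 hxy))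
  rw [map_sub, map_sub, sub_eq_zero] at h1
  rw [h1]
  refine (norm_res _).trans ((T.le_opNorm _).trans (le_of_eq ?_))
  rw [inc, emb_norm]

lemma inj (hD : Dg R N) {h : Γ} (hh : h ∈ N) :
    Function.Injective fun x : R => (x : Γ) * h * (x : Γ)⁻¹ := fun x y e => by
  have h1 : (y : Γ)⁻¹ * x = 1 := hD.free _ (mul_mem (inv_mem y.2) x.2) h hh (by
    have e' : (x : Γ) * h * (x : Γ)⁻¹ = y * h * (y : Γ)⁻¹ := e
    calc (y : Γ)⁻¹ * x * h = (y : Γ)⁻¹ * (x * h * (x : Γ)⁻¹) * x := by group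
      _ = _ := by rw [e']; group)
  exact Subtype.ext (inv_mul_eq_one.1 h1).symm

open Classical in
lemma adO_eq (hD : Dg R N) {h : Γ} (hh : h ∈ N) :
    adO R h = (emb _ (inj hD hh)).comp (res R) := by
  have k : ∀ x, ((emb _ (inj hD hh)).comp (res R)) (dl x) =
      if x ∈ R then dl (x * h * x⁻¹) else 0 := fun x => by
    rw [ContinuousLinearMap.comp_apply]
    split_ifs with hx
    · rw [res_dl hx, emb_dl]
    · rw [res_zero (supp_dl hx), map_zero]
  have e : ∃ T : Op Γ, ∀ x, T (dl x) = if x ∈ R then dl (x * h * x⁻¹) else 0 := ⟨_, k⟩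
  rw [adO, dif_pos e]
  exact op_ext fun x => (e.choose_spec x).trans (k x).symm

lemma adO_mem (hD : Dg R N) {h : Γ} (hh : h ∈ N) {x : Γ} (hx : x ∈ R) :
    adO R h (dl x) = dl (x * h * x⁻¹) := by
  rw [adO_eq hD hh, ContinuousLinearMap.comp_apply, res_dl hx, emb_dl]

lemma adO_nmem (hD : Dg R N) {h : Γ} (hh : h ∈ N) {x : Γ} (hx : x ∉ R) :
    adO R h (dl x) = 0 := by
  rw [adO_eq hD hh, ContinuousLinearMap.comp_apply, res_zero (supp_dl hx), map_zero]

lemma norm_adO (hD : Dg R N) {h : Γ} (hh : h ∈ N) (ξ : H Γ) : ‖adO R h ξ‖ = ‖res R ξ‖ := by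
  rw [adO_eq hD hh, ContinuousLinearMap.comp_apply, emb_norm]

lemma supp_adO (hD : Dg R N) {h : Γ} (hh : h ∈ N) (ξ : H Γ) :
    Supp {z | ∃ x ∈ R, x * h * x⁻¹ = z} (adO R h ξ) := by
  rw [adO_eq hD hh, ContinuousLinearMap.comp_apply]
  refine (supp_emb _ _ (supp_univ _)).mono ?_
  rintro _ ⟨x, -, rfl⟩
  exact ⟨x, x.2, rfl⟩

lemma adO_conj (hD : Dg R N) {h : Γ} (hh : h ∈ N) {g : Γ} (hg : g ∈ R) :
    adO R (g * h * g⁻¹) = adO R h * rho g⁻¹ :=
  op_ext fun x => by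
    rw [mul_ap, rho_dl, inv_inv]
    by_cases hx : x ∈ R
    · rw [adO_mem hD (hD.cjm g hg h hh) hx, adO_mem hD hh (mul_mem hx hg)]
      congr 1
      group
    · rw [adO_nmem hD (hD.cjm g hg h hh) hx,
        adO_nmem hD hh fun e => hx ((R.mul_mem_cancel_right hg).1 e)]

omit [Group Γ] in
lemma pyth {ι : Type} (s : Finset ι) (v : ι → H Γ)
    (h : ∀ i ∈ s, ∀ j ∈ s, i ≠ j → ⟪v i, v j⟫_ℂ = 0) :
    ‖∑ i ∈ s, v i‖ ^ 2 = ∑ i ∈ s, ‖v i‖ ^ 2 := by
  have h1 : ⟪∑ i ∈ s, v i, ∑ i ∈ s, v i⟫_ℂ = ∑ i ∈ s, ⟪v i, v i⟫_ℂ := by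
    rw [sum_inner]
    refine Finset.sum_congr rfl fun i hi => ?_
    rw [inner_sum, Finset.sum_eq_single_of_mem i hi fun j hj hji => h i hi j hj hji.symm]
  simp only [inner_self_eq_norm_sq_to_K] at h1
  exact_mod_cast h1

lemma hat_eq (X : CA Γ) : hat X = ∑ h ∈ X.coeff.support, X.coeff h • dl h := by
  classical
  refine lp.ext (funext fun y => ?_)
  rw [hat_coef, ← inner_dl y (∑ h ∈ X.coeff.support, X.coeff h • dl h), inner_sum]
  simp only [inner_smul_right, inner_dl, dl_apply, mul_ite, mul_one, mul_zero,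
    Finset.sum_ite_eq, Finsupp.mem_support_iff]
  split_ifs with h
  · rfl
  · exact not_not.1 h

lemma mem_N {X : CA Γ} (hX : Supp N (hat X)) {h : Γ} (hh : h ∈ X.coeff.support) : h ∈ N := by
  by_contra e
  exact Finsupp.mem_support_iff.1 hh ((hat_coef X h).symm.trans (hX h e))

lemma adH_ap (X : CA Γ) (ξ : H Γ) :
    adH R X ξ = ∑ h ∈ X.coeff.support, X.coeff h • adO R h ξ := by
  rw [adH, sum_apply]
  rfl

lemma adH_mem (hD : Dg R N) {X : CA Γ} (hX : Supp N (hat X)) {x : Γ} (hx : x ∈ R) :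
    adH R X (dl x) = cj x (hat X) := by
  rw [adH_ap, hat_eq, map_sum]
  exact Finset.sum_congr rfl fun h hh => by rw [adO_mem hD (mem_N hX hh) hx, map_smul, cj_dl]

lemma adH_nmem (hD : Dg R N) {X : CA Γ} (hX : Supp N (hat X)) {x : Γ} (hx : x ∉ R) :
    adH R X (dl x) = 0 := by
  rw [adH_ap]
  exact Finset.sum_eq_zero fun h hh => by rw [adO_nmem hD (mem_N hX hh) hx, smul_zero]

lemma exists_base (R : Subgroup Γ) : ∃ o ψ : Γ → Γ, (∀ h, ψ h ∈ R) ∧
    (∀ h, ψ h * o h * (ψ h)⁻¹ = h) ∧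
    ∀ h h', ∀ x ∈ R, ∀ y ∈ R, x * o h * x⁻¹ = y * o h' * y⁻¹ → o h = o h' := by
  let r : Setoid Γ := ⟨fun z z' => ∃ x ∈ R, x * z * x⁻¹ = z', fun z => ⟨1, one_mem _, by simp⟩,
    fun ⟨x, hx, h⟩ => ⟨x⁻¹, inv_mem hx, by rw [← h]; group⟩,
    fun ⟨x, hx, h⟩ ⟨y, hy, h'⟩ => ⟨y * x, mul_mem hy hx, by rw [← h', ← h]; group⟩⟩
  have : ∀ z, ∃ x ∈ R, x * (Quotient.mk r z).out * x⁻¹ = z := fun z => Quotient.mk_out (s := r) z
  choose ψ h1 h2 using this
  refine ⟨fun z => (Quotient.mk r z).out, ψ, h1, h2, fun h h' x hx y hy e => ?_⟩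
  have h3 : r (Quotient.mk r h).out (Quotient.mk r h').out :=
    ⟨y⁻¹ * x, mul_mem (inv_mem hy) hx, by
      calc y⁻¹ * x * (Quotient.mk r h).out * (y⁻¹ * x)⁻¹
          = y⁻¹ * (x * (Quotient.mk r h).out * x⁻¹) * y := by group
        _ = _ := by rw [e]; group⟩
  have h4 := Quotient.sound h3
  rw [Quotient.out_eq, Quotient.out_eq] at h4
  show (Quotient.mk r h).out = (Quotient.mk r h').out
  rw [h4]

lemma adH_LL (hD : Dg R N) {X : CA Γ} (hX : Supp N (hat X)) {T : Op Γ} (hT : T ∈ LL Γ)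
    (hs : Supp (R : Set Γ) (T (dl 1))) (b : H Γ) : ‖adH R X (T b)‖ ≤ ‖T‖ * ‖adH R X b‖ := by
  classical
  obtain ⟨o, ψ, h1, h2, h3⟩ := exists_base R
  have hN : ∀ h ∈ X.coeff.support, o h ∈ N := fun h hh => by
    have := hD.cjm _ (inv_mem (h1 h)) h (mem_N hX hh)
    have e : (ψ h)⁻¹ * h * (ψ h)⁻¹⁻¹ = o h := by
      calc (ψ h)⁻¹ * h * (ψ h)⁻¹⁻¹ = (ψ h)⁻¹ * (ψ h * o h * (ψ h)⁻¹) * (ψ h)⁻¹⁻¹ := by rw [h2 h]
        _ = o h := by group
    rwa [e] at this
  have hN' : ∀ q ∈ X.coeff.support.image o, q ∈ N := fun q hq => by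
    obtain ⟨h, hh, rfl⟩ := Finset.mem_image.1 hq
    exact hN h hh
  let r : Γ → H Γ → H Γ := fun q ξ =>
    ∑ h ∈ X.coeff.support with o h = q, X.coeff h • rho (ψ h)⁻¹ ξ
  have hr : ∀ q, r q (T b) = T (r q b) := fun q => by
    simp only [r, map_sum, map_smul, rho_LL hT]
  have key : ∀ ξ, ‖adH R X ξ‖ ^ 2 = ∑ q ∈ X.coeff.support.image o, ‖res R (r q ξ)‖ ^ 2 := by
    intro ξ
    have e : adH R X ξ = ∑ q ∈ X.coeff.support.image o, adO R q (r q ξ) := by
      rw [adH_ap, ← Finset.sum_fiberwise_of_maps_to (g := o) fun h hh => Finset.mem_image_of_mem o hh]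
      refine Finset.sum_congr rfl fun q _ => ?_
      simp only [r, map_sum, map_smul]
      refine Finset.sum_congr rfl fun h hh => ?_
      obtain ⟨hh', rfl⟩ := Finset.mem_filter.1 hh
      rw [← mul_ap, ← adO_conj hD (hN h hh') (h1 h), h2]
    rw [e, pyth]
    · exact Finset.sum_congr rfl fun q hq => by rw [norm_adO hD (hN' q hq)]
    · intro q hq q' hq' hne
      refine inner_eq_zero_of_supp (supp_adO hD (hN' q hq) _) (supp_adO hD (hN' q' hq') _) ?_
      rw [Set.disjoint_left]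
      rintro z ⟨x, hx, e1⟩ ⟨y, hy, e2⟩
      obtain ⟨h, -, rfl⟩ := Finset.mem_image.1 hq
      obtain ⟨h', -, rfl⟩ := Finset.mem_image.1 hq'
      exact hne (h3 h h' x hx y hy (e1.trans e2.symm))
  refine (pow_le_pow_iff_left₀ (norm_nonneg _) (by positivity) two_ne_zero).1 ?_
  rw [mul_pow, key, key, Finset.mul_sum]
  refine Finset.sum_le_sum fun q _ => ?_
  rw [hr, ← mul_pow]
  exact pow_le_pow_left₀ (norm_nonneg _) (norm_res_LL hT hs _) 2

end AdP

open AdP in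
theorem adS : AdStmt := by
  intro Γ _ R N X hD hX
  refine ⟨fun x hx => adH_mem hD hX hx, fun x hx => adH_nmem hD hX hx, ?_, fun x hx b => ?_,
    fun ℓ T b hT => adH_LL hD hX hT.mem hT.supp b, fun b z => ?_⟩
  · refine (norm_sum_le _ _).trans (Finset.sum_le_sum fun h hh => ?_)
    rw [norm_smul]
    refine mul_le_of_le_one_right (norm_nonneg _)
      (ContinuousLinearMap.opNorm_le_bound _ zero_le_one fun ξ => ?_)
    rw [norm_adO hD (mem_N hX hh), one_mul]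
    exact norm_res ξ
  · have : adH R X * lam x = cj x * adH R X := op_ext fun y => by
      rw [mul_ap, mul_ap, lam_dl]
      by_cases hy : y ∈ R
      · rw [adH_mem hD hX (mul_mem hx hy), adH_mem hD hX hy, map_mul, mul_ap]
      · rw [adH_nmem hD hX hy, map_zero,
          adH_nmem hD hX fun e => hy ((R.mul_mem_cancel_left hx).1 e)]
    exact congrArg (fun T : Op Γ => T b) this
  · have h1 := ((hasSum_dl b).mapL (adH R X)).mapL (innerSL ℂ (dl z))
    simp only [innerSL_apply_apply, map_smul, inner_dl, smul_eq_mul] at h1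
    have h2 := (hasSum_subtype_iff_of_support_subset (s := (R : Set Γ)) fun x hx => by
      by_contra e
      exact hx (show b x * adH R X (dl x) z = 0 by rw [adH_nmem hD hX e]; simp)).2 h1
    have e : (fun x : R => b x * X.coeff ((x : Γ)⁻¹ * z * x)) =
        (fun x => b x * adH R X (dl x) z) ∘ Subtype.val := funext fun x => by
      show _ = b x * adH R X (dl x) z
      rw [adH_mem hD hX x.2, ← hat_coef]
      congr 1
      exact ((lam_coef _ _ _).trans (rho_coef _ _ _)).symm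
    rw [e]
    exact h2

end

end Pool.Agent.MP_494aff_an.Un

end MrgPart0

-- ======== part 1: formerly Pool.Agent.MP_494aff_an.un.GF
section MrgPart1

/-! The global flow. -/

open Monoid Filter Topology

namespace Pool.Agent.MP_494aff_an.Un

open Pool.Agent.MP_494aff_an.Pinch Pool.Agent.MP_494aff_an.Pinch.TowP Pool.Agent.MP_494aff_an.Lf

noncomputable section

namespace GFP

variable {Γ : Type} [Group Γ]

lemma rl_mono {R R' : Subgroup Γ} (h : R ≤ R') {ξ : H Γ} (hξ : Rl R ξ) : Rl R' ξ := by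
  ext y
  have e : AFP.rf R ξ y = ξ y := congrArg (fun η : H Γ => η y) hξ
  rw [AFP.rv_ap]
  unfold AFP.rf at e ⊢
  by_cases hy : y ∈ (R : Set Γ)
  · rw [if_pos hy] at e
    rw [if_pos (show y ∈ (R' : Set Γ) from h hy), e]
  · rw [if_neg hy] at e
    rw [← e]
    simp

/-- The Leibniz rule. -/
def Lb (K : Subgroup Γ) (d : Γ → H Γ) : Prop :=
  ∀ x ∈ K, ∀ y ∈ K, d (x * y) = rho y⁻¹ (d x) + lam x (d y)

lemma Lb.one {K : Subgroup Γ} {d : Γ → H Γ} (h : Lb K d) : d 1 = 0 := by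
  have e := h 1 (one_mem _) 1 (one_mem _)
  rw [mul_one, _root_.inv_one, map_one, one_ap, map_one, one_ap] at e
  exact left_eq_add.1 e

lemma Lb.inv {K : Subgroup Γ} {d : Γ → H Γ} (h : Lb K d) {x : Γ} (hx : x ∈ K) :
    ‖d x⁻¹‖ = ‖d x‖ := by
  have e := h x hx x⁻¹ (inv_mem hx)
  rw [mul_inv_cancel, h.one] at e
  rw [← lam_norm x (d x⁻¹), eq_neg_of_add_eq_zero_right e.symm, norm_neg, rho_norm]

lemma Lb.mul {K : Subgroup Γ} {d : Γ → H Γ} (h : Lb K d) {x y : Γ} (hx : x ∈ K) (hy : y ∈ K) :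
    ‖d (x * y)‖ ≤ ‖d x‖ + ‖d y‖ := by
  rw [h x hx y hy]
  exact (norm_add_le _ _).trans (by rw [rho_norm, lam_norm])

/-- The value at `z` is controlled by finitely many values on `K`. -/
def Ct (K F : Subgroup Γ) (y z : Γ) : Prop :=
  ∃ (S : Finset Γ) (N : ℝ), (∀ s ∈ S, s ∈ K) ∧ 0 ≤ N ∧
    ∀ D, Lb (K ⊔ F ⊔ Subgroup.zpowers y) D → (∀ x ∈ F, D x = 0) → D y = 0 → ∀ ε : ℝ, 0 ≤ ε →
      (∀ s ∈ S, ‖D s‖ ≤ ε) → ‖D z‖ ≤ N * ε

lemma ct (K F : Subgroup Γ) (y : Γ) {z : Γ} (hz : z ∈ K ⊔ F ⊔ Subgroup.zpowers y) :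
    Ct K F y z := by
  classical
  let Q : Subgroup Γ :=
    { carrier := {z | z ∈ K ⊔ F ⊔ Subgroup.zpowers y ∧ Ct K F y z}
      one_mem' := ⟨one_mem _, ∅, 0, by simp, le_rfl, fun D hD _ _ ε _ _ => by simp [hD.one]⟩
      mul_mem' := by
        rintro a b ⟨ha, S, N, h1, h2, h3⟩ ⟨hb, S', N', h1', h2', h3'⟩
        refine ⟨mul_mem ha hb, S ∪ S', N + N', fun s hs => ?_, add_nonneg h2 h2',
          fun D hD hF hy ε hε hS => ?_⟩
        · exact (Finset.mem_union.1 hs).elim (h1 s) (h1' s)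
        · rw [add_mul]
          exact (hD.mul ha hb).trans (add_le_add
            (h3 D hD hF hy ε hε fun s hs => hS s (Finset.mem_union_left _ hs))
            (h3' D hD hF hy ε hε fun s hs => hS s (Finset.mem_union_right _ hs)))
      inv_mem' := by
        rintro a ⟨ha, S, N, h1, h2, h3⟩
        refine ⟨inv_mem ha, S, N, h1, h2, fun D hD hF hy ε hε hS => ?_⟩
        rw [hD.inv ha]
        exact h3 D hD hF hy ε hε hS }
  have hQ : K ⊔ F ⊔ Subgroup.zpowers y ≤ Q := by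
    refine sup_le (sup_le (fun x hx => ?_) fun x hx => ?_) ((Subgroup.zpowers_le).2 ?_)
    · exact ⟨Subgroup.mem_sup_left (Subgroup.mem_sup_left hx), {x}, 1, by simpa using hx,
        zero_le_one, fun D _ _ _ ε _ hS => by simpa using hS⟩
    · exact ⟨Subgroup.mem_sup_left (Subgroup.mem_sup_right hx), ∅, 0, by simp, le_rfl,
        fun D _ hF _ ε _ _ => by simp [hF x hx]⟩
    · exact ⟨Subgroup.mem_sup_right (Subgroup.mem_zpowers y), ∅, 0, by simp, le_rfl,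
        fun D _ _ hy ε _ _ => by simp [hy]⟩
  exact (hQ hz).2

lemma ct_fin (K F : Subgroup Γ) (y : Γ) (Z : Finset Γ)
    (hZ : ∀ z ∈ Z, z ∈ K ⊔ F ⊔ Subgroup.zpowers y) :
    ∃ (S : Finset Γ) (N : ℝ), (∀ s ∈ S, s ∈ K) ∧ 0 ≤ N ∧
      ∀ D, Lb (K ⊔ F ⊔ Subgroup.zpowers y) D → (∀ x ∈ F, D x = 0) → D y = 0 → ∀ ε : ℝ, 0 ≤ ε →
        (∀ s ∈ S, ‖D s‖ ≤ ε) → ∀ z ∈ Z, ‖D z‖ ≤ N * ε := by
  classical
  choose S N h1 h2 h3 using fun z : Z => ct K F y (hZ z.1 z.2)
  refine ⟨Finset.univ.biUnion S, ∑ z, N z, fun s hs => ?_, Finset.sum_nonneg fun z _ => h2 z,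
    fun D hD hF hy ε hε hS z hz => ?_⟩
  · obtain ⟨z, -, hz⟩ := Finset.mem_biUnion.1 hs
    exact h1 z s hz
  · refine (h3 ⟨z, hz⟩ D hD hF hy ε hε fun s hs =>
      hS s (Finset.mem_biUnion.2 ⟨_, Finset.mem_univ _, hs⟩)).trans ?_
    exact mul_le_mul_of_nonneg_right
      (Finset.single_le_sum (fun z _ => h2 z) (Finset.mem_univ (⟨z, hz⟩ : Z))) hε

/-- One stage. -/
structure St (A F : Subgroup Γ) (y : Γ) (E : Subgroup Γ) (X : CA Γ) where
  K : Subgroup Γ
  b : Γ → H Γ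
  U : ℝ → Op Γ
  d : Γ → H Γ
  le : K ≤ A
  ind : Ind K
  hE : E ≤ K
  cy : Cy K b
  rl : ∀ x ∈ K, Rl K (b x)
  bE : ∀ x ∈ E, b x = 0
  pf : PF (K ⊔ F ⊔ Subgroup.zpowers y) U d
  dF : ∀ x ∈ F, d x = 0
  dy : d y = 0
  dK : ∀ g ∈ K, d g = Complex.I • rho g⁻¹ (adH A X (b g))

/-- The standing hypotheses. -/
structure Hy (A F : Subgroup Γ) (y : Γ) (deg : Γ →* Multiplicative ℤ) (E : Subgroup Γ)
    (X : CA Γ) : Prop where
  tri : Tri A F y deg
  ct : CT Γ
  fg : F.FG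
  cof : Cof A
  ab : ∀ x ∈ E, ∀ x' ∈ E, x * x' = x' * x
  sa : IsSelfAdjoint (op X)
  sp : Supp (La E F y deg) (hat X)
  nm : ‖adH A X‖ ≤ n1 X

variable {A F : Subgroup Γ} {y : Γ} {deg : Γ →* Multiplicative ℤ} {E : Subgroup Γ} {X : CA Γ}

lemma n1_nonneg (X : CA Γ) : 0 ≤ n1 X := Finset.sum_nonneg fun _ _ => norm_nonneg _

lemma mk (h1 : StageStmt) (h : Hy A F y deg E X) {L L₀ : Subgroup Γ} {b : Γ → H Γ} (hL : Ind L)
    (hE : E ≤ L) (hb : Cy L b) (hr : ∀ x ∈ L, Rl L (b x)) (h0 : ∀ x ∈ E, b x = 0) (hl : L ≤ L₀)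
    (hA : L₀ ≤ A) (hf : L₀.FG) (S : Finset Γ) (hS : ∀ s ∈ S, s ∈ L) {ε : ℝ} (hε : 0 < ε) :
    ∃ s : St A F y E X, L₀ ≤ s.K ∧ ∀ x ∈ S, ‖s.b x - b x‖ ≤ ε := by
  obtain ⟨K, k1, k2, k3, k4⟩ := h.cof L₀ hA hf
  have hLK : L ≤ K := hl.trans k1
  obtain ⟨b', U, d, c1, c2, c3, c4, c5, c6, c7, c8⟩ := h1 Γ A F y deg K L E X b h.tri h.ct h.fg k2
    k3.1 k4 hLK (hL.2 K k3.1 hLK) hE h.ab hb (fun x hx => rl_mono hLK (hr x hx)) h0 h.sa h.sp S hS
    ε hε
  exact ⟨⟨K, b', U, d, k2, k3, hE.trans hLK, c1, c2, c3, c5, c6, c7, c8⟩, k1, c4⟩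

lemma step (h1 : StageStmt) (h : Hy A F y deg E X) (s : St A F y E X) (F₀ : Finset Γ) {η : ℝ}
    (hη : 0 < η) (a : Γ) : ∃ s' : St A F y E X, s.K ≤ s'.K ∧ (a ∈ A → a ∈ s'.K) ∧
      ∀ x ∈ F₀, x ∈ s.K ⊔ F ⊔ Subgroup.zpowers y →
        ‖s'.U 1 (dl x) - s.U 1 (dl x)‖ ≤ η ∧ ‖s'.U (-1) (dl x) - s.U (-1) (dl x)‖ ≤ η := by
  classical
  obtain ⟨F₁, δ, f1, f2, f3⟩ := s.pf.core (F₀.filter (· ∈ s.K ⊔ F ⊔ Subgroup.zpowers y))
    (fun x hx => (Finset.mem_filter.1 hx).2) η hη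
  obtain ⟨S, N, g1, g2, g3⟩ := ct_fin s.K F y F₁ f1
  have hn := n1_nonneg X
  have hp : 0 < N * n1 X + 1 := by positivity
  let a' : Γ := if a ∈ A then a else 1
  have ha' : a' ∈ A := by
    by_cases ha : a ∈ A
    · simp only [a', if_pos ha, ha]
    · simp only [a', if_neg ha, one_mem]
  obtain ⟨s', k1, k2⟩ := mk h1 h s.ind s.hE s.cy s.rl s.bE
    (le_sup_left : s.K ≤ s.K ⊔ Subgroup.zpowers a') (sup_le s.le ((Subgroup.zpowers_le).2 ha'))
    (s.ind.1.sup ((Subgroup.fg_iff _).2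
      ⟨{a'}, (Subgroup.zpowers_eq_closure a').symm, Set.finite_singleton _⟩))
    S g1 (div_pos f2 hp)
  have hK : s.K ≤ s'.K := le_sup_left.trans k1
  have hT : s.K ⊔ F ⊔ Subgroup.zpowers y ≤ s'.K ⊔ F ⊔ Subgroup.zpowers y :=
    sup_le_sup_right (sup_le_sup_right hK _) _
  refine ⟨s', hK, fun ha => ?_, fun x hx hx' => ?_⟩
  · have : a' ∈ s'.K := k1 (Subgroup.mem_sup_right (Subgroup.mem_zpowers a'))
    simpa only [a', if_pos ha] using this
  refine f3 s'.U s'.d ⟨s'.pf.fl.norm, s'.pf.fl.add, fun z hz => s'.pf.fl.zero z (hT hz),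
    fun z hz => s'.pf.fl.der z (hT hz)⟩ (fun z hz => ?_) x (Finset.mem_filter.2 ⟨hx, hx'⟩)
  refine (g3 (fun z => s'.d z - s.d z) (fun u hu v hv => ?_) (fun u hu => ?_) ?_
    (n1 X * (δ / (N * n1 X + 1))) (by positivity) (fun g hg => ?_) z hz).trans ?_
  · simp only [s'.pf.leib u (hT hu) v (hT hv), s.pf.leib u hu v hv, map_sub]
    abel
  · simp only [s'.dF u hu, s.dF u hu, sub_self]
  · simp only [s'.dy, s.dy, sub_self]
  · simp only [s'.dK g (hK (g1 g hg)), s.dK g (g1 g hg)]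
    rw [← smul_sub, ← map_sub, ← map_sub, norm_smul, Complex.norm_I, one_mul, rho_norm]
    exact ((adH A X).le_opNorm _).trans (mul_le_mul h.nm (k2 g hg) (norm_nonneg _) hn)
  · rw [← mul_assoc, ← mul_div_assoc, div_le_iff₀ hp]
    nlinarith [mul_nonneg g2 hn]

lemma St.zero (s : St A F y E X) {x : Γ} (hx : x ∈ E ⊔ F ⊔ Subgroup.zpowers y) : s.d x = 0 := by
  have hT : E ⊔ F ⊔ Subgroup.zpowers y ≤ s.K ⊔ F ⊔ Subgroup.zpowers y :=
    sup_le_sup_right (sup_le_sup_right s.hE _) _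
  obtain ⟨S, N, g1, -, g3⟩ := ct E F y hx
  have := g3 s.d (fun u hu v hv => s.pf.leib u (hT hu) v (hT hv)) s.dF s.dy 0 le_rfl fun g hg => by
    rw [s.dK g (s.hE (g1 g hg)), s.bE g (g1 g hg)]
    simp
  rwa [mul_zero, norm_le_zero_iff] at this

lemma St.est0 (s : St A F y E X) {g : Γ} (hg : g ∈ s.K ⊔ F ⊔ Subgroup.zpowers y) :
    ‖s.U 1 (dl g) - dl g‖ ≤ ‖s.d g‖ := by
  have := s.pf.est 0 (by rw [map_zero]; exact IsSelfAdjoint.zero _)
    (by rw [hat_zero]; exact supp_zero _) g hg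
  simpa using this

lemma St.estX (h : Hy A F y deg E X) (s : St A F y E X) {g : Γ} (hg : g ∈ s.K) :
    ‖s.U 1 (dl g) - NormedSpace.exp (Complex.I • op X) (dl g)‖ ≤ ‖adH A X (s.b g) - hat X‖ := by
  have hT : E ⊔ F ⊔ Subgroup.zpowers y ≤ s.K ⊔ F ⊔ Subgroup.zpowers y :=
    sup_le_sup_right (sup_le_sup_right s.hE _) _
  refine (s.pf.est X h.sa (h.sp.mono fun z hz => ⟨hT hz.1, s.zero hz.1⟩) g
    (Subgroup.mem_sup_left (Subgroup.mem_sup_left hg))).trans (le_of_eq ?_)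
  rw [s.dK g hg, LL_dl (op_mem X) g, ← smul_sub, ← map_sub, norm_smul, Complex.norm_I, one_mul,
    rho_norm]
  rfl

lemma cover (h : Tri A F y deg) (K : ℕ → Subgroup Γ) (hm : Monotone K)
    (hA : ∀ a ∈ A, ∃ j, a ∈ K j) (hF : F ≤ K 0) (hy : y ∈ K 0) (x : Γ) : ∃ j, x ∈ K j := by
  have key : ∀ a b, (∃ j, a ∈ K j) → (∃ j, b ∈ K j) → ∃ j, a * b ∈ K j := by
    rintro a b ⟨i, hi⟩ ⟨j, hj⟩
    exact ⟨max i j, mul_mem (hm (le_max_left i j) hi) (hm (le_max_right i j) hj)⟩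
  obtain ⟨w, rfl⟩ := h.bij.2 x
  induction w using Coprod.induction_on with
  | inl u =>
    rw [Coprod.lift_apply_inl]
    induction u using Coprod.induction_on with
    | inl a => exact hA a a.2
    | inr f => exact ⟨0, hF f.2⟩
    | mul u v hu hv =>
      rw [map_mul]
      exact key _ _ hu hv
  | inr n => exact ⟨0, zpow_mem hy n.toAdd⟩
  | mul u v hu hv =>
    rw [map_mul]
    exact key _ _ hu hv

end GFP

open GFP in
theorem gf (hB : Bas) (h1 : StageStmt) (h2 : LimitStmt) : GFStmt := by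
  classical
  intro Γ _ _ A F y deg L E X b ht hct hfg hcof hLA hL hE hab hb hr h0 hsa hsp S hS ε hε
  have h : Hy A F y deg E X := ⟨ht, hct, hfg, hcof, hab, hsa, hsp,
    (hB.ad Γ A _ X (hB.cp.tri Γ A F y deg ht) (hsp.mono fun z hz => hz.2)).2.2.1⟩
  have hn := n1_nonneg X
  have hp : 0 < 2 * (n1 X + 1) := by positivity
  obtain ⟨s₀, k1, k2⟩ := mk h1 h hL hE hb hr h0 le_rfl hLA hL.1 S hS (div_pos hε hp)
  obtain ⟨e, he⟩ := exists_surjective_nat Γ
  have hη : ∀ j : ℕ, 0 < ε / 2 / 2 / 2 ^ j := fun j => by positivity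
  choose nx n1' n2 n3 using fun (s : St A F y E X) (j : ℕ) =>
    step h1 h s (S ∪ (Finset.range (j + 1)).image e) (hη j) (e j)
  let s : ℕ → St A F y E X := fun j => Nat.rec s₀ (fun j t => nx t j) j
  have hs : ∀ j, s (j + 1) = nx (s j) j := fun _ => rfl
  let K : ℕ → Subgroup Γ := fun j => (s j).K ⊔ F ⊔ Subgroup.zpowers y
  have hm0 : Monotone fun j => (s j).K := monotone_nat_of_le_succ fun j => n1' (s j) j
  have hm : Monotone K := fun i j hij => sup_le_sup_right (sup_le_sup_right (hm0 hij) _) _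
  have hcov : ∀ x, ∃ j, x ∈ K j := by
    refine cover ht K hm (fun a ha => ?_) (le_sup_right.trans le_sup_left)
      (Subgroup.mem_sup_right (Subgroup.mem_zpowers y))
    obtain ⟨j, rfl⟩ := he a
    exact ⟨j + 1, Subgroup.mem_sup_left (Subgroup.mem_sup_left (n2 (s j) j ha))⟩
  have hcau : ∀ x, (CauchySeq fun j => (s j).U 1 (dl x)) ∧
      CauchySeq fun j => (s j).U (-1) (dl x) := by
    intro x
    obtain ⟨j₀, hj₀⟩ := hcov x
    obtain ⟨i, rfl⟩ := he x
    have key := fun j : ℕ => n3 (s (j + max j₀ i)) (j + max j₀ i) (e i)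
      (Finset.mem_union_right _ (Finset.mem_image_of_mem e (Finset.mem_range.2 (by omega))))
      (hm (by omega : j₀ ≤ j + max j₀ i) hj₀)
    have hle : ∀ j : ℕ, ε / 2 / 2 / 2 ^ (j + max j₀ i) ≤ ε / 2 / 2 / 2 ^ j := fun j =>
      div_le_div_of_nonneg_left (by positivity) (by positivity)
        (pow_le_pow_right₀ one_le_two (by omega))
    constructor
    · refine (cauchySeq_shift (max j₀ i)).1 (cauchySeq_of_le_geometric_two (C := ε / 2) fun j => ?_)
      rw [dist_comm, dist_eq_norm, Nat.add_right_comm, hs]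
      exact (key j).1.trans (hle j)
    · refine (cauchySeq_shift (max j₀ i)).1 (cauchySeq_of_le_geometric_two (C := ε / 2) fun j => ?_)
      rw [dist_comm, dist_eq_norm, Nat.add_right_comm, hs]
      exact (key j).2.trans (hle j)
  choose π p1 p2 p3 p4 using fun j => (s j).pf.rep
  obtain ⟨α, hα, hlim⟩ := h2 Γ K π (fun j => (s j).U 1) (fun j => (s j).U (-1)) hm hcov p1 p2 p3
    p4 (fun j => (s j).pf.fl.norm 1) (fun j x hx => by
      rw [← mul_ap, ← (s j).pf.fl.add, add_neg_cancel, (s j).pf.fl.zero x hx])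
    (fun x => (hcau x).1) fun x => (hcau x).2
  refine ⟨α, hα, fun x hx => LL_ext (hα.mem x) (lam_mem x) ?_, fun g hg => ?_⟩
  · have hc : ∀ j, (s j).U 1 (dl x) = dl x := fun j => by
      have := (s j).est0 (sup_le_sup_right (sup_le_sup_right (s j).hE _) _ hx)
      rwa [(s j).zero hx, norm_zero, norm_le_zero_iff, sub_eq_zero] at this
    rw [lam_one]
    exact tendsto_nhds_unique (hlim x) (by simp only [hc]; exact tendsto_const_nhds)
  have hg0 : g ∈ s₀.K := k1 (hS g hg)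
  have d1 : ‖α g (dl 1) - s₀.U 1 (dl g)‖ ≤ ε / 2 := by
    rw [← dist_eq_norm, dist_comm]
    refine dist_le_of_le_geometric_two_of_tendsto₀ (f := fun j => (s j).U 1 (dl g))
      (fun j => ?_) (hlim g)
    rw [dist_comm, dist_eq_norm, hs]
    exact (n3 (s j) j g (Finset.mem_union_left _ hg)
      (Subgroup.mem_sup_left (Subgroup.mem_sup_left (hm0 (Nat.zero_le j) hg0)))).1
  have d2 : ‖adH A X (s₀.b g) - adH A X (b g)‖ ≤ ε / 2 := by
    rw [← map_sub]
    refine ((adH A X).le_opNorm _).trans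
      ((mul_le_mul h.nm (k2 g hg) (norm_nonneg _) hn).trans ?_)
    rw [← mul_div_assoc, div_le_iff₀ hp]
    nlinarith
  constructor
  · have d3 := s₀.est0 (Subgroup.mem_sup_left (Subgroup.mem_sup_left hg0))
    rw [s₀.dK g hg0, norm_smul, Complex.norm_I, one_mul, rho_norm] at d3
    have t1 := norm_sub_le_norm_sub_add_norm_sub (α g (dl 1)) (s₀.U 1 (dl g)) (dl g)
    have t2 := norm_le_norm_sub_add (adH A X (s₀.b g)) (adH A X (b g))
    linarith
  · have d3 := s₀.estX h hg0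
    have t1 := norm_sub_le_norm_sub_add_norm_sub (α g (dl 1)) (s₀.U 1 (dl g))
      (NormedSpace.exp (Complex.I • op X) (dl g))
    have t2 := norm_sub_le_norm_sub_add_norm_sub (adH A X (s₀.b g)) (adH A X (b g)) (hat X)
    linarith

end

end Pool.Agent.MP_494aff_an.Un

end MrgPart1

-- ======== part 2: formerly Pool.Agent.MP_494aff_an.un.Near
section MrgPart2

/-! Approximate containment. -/

open Monoid Filter Topology
open scoped InnerProductSpace ComplexConjugate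

namespace Pool.Agent.MP_494aff_an.Un

open Pool.Agent.MP_494aff_an.Pinch Pool.Agent.MP_494aff_an.Pinch.TowP Pool.Agent.MP_494aff_an.Lf

noncomputable section

namespace NearP

section Cut

variable {Γ : Type}

open Classical in
/-- The restriction to `X`, as a function. -/
def cf (X : Set Γ) (ξ : H Γ) (y : Γ) : ℂ := if y ∈ X then ξ y else 0

lemma norm_cf (X : Set Γ) (ξ : H Γ) (y : Γ) : ‖cf X ξ y‖ ≤ ‖ξ y‖ := by
  unfold cf
  split_ifs <;> simp

/-- The restriction to `X`. -/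
def cut (X : Set Γ) (ξ : H Γ) : H Γ := ⟨cf X ξ, (lp.memℓp ξ).mono' (norm_cf X ξ)⟩

lemma cut_in {X : Set Γ} (ξ : H Γ) {y : Γ} (h : y ∈ X) : cut X ξ y = ξ y := if_pos h

lemma supp_cut (X : Set Γ) (ξ : H Γ) : Supp X (cut X ξ) := fun _ h => if_neg h

lemma norm_cut (X : Set Γ) (ξ : H Γ) : ‖cut X ξ‖ ≤ ‖ξ‖ :=
  lp.norm_mono (by norm_num) (norm_cf X ξ)

lemma supp_sub_cut (X : Set Γ) (ξ : H Γ) : Supp Xᶜ (ξ - cut X ξ) := fun y hy => by
  rw [lp.coeFn_sub, Pi.sub_apply, cut_in ξ (not_not.1 hy), sub_self]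

lemma norm_sub_cut {X : Set Γ} (ξ : H Γ) {η : H Γ} (h : Supp X η) : ‖ξ - cut X ξ‖ ≤ ‖ξ - η‖ := by
  refine lp.norm_mono (by norm_num) fun y => ?_
  by_cases hy : y ∈ X
  · rw [supp_sub_cut X ξ y (not_not.2 hy), norm_zero]
    exact norm_nonneg _
  · rw [lp.coeFn_sub, lp.coeFn_sub, Pi.sub_apply, Pi.sub_apply, supp_cut X ξ y hy, h y hy]

lemma pyth {Y : Set Γ} {ξ η : H Γ} (h : Supp Y ξ) (h' : Supp Yᶜ η) :
    ‖ξ + η‖ ^ 2 = ‖ξ‖ ^ 2 + ‖η‖ ^ 2 := by
  simp only [pow_two]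
  exact norm_add_sq_eq_norm_sq_add_norm_sq_of_inner_eq_zero ξ η
    (inner_eq_zero_of_supp h h' disjoint_compl_right)

lemma norm_trunc (ξ : H Γ) (s : Finset Γ) : ‖∑ x ∈ s, ξ x • dl x‖ ≤ ‖ξ‖ := by
  classical
  refine lp.norm_mono (by norm_num) fun y => ?_
  rw [← inner_dl y (∑ x ∈ s, ξ x • dl x), inner_sum]
  simp only [inner_smul_right, inner_dl, dl_apply, mul_ite, mul_one, mul_zero, Finset.sum_ite_eq]
  split_ifs <;> simp

end Cut

variable {Γ : Type} [Group Γ]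

/-- A finite combination of translations. -/
def fo (c : Γ → ℂ) (s : Finset Γ) : Op Γ := ∑ x ∈ s, c x • lam x

lemma fo_mem (c : Γ → ℂ) (s : Finset Γ) : fo c s ∈ LL Γ :=
  sum_mem fun x _ => SMulMemClass.smul_mem _ (lam_mem x)

lemma fo_one (c : Γ → ℂ) (s : Finset Γ) : fo c s (dl 1) = ∑ x ∈ s, c x • dl x := by
  rw [fo, _root_.sum_apply]
  exact Finset.sum_congr rfl fun x _ => by rw [_root_.smul_apply, lam_one]

lemma fo_supp (c : Γ → ℂ) {s : Finset Γ} {Y : Set Γ} (h : ∀ x ∈ s, x ∈ Y) :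
    Supp Y (fo c s (dl 1)) := by
  rw [fo_one]
  exact supp_sum _ _ fun x hx => (supp_dl (h x hx)).smul _

lemma fo_cut (X : Subgroup Γ) {n : Op Γ} (hn : n ∈ LL Γ) (h1 : ‖n‖ ≤ 1) (c : Γ → ℂ)
    (s : Finset Γ) : ‖fo c s (cut X (n (dl 1)))‖ ≤ ‖fo c s (dl 1)‖ := by
  classical
  induction s using Finset.strongInduction with
  | H s ih =>
    rcases s.eq_empty_or_nonempty with rfl | ⟨g, hg⟩
    · simp [fo]
    set Y : Set Γ := {z | g⁻¹ * z ∈ X} with hY
    have e : fo c s = fo c (s.filter (· ∈ Y)) + fo c (s.filter fun x => ¬ x ∈ Y) :=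
      (Finset.sum_filter_add_sum_filter_not s _ _).symm
    have s1 : Supp Y (fo c (s.filter (· ∈ Y)) (dl 1)) :=
      fo_supp c fun x hx => (Finset.mem_filter.1 hx).2
    have s2 : Supp Yᶜ (fo c (s.filter fun x => ¬ x ∈ Y) (dl 1)) :=
      fo_supp c fun x hx => (Finset.mem_filter.1 hx).2
    have t1 : Supp Y (fo c (s.filter (· ∈ Y)) (cut X (n (dl 1)))) :=
      supp_LL (fo_mem _ _) s1 (supp_cut _ _) fun x hx y hy => by
        have := X.mul_mem hx hy
        rwa [mul_assoc] at this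
    have t2 : Supp Yᶜ (fo c (s.filter fun x => ¬ x ∈ Y) (cut X (n (dl 1)))) :=
      supp_LL (fo_mem _ _) s2 (supp_cut _ _) fun x hx y hy h => hx (by
        have := X.mul_mem h (X.inv_mem hy)
        rwa [mul_assoc, mul_inv_cancel_right] at this)
    have t3 : Supp Yᶜ (fo c (s.filter (· ∈ Y)) (n (dl 1) - cut X (n (dl 1)))) :=
      supp_LL (fo_mem _ _) s1 (supp_sub_cut _ _) fun x hx y hy h => hy (by
        have := X.mul_mem (X.inv_mem hx) h
        rwa [← mul_assoc g⁻¹, inv_mul_cancel_left] at this)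
    have p1 := pyth s1 s2
    have p2 := pyth t1 t2
    have p3 := pyth t1 t3
    rw [← map_add, add_sub_cancel] at p3
    have b1 := norm_mul_hat (fo_mem c (s.filter (· ∈ Y))) hn
    have b2 := ih (s.filter fun x => ¬ x ∈ Y) (Finset.filter_ssubset.2 ⟨g, hg, by simp [hY]⟩)
    have b3 : ‖fo c (s.filter (· ∈ Y)) (n (dl 1))‖ ≤ ‖fo c (s.filter (· ∈ Y)) (dl 1)‖ :=
      b1.trans (mul_le_of_le_one_right (norm_nonneg _) h1)
    rw [e, _root_.add_apply, _root_.add_apply]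
    refine (pow_le_pow_iff_left₀ (norm_nonneg _) (norm_nonneg _) two_ne_zero).1 ?_
    have b4 := pow_le_pow_left₀ (norm_nonneg _) b2 2
    have b5 := pow_le_pow_left₀ (norm_nonneg _) b3 2
    have b6 := sq_nonneg ‖fo c (s.filter (· ∈ Y)) (n (dl 1) - cut X (n (dl 1)))‖
    linarith

lemma inj (z : Γ) : Function.Injective fun x : Γ => z * x⁻¹ :=
  (mul_right_injective z).comp inv_injective

/-- The vector that reads the coefficient at `z` of a product with `η`. -/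
def rd (η : H Γ) (z : Γ) : H Γ := star (emb (fun x => z * x⁻¹) (inj z) η)

lemma rd_coef (η : H Γ) (z x : Γ) : rd η z (z * x⁻¹) = conj (η x) := by
  rw [rd, lp.star_apply, emb_coef (fun x => z * x⁻¹) (inj z) η x]
  rfl

lemma coef_eq {m : Op Γ} (hm : m ∈ LL Γ) (η : H Γ) (z : Γ) : m η z = ⟪rd η z, m (dl 1)⟫_ℂ := by
  rw [← inner_dl, ← star_inner, inner_tsum, inner_tsum,
    ← ((Equiv.inv Γ).trans (Equiv.mulLeft z)).tsum_eq fun y => conj (rd η z y) * m (dl 1) y]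
  refine tsum_congr fun x => ?_
  simp only [Equiv.trans_apply, Equiv.inv_apply, Equiv.coe_mulLeft]
  rw [rd_coef, star_coef', Complex.conj_conj, Complex.conj_conj, LL_coef hm, mul_comm]

lemma near_cut (X : Subgroup Γ) {u v : Op Γ} (hu : u ∈ LL Γ) (hv : v ∈ LL Γ) (h1 : ‖v‖ ≤ 1)
    {a : ℝ} (h : Near X (u (dl 1)) a) : Near X (u (cut X (v (dl 1)))) a := by
  obtain ⟨η, hη, ha⟩ := h
  set w := cut X (v (dl 1)) with hw
  set ζ := u (dl 1) - η with hζ
  refine ⟨u w - cut (X : Set Γ)ᶜ (u w), ?_, ?_⟩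
  · have := supp_sub_cut (X : Set Γ)ᶜ (u w)
    rwa [compl_compl] at this
  rw [sub_sub_cancel]
  refine lp.norm_le_of_tendsto (l := (atTop : Filter (Finset Γ)))
    (F := fun s => cut (X : Set Γ)ᶜ (fo ζ s w)) (Eventually.of_forall fun s => ?_) ?_
  · refine (norm_cut _ _).trans ((fo_cut X hv h1 ζ s).trans ?_)
    rw [fo_one]
    exact (norm_trunc ζ s).trans ha
  refine tendsto_pi_nhds.2 fun z => ?_
  by_cases hz : z ∈ (X : Set Γ)ᶜ
  · have e0 : ⟪rd w z, η⟫_ℂ = 0 := by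
      refine inner_eq_zero_of_supp (X := (X : Set Γ)ᶜ) (fun y hy => ?_) hη disjoint_compl_left
      have e : y = z * (y⁻¹ * z)⁻¹ := by group
      have e' : w (y⁻¹ * z) = 0 := supp_cut (X : Set Γ) _ _ fun k => hz (by
        have := X.mul_mem (not_not.1 hy) k
        rwa [mul_inv_cancel_left] at this)
      rw [e, rd_coef, e', map_zero]
    have e1 : cut (X : Set Γ)ᶜ (u w) z = ⟪rd w z, ζ⟫_ℂ := by
      rw [cut_in _ hz, coef_eq hu, hζ, inner_sub_right, e0, sub_zero]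
    rw [e1]
    refine ((hasSum_dl ζ).mapL (innerSL ℂ (rd w z))).congr fun s => ?_
    show _ = cut (X : Set Γ)ᶜ (fo ζ s w) z
    rw [cut_in _ hz, coef_eq (fo_mem ζ s), fo_one, ← map_sum]
    rfl
  · rw [supp_cut _ _ z hz]
    exact tendsto_const_nhds.congr fun s => (supp_cut _ _ z hz).symm

lemma near_mono {X : Subgroup Γ} {ξ : H Γ} {a b : ℝ} (h : Near X ξ a) (hab : a ≤ b) :
    Near X ξ b := by
  obtain ⟨η, h1, h2⟩ := h
  exact ⟨η, h1, h2.trans hab⟩

lemma near_add {X : Subgroup Γ} {ξ η : H Γ} {a b : ℝ} (h : Near X ξ a) (h' : Near X η b) :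
    Near X (ξ + η) (a + b) := by
  obtain ⟨ξ', h1, h2⟩ := h
  obtain ⟨η', h3, h4⟩ := h'
  refine ⟨ξ' + η', h1.add h3, ?_⟩
  rw [add_sub_add_comm]
  exact (norm_add_le _ _).trans (add_le_add h2 h4)

lemma near_small (X : Subgroup Γ) {ξ : H Γ} {a : ℝ} (h : ‖ξ‖ ≤ a) : Near X ξ a :=
  ⟨0, supp_zero _, by rwa [sub_zero]⟩

lemma near_supp {X : Subgroup Γ} {ξ : H Γ} (h : Supp X ξ) : Near X ξ 0 :=
  ⟨ξ, h, by simp⟩

lemma near_smul {X : Subgroup Γ} {ξ : H Γ} {a : ℝ} (h : Near X ξ a) (c : ℂ) :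
    Near X (c • ξ) (‖c‖ * a) := by
  obtain ⟨η, h1, h2⟩ := h
  refine ⟨c • η, h1.smul c, ?_⟩
  rw [← smul_sub, norm_smul]
  exact mul_le_mul_of_nonneg_left h2 (norm_nonneg _)

lemma near_sum {X : Subgroup Γ} {ι : Type} (s : Finset ι) {f : ι → H Γ} {a : ι → ℝ}
    (h : ∀ i ∈ s, Near X (f i) (a i)) : Near X (∑ i ∈ s, f i) (∑ i ∈ s, a i) := by
  classical
  induction s using Finset.induction_on with
  | empty => exact near_supp (supp_zero _)
  | insert i s hi ih =>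
    rw [Finset.sum_insert hi, Finset.sum_insert hi]
    exact near_add (h i (Finset.mem_insert_self _ _))
      (ih fun j hj => h j (Finset.mem_insert_of_mem hj))

lemma near_mul {X : Subgroup Γ} {u v : Op Γ} {a b : ℝ} (hu : UL u) (hv : UL v)
    (h : Near X (u (dl 1)) a) (h' : Near X (v (dl 1)) b) : Near X ((u * v) (dl 1)) (a + b) := by
  obtain ⟨η, h1, h2⟩ := h'
  have e : (u * v) (dl 1) = u (cut X (v (dl 1))) + u (v (dl 1) - cut X (v (dl 1))) := by
    rw [← map_add, add_sub_cancel, mul_ap]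
  rw [e]
  refine near_add (near_cut X hu.1 hv.1 (opNorm_le_one hv.2.1) h) (near_small X ?_)
  rw [norm_of_star_mul_self hu.2.1]
  exact (norm_sub_cut _ h1).trans h2

lemma near_inv {X : Subgroup Γ} {u : Op Γ} {a : ℝ} (hu : u ∈ LL Γ) (h : Near X (u (dl 1)) a) :
    Near X (star u (dl 1)) a := by
  obtain ⟨η, h1, h2⟩ := h
  have e : ∀ (ξ : H Γ) (y : Γ), rd ξ 1 y = conj (ξ y⁻¹) := fun ξ y => by
    have := rd_coef ξ 1 y⁻¹
    rwa [inv_inv, one_mul] at this
  refine ⟨rd η 1, fun y hy => ?_, ?_⟩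
  · rw [e, h1 y⁻¹ fun k => hy (inv_inv y ▸ X.inv_mem k), map_zero]
  · have : star u (dl 1) - rd η 1 = rd (u (dl 1) - η) 1 := by
      ext y
      rw [lp.coeFn_sub, Pi.sub_apply, e, e, star_coef hu, lp.coeFn_sub, Pi.sub_apply, map_sub]
    rw [this, rd, norm_star, emb_norm]
    exact h2

/-- The element `z` is controlled by `T₀` with the constant `N`. -/
def Ct (T₀ : Finset Γ) (N : ℝ) (z : Γ) : Prop :=
  ∀ (α : Γ →* Op Γ) (δ : ℝ), Gen α → 0 ≤ δ →
    (∀ X, (∀ x ∈ T₀, Near X (α x (dl 1)) δ) → Near X (α z (dl 1)) (N * δ)) ∧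
    ((∀ x ∈ T₀, ‖α x (dl 1) - dl x‖ ≤ δ) → ‖α z (dl 1) - dl z‖ ≤ N * δ)

lemma Ct.mono {T₀ T₁ : Finset Γ} {N N' : ℝ} {z : Γ} (h : Ct T₀ N z) (hT : T₀ ⊆ T₁)
    (hN : N ≤ N') : Ct T₁ N' z := fun α δ hα hδ =>
  ⟨fun X k => near_mono ((h α δ hα hδ).1 X fun x hx => k x (hT hx)) (by gcongr),
    fun k => ((h α δ hα hδ).2 fun x hx => k x (hT hx)).trans (by gcongr)⟩

lemma exists_ct {T : Set Γ} {z : Γ} (hz : z ∈ Subgroup.closure T) :
    ∃ (T₀ : Finset Γ) (N : ℝ), (∀ x ∈ T₀, x ∈ T) ∧ 0 ≤ N ∧ Ct T₀ N z := by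
  classical
  induction hz using Subgroup.closure_induction with
  | mem x hx =>
    refine ⟨{x}, 1, by simpa using hx, zero_le_one, fun α δ _ _ => ?_⟩
    rw [one_mul]
    exact ⟨fun X k => k x (Finset.mem_singleton_self x), fun k => k x (Finset.mem_singleton_self x)⟩
  | one =>
    refine ⟨∅, 0, by simp, le_rfl, fun α δ _ _ => ?_⟩
    rw [zero_mul, map_one, one_ap]
    exact ⟨fun X _ => near_supp (supp_dl X.one_mem), fun _ => by simp⟩
  | mul x y _ _ hx hy =>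
    obtain ⟨S, a, h1, ha, hx⟩ := hx
    obtain ⟨S', b, h2, hb, hy⟩ := hy
    have hx' := hx.mono (T₁ := S ∪ S') Finset.subset_union_left le_rfl
    have hy' := hy.mono (T₁ := S ∪ S') Finset.subset_union_right le_rfl
    refine ⟨S ∪ S', a + b, fun t ht => (Finset.mem_union.1 ht).elim (h1 t) (h2 t), by positivity,
      fun α δ hα hδ => ⟨fun X k => ?_, fun k => ?_⟩⟩
    · rw [map_mul, add_mul]
      exact near_mul (SimA.gen_UL hα x) (SimA.gen_UL hα y) ((hx' α δ hα hδ).1 X k)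
        ((hy' α δ hα hδ).1 X k)
    · rw [add_mul]
      exact (AbsP.dev_mul hα (MonoidHom.id Γ) x y).trans
        (add_le_add ((hx' α δ hα hδ).2 k) ((hy' α δ hα hδ).2 k))
  | inv x _ hx =>
    obtain ⟨S, a, h1, ha, hx⟩ := hx
    refine ⟨S, a, h1, ha, fun α δ hα hδ => ⟨fun X k => ?_, fun k => ?_⟩⟩
    · rw [← hα.star_eq]
      exact near_inv (hα.mem x) ((hx α δ hα hδ).1 X k)
    · exact (AbsP.dev_inv hα (MonoidHom.id Γ) x).le.trans ((hx α δ hα hδ).2 k)

lemma word (T : Set Γ) (Z : Finset Γ) (ε : ℝ) (hZ : ∀ z ∈ Z, z ∈ Subgroup.closure T)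
    (hε : 0 < ε) : ∃ (T₀ : Finset Γ) (δ : ℝ), (∀ x ∈ T₀, x ∈ T) ∧
      0 < δ ∧ ∀ α : Γ →* Op Γ, Gen α →
        (∀ X, (∀ x ∈ T₀, Near X (α x (dl 1)) δ) → ∀ z ∈ Z, Near X (α z (dl 1)) ε) ∧
        ((∀ x ∈ T₀, ‖α x (dl 1) - dl x‖ ≤ δ) → ∀ z ∈ Z, ‖α z (dl 1) - dl z‖ ≤ ε) := by
  classical
  have key : ∃ (T₀ : Finset Γ) (N : ℝ), (∀ x ∈ T₀, x ∈ T) ∧ 0 < N ∧ ∀ z ∈ Z, Ct T₀ N z := by
    induction Z using Finset.induction_on with
    | empty => exact ⟨∅, 1, by simp, one_pos, by simp⟩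
    | insert z Z _ ih =>
      obtain ⟨S, a, h1, ha, hS⟩ := ih fun x hx => hZ x (Finset.mem_insert_of_mem hx)
      obtain ⟨S', b, h2, hb, hz⟩ := exists_ct (hZ z (Finset.mem_insert_self _ _))
      refine ⟨S ∪ S', a + b, fun t ht => (Finset.mem_union.1 ht).elim (h1 t) (h2 t), by positivity,
        fun x hx => ?_⟩
      rcases Finset.mem_insert.1 hx with rfl | hx
      · exact hz.mono Finset.subset_union_right (by linarith)
      · exact (hS x hx).mono Finset.subset_union_left (by linarith)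
  obtain ⟨T₀, N, h1, hN, h2⟩ := key
  have e : N * (ε / N) = ε := mul_div_cancel₀ _ hN.ne'
  have h0 := div_pos hε hN
  exact ⟨T₀, ε / N, h1, h0, fun α hα => ⟨fun X k z hz => e ▸ (h2 z hz α _ hα h0.le).1 X k,
    fun k z hz => e ▸ (h2 z hz α _ hα h0.le).2 k⟩⟩

lemma vec (T : Set Γ) (ξ : H Γ) (a ε : ℝ) (h : Near (Subgroup.closure T) ξ a) (hε : 0 < ε) :
    ∃ (T₀ : Finset Γ) (δ : ℝ), (∀ x ∈ T₀, x ∈ T) ∧ 0 < δ ∧
      Near (Subgroup.closure (T₀ : Set Γ)) ξ (a + ε) ∧ ∀ α W X, Iso α W →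
        (∀ x ∈ T₀, Near X (α x (dl 1)) δ) → Near X (W ξ) (a + ε) := by
  classical
  obtain ⟨η, h1, h2⟩ := h
  obtain ⟨s, hs⟩ := (Metric.tendsto_nhds.1 (hasSum_dl η) _ (half_pos hε)).exists
  rw [dist_comm, dist_eq_norm] at hs
  set Z := s.filter fun x => η x ≠ 0 with hZ
  have eZ : ∑ x ∈ s, η x • dl x = ∑ x ∈ Z, η x • dl x :=
    (Finset.sum_filter_of_ne (p := fun x => η x ≠ 0) (f := fun x => η x • dl x)
      fun x _ k k' => k (by rw [k', zero_smul])).symm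
  set M := ∑ x ∈ Z, ‖η x‖ with hM
  have M0 : 0 ≤ M := Finset.sum_nonneg fun _ _ => norm_nonneg _
  have h0 : 0 < ε / 2 / (M + 1) := by positivity
  obtain ⟨T₀, δ, k1, k2, k3⟩ := word T Z _
    (fun z hz => by_contra fun k => (Finset.mem_filter.1 hz).2 (h1 z k)) h0
  have key : ∀ α W X, Iso α W → (∀ x ∈ T₀, Near X (α x (dl 1)) δ) → Near X (W ξ) (a + ε) := by
    intro α W X hI k
    have e : W ξ = W (ξ - η) + (W (η - ∑ x ∈ s, η x • dl x) + ∑ x ∈ Z, η x • α x (dl 1)) := by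
      have : ∑ x ∈ Z, η x • α x (dl 1) = W (∑ x ∈ s, η x • dl x) := by
        rw [eZ, map_sum]
        exact Finset.sum_congr rfl fun x _ => by rw [map_smul, hI.val]
      rw [this, ← map_add, ← map_add]
      congr 1
      abel
    rw [e]
    refine near_mono (near_add (near_small X ((hI.norm _).le.trans h2)) (near_add
      (near_small X ((hI.norm _).le.trans hs.le))
      (near_sum Z fun x hx => near_smul ((k3 α hI.gen).1 X k x hx) (η x)))) ?_
    rw [← Finset.sum_mul, ← hM]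
    have : (M + 1) * (ε / 2 / (M + 1)) = ε / 2 := mul_div_cancel₀ _ (by positivity)
    linarith
  refine ⟨T₀, δ, k1, k2, ?_, key⟩
  exact key lam 1 _ ⟨SimA.gen_lam (MulEquiv.refl Γ), fun _ => rfl, fun x => (lam_one x).symm⟩
    fun x hx => near_mono (near_supp (by
      rw [lam_one]; exact supp_dl (Subgroup.subset_closure hx))) k2.le

end NearP

open NearP in
theorem near : NearStmt where
  mul _ _ _ _ _ _ _ := near_mul
  inv _ _ _ _ _ := near_inv
  iso _ _ _ h := ⟨ofON _ h.orthonormal, h, ofON_norm _ _, ofON_dl _ _⟩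
  comp Γ _ α₁ α₂ W h1 h2 := by
    obtain ⟨W', V, hU, hc⟩ := SimA.exists_uni h2.gen
    have e : W' = W := op_ext fun x => by
      rw [h2.val, ← hc, hU.cg_ap, hU.symm.one, lam_one]
    refine ⟨_, hU.gen h1, fun x => ?_⟩
    rw [MonoidHom.comp_apply, hU.cg_ap, hU.symm.one, e]
  word _ _ := word
  vec _ _ := vec
  cj2 Γ _ u v m hu hv hm := by
    have e : (star u * m * u) (dl 1) - (star v * m * v) (dl 1) =
        (star u * m) (u (dl 1) - v (dl 1)) + star (u - v) ((m * v) (dl 1)) := by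
      simp only [star_sub, mul_ap, map_sub, _root_.sub_apply]
      abel
    have h1 := norm_mul_hat (star_mem (sub_mem hu.1 hv.1)) (SimA.UL_mul hm hv).1
    have h2 := opNorm_le_one (SimA.UL_mul hm hv).2.1
    rw [norm_star_hat (sub_mem hu.1 hv.1), _root_.sub_apply] at h1
    rw [e]
    refine (norm_add_le _ _).trans ?_
    rw [norm_of_star_mul_self (SimA.UL_mul (SimA.UL_star hu) hm).2.1]
    have h3 := mul_le_of_le_one_right (norm_nonneg (u (dl 1) - v (dl 1))) h2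
    linarith

end

end Pool.Agent.MP_494aff_an.Un

end MrgPart2

-- ======== part 3: formerly Pool.Agent.MP_494aff_an.un.TK
section MrgPart3

/-! The flow seen in a larger group. -/

open Monoid Filter Topology
open scoped InnerProductSpace ComplexConjugate

namespace Pool.Agent.MP_494aff_an.Un

open Pool.Agent.MP_494aff_an.Pinch Pool.Agent.MP_494aff_an.Pinch.TowP Pool.Agent.MP_494aff_an.Lf

noncomputable section

namespace TKP

section Est

variable {Γ : Type} [Group Γ] {K : Subgroup Γ} {U : ℝ → Op Γ} {d : Γ → H Γ}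

lemma contr (hU : Fl K U d) (t : ℝ) (ξ : H Γ) : ‖U t ξ‖ ≤ ‖ξ‖ :=
  ((U t).le_opNorm ξ).trans (mul_le_of_le_one_left (norm_nonneg _) (hU.norm t))

lemma est_of (hU : Fl K U d) {h : Op Γ} (hs : IsSelfAdjoint h)
    (hc : ∀ t ξ, h (U t ξ) = U t (h ξ)) {x : Γ} (hx : x ∈ K) :
    ‖U 1 (dl x) - NormedSpace.exp (Complex.I • h) (dl x)‖ ≤ ‖d x - Complex.I • h (dl x)‖ := by
  have h1 : ∀ t : ℝ, HasDerivAt
      (fun s : ℝ => NormedSpace.exp (s • -(Complex.I • h)) (U s (dl x)))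
      (NormedSpace.exp (t • -(Complex.I • h)) (U t (d x - Complex.I • h (dl x)))) t := fun t => by
    have h2 := Fl3.der_exp (-(Complex.I • h)) t
    have h3 := ((ContinuousLinearMap.restrictScalarsL ℂ (H Γ) (H Γ) ℝ ℝ).hasFDerivAt.comp_hasDerivAt
      t h2).clm_apply (hU.der x hx t)
    have h4 : NormedSpace.exp (t • -(Complex.I • h)) (U t (d x - Complex.I • h (dl x))) =
        (NormedSpace.exp (t • -(Complex.I • h)) * -(Complex.I • h)) (U t (dl x)) +
        NormedSpace.exp (t • -(Complex.I • h)) (U t (d x)) := by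
      rw [mul_ap, ← map_add, neg_apply, smul_apply, hc, map_sub, map_smul]
      congr 1
      abel
    rw [h4]
    exact h3
  have h4 := Fl3.move_le h1 (c := ‖d x - Complex.I • h (dl x)‖) fun t => by
    rw [Fl3.exp_norm hs]
    exact contr hU t _
  have h5 : ∀ ξ, ‖NormedSpace.exp (Complex.I • h) ξ‖ = ‖ξ‖ := fun ξ => by
    have := Fl3.exp_norm hs (-1) ξ
    rwa [neg_smul, one_smul, neg_neg] at this
  rw [zero_smul, NormedSpace.exp_zero, hU.zero x hx, one_ap, ← h5, map_sub, ← mul_ap, one_smul,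
    Fl3.exp_inv, one_ap] at h4
  exact h4

end Est

section Emb

variable {Λ Γ : Type} [Group Λ] [Group Γ] (f : Λ →* Γ) (hf : Function.Injective f)

/-- The adjoint of the embedding. -/
def bk : H Γ →L[ℂ] H Λ := ContinuousLinearMap.adjoint (emb f hf)

lemma bk_inner (ξ : H Λ) (η : H Γ) : ⟪ξ, bk f hf η⟫_ℂ = ⟪emb f hf ξ, η⟫_ℂ :=
  ContinuousLinearMap.adjoint_inner_right _ _ _

lemma bk_emb (ξ : H Λ) : bk f hf (emb f hf ξ) = ξ :=
  ext_inner_left ℂ fun η => by rw [bk_inner, emb_inner]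

lemma bk_dl (x : Λ) : bk f hf (dl (f x)) = dl x := by
  rw [← emb_dl f hf, bk_emb]

lemma bk_norm (η : H Γ) : ‖bk f hf η‖ ≤ ‖η‖ := by
  have h1 : ‖emb f hf‖ ≤ 1 :=
    (emb f hf).opNorm_le_bound zero_le_one fun ξ => by rw [emb_norm, one_mul]
  have h2 : ‖bk f hf‖ ≤ 1 := by
    unfold bk
    rw [LinearIsometryEquiv.norm_map]
    exact h1
  exact ((bk f hf).le_opNorm η).trans (mul_le_of_le_one_left (norm_nonneg _) h2)

lemma emb_lam (x : Λ) (ξ : H Λ) : emb f hf (lam x ξ) = lam (f x) (emb f hf ξ) := by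
  have : (emb f hf).comp (lam x : Op Λ) = (lam (f x) : Op Γ).comp (emb f hf) := op_ext fun y => by
    simp only [ContinuousLinearMap.comp_apply, lam_dl, emb_dl, map_mul]
  exact DFunLike.congr_fun this ξ

lemma emb_rho (x : Λ) (ξ : H Λ) : emb f hf (rho x ξ) = rho (f x) (emb f hf ξ) := by
  have : (emb f hf).comp (rho x : Op Λ) = (rho (f x) : Op Γ).comp (emb f hf) := op_ext fun y => by
    simp only [ContinuousLinearMap.comp_apply, rho_dl, emb_dl, map_mul, map_inv]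
  exact DFunLike.congr_fun this ξ

lemma bk_lam (x : Λ) (η : H Γ) : bk f hf (lam (f x) η) = lam x (bk f hf η) :=
  ext_inner_left ℂ fun ξ => by
    rw [bk_inner, ← star_inner, ← star_inner, star_lam, star_lam, bk_inner, emb_lam, map_inv f]

/-- The transported operator. -/
def tr (T : Op Λ) : Op Γ := (emb f hf).comp (T.comp (bk f hf))

lemma tr_ap (T : Op Λ) (η : H Γ) : tr f hf T η = emb f hf (T (bk f hf η)) := rfl

lemma tr_dl (T : Op Λ) (x : Λ) : tr f hf T (dl (f x)) = emb f hf (T (dl x)) := by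
  rw [tr_ap, bk_dl]

variable {d : Λ → H Λ} {U : ℝ → Op Λ} {d' : Γ → H Γ}

lemma fl (hU : Fl3.Fw d U) (hd : ∀ x, d' (f x) = emb f hf (d x)) :
    Fl f.range (fun t => tr f hf (U t)) d' where
  norm t := (tr f hf (U t)).opNorm_le_bound zero_le_one fun ξ => by
    rw [tr_ap, emb_norm, hU.norm, one_mul]
    exact bk_norm f hf ξ
  add s t := by
    ext1 ξ
    rw [mul_ap, tr_ap, tr_ap, tr_ap, bk_emb, hU.add, mul_ap]
  zero := by
    rintro _ ⟨x, rfl⟩
    rw [tr_dl, hU.zero, one_ap, emb_dl]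
  der := by
    rintro _ ⟨x, rfl⟩ t
    simp only [tr_dl]
    rw [hd, tr_ap, bk_emb]
    exact ((emb f hf).restrictScalars ℝ).hasFDerivAt.comp_hasDerivAt t (hU.der x t)

lemma comm (hU : Fl3.Fw d U) (h1 : d 1 = 0) (hd : ∀ x, d' (f x) = emb f hf (d x)) (X : CA Γ)
    (hX : Supp {h | h ∈ f.range ∧ d' h = 0} (hat X)) (t : ℝ) (ξ : H Γ) :
    op X (tr f hf (U t) ξ) = tr f hf (U t) (op X ξ) := by
  have e : op X = ∑ h ∈ X.coeff.support, X.coeff h • (lam h : Op Γ) :=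
    MonoidAlgebra.lift_apply _ X
  rw [e, sum_apply, sum_apply, map_sum]
  refine Finset.sum_congr rfl fun h hh => ?_
  have h2 : h ∈ {h | h ∈ f.range ∧ d' h = 0} := by
    by_contra h3
    have := hX h h3
    rw [hat_coef] at this
    exact Finsupp.mem_support_iff.1 hh this
  obtain ⟨⟨b, rfl⟩, hb⟩ := h2
  have hb' : d b = 0 := by
    rw [hd] at hb
    rw [← norm_eq_zero, ← emb_norm f hf, hb, norm_zero]
  have h4 := hU.comm h1 (X := {b}) (fun x hx => by rw [Set.mem_singleton_iff.1 hx, hb'])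
    (lam_mem b) (by rw [lam_one]; exact supp_dl rfl) t
  rw [smul_apply, smul_apply, map_smul, tr_ap, tr_ap, bk_lam, ← emb_lam, h4]

end Emb

end TKP

open TKP in
theorem tk (h : CoreStmt) : TKStmt := by
  classical
  intro Λ Γ _ _ ℓ d a₀ C f hf ha hℓ hsk hle hFB
  obtain ⟨U, u0, u1, u2, u3, u4⟩ := ker scale exp1 Λ ℓ d a₀ C ha hℓ hsk hle hFB
  have hU : Fl3.Fw d U := ⟨u0, u1, u2, u3, u4⟩
  have d1 : d 1 = 0 := by
    have := hle 1 1
    rw [mul_one, _root_.inv_one, map_one, map_one, one_ap] at this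
    simpa using this
  have hd : ∀ x, Function.extend f (fun x => emb f hf (d x)) 0 (f x) = emb f hf (d x) :=
    fun x => hf.extend_apply _ _ x
  generalize Function.extend f (fun x => emb f hf (d x)) 0 = d' at hd
  have hF := fl f hf hU hd
  have hgen := (hU.uni d1).gen (SimA.gen_lam (MulEquiv.refl Λ))
  have hα : ∀ x, ((hU.uni d1).cg.comp ((lam : Λ →* Op Λ).comp
      (MulEquiv.refl Λ).toMonoidHom)) x (dl 1) = U 1 (dl x) := fun x => by
    show U 1 (lam x (U (-1) (dl 1))) = _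
    rw [hU.fix d1, lam_one]
  generalize ((hU.uni d1).cg.comp ((lam : Λ →* Op Λ).comp (MulEquiv.refl Λ).toMonoidHom)) = α
    at hgen hα
  have hπ : ∀ x, Function.extend f (fun x => FG.iu f hf (α x)) 0 (f x) = FG.iu f hf (α x) :=
    fun x => hf.extend_apply _ _ x
  generalize Function.extend f (fun x => FG.iu f hf (α x)) 0 = π at hπ
  refine ⟨_, d', ⟨hF, ?_, ⟨π, ?_, ?_, ?_, ?_⟩, ?_, ?_⟩, hd⟩
  · rintro _ ⟨x, rfl⟩ _ ⟨y, rfl⟩
    rw [← map_mul, hd, hd, hd, hle, map_add, emb_lam, emb_rho, map_inv]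
  · rintro _ ⟨x, rfl⟩ _ ⟨y, rfl⟩
    rw [← map_mul, hπ, hπ, hπ, map_mul, FG.iu_mul f hf (FG.ul_gen hgen x) (FG.ul_gen hgen y)]
  · rintro _ ⟨x, rfl⟩
    rw [hπ]
    exact FG.iu_ul f hf (FG.ul_gen hgen x)
  · rintro _ ⟨x, rfl⟩ hx
    have := emb_coef f hf (α x (dl 1)) 1
    rw [map_one] at this
    rw [hπ, FG.iu_one f hf (FG.ul_gen hgen x), this]
    exact hgen.trace x fun e => hx (by rw [e, map_one])
  · rintro _ ⟨x, rfl⟩
    rw [hπ, FG.iu_one f hf (FG.ul_gen hgen x), hα, tr_dl]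
  · intro X hs hX g hg
    exact est_of hF hs (comm f hf hU d1 hd X hX) hg
  · obtain ⟨U₀, h0⟩ := h Λ ℓ d a₀ C ha hℓ hsk hFB
    have key : ∀ x, tr f hf (U 1) (dl (f x)) = emb f hf (U₀ 1 (dl x)) ∧
        tr f hf (U (-1)) (dl (f x)) = emb f hf (U₀ (-1) (dl x)) := fun x => by
      have h2 : ∀ ε : ℝ, 0 < ε → ‖tr f hf (U 1) (dl (f x)) - emb f hf (U₀ 1 (dl x))‖ ≤ ε ∧
          ‖tr f hf (U (-1)) (dl (f x)) - emb f hf (U₀ (-1) (dl x))‖ ≤ ε := fun ε hε => by
        obtain ⟨F₁, δ, hδ, h3⟩ := h0 {x} ε hε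
        exact h3 Γ f hf _ d' hF (fun y _ => by rw [hd, sub_self, norm_zero]; exact hδ.le) x
          (Finset.mem_singleton_self x)
      exact ⟨sub_eq_zero.1 (norm_le_zero_iff.1 (le_of_forall_pos_le_add fun ε hε => by
          rw [zero_add]; exact (h2 ε hε).1)),
        sub_eq_zero.1 (norm_le_zero_iff.1 (le_of_forall_pos_le_add fun ε hε => by
          rw [zero_add]; exact (h2 ε hε).2))⟩
    intro F₀ hF₀ ε hε
    obtain ⟨F₁, δ, hδ, h3⟩ := h0 (F₀.preimage f hf.injOn) ε hε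
    refine ⟨F₁.image f, δ, fun x hx => ?_, hδ, fun U' d'' hU' hn x hx => ?_⟩
    · obtain ⟨y, -, rfl⟩ := Finset.mem_image.1 hx
      exact ⟨y, rfl⟩
    · obtain ⟨y, rfl⟩ := hF₀ x hx
      have := h3 Γ f hf U' d'' hU' (fun z hz => by
        rw [← hd]; exact hn _ (Finset.mem_image_of_mem f hz)) y (Finset.mem_preimage.2 hx)
      rw [← (key y).1, ← (key y).2] at this
      exact this

end

end Pool.Agent.MP_494aff_an.Un

end MrgPart3

-- marker of a merged file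
example : 731051 + 446939 = 731051 + 446939 := rfl

end MrgPart1

-- marker of a merged file
example : 731051 + 446939 = 731051 + 446939 := rfl
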