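import Mathlib
import Pool.Agent.MP_494aff_an.un.Spec
import Pool.Agent.MP_494aff_an.fr.Qb

-- ======== part 0: formerly Pool.Agent.MP_494aff_an.fr.Good
section MrgPart0

-- ======== part 0: formerly Pool.Agent.MP_494aff_an.un.Conj
section MrgPart0

/-! Two free generators are approximately conjugate by a unitary of the algebra. -/

open Monoid Filter Topology
open scoped InnerProductSpace ComplexConjugate

namespace Pool.Agent.MP_494aff_an.Un

open Pool.Agent.MP_494aff_an.Pinch Pool.Agent.MP_494aff_an.Pinch.TowP Pool.Agent.MP_494aff_an.Lf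

noncomputable section

namespace ConjP

/-- The free group on two letters. -/
abbrev F2 : Type := FreeGroup (Fin 2)

/-- The first letter. -/
def b0 : F2 := FreeGroup.of 0

/-- The second letter. -/
def s0 : F2 := FreeGroup.of 1

/-- A cocycle with prescribed values on the two letters. -/
lemma ext2 {Γ : Type} [Group Γ] {ℓ : Γ → ℕ} {K : Subgroup Γ} {ι : F2 →* Γ} (hK : ∀ x, ι x ∈ K)
    {θ θ' : Op Γ} (h : An ℓ K θ) (h' : An ℓ K θ') :
    ∃ β, Co ι β ∧ (∀ x, An ℓ K (β x)) ∧ β b0 = θ ∧ β s0 = θ' := by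
  let π : F2 →* CoP.Aff Γ := FreeGroup.lift ![⟨θ, ι b0⟩, ⟨θ', ι s0⟩]
  have h1 : π b0 = ⟨θ, ι b0⟩ := by simp [π, b0]
  have h2 : π s0 = ⟨θ', ι s0⟩ := by simp [π, s0]
  have hof : ∀ i : Fin 2, FreeGroup.of i ∈ CoP.good ℓ hK π := by
    intro i
    fin_cases i
    · show b0 ∈ _
      rw [CoP.mem_good, h1]; exact ⟨rfl, h⟩
    · show s0 ∈ _
      rw [CoP.mem_good, h2]; exact ⟨rfl, h'⟩
  have hg : ∀ x, x ∈ CoP.good ℓ hK π := fun x => by
    induction x using FreeGroup.induction_on with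
    | C1 => exact one_mem _
    | of i => exact hof i
    | inv_of i _ => exact inv_mem (hof i)
    | mul x y hx hy => exact mul_mem hx hy
  exact ⟨fun x => (π x).T, CoP.co_of hg, fun x => (hg x).2, by show (π _).T = θ; rw [h1],
    by show (π _).T = θ'; rw [h2]⟩

lemma inf_b : InfOrd (Coprod.inl b0 : FZ F2) := by
  intro k hk
  let φ : FZ F2 →* Multiplicative ℤ :=
    (FreeGroup.lift fun _ : Fin 2 => Multiplicative.ofAdd (1 : ℤ)).comp Coprod.fst
  have h1 : φ (Coprod.inl b0) = Multiplicative.ofAdd 1 := by simp [φ, b0]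
  have h2 := congrArg φ hk
  rw [map_zpow, h1, φ.map_one, ← ofAdd_zsmul, smul_eq_mul, mul_one] at h2
  exact ofAdd_eq_one.1 h2

/-- The statement in the model group. -/
lemma model (ε : ℝ) (hε : 0 < ε) : ∃ r : Op (FZ F2), UL r ∧
    ‖(r * (lam (Coprod.inl b0 : FZ F2) : Op (FZ F2)) * star r) (dl 1) -
      dl (gen F2 * Coprod.inl b0)‖ ≤ ε := by
  obtain ⟨ℓ, M, hM, hF⟩ := flowAll F2 inferInstance
  obtain ⟨N, hN⟩ := exists_nat_gt ((M / ε) ^ 2)
  have hN0 : (0 : ℝ) < N := lt_of_le_of_lt (sq_nonneg _) hN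
  have hN' : N ≠ 0 := by
    rintro rfl
    simp at hN0
  have hK : ∀ x : F2, (Coprod.inl : F2 →* FZ F2) x ∈ (Coprod.inl : F2 →* FZ F2).range :=
    fun x => ⟨x, rfl⟩
  obtain ⟨ξ, hξ, e⟩ := exists_quot_avg (ℓ := ℓ) (hK b0) hN' fun k => (k : ℤ)
  have hθ : An ℓ (Coprod.inl : F2 →* FZ F2).range
      ((1 - (lam (Coprod.inl b0 : FZ F2) : Op (FZ F2))) * ξ) :=
    (An.one.sub (An.of_lam (hK b0))).mul' hξ
  obtain ⟨β, hco, han, hb, hs⟩ := ext2 hK hθ hξ
  obtain ⟨α, hα, -, hg⟩ := hF β hco han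
  have hz : β (s0⁻¹ * (b0 * s0)) = 0 := by
    rw [hco, hco, hco.inv, hb, hs]
    noncomm_ring
  have h1 := (hg (s0⁻¹ * (b0 * s0))).1
  rw [hz, zero_apply, norm_zero, mul_zero, norm_le_zero_iff,
    sub_eq_zero] at h1
  have h2 : α (Coprod.inl (s0⁻¹ * (b0 * s0))) = lam (Coprod.inl (s0⁻¹ * (b0 * s0)) : FZ F2) :=
    LL_ext (hα.mem _) (lam_mem _) (by rw [h1, lam_one])
  refine ⟨α (Coprod.inl s0) * lam (Coprod.inl s0 : FZ F2)⁻¹,
    FG.ul_mul (FG.ul_gen hα _) (FG.ul_lam _), ?_⟩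
  have h3 : α (Coprod.inl s0) * lam (Coprod.inl s0 : FZ F2)⁻¹ *
      (lam (Coprod.inl b0 : FZ F2) : Op (FZ F2)) *
      star (α (Coprod.inl s0) * lam (Coprod.inl s0 : FZ F2)⁻¹) = α (Coprod.inl b0) := by
    rw [star_mul, star_lam, hα.star_eq, inv_inv]
    have : α (Coprod.inl b0) = α (Coprod.inl s0) * α (Coprod.inl (s0⁻¹ * (b0 * s0))) *
        α (Coprod.inl s0)⁻¹ := by
      rw [← map_mul, ← map_mul, ← map_inv, ← map_mul, ← map_mul]
      congr 2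
      group
    rw [this, h2, map_mul, map_mul, map_mul, map_mul, map_inv (Coprod.inl : F2 →* FZ F2)]
    simp only [mul_assoc]
  rw [h3]
  refine (hg b0).2.trans ?_
  have h4 : β b0 (dl 1) - dl 1 = -(((N : ℝ)⁻¹ • ∑ k ∈ Finset.range N,
      (lam ((Coprod.inl b0 : FZ F2) ^ (k + 0)) : Op (FZ F2))) (dl 1)) := by
    rw [hb, ← e, sub_apply, one_ap]
    simp only [zpow_natCast, add_zero]
    abel
  rw [h4, norm_neg, norm_avg inf_b hN' 0]
  have h5 : M / ε ≤ √(N : ℝ) := Real.le_sqrt_of_sq_le hN.le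
  have h6 : 0 < √(N : ℝ) := Real.sqrt_pos.2 hN0
  rw [← div_eq_mul_inv, div_le_iff₀ h6]
  rw [div_le_iff₀ hε] at h5
  linarith

/-- The model group inside the free group on three letters. -/
def toF3 : FZ F2 →* FreeGroup (Fin 3) :=
  Coprod.lift (FreeGroup.lift ![FreeGroup.of 1, FreeGroup.of 2])
    (zpowersHom _ (FreeGroup.of 0 * (FreeGroup.of 1)⁻¹))

/-- The way back. -/
def ofF3 : FreeGroup (Fin 3) →* FZ F2 :=
  FreeGroup.lift ![gen F2 * Coprod.inl b0, Coprod.inl b0, Coprod.inl s0]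

lemma toF3_b : toF3 (Coprod.inl b0) = FreeGroup.of 1 := by simp [toF3, b0]

lemma toF3_s : toF3 (Coprod.inl s0) = FreeGroup.of 2 := by simp [toF3, s0]

lemma toF3_y : toF3 (gen F2) = FreeGroup.of 0 * (FreeGroup.of 1)⁻¹ := by simp [toF3, gen]

lemma toF3_inj : Function.Injective toF3 := by
  have h : ofF3.comp toF3 = MonoidHom.id _ := by
    refine AbsP.hom_eq (fun x => ?_) ?_
    · have : (ofF3.comp toF3).comp (Coprod.inl : F2 →* FZ F2) = Coprod.inl := by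
        refine FreeGroup.ext_hom _ _ fun i => ?_
        fin_cases i
        · show ofF3 (toF3 (Coprod.inl b0)) = Coprod.inl b0
          rw [toF3_b]; simp [ofF3]
        · show ofF3 (toF3 (Coprod.inl s0)) = Coprod.inl s0
          rw [toF3_s]; simp [ofF3]
      exact DFunLike.congr_fun this x
    · rw [MonoidHom.comp_apply, toF3_y]
      simp [ofF3]
  exact Function.LeftInverse.injective (g := ofF3) fun x => DFunLike.congr_fun h x

end ConjP

open ConjP in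
theorem conjS : ConjStmt := by
  intro Γ _ a b s ε hε hinj
  obtain ⟨r, hr, hn⟩ := model ε hε
  let f : FZ F2 →* Γ := (FreeGroup.lift ![a, b, s]).comp toF3
  have hf : Function.Injective f := hinj.comp toF3_inj
  have hb : f (Coprod.inl b0) = b := by
    simp only [f, MonoidHom.comp_apply, toF3_b]
    simp
  have ha : f (gen F2 * Coprod.inl b0) = a := by
    simp only [f, MonoidHom.comp_apply, map_mul, toF3_b, toF3_y]
    simp
  refine ⟨FG.iu f hf r, FG.iu_ul f hf hr, ?_, ?_⟩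
  · refine (FG.iu_supp f hf hr (supp_univ _)).mono ?_
    rintro _ ⟨x, -, rfl⟩
    have : ∀ z : FreeGroup (Fin 3),
        FreeGroup.lift ![a, b, s] z ∈ (Subgroup.closure {a, b, s} : Subgroup Γ) := by
      have hof : ∀ i : Fin 3, FreeGroup.lift ![a, b, s] (FreeGroup.of i) ∈
          (Subgroup.closure {a, b, s} : Subgroup Γ) := by
        intro i
        refine Subgroup.subset_closure ?_
        fin_cases i <;> simp
      intro z
      induction z using FreeGroup.induction_on with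
      | C1 => rw [map_one]; exact one_mem _
      | of i => exact hof i
      | inv_of i _ => rw [map_inv]; exact inv_mem (hof i)
      | mul x y hx hy => rw [map_mul]; exact mul_mem hx hy
    exact this _
  · rw [← hb, ← FG.iu_conj f hf hr,
      FG.iu_one f hf (FG.ul_mul (FG.ul_mul hr (FG.ul_lam _)) (FG.ul_star hr)), ← ha,
      ← emb_dl f hf, ← map_sub, emb_norm]
    exact hn

end

end Pool.Agent.MP_494aff_an.Un

end MrgPart0

-- ======== part 1: formerly Pool.Agent.MP_494aff_an.un.Cz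
section MrgPart1

/-! Square summable cocycles. -/

open Monoid Filter Topology
open scoped InnerProductSpace ComplexConjugate

namespace Pool.Agent.MP_494aff_an.Un

open Pool.Agent.MP_494aff_an.Pinch Pool.Agent.MP_494aff_an.Pinch.TowP Pool.Agent.MP_494aff_an.Lf

noncomputable section

namespace CzP

variable {X Γ : Type} [Group X] [Group Γ]

/-- Affine maps of the Hilbert space with a translation as linear part. -/
@[ext] structure Af (Γ : Type) where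
  v : H Γ
  g : Γ

instance : Mul (Af Γ) := ⟨fun a b => ⟨a.v + lam a.g b.v, a.g * b.g⟩⟩

instance : One (Af Γ) := ⟨⟨0, 1⟩⟩

instance : Inv (Af Γ) := ⟨fun a => ⟨-(lam a.g⁻¹ a.v), a.g⁻¹⟩⟩

instance : Group (Af Γ) :=
  Group.ofLeftAxioms
    (fun a b c => Af.ext (by
      show a.v + lam a.g b.v + lam (a.g * b.g) c.v = a.v + lam a.g (b.v + lam b.g c.v)
      rw [map_mul, mul_ap, map_add, add_assoc]) (mul_assoc a.g b.g c.g))
    (fun a => Af.ext (by
      show 0 + lam (1 : Γ) a.v = a.v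
      rw [map_one, one_ap, zero_add]) (one_mul a.g))
    fun a => Af.ext (neg_add_cancel _) (inv_mul_cancel a.g)

lemma mul_v (a b : Af Γ) : (a * b).v = a.v + lam a.g b.v := rfl

lemma mul_g (a b : Af Γ) : (a * b).g = a.g * b.g := rfl

/-- The linear part. -/
def lin : Af Γ →* Γ where
  toFun a := a.g
  map_one' := rfl
  map_mul' _ _ := rfl

lemma cz_one {ι : X →* Γ} {c : X → H Γ} (h : Cz ι c) : c 1 = 0 := by
  have := h 1 1
  rw [mul_one, map_one, map_one, one_ap] at this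
  exact left_eq_add.1 this

/-- The homomorphism of a cocycle. -/
def toAf {ι : X →* Γ} {c : X → H Γ} (h : Cz ι c) : X →* Af Γ where
  toFun x := ⟨c x, ι x⟩
  map_one' := Af.ext (cz_one h) (map_one ι)
  map_mul' x y := Af.ext (h x y) (map_mul ι x y)

lemma cz_of {ι : X →* Γ} {π : X →* Af Γ} (h : ∀ x, x ∈ (lin.comp π).eqLocus ι) :
    Cz ι fun x => (π x).v := fun x y => by
  have e : (π x).g = ι x := h x
  show (π (x * y)).v = (π x).v + lam (ι x) (π y).v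
  rw [map_mul, mul_v, e]

lemma on_one {ι : X →* Γ} {c : X → H Γ} {K : Subgroup X}
    (h : ∀ x ∈ K, ∀ y ∈ K, c (x * y) = c x + lam (ι x) (c y)) : c 1 = 0 := by
  have := h 1 (one_mem K) 1 (one_mem K)
  rw [mul_one, map_one, map_one, one_ap] at this
  exact left_eq_add.1 this

lemma on_inv {ι : X →* Γ} {c : X → H Γ} {K : Subgroup X}
    (h : ∀ x ∈ K, ∀ y ∈ K, c (x * y) = c x + lam (ι x) (c y)) {x : X} (hx : x ∈ K) :
    c x⁻¹ = -(lam (ι x⁻¹) (c x)) := by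
  have := h x⁻¹ (inv_mem hx) x hx
  rw [inv_mul_cancel, on_one h] at this
  exact eq_neg_of_add_eq_zero_left this.symm

/-- Closeness at `s` is controlled by closeness at finitely many points of `T`. -/
def Ctl (T : Set X) (T₀ : Finset X) (N : ℝ) (s : X) : Prop :=
  ∀ (Γ : Type) [Group Γ] (ι : X →* Γ) (c c' : X → H Γ) (K : Subgroup X) (ε : ℝ), 0 ≤ ε →
    T ⊆ K → (∀ x ∈ K, ∀ y ∈ K, c (x * y) = c x + lam (ι x) (c y)) →
    (∀ x ∈ K, ∀ y ∈ K, c' (x * y) = c' x + lam (ι x) (c' y)) →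
    (∀ x ∈ T₀, ‖c' x - c x‖ ≤ ε) → ‖c' s - c s‖ ≤ N * ε

lemma Ctl.mono {T : Set X} {T₀ T₁ : Finset X} {N M : ℝ} {s : X} (h : Ctl T T₀ N s)
    (hT : T₀ ⊆ T₁) (hN : N ≤ M) : Ctl T T₁ M s := fun Γ _ ι c c' K ε hε hK hc hc' hx =>
  (h Γ ι c c' K ε hε hK hc hc' fun x hx' => hx x (hT hx')).trans
    (mul_le_mul_of_nonneg_right hN hε)

lemma ctl_one (T : Set X) {s : X} (hs : s ∈ Subgroup.closure T) :
    ∃ (T₀ : Finset X) (N : ℝ), (∀ x ∈ T₀, x ∈ T) ∧ 0 < N ∧ Ctl T T₀ N s := by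
  classical
  induction hs using Subgroup.closure_induction with
  | mem x hx =>
    refine ⟨{x}, 1, fun y hy => by rwa [Finset.mem_singleton.1 hy], one_pos,
      fun Γ _ ι c c' K ε _ _ _ _ h => ?_⟩
    rw [one_mul]
    exact h x (Finset.mem_singleton_self x)
  | one =>
    refine ⟨∅, 1, fun y hy => absurd hy (Finset.notMem_empty y), one_pos,
      fun Γ _ ι c c' K ε hε _ hc hc' _ => ?_⟩
    rw [on_one hc, on_one hc', sub_self, norm_zero, one_mul]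
    exact hε
  | mul x y hx hy ihx ihy =>
    obtain ⟨T₁, N₁, h1, p1, c1⟩ := ihx
    obtain ⟨T₂, N₂, h2, p2, c2⟩ := ihy
    refine ⟨T₁ ∪ T₂, N₁ + N₂, fun z hz => (Finset.mem_union.1 hz).elim (h1 z) (h2 z),
      add_pos p1 p2, fun Γ _ ι c c' K ε hε hK hc hc' h => ?_⟩
    have hle : Subgroup.closure T ≤ K := (Subgroup.closure_le K).2 hK
    have e1 := c1 Γ ι c c' K ε hε hK hc hc' fun z hz => h z (Finset.mem_union_left _ hz)
    have e2 := c2 Γ ι c c' K ε hε hK hc hc' fun z hz => h z (Finset.mem_union_right _ hz)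
    have e : c' (x * y) - c (x * y) = (c' x - c x) + lam (ι x) (c' y - c y) := by
      rw [hc x (hle hx) y (hle hy), hc' x (hle hx) y (hle hy), map_sub]
      abel
    rw [e, add_mul]
    refine norm_add_le_of_le e1 ?_
    rwa [lam_norm]
  | inv x hx ih =>
    obtain ⟨T₁, N₁, h1, p1, c1⟩ := ih
    refine ⟨T₁, N₁, h1, p1, fun Γ _ ι c c' K ε hε hK hc hc' h => ?_⟩
    have hle : Subgroup.closure T ≤ K := (Subgroup.closure_le K).2 hK
    have e : c' x⁻¹ - c x⁻¹ = -(lam (ι x⁻¹) (c' x - c x)) := by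
      rw [on_inv hc (hle hx), on_inv hc' (hle hx), map_sub]
      abel
    rw [e, norm_neg, lam_norm]
    exact c1 Γ ι c c' K ε hε hK hc hc' h

lemma ctl_all (T : Set X) (S : Finset X) (hS : ∀ s ∈ S, s ∈ Subgroup.closure T) :
    ∃ (T₀ : Finset X) (N : ℝ), (∀ x ∈ T₀, x ∈ T) ∧ 0 < N ∧ ∀ s ∈ S, Ctl T T₀ N s := by
  classical
  induction S using Finset.induction_on with
  | empty =>
    exact ⟨∅, 1, fun y hy => absurd hy (Finset.notMem_empty y), one_pos,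
      fun y hy => absurd hy (Finset.notMem_empty y)⟩
  | insert a S _ ih =>
    obtain ⟨T₁, N₁, h1, p1, c1⟩ := ctl_one T (hS a (Finset.mem_insert_self a S))
    obtain ⟨T₂, N₂, h2, p2, c2⟩ := ih fun s hs => hS s (Finset.mem_insert_of_mem hs)
    refine ⟨T₁ ∪ T₂, N₁ + N₂, fun z hz => (Finset.mem_union.1 hz).elim (h1 z) (h2 z),
      add_pos p1 p2, fun s hs => ?_⟩
    rcases Finset.mem_insert.1 hs with rfl | hs
    · exact c1.mono Finset.subset_union_left (by linarith)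
    · exact (c2 s hs).mono Finset.subset_union_right (by linarith)

/-- The average of the first powers of `g`. -/
def av (g : Γ) (N : ℕ) : Op Γ := (N : ℝ)⁻¹ • ∑ k ∈ Finset.range N, lam (g ^ (k + 0))

lemma av_mem (g : Γ) (N : ℕ) : av g N ∈ LL Γ :=
  An.mem (ℓ := fun _ => 0) (X := Set.univ)
    ((An.sum _ fun _ _ => An.of_lam (Set.mem_univ _)).smul _)

lemma av_norm (g : Γ) {N : ℕ} (hN : N ≠ 0) : ‖av g N‖ ≤ 1 := by
  have hN' : (0 : ℝ) < N := Nat.cast_pos.2 (Nat.pos_of_ne_zero hN)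
  have h1 : ‖∑ k ∈ Finset.range N, lam (g ^ (k + 0))‖ ≤ N := by
    refine (norm_sum_le_of_le _ fun k _ => opNorm_lam (g ^ (k + 0))).trans ?_
    simp
  unfold av
  rw [norm_smul, Real.norm_eq_abs, abs_of_pos (inv_pos.2 hN'), inv_mul_le_iff₀ hN', mul_one]
  exact h1

lemma av_span {g : Γ} (hg : InfOrd g) {η : H Γ}
    (hη : η ∈ Submodule.span ℂ (Set.range (dl : Γ → H Γ))) :
    ∃ C : ℝ, 0 ≤ C ∧ ∀ N : ℕ, N ≠ 0 → ‖av g N η‖ ≤ C * (√N)⁻¹ := by
  induction hη using Submodule.span_induction with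
  | mem x hx =>
    obtain ⟨z, rfl⟩ := hx
    refine ⟨1, zero_le_one, fun N hN => ?_⟩
    rw [LL_dl (av_mem g N), rho_norm, one_mul]
    exact (norm_avg hg hN 0).le
  | zero => exact ⟨0, le_rfl, fun N _ => by rw [map_zero, norm_zero, zero_mul]⟩
  | add u v _ _ hu hv =>
    obtain ⟨C, hC, hu⟩ := hu
    obtain ⟨D, hD, hv⟩ := hv
    refine ⟨C + D, add_nonneg hC hD, fun N hN => ?_⟩
    rw [map_add, add_mul]
    exact norm_add_le_of_le (hu N hN) (hv N hN)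
  | smul a u _ hu =>
    obtain ⟨C, hC, hu⟩ := hu
    refine ⟨‖a‖ * C, mul_nonneg (norm_nonneg a) hC, fun N hN => ?_⟩
    rw [map_smul, norm_smul, mul_assoc]
    exact mul_le_mul_of_nonneg_left (hu N hN) (norm_nonneg a)

lemma av_small {g : Γ} (hg : InfOrd g) (ξ : H Γ) {ε : ℝ} (hε : 0 < ε) :
    ∃ N : ℕ, N ≠ 0 ∧ ‖av g N ξ‖ ≤ ε := by
  obtain ⟨η, hη, hd⟩ := Metric.dense_iff.1 (dense_dl (G := Γ)) ξ (ε / 2) (half_pos hε)
  obtain ⟨C, hC, hb⟩ := av_span hg hd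
  obtain ⟨M, hM⟩ := exists_nat_gt (C / (ε / 2))
  have hM0 : (0 : ℝ) < M := lt_of_le_of_lt (div_nonneg hC (half_pos hε).le) hM
  have hN : M * M ≠ 0 := mul_ne_zero (Nat.cast_pos.1 hM0).ne' (Nat.cast_pos.1 hM0).ne'
  refine ⟨M * M, hN, ?_⟩
  have h1 := hb (M * M) hN
  rw [Nat.cast_mul, Real.sqrt_mul_self hM0.le] at h1
  have h2 : C * (M : ℝ)⁻¹ ≤ ε / 2 := by
    rw [← div_eq_mul_inv, div_le_iff₀ hM0]
    rw [div_lt_iff₀ (half_pos hε)] at hM
    linarith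
  have h3 : ‖av g (M * M) (ξ - η)‖ ≤ ε / 2 := by
    refine ((av g (M * M)).le_of_opNorm_le (av_norm g hN) _).trans ?_
    rw [one_mul, ← dist_eq_norm, dist_comm]
    exact (Metric.mem_ball.1 hη).le
  have e : av g (M * M) ξ = av g (M * M) (ξ - η) + av g (M * M) η := by
    rw [← map_add, sub_add_cancel]
  rw [e]
  refine (norm_add_le_of_le h3 (h1.trans h2)).trans (add_halves ε).le

end CzP

open CzP

theorem cz : CzStmt where
  toCy X Γ _ _ ι c hι h := by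
    refine ⟨Function.extend ι c 0, ?_, fun x => hι.extend_apply c 0 x⟩
    rintro _ ⟨x, rfl⟩ _ ⟨y, rfl⟩
    rw [← map_mul, hι.extend_apply, hι.extend_apply, hι.extend_apply, h]
  pin A B X Γ _ _ _ _ c d f g ι cA cB h hA hB e := by
    obtain ⟨π, h1, h2⟩ := h.lift (Af Γ) (toAf hA) (toAf hB) (Af.ext e (congrArg ι h.comm))
    have hg := h.gen ((lin.comp π).eqLocus ι) (fun a => congrArg Af.g (h1 a))
      fun b => congrArg Af.g (h2 b)
    exact ⟨_, cz_of hg, fun a => congrArg Af.v (h1 a), fun b => congrArg Af.v (h2 b)⟩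
  cop A B Γ _ _ _ ι cA cB hA hB := by
    let π : Coprod A B →* Af Γ := Coprod.lift (toAf hA) (toAf hB)
    have h1 : ∀ a, π (Coprod.inl a) = toAf hA a := fun a => Coprod.lift_apply_inl _ _ a
    have h2 : ∀ b, π (Coprod.inr b) = toAf hB b := fun b => Coprod.lift_apply_inr _ _ b
    have hg : ∀ x, x ∈ (lin.comp π).eqLocus ι := fun x => by
      induction x using Coprod.induction_on with
      | inl a => exact congrArg Af.g (h1 a)
      | inr b => exact congrArg Af.g (h2 b)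
      | mul x y hx hy => exact mul_mem hx hy
    exact ⟨_, cz_of hg, fun a => congrArg Af.v (h1 a), fun b => congrArg Af.v (h2 b)⟩
  hn A X Γ _ _ _ c c' f t ι cA θ h hA e := by
    have h0 : ι (f c') = ι t * ι (f c) * (ι t)⁻¹ := by rw [h.comm, map_mul, map_mul, map_inv]
    obtain ⟨π, h1, h2⟩ := h.lift (Af Γ) (toAf hA) ⟨θ, ι t⟩ (by
      rw [eq_mul_inv_iff_mul_eq]
      refine Af.ext ?_ ?_
      · show cA c' + lam (ι (f c')) θ = θ + lam (ι t) (cA c)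
        rw [e]
        abel
      · show ι (f c') * ι t = ι t * ι (f c)
        rw [h0, inv_mul_cancel_right])
    have hg := h.gen ((lin.comp π).eqLocus ι) (fun a => congrArg Af.g (h1 a))
      (congrArg Af.g h2)
    exact ⟨_, cz_of hg, fun a => congrArg Af.v (h1 a), congrArg Af.v h2⟩
  close X _ T S hS := by
    obtain ⟨T₀, N, h1, h2, h3⟩ := ctl_all T S hS
    exact ⟨T₀, N, h1, h2, fun Γ _ ι c c' K ε hε hK hc hc' hx s hs =>
      h3 s hs Γ ι c c' K ε hε hK hc hc' hx⟩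
  avg Γ _ ℓ K g ξ ε hg ho hε := by
    obtain ⟨N, hN, h⟩ := av_small ho ξ hε
    obtain ⟨q, hq, e⟩ := exists_quot_avg (ℓ := ℓ) hg hN fun k => ((k + 0 : ℕ) : ℤ)
    refine ⟨q, hq, ?_⟩
    simp only [zpow_natCast] at e
    have e' : (1 - lam g) (q ξ) = ξ - av g N ξ := by
      rw [← mul_ap, ← e]
      rfl
    rwa [e', sub_sub_cancel]
  up Γ _ L' L h' hle hL h := by
    refine ⟨hL, fun K hK _ c hc S hS ε hε => ?_⟩
    obtain ⟨c₁, h1, e1⟩ := h c hc S hS (ε / 2) (half_pos hε)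
    obtain ⟨c₂, h2, e2⟩ := h'.2 (K ⊔ L') (hK.sup h'.1) le_sup_right c₁ h1 S
      (fun s hs => hle (hS s hs)) (ε / 2) (half_pos hε)
    refine ⟨c₂, fun x hx y hy => h2 x (Subgroup.mem_sup_left hx) y (Subgroup.mem_sup_left hy),
      fun s hs => ?_⟩
    rw [← sub_add_sub_cancel (c₂ s) (c₁ s) (c s)]
    exact (norm_add_le_of_le (e2 s hs) (e1 s hs)).trans (add_halves ε).le

end

end Pool.Agent.MP_494aff_an.Un

end MrgPart1

-- ======== part 2: formerly Pool.Agent.MP_494aff_an.un.Int2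
section MrgPart2

/-! One-sided intertwining with approximate containment. -/

open Monoid Filter Topology
open scoped InnerProductSpace ComplexConjugate

namespace Pool.Agent.MP_494aff_an.Un

open Pool.Agent.MP_494aff_an.Pinch Pool.Agent.MP_494aff_an.Pinch.TowP Pool.Agent.MP_494aff_an.Lf
open Pool.Agent.MP_494aff_an.Pinch.SimA Pool.Agent.MP_494aff_an.Lf.IntA

noncomputable section

namespace Int2P

variable {G Λ : Type} [Group G] [Group Λ]

omit [Group Λ] in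
lemma fin_approx (ξ : H Λ) {ε : ℝ} (hε : 0 < ε) :
    ∃ F : Finset Λ, ‖ξ - ∑ z ∈ F, ξ z • dl z‖ ≤ ε := by
  obtain ⟨F, hF⟩ := ((hasSum_dl ξ).eventually (Metric.closedBall_mem_nhds ξ hε)).exists
  exact ⟨F, by rwa [dist_comm, dist_eq_norm] at hF⟩

omit [Group Λ] in
lemma sum_close (F : Finset Λ) (c : Λ → ℂ) (a b : Λ → H Λ) {ε θ : ℝ} (hθ : 0 < θ)
    (hc : θ ≤ ε / (∑ z ∈ F, ‖c z‖ + 1)) (h : ∀ z ∈ F, c z ≠ 0 → ‖a z - b z‖ ≤ θ) :
    ‖∑ z ∈ F, c z • a z - ∑ z ∈ F, c z • b z‖ ≤ ε := by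
  have h0 : 0 ≤ ∑ z ∈ F, ‖c z‖ := Finset.sum_nonneg fun _ _ => norm_nonneg _
  rw [le_div_iff₀ (by positivity)] at hc
  have : ‖∑ z ∈ F, c z • a z - ∑ z ∈ F, c z • b z‖ ≤ (∑ z ∈ F, ‖c z‖) * θ := by
    rw [← Finset.sum_sub_distrib, Finset.sum_mul]
    refine (norm_sum_le _ _).trans (Finset.sum_le_sum fun z hz => ?_)
    rw [← smul_sub, norm_smul]
    by_cases hz0 : c z = 0
    · simp [hz0]
    · exact mul_le_mul_of_nonneg_left (h z hz hz0) (norm_nonneg _)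
  linarith

lemma step {f : G →* Λ}
    (h : ∀ (E : Finset G) (F : Finset Λ) (η : ℝ), 0 < η → ∃ α : Λ →* Op Λ, Gen α ∧
      (∀ g ∈ E, ‖α (f g) (dl 1) - dl (f g)‖ ≤ η) ∧ ∀ x ∈ F, Near f.range (α x (dl 1)) η)
    (g₀ : G) (ξ : H Λ) {ε : ℝ} (hε : 0 < ε) (s : St G Λ) : ∃ t, Nx f g₀ ξ ε s t := by
  classical
  have hε4 : 0 < ε / 4 := by positivity
  have hs := half_pos s.pos
  obtain ⟨F, hF⟩ := fin_approx (s.V' ξ) hε4
  have p1 : 0 < min (s.θ / 2) (ε / 4 / (∑ z ∈ F, ‖s.V' ξ z‖ + 1)) := lt_min hs (by positivity)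
  obtain ⟨α, hα, h1, h2⟩ := h s.E F _ p1
  obtain ⟨W, W', hW, hc⟩ := exists_uni hα
  have hWd : ∀ x, W (dl x) = α x (dl 1) := fun x => by
    rw [← hc, hW.cg_ap, hW.symm.one, lam_one]
  choose! ζ hζ1 hζ2 using h2
  obtain ⟨κ, hκ⟩ : ∃ κ : H Λ, κ = ∑ z ∈ F, s.V' ξ z • ζ z := ⟨_, rfl⟩
  have hκ1 : ∀ y, κ y ≠ 0 → f (Function.invFun f y) = y := fun y hy => by
    refine Function.invFun_eq (by_contra fun hn => hy ?_)
    rw [hκ, lp.coeFn_sum, Finset.sum_apply]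
    refine Finset.sum_eq_zero fun z hz => ?_
    rw [lp.coeFn_smul, Pi.smul_apply, hζ1 z hz y hn, smul_zero]
  obtain ⟨Y, hY⟩ := fin_approx κ hε4
  have p2 : 0 < min (s.θ / 2) (ε / 4 / (∑ y ∈ Y, ‖κ y‖ + 1)) := lt_min hs (by positivity)
  have hU := uni_comp s.uni hW.symm
  refine ⟨⟨s.V ∘L W', W ∘L s.V', hU, insert g₀ (s.E ∪ Y.image (Function.invFun f)), _, p2⟩,
    fun g hg => Finset.mem_insert_of_mem (Finset.mem_union_left _ hg),
    Finset.mem_insert_self _ _, min_le_left _ _, fun g hg => ?_, fun u hu => ?_⟩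
  · refine le_trans (le_of_eq ?_) ((h1 g hg).trans (min_le_left _ _))
    show ‖s.V (W' _) - _‖ = _
    rw [← map_sub, uni_norm s.uni, ← uni_norm hW, map_sub, hW.wv, hWd, norm_sub_rev]
  · refine ⟨∑ y ∈ Y, κ y • u (Function.invFun f y), Submodule.sum_mem _ fun z _ =>
      Submodule.smul_mem _ _ (Submodule.subset_span ⟨_, rfl⟩), ?_⟩
    have e1 : ‖W (s.V' ξ) - ∑ z ∈ F, s.V' ξ z • α z (dl 1)‖ ≤ ε / 4 := by
      rw [← uni_norm hW, map_sub, map_sum] at hF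
      simpa only [map_smul, hWd] using hF
    have e2 := sum_close F (s.V' ξ) (fun z => α z (dl 1)) ζ p1 (min_le_right _ _)
      fun z hz _ => hζ2 z hz
    rw [← hκ] at e2
    have e3 : ‖ξ - ∑ y ∈ Y, κ y • (s.V ∘L W') (dl y)‖ ≤ ε / 4 + ε / 4 + ε / 4 := by
      have a1 := norm_sub_le_norm_sub_add_norm_sub (W (s.V' ξ))
        (∑ z ∈ F, s.V' ξ z • α z (dl 1)) κ
      have a2 := norm_sub_le_norm_sub_add_norm_sub (W (s.V' ξ)) κ (∑ y ∈ Y, κ y • dl y)
      have a3 := uni_norm hU (W (s.V' ξ) - ∑ y ∈ Y, κ y • dl y)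
      rw [map_sub, map_sum, show (s.V ∘L W') (W (s.V' ξ)) = ξ from hU.wv ξ] at a3
      simp only [map_smul] at a3
      linarith
    have e4 := sum_close Y κ (fun y => (s.V ∘L W') (dl y)) (fun y => u (Function.invFun f y)) p2
      (min_le_right _ _) fun y hy h0 => by
        have := hu _ (Finset.mem_insert_of_mem
          (Finset.mem_union_right _ (Finset.mem_image_of_mem _ hy)))
        rwa [hκ1 y h0, norm_sub_rev] at this
    have e5 := norm_sub_le_norm_sub_add_norm_sub ξ (∑ y ∈ Y, κ y • (s.V ∘L W') (dl y))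
      (∑ y ∈ Y, κ y • u (Function.invFun f y))
    linarith

end Int2P

theorem int2 : Int2Stmt := by
  intro G Λ _ _ _ f hf h
  obtain ⟨η, hη⟩ : ∃ η : ℝ, 0 < η := ⟨1, one_pos⟩
  have : Countable G := hf.countable
  obtain ⟨e, he⟩ := exists_surjective_nat (G × Λ × ℕ)
  choose nx hnx using fun (n : ℕ) (s : St G Λ) =>
    Int2P.step h (e n).1 (dl (e n).2.1) (Nat.one_div_pos_of_nat (n := (e n).2.2)) s
  let s : ℕ → St G Λ := fun n => Nat.rec ⟨_, _, uni_id, ∅, η, hη⟩ nx n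
  have hs : ∀ n, Nx f (e n).1 (dl (e n).2.1) (1 / (((e n).2.2 : ℝ) + 1)) (s n) (s (n + 1)) :=
    fun n => hnx n (s n)
  have hd : ∀ n m, n ≤ m → (s n).E ⊆ (s m).E ∧ ∀ g ∈ (s n).E,
      ‖(s m).V (dl (f g)) - (s n).V (dl (f g))‖ ≤ (s n).θ - (s m).θ := fun n m hm => by
    induction m, hm using Nat.le_induction with
    | base => exact ⟨subset_rfl, fun g _ => by simp⟩
    | succ m _ ih =>
      refine ⟨ih.1.trans (hs m).sub, fun g hg => ?_⟩
      have a1 := (hs m).close g (ih.1 hg)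
      have a2 := ih.2 g hg
      have a3 := (hs m).half
      have a4 := norm_sub_le_norm_sub_add_norm_sub ((s (m + 1)).V (dl (f g)))
        ((s m).V (dl (f g))) ((s n).V (dl (f g)))
      linarith
  have hθ : ∀ n, (s n).θ ≤ η * (1 / 2) ^ n := fun n => by
    induction n with
    | zero => simp [s]
    | succ n ih =>
      have := (hs n).half
      rw [pow_succ]
      linarith
  have hc : ∀ g, CauchySeq fun n => (s n).V (dl (f g)) := fun g => by
    obtain ⟨k, hk⟩ := he (g, 1, 0)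
    have hg : g ∈ (s (k + 1)).E := by simpa [hk] using (hs k).mem
    refine Metric.cauchySeq_iff'.2 fun ε hε => ?_
    have : Tendsto (fun n : ℕ => η * (1 / 2 : ℝ) ^ n) atTop (𝓝 (η * 0)) :=
      (tendsto_pow_atTop_nhds_zero_of_lt_one (by norm_num) (by norm_num)).const_mul η
    rw [mul_zero] at this
    obtain ⟨N, hN1, hN2⟩ := ((this.eventually (gt_mem_nhds hε)).and
      (eventually_ge_atTop (k + 1))).exists
    refine ⟨N, fun n hn => ?_⟩
    have a1 := (hd N n hn).2 g ((hd _ _ hN2).1 hg)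
    have a2 := hθ N
    have a3 := (s n).pos
    rw [dist_eq_norm]
    linarith
  choose u hu using fun g => cauchySeq_tendsto_of_complete (hc g)
  have hl : ∀ n, ∀ g ∈ (s n).E, ‖u g - (s n).V (dl (f g))‖ ≤ (s n).θ := fun n g hg => by
    refine le_of_tendsto ((hu g).sub_const ((s n).V (dl (f g)))).norm ?_
    filter_upwards [eventually_ge_atTop n] with m hm
    have a1 := (hd n m hm).2 g hg
    have a2 := (s m).pos
    linarith
  have hden : Dense (Submodule.span ℂ (Set.range u) : Set (H Λ)) := by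
    rw [← dense_closure]
    refine dense_dl.mono ?_
    show _ ⊆ ((Submodule.span ℂ (Set.range u)).topologicalClosure : Set (H Λ))
    refine Submodule.span_le.2 ?_
    rintro _ ⟨y, rfl⟩
    refine Metric.mem_closure_iff.2 fun ε hε => ?_
    obtain ⟨j, hj⟩ := exists_nat_one_div_lt hε
    obtain ⟨k, hk⟩ := he (1, y, j)
    obtain ⟨ζ, hζ, hle⟩ := (hs k).span u (hl (k + 1))
    simp only [hk] at hle
    exact ⟨ζ, hζ, by rw [dist_eq_norm]; linarith⟩
  exact (limit hf s u hu hden).imp fun _ hπ => hπ.1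

end

end Pool.Agent.MP_494aff_an.Un

end MrgPart2

-- ======== part 3: formerly Pool.Agent.MP_494aff_an.un.MvAb
section MrgPart3

/-! Row MVAB: abelian groups can be moved. -/

open Monoid Filter Topology
open scoped InnerProductSpace ComplexConjugate

namespace Pool.Agent.MP_494aff_an.Un

open Pool.Agent.MP_494aff_an.Pinch Pool.Agent.MP_494aff_an.Pinch.TowP Pool.Agent.MP_494aff_an.Lf

noncomputable section

namespace MvAb

variable {G X Γ A B : Type} [Group G] [Group X] [Group Γ] [Group A] [Group B]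

lemma sub_mono {C C' : Set ℕ} (h : C ⊆ C') : sub G C ≤ sub G C' :=
  sup_le_sup_left (Subgroup.closure_mono (Set.image_mono h)) _

lemma lt_fr {C : Set ℕ} {n : ℕ} (h : n ∈ C) : lt G n ∈ fr G C :=
  Subgroup.subset_closure ⟨n, h, rfl⟩

lemma lt_sub {C : Set ℕ} {n : ℕ} (h : n ∈ C) : lt G n ∈ sub G C :=
  Subgroup.mem_sup_right (lt_fr h)

lemma range_fz (j : X →* Γ) (y : Γ) :
    (Coprod.lift j (zpowersHom Γ y) : FZ X →* Γ).range = j.range ⊔ Subgroup.zpowers y := by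
  rw [Coprod.range_lift, Subgroup.range_zpowersHom]

lemma lift_gen (j : X →* Γ) (y : Γ) : (Coprod.lift j (zpowersHom Γ y) : FZ X →* Γ) (gen X) = y := by
  rw [gen, Coprod.lift_apply_inr, zpowersHom_apply, toAdd_ofAdd, zpow_one]

lemma pin_cop : Pin (1 : A) (1 : B) (Coprod.inl : A →* Coprod A B) Coprod.inr where
  comm := by rw [map_one, map_one]
  lift _ _ φ ψ _ := ⟨Coprod.lift φ ψ, fun _ => rfl, fun _ => rfl⟩
  gen T h1 h2 z := by
    induction z using Coprod.induction_on with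
    | inl a => exact h1 a
    | inr b => exact h2 b
    | mul x y hx hy => exact T.mul_mem hx hy

/-- the cocycle that is one at the new letter and vanishes on `B` and on a conjugate of `A` -/
lemma exists_co (ι : FZ (Coprod A B) →* Γ) : ∃ β : FZ (Coprod A B) → Op Γ, Co ι β ∧
    (∀ x, An (fun _ => 0) ι.range (β x)) ∧ (∀ b, β (Coprod.inl (Coprod.inr b)) = 0) ∧
    β (gen (Coprod A B)) = 1 ∧
    ∀ a, β (gen (Coprod A B) * Coprod.inl (Coprod.inl a) * (gen (Coprod A B))⁻¹) = 0 := by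
  have hK : ∀ x, ι x ∈ ι.range := fun x => ⟨x, rfl⟩
  have hz := z0_inn (ℓ := fun _ => 0) (K := ι.range)
    (ι := (ι.comp Coprod.inl).comp (Coprod.inl : A →* Coprod A B))
    (ξ := -lam (ι (gen (Coprod A B))⁻¹)) (fun _ => hK _) (An.of_lam (hK _)).neg
  obtain ⟨β₀, c0, a0, eA, eB⟩ := ext_pin (ℓ := fun _ => 0) (K := ι.range)
    (ι := ι.comp Coprod.inl) pin_cop (fun _ => hK _) hz.co co_zero hz.co.one hz.an
    fun _ => An.zero
  obtain ⟨β, c, a, e, et⟩ := ext_fz hK c0 a0 An.one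
  refine ⟨β, c, a, fun b => (e _).trans (eB b), et, fun x => ?_⟩
  have h1 : lam (ι (gen (Coprod A B))) * lam (ι (gen (Coprod A B))⁻¹) = 1 := by
    rw [← map_mul, ← map_mul, mul_inv_cancel, map_one, map_one]
  rw [c.conj, et, e, eA, inn, map_mul, map_mul, map_mul, map_mul, MonoidHom.comp_apply,
    MonoidHom.comp_apply]
  generalize lam (ι (gen (Coprod A B))) = p, lam (ι (gen (Coprod A B))⁻¹) = q,
    lam (ι (Coprod.inl (Coprod.inl x))) = m at h1 ⊢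
  rw [mul_neg, sub_mul 1 m, mul_neg, mul_sub, one_mul, h1, mul_one, mul_assoc, add_neg_cancel]

lemma near_lam {K : Subgroup Γ} {g : Γ} (h : g ∈ K) : Near K (lam g (dl 1)) 0 :=
  ⟨dl g, supp_dl h, by rw [lam_one, sub_self, norm_zero]⟩

lemma near_of {K : Subgroup Γ} {ξ η : H Γ} {a b : ℝ} (h : Near K η a) (e : ‖ξ - η‖ ≤ b) :
    Near K ξ (b + a) := by
  obtain ⟨ζ, h1, h2⟩ := h
  exact ⟨ζ, h1, (norm_sub_le_norm_sub_add_norm_sub ξ η ζ).trans (add_le_add e h2)⟩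

end MvAb

open MvAb in
theorem mvAb (hB : Bas) (h1 : ShiftStmt) (h2 : AbcStmt) : MvAbStmt := by
  intro A _ hA hct hna G B _ _ j hG _ hj hI C₀ Y S ε hε
  classical
  have := hG.cnt
  have : Countable (Gam G) := Coprod.mk_surjective.countable
  obtain ⟨C, hC⟩ := hB.gam.fin G j.range hI.1
  obtain ⟨k, hk, hk0⟩ : ∃ k : ℕ, (∀ m ∈ C, m < k) ∧ ∀ m ∈ C₀, m < k :=
    ⟨(C ∪ C₀).sup id + 1, fun m hm => Nat.lt_succ_of_le
      (Finset.le_sup (f := id) (Finset.mem_union_left _ hm)), fun m hm => Nat.lt_succ_of_le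
      (Finset.le_sup (f := id) (Finset.mem_union_right _ hm))⟩
  have hlt : ∀ m : ℕ, (C : Set ℕ) ⊆ Set.Iio (k + m) := fun m x hx =>
    lt_of_lt_of_le (hk x hx) (Nat.le_add_right _ _)
  have hkC : k ∉ (C : Set ℕ) := fun h => lt_irrefl _ (hk k h)
  have hoff : ∀ m : ℕ, lt G (k + m) ∈ fr G (C₀ : Set ℕ)ᶜ := fun m =>
    lt_fr fun h => by have := hk0 _ h; omega
  let ι : FZ (Coprod A B) →* Gam G := Coprod.lift j (zpowersHom _ (lt G k))
  have hι : Function.Injective ι := hB.gam.fresh G _ j C k hj hC hkC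
  have hιt : ι (gen _) = lt G k := lift_gen _ _
  have hr1 : ι.range ≤ sub G (Set.Iio (k + 1)) := by
    rw [range_fz]
    exact sup_le (hC.trans (sub_mono (hlt 1)))
      ((Subgroup.zpowers_le).2 (lt_sub (Nat.lt_succ_self k)))
  obtain ⟨e, he0⟩ : ∃ e : A →* FZ (Coprod A B), ∀ a,
      e a = gen (Coprod A B) * Coprod.inl (Coprod.inl a) * (gen (Coprod A B))⁻¹ :=
    ⟨(MulAut.conj (gen (Coprod A B))).toMonoidHom.comp (Coprod.inl.comp Coprod.inl), fun _ => rfl⟩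
  have he : ∀ a, ι (e a) = lt G k * j (Coprod.inl a) * (lt G k)⁻¹ := fun a => by
    rw [he0, map_mul, map_mul, map_inv, hιt]; rfl
  have hie : Function.Injective (ι.comp e) := fun a a' h => by
    have h' : ι (e a) = ι (e a') := h
    rw [he, he, mul_left_inj, mul_right_inj] at h'
    exact Coprod.inl_injective (hj h')
  have hr2 : (ι.comp e).range ≤ sub G (Set.Iio (k + 1)) := fun _ ⟨a, h⟩ => hr1 ⟨e a, h⟩
  let φ₁ : FZ A →* Gam G := Coprod.lift (ι.comp e) (zpowersHom _ (lt G (k + 1)))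
  have hφ₁ : Function.Injective φ₁ := hB.gam.fresh G _ _ _ (k + 1) hie hr2 (lt_irrefl (k + 1))
  have hr3 : φ₁.range ≤ sub G (Set.Iio (k + 2)) := by
    rw [range_fz]
    exact sup_le (hr2.trans (sub_mono (Set.Iio_subset_Iio (by omega))))
      ((Subgroup.zpowers_le).2 (lt_sub (Nat.lt_succ_self _)))
  let φ : FZ (FZ A) →* Gam G := Coprod.lift φ₁ (zpowersHom _ (lt G (k + 2)))
  have hφ : Function.Injective φ := hB.gam.fresh G _ _ _ (k + 2) hφ₁ hr3 (lt_irrefl (k + 2))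
  obtain ⟨deg, hT⟩ := hB.gam.tri G {k + 1, k + 2} (k + 3) (by simp)
  have hr4 : ι.range ≤ sub G (insert (k + 3) (({k + 1, k + 2} : Finset ℕ) : Set ℕ))ᶜ :=
    hr1.trans (sub_mono fun m (hm : m < k + 1) => by simp; omega)
  have hr5 : φ.range ≤ e.range.map ι ⊔ fr G (({k + 1, k + 2} : Finset ℕ) : Set ℕ) := by
    rw [range_fz, range_fz, MonoidHom.map_range]
    exact sup_le (sup_le_sup_left ((Subgroup.zpowers_le).2 (lt_fr (by simp))) _)
      ((Subgroup.zpowers_le).2 (Subgroup.mem_sup_right (lt_fr (by simp))))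
  have hr6 : e.range.map ι ⊔ fr G (({k + 1, k + 2} : Finset ℕ) : Set ℕ) ≤ deg.ker :=
    sup_le (fun x hx => hT.dA x (hr4 (Subgroup.map_le_range _ _ hx))) hT.dF
  obtain ⟨β, cβ, aβ, eB, et, eE⟩ := exists_co ι
  obtain ⟨η, hη, hS⟩ := h1 (Gam G) _ _ _ _ deg ι e.range β (fun _ => 0) 1 (gen _)
    (S.image fun b => Coprod.inl (Coprod.inr b)) (ε / 3) hT hG.ct
    ((Subgroup.fg_iff _).2 ⟨_, rfl, (Finset.finite_toSet _).image _⟩) (hG.cof _) hι hr4
    (by rw [range_fz]; exact hB.lets.one G _ C k hI hC hkC)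
    (by
      rintro _ ⟨a, rfl⟩ _ ⟨a', rfl⟩
      rw [← map_mul, ← map_mul, not_not.1 fun h => hna ⟨a, a', h⟩])
    cβ aβ (fun _ => An.zero) (by rintro _ ⟨a, rfl⟩; rw [he0, eE])
    (by
      intro s hs
      obtain ⟨b, -, rfl⟩ := Finset.mem_image.1 hs
      rw [eB, zero_mul])
    (by rw [et, zero_mul, add_zero]) (by positivity)
  obtain ⟨r, hr, hY⟩ := h2 A hA hct hna Y (ε / 3) (by positivity)
  have hR := FG.iu_ul φ hφ hr
  have hu := SimA.UL_mul (SimA.UL_star hR) (SimA.UL_lam (lt G (k + 3)))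
  obtain ⟨α, hα, hfix, hs, ht⟩ := hS _ hu
    (by
      have h0 := FG.iu_supp φ hφ (SimA.UL_star hr) (supp_univ _)
      rw [FG.iu_star φ hφ hr] at h0
      intro z hz
      rw [mul_ap, lam_one, LL_coef (star_mem hR.1)]
      refine h0 _ fun ⟨x, _, hx⟩ => hz ?_
      have hx' := hr5 ⟨x, hx⟩
      rw [← inv_mul_cancel_right z (lt G (k + 3))]
      exact ⟨Subgroup.mul_mem_sup hx' (Subgroup.mem_zpowers _),
        by rw [map_mul, hr6 hx', one_mul, hT.dy]⟩)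
    (by simpa using hη.le)
  refine ⟨α, hα, fun s hs' => (hs _ (Finset.mem_image_of_mem _ hs')).trans (by linarith),
    fun a ha => ?_⟩
  have hea : α (ι (e a)) = lam (ι (e a)) :=
    hfix _ (Subgroup.mem_sup_left (Subgroup.mem_sup_left ⟨_, ⟨a, rfl⟩, rfl⟩))
  have hv := SimA.UL_mul hu (SimA.UL_lam (lt G k))
  have c2 := hB.near.cj2 _ _ _ _ (SimA.gen_UL hα (lt G k)) hv (SimA.UL_lam (ι (e a)))
  have e1 : star (α (lt G k)) * lam (ι (e a)) * α (lt G k) = α (j (Coprod.inl a)) := by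
    rw [hα.star_eq, ← hea, ← map_mul, ← map_mul, he]
    congr 1
    group
  have hm := SimA.UL_mul (SimA.UL_mul hr (SimA.UL_lam (Coprod.inl (Coprod.inl a))))
    (SimA.UL_star hr)
  have hM := FG.iu_ul φ hφ hm
  have nM : Near (fr G (C₀ : Set ℕ)ᶜ) (FG.iu φ hφ
      (r * lam (G := FZ (FZ A)) (Coprod.inl (Coprod.inl a)) * star r) (dl 1)) (ε / 3) := by
    obtain ⟨ζ, z1, z2⟩ := hY a ha
    refine ⟨emb φ hφ ζ, (supp_emb φ hφ z1).mono ?_, ?_⟩
    · rintro _ ⟨_, ⟨i, rfl⟩, rfl⟩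
      rw [map_zpow, lift_gen]
      exact Subgroup.zpow_mem _ (hoff 2) _
    · rwa [FG.iu_one φ hφ hm, ← map_sub, emb_norm]
  have hg : lt G (k + 3) * lt G k ∈ fr G (C₀ : Set ℕ)ᶜ := mul_mem (hoff 3) (hoff 0)
  have n2 := hB.near.mul _ _ _ _ _ _ (SimA.UL_mul (SimA.UL_lam _) hM) (SimA.UL_lam _)
    (hB.near.mul _ _ _ _ _ _ (SimA.UL_lam _) hM (near_lam (inv_mem hg)) nM) (near_lam hg)
  have e2 : star (star (FG.iu φ hφ r) * lam (lt G (k + 3)) * lam (lt G k)) * lam (ι (e a)) *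
      (star (FG.iu φ hφ r) * lam (lt G (k + 3)) * lam (lt G k)) =
      lam (lt G (k + 3) * lt G k)⁻¹ *
        FG.iu φ hφ (r * lam (G := FZ (FZ A)) (Coprod.inl (Coprod.inl a)) * star r) *
        lam (lt G (k + 3) * lt G k) := by
    rw [FG.iu_conj φ hφ hr, ← star_lam, mul_assoc (star _) (lam _) (lam _), ← map_mul, star_mul,
      star_star]
    simp only [mul_assoc]
    rfl
  rw [e1, e2, mul_ap _ (lam (lt G k)), lam_one] at c2
  rw [hιt] at ht
  have := near_of n2 (c2.trans (mul_le_mul_of_nonneg_left ht zero_le_two))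
  rwa [show 2 * (ε / 3) + (0 + ε / 3 + 0) = ε by ring] at this

end

end Pool.Agent.MP_494aff_an.Un

end MrgPart3

-- ======== part 4: formerly Pool.Agent.MP_494aff_an.un.Nd
section MrgPart4

/-! Word length and the cosets that a geodesic meets. -/

open Monoid

namespace Pool.Agent.MP_494aff_an.Un

open Pool.Agent.MP_494aff_an.Pinch Pool.Agent.MP_494aff_an.Pinch.TowP Pool.Agent.MP_494aff_an.Lf

namespace NdP

variable {G : Type} [Group G]

lemma fz_ind {P : FZ G → Prop} (h1 : ∀ g, P (Coprod.inl g)) (h2 : P (gen G)) (h3 : P (gen G)⁻¹)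
    (h4 : ∀ x y, P x → P y → P (x * y)) (x : FZ G) : P x := by
  induction x using Coprod.induction_on with
  | inl g => exact h1 g
  | inr k =>
    rw [WLP.inr_eq]
    induction k.toAdd using Int.induction_on with
    | zero => simpa using h1 1
    | succ i ih => rw [zpow_add_one]; exact h4 _ _ ih h2
    | pred i ih => rw [zpow_sub_one]; exact h4 _ _ ih h3
  | mul a b ha hb => exact h4 a b ha hb

lemma wl (hG : Group.FG G) : ∃ (S : Finset G) (ℓ : FZ G → ℕ), WL4 S ℓ := by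
  classical
  obtain ⟨S₁, hS₁⟩ := (Group.fg_iff_monoid_fg.1 hG).fg_top
  let S : Finset G := S₁ ∪ S₁.image (·⁻¹)
  let T : Set (FZ G) := {s | (∃ g ∈ S, s = Coprod.inl g) ∨ s = gen G ∨ s = (gen G)⁻¹}
  have hT : ∀ s ∈ T, s⁻¹ ∈ T := by
    rintro s (⟨g, hg, rfl⟩ | rfl | rfl)
    · refine Or.inl ⟨g⁻¹, ?_, (map_inv _ _).symm⟩
      rcases Finset.mem_union.1 hg with h | h
      · exact Finset.mem_union_right _ (Finset.mem_image_of_mem _ h)
      · obtain ⟨a, ha, rfl⟩ := Finset.mem_image.1 h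
        exact Finset.mem_union_left _ (by simpa using ha)
    · exact Or.inr (Or.inr rfl)
    · exact Or.inr (Or.inl (inv_inv _))
  have hg : ∀ x, x ∈ Submonoid.closure T := by
    refine fz_ind (fun g => ?_) (Submonoid.subset_closure (Or.inr (Or.inl rfl)))
      (Submonoid.subset_closure (Or.inr (Or.inr rfl))) fun _ _ => mul_mem
    have hg : g ∈ Submonoid.closure (S₁ : Set G) := by rw [hS₁]; trivial
    induction hg using Submonoid.closure_induction with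
    | mem a ha => exact Submonoid.subset_closure (Or.inl ⟨a, Finset.mem_union_left _ ha, rfl⟩)
    | one => rw [map_one]; exact one_mem _
    | mul a b _ _ ha hb => rw [map_mul]; exact mul_mem ha hb
  obtain ⟨ℓ, l1, l0, lsub, linv, -, lgeo⟩ := WLP.exists_len T hT hg
  exact ⟨S, ℓ, l1, l0, lsub, linv, lgeo⟩

/-- A cocycle with a prescribed value at the extra generator. -/
lemma exists_coc {Q M : Type} [MulAction (FZ G) Q] [AddCommGroup M] (b : Q → M) :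
    ∃ φ : FZ G → Q → M, (∀ x z q, φ (x * z) q = φ x q + φ z (x⁻¹ • q)) ∧
      (∀ g q, φ (Coprod.inl g) q = 0) ∧ ∀ q, φ (gen G) q = b q := by
  let W := (Q → Multiplicative M) ⋊[mulAutArrow] FZ G
  let Φ : FZ G →* W := Coprod.lift (SemidirectProduct.inr.comp Coprod.inl)
    (zpowersHom W ⟨fun q => Multiplicative.ofAdd (b q), gen G⟩)
  have hy : Φ (gen G) = ⟨fun q => Multiplicative.ofAdd (b q), gen G⟩ := by
    simp [Φ, gen]
  have hr : ∀ x, (Φ x).right = x := by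
    intro x
    have : SemidirectProduct.rightHom.comp Φ = MonoidHom.id (FZ G) := by
      refine Coprod.hom_ext ?_ ?_
      · ext g
        simp [Φ]
      · refine MonoidHom.ext_mint ?_
        change (Φ (gen G)).right = gen G
        rw [hy]
    exact DFunLike.congr_fun this x
  refine ⟨fun x q => ((Φ x).left q).toAdd, fun x z q => ?_, fun g q => by simp [Φ],
    fun q => by simp only [hy, toAdd_ofAdd]⟩
  have e : ((Φ (x * z)).left q).toAdd =
      ((Φ x).left q).toAdd + ((Φ z).left (((Φ x).right)⁻¹ • q)).toAdd := by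
    simp only [map_mul]
    rfl
  rw [hr] at e
  exact e

lemma nd {S : Finset G} {ℓ : FZ G → ℕ} {h : FZ G} (hl : WL4 S ℓ)
    (hh : (Coprod.snd : FZ G →* Multiplicative ℤ) h ≠ 1) :
    ∃ (nd : FZ G → FZ G ⧸ Subgroup.zpowers h → Prop) (c₀ : ℕ),
      (∀ z x : FZ G, nd x z ∨ nd (z * h * z⁻¹ * x) z) ∧
      (∀ x (Z : Finset (FZ G ⧸ Subgroup.zpowers h)), (∀ q ∈ Z, nd x q) → Z.card ≤ ℓ x) ∧
      ∀ x q, nd x q → ∃ z : FZ G, (z : FZ G ⧸ Subgroup.zpowers h) = q ∧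
        ℓ z + ℓ (z⁻¹ * x) ≤ ℓ x + c₀ := by
  classical
  obtain ⟨Ψ, hmul, hinl, hgen⟩ := exists_coc (G := G)
    fun q : FZ G ⧸ Subgroup.zpowers h => Finsupp.single q (1 : ℤ)
  have hone : ∀ q, Ψ 1 q = 0 := fun q => by simpa using hinl 1 q
  have hinv : ∀ x q, Ψ x⁻¹ q = -Ψ x (x • q) := fun x q => by
    have := hmul x⁻¹ x q
    rw [inv_mul_cancel, hone, inv_inv] at this
    exact eq_neg_of_add_eq_zero_left this.symm
  let σ : (FZ G ⧸ Subgroup.zpowers h →₀ ℤ) →+ ℤ := Finsupp.liftAddHom fun _ => AddMonoidHom.id ℤ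
  have hσ : ∀ x q, σ (Ψ x q) = ((Coprod.snd : FZ G →* Multiplicative ℤ) x).toAdd := by
    refine fz_ind (fun g q => by simp [hinl]) (fun q => by rw [hgen]; simp [σ, gen])
      (fun q => by rw [hinv, hgen, map_neg]; simp [σ, gen]) fun x y hx hy q => ?_
    rw [hmul, map_add, hx, hy, map_mul, toAdd_mul]
  have h0 : Ψ h ((1 : FZ G) : FZ G ⧸ Subgroup.zpowers h) ≠ 0 := fun e => hh (by
    have := hσ h ((1 : FZ G) : FZ G ⧸ Subgroup.zpowers h)
    rw [e, map_zero] at this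
    exact toAdd_eq_zero.1 this.symm)
  obtain ⟨q₀, hq₀⟩ := Finsupp.ne_iff.1 h0
  obtain ⟨e, rfl⟩ := QuotientGroup.mk_surjective q₀
  have sm : ∀ x z : FZ G, x • (z : FZ G ⧸ Subgroup.zpowers h) = ((x * z : FZ G) : _ ⧸ _) :=
    fun _ _ => rfl
  have key : ∀ n x, ℓ x = n → ∃ V : Finset (FZ G), V.card ≤ n ∧
      (∀ v ∈ V, ℓ v + ℓ (v⁻¹ * x) ≤ n) ∧
      ∀ q, Ψ x q e ≠ 0 → ∃ v ∈ V, ((v * e : FZ G) : FZ G ⧸ Subgroup.zpowers h) = q := by
    intro n
    induction n with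
    | zero =>
      intro x hx
      refine ⟨∅, le_rfl, by simp, fun q hq => (hq ?_).elim⟩
      rw [hl.eq_one x hx, hone]
      rfl
    | succ n ih =>
      intro x hx
      obtain ⟨p, s, rfl, hp, hs, hsT⟩ := hl.geo x n hx
      obtain ⟨V, v1, v2, v3⟩ := ih p hp
      obtain ⟨v, w1, w2⟩ : ∃ v, ℓ v + ℓ (v⁻¹ * (p * s)) ≤ n + 1 ∧ ∀ q, Ψ s (p⁻¹ • q) e ≠ 0 →
          ((v * e : FZ G) : FZ G ⧸ Subgroup.zpowers h) = q := by
        rcases hsT with ⟨g, -, rfl⟩ | rfl | rfl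
        · exact ⟨p, by rw [inv_mul_cancel_left]; omega, fun q hq => (hq (by rw [hinl]; rfl)).elim⟩
        · refine ⟨p, by rw [inv_mul_cancel_left]; omega, fun q hq => ?_⟩
          rw [hgen] at hq
          rw [← sm, (Finsupp.single_apply_ne_zero.1 hq).1, smul_inv_smul]
        · refine ⟨p * (gen G)⁻¹, by rw [inv_mul_cancel, hl.one]; omega, fun q hq => ?_⟩
          rw [hinv, hgen, Finsupp.neg_apply, neg_ne_zero] at hq
          rw [← sm, (Finsupp.single_apply_ne_zero.1 hq).1, mul_smul, inv_smul_smul, smul_inv_smul]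
      refine ⟨insert v V, (Finset.card_insert_le _ _).trans (by omega), fun u hu => ?_,
        fun q hq => ?_⟩
      · rcases Finset.mem_insert.1 hu with rfl | hu
        · exact w1
        · have a1 := v2 u hu
          have a2 := hl.sub (u⁻¹ * p) s
          rw [mul_assoc] at a2
          omega
      · by_cases h1 : Ψ p q e = 0
        · rw [hmul, Finsupp.add_apply, h1, zero_add] at hq
          exact ⟨v, Finset.mem_insert_self _ _, w2 q hq⟩
        · obtain ⟨u, hu, e'⟩ := v3 q h1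
          exact ⟨u, Finset.mem_insert_of_mem hu, e'⟩
  refine ⟨fun x q => Ψ x q e ≠ 0, 2 * ℓ e, fun z x => ?_, fun x Z hZ => ?_, fun x q hq => ?_⟩
  · have a1 : (z * h * z⁻¹)⁻¹ • (z : FZ G ⧸ Subgroup.zpowers h) = z := by
      rw [sm, QuotientGroup.eq]
      exact ⟨1, by simp only [zpow_one]; group⟩
    have a2 : (z * h)⁻¹ • (z : FZ G ⧸ Subgroup.zpowers h) = ((1 : FZ G) : _ ⧸ _) := by
      rw [sm, QuotientGroup.eq]
      exact ⟨1, by simp only [zpow_one]; group⟩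
    have a3 : z⁻¹ • (z : FZ G ⧸ Subgroup.zpowers h) = ((1 : FZ G) : _ ⧸ _) := by
      rw [sm, inv_mul_cancel]
    have a4 : Ψ (z * h * z⁻¹ * x) z = Ψ x z + Ψ h ((1 : FZ G) : _ ⧸ _) := by
      rw [hmul, a1, hmul, a2, hmul, a3, hinv, sm, mul_one]
      abel
    by_contra hc
    simp only [not_or, not_not] at hc
    have := hc.2
    rw [a4, Finsupp.add_apply, hc.1, zero_add] at this
    exact hq₀ this
  · obtain ⟨V, v1, -, v3⟩ := key _ x rfl
    refine (Finset.card_le_card (t := V.image fun v =>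
      ((v * e : FZ G) : FZ G ⧸ Subgroup.zpowers h)) fun q hq => ?_).trans
        (Finset.card_image_le.trans v1)
    exact Finset.mem_image.2 (v3 q (hZ q hq))
  · obtain ⟨V, -, v2, v3⟩ := key _ x rfl
    obtain ⟨v, hv, rfl⟩ := v3 q hq
    refine ⟨v * e, rfl, ?_⟩
    have a1 := v2 v hv
    have a2 := hl.sub v e
    have a3 := hl.sub e⁻¹ (v⁻¹ * x)
    have a4 := hl.symm e
    rw [mul_inv_rev, mul_assoc]
    omega

/-- Elements with a spelling that uses the extra generator `n` times. -/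
inductive Sp : ℕ → FZ G → Prop
  | zero (g : G) : Sp 0 (Coprod.inl g)
  | succ (n : ℕ) (z s : FZ G) (g : G) : Sp n z → s = gen G ∨ s = (gen G)⁻¹ →
      Sp (n + 1) (z * s * Coprod.inl g)

lemma Sp.mul_inl {n : ℕ} {z : FZ G} (h : Sp n z) (g : G) : Sp n (z * Coprod.inl g) := by
  cases h with
  | zero g' => rw [← map_mul]; exact Sp.zero _
  | succ n z s g' h1 h2 => rw [mul_assoc, ← map_mul]; exact Sp.succ n z s _ h1 h2

lemma exists_sp (x : FZ G) : ∃ n, Sp n x := by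
  have : ∀ x : FZ G, ∀ n z, Sp n z → ∃ m, Sp m (z * x) := by
    refine fz_ind (fun g n z h => ⟨n, h.mul_inl g⟩)
      (fun n z h => ⟨n + 1, by simpa using Sp.succ n z _ 1 h (Or.inl rfl)⟩)
      (fun n z h => ⟨n + 1, by simpa using Sp.succ n z _ 1 h (Or.inr rfl)⟩) fun x y hx hy n z h => ?_
    obtain ⟨m, hm⟩ := hx n z h
    rw [← mul_assoc]
    exact hy m _ hm
  simpa using this x 0 _ (Sp.zero 1)

lemma two (E : Subgroup G) (B : FZ G → H (FZ G)) (hB : Cz (MonoidHom.id (FZ G)) B)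
    (hS : ∀ g, Supp (Coprod.inl : G →* FZ G).range (B (Coprod.inl g))) (hy : B (gen G) = 0)
    (hE : ∀ g ∈ E, B (Coprod.inl g) = 0) :
    (∀ x, ∃ P : Finset (FZ G), ∀ z, B x z ≠ 0 →
      ∃ p ∈ P, p⁻¹ * z ∈ (Coprod.inl : G →* FZ G).range) ∧
    ∀ x z₀ : FZ G, ∃ p p' : FZ G, ∀ z, z₀⁻¹ * z ∈ E.map Coprod.inl ⊔ Subgroup.zpowers (gen G) →
      B x z ≠ 0 → p⁻¹ * z ∈ (Coprod.inl : G →* FZ G).range ∨
        p'⁻¹ * z ∈ (Coprod.inl : G →* FZ G).range := by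
  classical
  have hm : ∀ x y, B (x * y) = B x + lam x (B y) := hB
  have hc : ∀ x y z, B (x * y) z = B x z + B y (x⁻¹ * z) := fun x y z => by
    rw [hm, ← lam_coef]
    rfl
  have h1 : B 1 = 0 := by simpa using hm 1 1
  let K : Subgroup (FZ G) :=
    { carrier := {x | B x = 0}
      one_mem' := h1
      mul_mem' := fun {x y} (hx : B x = 0) (hy : B y = 0) => by
        show B (x * y) = 0
        rw [hm, hx, hy, map_zero, add_zero]
      inv_mem' := fun {x} (hx : B x = 0) => by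
        have := hm x⁻¹ x
        rw [inv_mul_cancel, h1, hx, map_zero, add_zero] at this
        exact this.symm }
  have hK : E.map Coprod.inl ⊔ Subgroup.zpowers (gen G) ≤ K := by
    refine sup_le ?_ ((Subgroup.zpowers_le (H := K)).2 hy)
    rintro _ ⟨g, hg, rfl⟩
    exact hE g hg
  have hy' : B (gen G)⁻¹ = 0 := K.inv_mem hy
  have hs : ∀ g v, B (Coprod.inl g) v ≠ 0 → v ∈ (Coprod.inl : G →* FZ G).range :=
    fun g v hv => by_contra fun hn => hv (hS g v hn)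
  refine ⟨fz_ind (fun g => ⟨{1}, fun z hz => ⟨1, by simp, by simpa using hs g z hz⟩⟩)
    ⟨∅, fun z hz => (hz (by rw [hy]; rfl)).elim⟩ ⟨∅, fun z hz => (hz (by rw [hy']; rfl)).elim⟩
    ?_, fun x z₀ => ?_⟩
  · rintro x y ⟨P, hP⟩ ⟨P', hP'⟩
    refine ⟨P ∪ P'.image (x * ·), fun z hz => ?_⟩
    by_cases h0 : B x z = 0
    · rw [hc, h0, zero_add] at hz
      obtain ⟨p, p1, p2⟩ := hP' _ hz
      exact ⟨x * p, Finset.mem_union_right _ (Finset.mem_image_of_mem _ p1), by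
        rwa [mul_inv_rev, mul_assoc]⟩
    · obtain ⟨p, p1, p2⟩ := hP z h0
      exact ⟨p, Finset.mem_union_left _ p1, p2⟩
  have hsp : ∀ n z, Sp n z → ∀ v, B z v ≠ 0 →
      z⁻¹ * v ∈ (Coprod.inl : G →* FZ G).range ∨ ∃ m < n, Sp m v := by
    intro n z h
    induction h with
    | zero g => exact fun v hv => Or.inl (mul_mem (inv_mem ⟨g, rfl⟩) (hs g v hv))
    | succ n z s g h1 h2 ih =>
      intro v hv
      have e : B s = 0 := h2.elim (fun e => e ▸ hy) fun e => e ▸ hy'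
      by_cases h0 : B z v = 0
      · rw [hc, hm, e, map_zero, add_zero, h0, zero_add] at hv
        left
        rw [mul_inv_rev, mul_assoc]
        exact mul_mem (inv_mem ⟨g, rfl⟩) (hs g _ hv)
      · rcases ih v h0 with ⟨g', hg'⟩ | ⟨m, m1, m2⟩
        · refine Or.inr ⟨n, n.lt_succ_self, ?_⟩
          have := h1.mul_inl g'
          rwa [hg', mul_inv_cancel_left] at this
        · exact Or.inr ⟨m, m1.trans n.lt_succ_self, m2⟩
  have least : ∀ w : FZ G, ∃ u, w⁻¹ * u ∈ E.map Coprod.inl ⊔ Subgroup.zpowers (gen G) ∧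
      ∀ v, w⁻¹ * v ∈ E.map Coprod.inl ⊔ Subgroup.zpowers (gen G) → B u v ≠ 0 →
        u⁻¹ * v ∈ (Coprod.inl : G →* FZ G).range := by
    intro w
    have ex : ∃ n, ∃ u, w⁻¹ * u ∈ E.map Coprod.inl ⊔ Subgroup.zpowers (gen G) ∧ Sp n u := by
      obtain ⟨n, hn⟩ := exists_sp w
      exact ⟨n, w, by rw [inv_mul_cancel]; exact one_mem _, hn⟩
    obtain ⟨u, u1, u2⟩ := Nat.find_spec ex
    refine ⟨u, u1, fun v hv hb => (hsp _ u u2 v hb).resolve_right ?_⟩
    rintro ⟨m, m1, m2⟩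
    exact Nat.find_min ex m1 ⟨v, hv, m2⟩
  obtain ⟨u, u1, u2⟩ := least z₀
  obtain ⟨u', u1', u2'⟩ := least (x⁻¹ * z₀)
  refine ⟨u, x * u', fun z hz hb => ?_⟩
  have e1 : B (u⁻¹ * (x * u')) = 0 := hK (by
    have := mul_mem (inv_mem u1) u1'
    convert this using 1
    group)
  have e2 : B x z + B u' (x⁻¹ * z) = B u z := by
    have := hm u (u⁻¹ * (x * u'))
    rw [e1, map_zero, add_zero, mul_inv_cancel_left] at this
    rw [← hc, this]
  by_cases h0 : B u z = 0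
  · right
    rw [mul_inv_rev, mul_assoc]
    refine u2' _ (by convert hz using 1; group) fun h => hb ?_
    rwa [h, add_zero, h0] at e2
  · exact Or.inl (u2 z hz h0)

end NdP

theorem ndS : NdStmt :=
  ⟨fun _ _ h => NdP.wl h, fun _ _ _ _ _ h h' => NdP.nd h h', fun _ _ E B => NdP.two E B⟩

end Pool.Agent.MP_494aff_an.Un

end MrgPart4

-- ======== part 5: formerly Pool.Agent.MP_494aff_an.fr.Good
section MrgPart5

/-! The groups at the pairs of pants are enlarged. -/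

namespace Pool.Agent.MP_494aff_an.Fr

open Pool.Agent.MP_494aff_an.Pinch Pool.Agent.MP_494aff_an.Pinch.TowP Pool.Agent.MP_494aff_an.Lf
open Pool.Agent.MP_494aff_an.Se

namespace GoodP

variable {G Ω I : Type} [Group G]

/-- Elements that the end `e` carries to its target. -/
def Cr (Φ : Frm G Ω I) (e : I) (a : G) : Prop :=
  Φ.E (Φ.t e) (Φ.t e) (Φ.γ e * a * (Φ.γ e)⁻¹) ∧ a * Φ.ce e = Φ.ce e * a

/-- These elements form a group. -/
def crS {Φ : Frm G Ω I} (hG : Φ.Grp) {e : I} (he : e ∈ Φ.En) : Subgroup G where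
  carrier := {a | Cr Φ e a}
  one_mem' := ⟨by simpa using hG.refl _ (hG.st e (hG.en he)).2, by simp⟩
  mul_mem' := by
    rintro a b ⟨a1, a2⟩ ⟨b1, b2⟩
    refine ⟨?_, by rw [mul_assoc, b2, ← mul_assoc, a2, mul_assoc]⟩
    have := hG.trans _ _ _ _ _ a1 b1
    simpa [mul_assoc] using this
  inv_mem' := by
    rintro a ⟨a1, a2⟩
    refine ⟨?_, (Commute.inv_left a2).eq⟩
    have := hG.symm _ _ _ a1
    simpa [mul_assoc] using this

/-- The new group at a pair of pants. -/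
structure Nice (Φ : Frm G Ω I) (p : I) (W : Subgroup G) : Prop where
  le : ∀ g, Φ.E p p g → g ∈ W
  hier : Hier W
  gen : ∃ Z : Set G, W = Subgroup.closure Z ∧
    ∀ a ∈ Z, Φ.E p p a ∨ ∃ e ∈ Φ.En, Φ.s e = p ∧ Cr Φ e a
  cs : ∀ e ∈ Φ.En, Φ.s e = p → ∀ a ∈ W, a * Φ.ce e = Φ.ce e * a → Cr Φ e a
  ct : ∀ e ∈ Φ.En, Φ.s e = p → ∀ a, Cr Φ e a → a ∈ W
  far : ∀ e ∈ Φ.En, ∀ e' ∈ Φ.En, Φ.s e = p → Φ.s e' = p → e ≠ e' → ∀ a ∈ W,
    a * Φ.ce e' * a⁻¹ * Φ.ce e ≠ Φ.ce e * (a * Φ.ce e' * a⁻¹)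

lemma nice (h : PanStmt) {Φ : Frm G Ω I} (hG : Φ.Grp) (hC : CT G) (hD : Disc G) (hA : AbFG G)
    {p : I} {S : Fin 3 → Subgroup G} {c₀ c₁ : G} {sl : I → Fin 3} (hP : Φ.Pan p S c₀ c₁ sl) :
    ∃ W, Nice Φ p W := by
  have h1 : ∀ i, ∃ T : Subgroup G, S i ≤ T ∧ (i = 2 → T = S i) ∧
      (∀ x ∈ T, ∀ y ∈ T, x * y = y * x) ∧
      (∀ e ∈ Φ.En, Φ.s e = p → sl e = i → i ≠ 2 → ∀ a, a ∈ T ↔ Cr Φ e a) ∧
      ∀ a ∈ T, a ∈ S i ∨ ∃ e ∈ Φ.En, Φ.s e = p ∧ Cr Φ e a := by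
    intro i
    by_cases hi : i ≠ 2 ∧ ∃ e ∈ Φ.En, Φ.s e = p ∧ sl e = i
    · obtain ⟨hi, e, he, hs, rfl⟩ := hi
      refine ⟨crS hG he, fun a ha => ⟨hP.le e he hs a ha, hP.ab _ a ha _ (hP.mem e he hs)⟩,
        fun e2 => absurd e2 hi,
        fun x hx y hy => hC.ct _ x y (hG.ce e he).1 hx.2.symm hy.2.symm,
        fun e' he' hs' hl _ a => ?_, fun a ha => Or.inr ⟨e, he, hs, ha⟩⟩
      rw [hP.inj e' he' e he hs' hs hl]
      rfl
    · exact ⟨S i, le_rfl, fun _ => rfl, hP.ab i,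
        fun e he hs hl h2 => absurd ⟨h2, e, he, hs, hl⟩ hi, fun a ha => Or.inl ha⟩
  choose T t1 t2 t3 t4 t5 using h1
  obtain ⟨p1, p2, p3⟩ := h G T c₀ c₁ hC hD (t1 0 hP.m0) (t1 1 hP.m1) hP.nc
    ((t2 2 rfl).trans hP.two) t3
  have hle : S 0 ⊔ S 1 ≤ T 0 ⊔ T 1 := sup_le_sup (t1 0) (t1 1)
  have h2 : S 2 ≤ S 0 ⊔ S 1 := by
    rw [hP.two, Subgroup.zpowers_le]
    exact Subgroup.mul_mem_sup hP.m0 hP.m1
  have h3 : ∀ i, T i ≤ T 0 ⊔ T 1 := by
    intro i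
    fin_cases i
    · exact le_sup_left
    · exact le_sup_right
    · exact (t2 2 rfl).le.trans (h2.trans hle)
  refine ⟨T 0 ⊔ T 1, fun g hg => hle ((hP.grp g).1 hg), p1 (hA _ (t3 0)) (hA _ (t3 1)),
    ⟨_, Subgroup.sup_eq_closure _ _, fun a ha => ?_⟩, fun e he hs a ha hc => ?_,
    fun e he hs a ha => ?_, fun e he e' he' hs hs' hne a ha => ?_⟩
  · rcases ha with ha | ha
    · exact (t5 0 a ha).imp_left fun h0 => (hP.grp a).2 (Subgroup.mem_sup_left h0)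
    · exact (t5 1 a ha).imp_left fun h0 => (hP.grp a).2 (Subgroup.mem_sup_right h0)
  · have h4 := p2 (sl e) _ (t1 _ (hP.mem e he hs)) (hG.ce e he).1 a ha hc
    by_cases h5 : sl e = 2
    · rw [t2 _ h5] at h4
      exact ⟨hP.le e he hs a h4, hc⟩
    · exact (t4 _ e he hs rfl h5 a).1 h4
  · by_cases h5 : sl e = 2
    · have h6 := (hP.inn e he hs h5).2 _ ha.1
      have e1 : (Φ.γ e)⁻¹ * (Φ.γ e * a * (Φ.γ e)⁻¹) * Φ.γ e = a := by group
      rw [e1] at h6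
      exact hle (h2 h6)
    · exact h3 _ ((t4 _ e he hs rfl h5 a).2 ha)
  · exact p3 (sl e) (sl e') (fun e1 => hne (hP.inj e he e' he' hs hs' e1)) _
      (t1 _ (hP.mem e he hs)) _ (t1 _ (hP.mem e' he' hs')) (hG.ce e he).1 (hG.ce e' he').1 a ha

/-- The frame with the new groups. -/
def new (Φ : Frm G Ω I) (W : I → Subgroup G) : Frm G Ω I :=
  { Φ with E := fun p q g =>
      (Φ.kd p = Kd.P ∧ p = q ∧ p ∈ Φ.Vs ∧ g ∈ W p) ∨ (Φ.kd p ≠ Kd.P ∧ Φ.E p q g) }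

lemma newP {Φ : Frm G Ω I} {W : I → Subgroup G} {p q : I} {g : G} (h : Φ.kd p = Kd.P) :
    (new Φ W).E p q g ↔ p = q ∧ p ∈ Φ.Vs ∧ g ∈ W p :=
  ⟨fun h1 => h1.elim (fun h2 => h2.2) fun h2 => absurd h h2.1, fun h1 => Or.inl ⟨h, h1⟩⟩

lemma newN {Φ : Frm G Ω I} {W : I → Subgroup G} {p q : I} {g : G} (h : Φ.kd p ≠ Kd.P) :
    (new Φ W).E p q g ↔ Φ.E p q g :=
  ⟨fun h1 => h1.elim (fun h2 => absurd h2.1 h) fun h2 => h2.2, fun h1 => Or.inr ⟨h, h1⟩⟩

end GoodP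

open GoodP in
theorem good (h : PanStmt) : GoodStmt := by
  intro G Ω I _ _ Φ hE hO
  have hV := hO.val
  have hG := hV.grp
  have h0 : ∀ p, ∃ W : Subgroup G, p ∈ Φ.Vs → Φ.kd p = Kd.P → Nice Φ p W := by
    intro p
    by_cases hp : p ∈ Φ.Vs ∧ Φ.kd p = Kd.P
    · obtain ⟨S, c₀, c₁, sl, hP⟩ := hV.pan p hp.1 hp.2
      obtain ⟨W, hW⟩ := nice h hG hE.ct hE.disc hE.abfg hP
      exact ⟨W, fun _ _ => hW⟩
    · exact ⟨⊥, fun h1 h2 => absurd ⟨h1, h2⟩ hp⟩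
  choose W hW using h0
  have iso : ∀ p q g, Φ.E p q g → Φ.kd p = Kd.P → p = q := fun p q g he hk =>
    hV.iso p q g he (by rw [hk]; exact fun e => Kd.noConfusion e)
  have other : ∀ p q g, Φ.E p q g → Φ.kd p ≠ Kd.P → Φ.kd q ≠ Kd.P := fun p q g he hk hq =>
    hk (iso q p _ (hG.symm _ _ _ he) hq ▸ hq)
  have mono : ∀ p q g, Φ.E p q g → (new Φ W).E p q g := by
    intro p q g he
    by_cases hk : Φ.kd p = Kd.P
    · obtain rfl := iso p q g he hk
      have hp := (hG.mem _ _ _ he).1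
      exact (newP hk).2 ⟨rfl, hp, (hW p hp hk).le g he⟩
    · exact (newN hk).2 he
  have sV : ∀ e ∈ Φ.En, Φ.s e ∈ Φ.Vs := fun e he => (hG.st e (hG.en he)).1
  have sW : ∀ e ∈ Φ.En, Nice Φ (Φ.s e) (W (Φ.s e)) := fun e he =>
    hW _ (sV e he) (hV.kend e he).1
  have ce' : ∀ e ∈ Φ.En, ∀ a, Cr Φ e a → (new Φ W).Ce e a := fun e he a ha =>
    ⟨(newP (hV.kend e he).1).2 ⟨rfl, sV e he, (sW e he).ct e he rfl a ha⟩, mono _ _ _ ha.1, ha.2⟩
  have hG' : (new Φ W).Grp := by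
    refine ⟨fun p hp => mono _ _ _ (hG.refl p hp), fun p q g he => ?_, fun p q r g k he hk => ?_,
      fun p q g he => ?_, hG.ne, hG.st, hG.en,
      fun e he => ⟨(hG.ce e he).1, ce' e he _ (hG.ce e he).2.2⟩⟩
    · rcases he with ⟨h1, rfl, h2, h3⟩ | ⟨-, h2⟩
      · exact Or.inl ⟨h1, rfl, h2, inv_mem h3⟩
      · exact mono _ _ _ (hG.symm _ _ _ h2)
    · rcases he with ⟨h1, rfl, h2, h3⟩ | ⟨h1, h2⟩
      · obtain ⟨rfl, -, h4⟩ := (newP h1).1 hk
        exact Or.inl ⟨h1, rfl, h2, mul_mem h3 h4⟩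
      · exact mono _ _ _ (hG.trans _ _ _ _ _ h2 ((newN (other _ _ _ h2 h1)).1 hk))
    · rcases he with ⟨-, rfl, h2, -⟩ | ⟨-, h2⟩
      · exact ⟨h2, h2⟩
      · exact hG.mem _ _ _ h2
  refine ⟨new Φ W, hG', fun X h1 h2 => hO.gen X (fun p q k g he => h1 p q k g (mono _ _ _ he)) h2,
    fun ψ u hS _ => ?_, fun p hp P hP hfg => ?_, fun e he e' he' g hg => ?_,
    fun e he a ha hc => ?_, fun e he a ha hc => ?_, fun e he e' he' a hne ha => ?_⟩
  · obtain ⟨Ψ, y, h1, h2⟩ := hO.ext ψ u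
      ⟨fun p q r g k he hk => hS.fn p q r g k (mono _ _ _ he) (mono _ _ _ hk),
        fun e he a ha => hS.sq e he a (ce' e he a ha.2)⟩ trivial
    refine ⟨Ψ, y, fun p q g he => ?_, h2⟩
    rcases he with ⟨hk, rfl, hp, hg⟩ | ⟨-, he⟩
    · obtain ⟨Z, hZ, hZ'⟩ := (hW p hp hk).gen
      rw [hZ] at hg
      refine (hS.closure hG' hp (S := Z) (fun a ha => (newP hk).2
        ⟨rfl, hp, hZ ▸ Subgroup.subset_closure ha⟩) (fun a ha => ?_) hg).2
      rcases hZ' a ha with h3 | ⟨e, he, rfl, h3⟩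
      · exact h1 _ _ _ h3
      · have h4 : u e * ψ (Φ.s e) (Φ.s e) a =
            ψ (Φ.t e) (Φ.t e) (Φ.γ e * a * (Φ.γ e)⁻¹) * u e := hS.sq e he a (ce' e he a h3)
        rw [h1 _ _ _ h3.1, ← eq_inv_mul_iff_mul_eq, h2 e (hG.en he)] at h4
        rw [h4, map_mul, map_mul, map_inv]
        group
    · exact h1 _ _ _ he
  · rcases hk : Φ.kd p with _ | _ | _
    · have hk' : Φ.kd p ≠ Kd.P := by rw [hk]; exact fun e => Kd.noConfusion e
      exact hE.pth P hfg ⟨Φ.ω p, fun g hg => (hV.kE p p g ((newN hk').1 ((hP g).1 hg)) hk).2⟩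
    · have e : P = W p := by
        ext g
        rw [hP g, newP hk]
        exact ⟨fun h1 => h1.2.2, fun h1 => ⟨rfl, hp, h1⟩⟩
      rw [e]
      exact (hW p hp hk).hier
    · have hk' : Φ.kd p ≠ Kd.P := by rw [hk]; exact fun e => Kd.noConfusion e
      exact Hier.abel P ((Group.fg_iff_subgroup_fg P).2 hfg) fun x y => Subtype.ext
        (hV.ab p x y hk ((newN hk').1 ((hP x).1 x.2)) ((newN hk').1 ((hP y).1 y.2)))
  · have h1 : Φ.s e = Φ.t e' := ((newP (hV.kend e he).1).1 hg).1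
    exact (hV.kend e' he').2 (h1 ▸ (hV.kend e he).1)
  · exact ce' e he a ((sW e he).cs e he rfl a ((newP (hV.kend e he).1).1 ha).2.2 hc)
  · exact ce' e he a ⟨(newN (hV.kend e he).2).1 ha, hc⟩
  · obtain ⟨h1, -, h2⟩ := (newP (hV.kend e he).1).1 ha
    exact (sW e he).far e he e' he' rfl h1.symm hne a h2

end Pool.Agent.MP_494aff_an.Fr

end MrgPart5

-- marker of a merged file
example : 731051 + 25091 = 731051 + 25091 := rfl

end MrgPart0

-- ======== part 1: formerly Pool.Agent.MP_494aff_an.un.Van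
section MrgPart1

-- ======== part 0: formerly Pool.Agent.MP_494aff_an.un.Core
section MrgPart0

/-! Stability of the flow under a change of the generator. -/

open Monoid Filter Topology
open scoped InnerProductSpace ComplexConjugate

namespace Pool.Agent.MP_494aff_an.Un

open Pool.Agent.MP_494aff_an.Pinch Pool.Agent.MP_494aff_an.Pinch.TowP Pool.Agent.MP_494aff_an.Lf

namespace CoreP

noncomputable section

lemma int_pos {E : Type} [NormedAddCommGroup E] [NormedSpace ℝ E] {φ φ' : ℝ → E} {a b : ℝ} {M : ℕ}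
    (h : ∀ r, HasDerivAt φ (φ' r) r) (h0 : φ 0 = 0)
    (hb : ∀ r, |r| ≤ 1 → ‖φ' r‖ ≤ a + b * |r| ^ M / M.factorial) {r : ℝ} (h1 : 0 ≤ r)
    (h2 : r ≤ 1) : ‖φ r‖ ≤ a * r + b * r ^ (M + 1) / (M + 1).factorial := by
  refine image_norm_le_of_norm_deriv_right_le_deriv_boundary (f := φ) (f' := φ') (a := 0) (b := 1)
    (fun x _ => (h x).continuousAt.continuousWithinAt) (fun x _ => (h x).hasDerivWithinAt)
    (B := fun r => a * r + b * r ^ (M + 1) / (M + 1).factorial)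
    (B' := fun r => a + b * r ^ M / M.factorial) (by simp [h0]) (fun x => ?_) (fun x hx => ?_)
    ⟨h1, h2⟩
  · have := ((hasDerivAt_id x).const_mul a).add
      (((hasDerivAt_pow (M + 1) x).const_mul b).div_const ((M + 1).factorial : ℝ))
    refine this.congr_deriv ?_
    have h3 : (M.factorial : ℝ) ≠ 0 := by exact_mod_cast M.factorial_ne_zero
    rw [Nat.factorial_succ, Nat.add_sub_cancel]
    push_cast
    field_simp
  · have := hb x (by rw [abs_of_nonneg hx.1]; exact hx.2.le)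
    rwa [abs_of_nonneg hx.1] at this

lemma int_abs {E : Type} [NormedAddCommGroup E] [NormedSpace ℝ E] {φ φ' : ℝ → E} {a b : ℝ} {M : ℕ}
    (ha : 0 ≤ a) (h : ∀ r, HasDerivAt φ (φ' r) r) (h0 : φ 0 = 0)
    (hb : ∀ r, |r| ≤ 1 → ‖φ' r‖ ≤ a + b * |r| ^ M / M.factorial) {r : ℝ} (hr : |r| ≤ 1) :
    ‖φ r‖ ≤ a + b * |r| ^ (M + 1) / (M + 1).factorial := by
  have h1 : a * |r| ≤ a := mul_le_of_le_one_right ha hr
  rcases le_total 0 r with h2 | h2
  · have := int_pos h h0 hb h2 ((le_abs_self r).trans hr)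
    rw [abs_of_nonneg h2] at h1 ⊢
    linarith
  · have := int_pos (φ := fun s => φ (-s)) (φ' := fun s => -φ' (-s)) (a := a) (b := b) (M := M)
      (fun s => ((h (-s)).scomp s (hasDerivAt_neg s)).congr_deriv (neg_one_smul ℝ _)) (by simpa using h0)
      (fun s hs => by simpa using hb (-s) (by simpa using hs)) (r := -r) (by linarith)
      ((neg_le_abs r).trans hr)
    rw [abs_of_nonpos h2] at h1 ⊢
    rw [neg_neg] at this
    linarith

/-- A contraction group on a larger space that is differentiable on the basis vectors of `Λ`. -/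
structure Dat (Λ : Type) where
  Γ : Type
  f : Λ → Γ
  hf : Function.Injective f
  U : ℝ → Op Γ
  d : Λ → H Γ
  norm : ∀ t, ‖U t‖ ≤ 1
  add : ∀ s t, U (s + t) = U s * U t
  zero : ∀ x, U 0 (dl (f x)) = dl (f x)
  der : ∀ x t, HasDerivAt (fun s => U s (dl (f x))) (U t (d x)) t

variable {Λ : Type}

/-- The embedding of the spaces. -/
def Dat.e (X : Dat Λ) : H Λ →L[ℂ] H X.Γ := emb X.f X.hf

lemma Dat.e_norm (X : Dat Λ) (ξ : H Λ) : ‖X.e ξ‖ = ‖ξ‖ := emb_norm _ _ ξ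

lemma Dat.e_dl (X : Dat Λ) (x : Λ) : X.e (dl x) = dl (X.f x) := emb_dl _ _ x

lemma Dat.le (X : Dat Λ) (t : ℝ) (ξ : H X.Γ) : ‖X.U t ξ‖ ≤ ‖ξ‖ :=
  ((X.U t).le_of_opNorm_le (X.norm t) ξ).trans_eq (one_mul _)

/-- The generators converge to `d`. -/
def L (d : Λ → H Λ) : Filter (Dat Λ) where
  sets := {S | ∃ (F : Finset Λ) (δ : ℝ), 0 < δ ∧
    ∀ X : Dat Λ, (∀ x ∈ F, ‖X.d x - X.e (d x)‖ ≤ δ) → X ∈ S}
  univ_sets := ⟨∅, 1, one_pos, fun _ _ => trivial⟩
  sets_of_superset := fun ⟨F, δ, h0, h⟩ hS => ⟨F, δ, h0, fun X hX => hS (h X hX)⟩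
  inter_sets := fun ⟨F, δ, h0, h⟩ ⟨F', δ', h0', h'⟩ => by
    classical
    exact ⟨F ∪ F', min δ δ', lt_min h0 h0', fun X hX =>
      ⟨h X fun x hx => (hX x (Finset.mem_union_left _ hx)).trans (min_le_left _ _),
        h' X fun x hx => (hX x (Finset.mem_union_right _ hx)).trans (min_le_right _ _)⟩⟩

lemma ev_sum (d : Λ → H Λ) (F : Finset Λ) (c : Λ → ℂ) {ε : ℝ} (hε : 0 < ε) :
    ∀ᶠ X in L d, ‖∑ z ∈ F, c z • X.d z - X.e (∑ z ∈ F, c z • d z)‖ ≤ ε := by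
  have h1 : 0 ≤ ∑ z ∈ F, ‖c z‖ := Finset.sum_nonneg fun _ _ => norm_nonneg _
  refine ⟨F, ε / (1 + ∑ z ∈ F, ‖c z‖), by positivity, fun X hX => ?_⟩
  show _ ≤ ε
  rw [map_sum, ← Finset.sum_sub_distrib]
  refine (norm_sum_le_of_le F (n := fun z => ‖c z‖ * (ε / (1 + ∑ z ∈ F, ‖c z‖)))
    fun z hz => ?_).trans ?_
  · rw [map_smul, ← smul_sub, norm_smul]
    exact mul_le_mul_of_nonneg_left (hX z hz) (norm_nonneg _)
  · rw [← Finset.sum_mul, ← mul_div_assoc, div_le_iff₀ (by positivity)]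
    nlinarith

/-- The difference of the two flows. -/
def df (U₀ : ℝ → Op Λ) (X : Dat Λ) (s : ℝ) : H Λ →L[ℂ] H X.Γ :=
  (X.U s).comp X.e - X.e.comp (U₀ s)

lemma df_ap (U₀ : ℝ → Op Λ) (X : Dat Λ) (s : ℝ) (ξ : H Λ) :
    df U₀ X s ξ = X.U s (X.e ξ) - X.e (U₀ s ξ) := rfl

variable {V : Submodule ℂ (H Λ)} {D : V →ₗ[ℂ] V} {d : Λ → H Λ} {U₀ : ℝ → Op Λ}

lemma df_le (hn : ∀ t ξ, ‖U₀ t ξ‖ = ‖ξ‖) (X : Dat Λ) (s : ℝ) (ξ : H Λ) :
    ‖df U₀ X s ξ‖ ≤ 2 * ‖ξ‖ := by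
  have h1 := X.le s (X.e ξ)
  have h2 := norm_sub_le (X.U s (X.e ξ)) (X.e (U₀ s ξ))
  rw [X.e_norm] at h1
  rw [X.e_norm, hn] at h2
  rw [df_ap]
  linarith

lemma df_sub (hn : ∀ t ξ, ‖U₀ t ξ‖ = ‖ξ‖) (X : Dat Λ) (s : ℝ) (ξ η : H Λ) :
    ‖df U₀ X s ξ‖ ≤ ‖df U₀ X s η‖ + 2 * ‖η - ξ‖ := by
  have h1 := df_le hn X s (η - ξ)
  have h2 := norm_sub_le (df U₀ X s η) (df U₀ X s (η - ξ))
  rw [← map_sub, sub_sub_cancel] at h2
  linarith

lemma near_sum {g : Λ → H Λ} {ξ : H Λ} (h : HasSum g ξ) {ε : ℝ} (hε : 0 < ε) :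
    ∀ᶠ F : Finset Λ in atTop, ‖∑ z ∈ F, g z - ξ‖ ≤ ε :=
  (tendsto_iff_norm_sub_tendsto_zero.1 (show Tendsto (fun F : Finset Λ => ∑ z ∈ F, g z) atTop
    (𝓝 ξ) from h)).eventually (ge_mem_nhds hε)

lemma taylor (hn : ∀ t ξ, ‖U₀ t ξ‖ = ‖ξ‖) (h0 : U₀ 0 = 1)
    (hd : ∀ x t, HasDerivAt (fun s => U₀ s (dl x)) (U₀ t (d x)) t)
    (hs : ∀ ξ : V, HasSum (fun z => (ξ : H Λ) z • d z) (D ξ : H Λ)) (M : ℕ) :
    ∀ (ξ : V) (ε : ℝ), 0 < ε → ∀ᶠ X in L d, ∀ r, |r| ≤ 1 →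
      ‖df U₀ X r ξ‖ ≤ ε + 2 * ‖((D ^ M) ξ : H Λ)‖ * |r| ^ M / M.factorial := by
  induction M with
  | zero =>
    refine fun ξ ε hε => Eventually.of_forall fun X r _ => (df_le hn X r ξ).trans ?_
    simp [hε.le]
  | succ M ih =>
    intro ξ ε hε
    have hε' : 0 < ε / 6 := by positivity
    obtain ⟨F, h1, h2⟩ := ((near_sum (hasSum_dl (ξ : H Λ)) hε').and (near_sum (hs ξ) hε')).exists
    filter_upwards [ih (D ξ) _ hε', ev_sum d F (fun z => (ξ : H Λ) z) hε'] with X h3 h4 r hr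
    have h5 := int_abs (φ := fun s => df U₀ X s (∑ z ∈ F, (ξ : H Λ) z • dl z))
      (φ' := fun s => X.U s (∑ z ∈ F, (ξ : H Λ) z • X.d z) -
        X.e (U₀ s (∑ z ∈ F, (ξ : H Λ) z • d z)))
      (a := 4 * (ε / 6)) (b := 2 * ‖((D ^ (M + 1)) ξ : H Λ)‖) (M := M) (by positivity)
      (fun s => ?_) ?_ (fun s hs' => ?_) hr
    · have h6 := df_sub hn X r ξ (∑ z ∈ F, (ξ : H Λ) z • dl z)
      linarith
    · simp only [map_sum, map_smul, df_ap, ← Finset.sum_sub_distrib, ← smul_sub, X.e_dl]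
      exact HasDerivAt.fun_sum fun z _ => ((X.der z s).sub
        ((X.e.restrictScalars ℝ).hasFDerivAt.comp_hasDerivAt s (hd z s))).const_smul ((ξ : H Λ) z)
    · simp only [map_sum, map_smul, df_ap, X.e_dl, X.zero, h0, one_ap, sub_self, smul_zero,
        Finset.sum_const_zero]
    · have h6 := h3 s hs'
      have h7 := df_sub hn X s (∑ z ∈ F, (ξ : H Λ) z • d z) (D ξ)
      have h8 := X.le s (∑ z ∈ F, (ξ : H Λ) z • X.d z - X.e (∑ z ∈ F, (ξ : H Λ) z • d z))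
      have h9 := norm_add_le
        (X.U s (∑ z ∈ F, (ξ : H Λ) z • X.d z - X.e (∑ z ∈ F, (ξ : H Λ) z • d z)))
        (df U₀ X s (∑ z ∈ F, (ξ : H Λ) z • d z))
      rw [df_ap, map_sub, sub_add_sub_cancel, ← map_sub, ← df_ap] at h9
      rw [norm_sub_rev] at h2
      rw [← Module.End.mul_apply, ← pow_succ] at h6
      linarith

lemma small (hn : ∀ t ξ, ‖U₀ t ξ‖ = ‖ξ‖) (h0 : U₀ 0 = 1)
    (hd : ∀ x t, HasDerivAt (fun s => U₀ s (dl x)) (U₀ t (d x)) t)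
    (hs : ∀ ξ : V, HasSum (fun z => (ξ : H Λ) z • d z) (D ξ : H Λ)) (hV : ∀ x, dl x ∈ V) {A : ℝ}
    (hA : 0 ≤ A) (hb : ∀ ξ : V, ∃ c : ℝ, ∀ n : ℕ, ‖((D ^ n) ξ : H Λ)‖ ≤ c * n.factorial * A ^ n)
    {s : ℝ} (h1 : |s| ≤ 1) (h2 : |s| * A < 1) (ξ : H Λ) {ε : ℝ} (hε : 0 < ε) :
    ∀ᶠ X in L d, ‖df U₀ X s ξ‖ ≤ ε := by
  have hε' : 0 < ε / 4 := by positivity
  obtain ⟨F, h3⟩ := (near_sum (hasSum_dl ξ) hε').exists
  let η : V := ⟨∑ z ∈ F, ξ z • dl z, V.sum_mem fun z _ => V.smul_mem _ (hV z)⟩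
  obtain ⟨c, hc⟩ := hb η
  have h4 := (tendsto_pow_atTop_nhds_zero_of_lt_one (mul_nonneg (abs_nonneg s) hA) h2).const_mul
    (2 * c)
  rw [mul_zero] at h4
  obtain ⟨M, hM⟩ := (h4.eventually (ge_mem_nhds hε')).exists
  filter_upwards [taylor hn h0 hd hs M η _ hε'] with X hX
  have h5 := hX s h1
  have h6 := df_sub hn X s ξ η
  have h7 : 2 * ‖((D ^ M) η : H Λ)‖ * |s| ^ M / M.factorial ≤ 2 * c * (|s| * A) ^ M := by
    have hf : (0 : ℝ) < M.factorial := by exact_mod_cast M.factorial_pos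
    rw [div_le_iff₀ hf]
    calc 2 * ‖((D ^ M) η : H Λ)‖ * |s| ^ M ≤ 2 * (c * M.factorial * A ^ M) * |s| ^ M := by
          gcongr; exact hc M
      _ = _ := by ring
  have h8 : ‖(η : H Λ) - ξ‖ ≤ ε / 4 := h3
  linarith

lemma multiple (hn : ∀ t ξ, ‖U₀ t ξ‖ = ‖ξ‖) (ha : ∀ s t, U₀ (s + t) = U₀ s * U₀ t) {s : ℝ}
    (hs : ∀ (ξ : H Λ) {ε : ℝ}, 0 < ε → ∀ᶠ X in L d, ‖df U₀ X s ξ‖ ≤ ε) (k : ℕ) (ξ : H Λ) :
    ∀ {ε : ℝ}, 0 < ε → ∀ᶠ X in L d, ‖df U₀ X ((k + 1 : ℕ) * s) ξ‖ ≤ ε := by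
  induction k with
  | zero => intro ε hε; simpa using hs ξ hε
  | succ k ih =>
    intro ε hε
    filter_upwards [ih (half_pos hε), hs (U₀ ((k + 1 : ℕ) * s) ξ) (half_pos hε)] with X h1 h2
    have h3 : ((k + 1 + 1 : ℕ) : ℝ) * s = s + (k + 1 : ℕ) * s := by push_cast; ring
    have h4 := X.le s (df U₀ X ((k + 1 : ℕ) * s) ξ)
    have h5 := norm_add_le (X.U s (df U₀ X ((k + 1 : ℕ) * s) ξ))
      (df U₀ X s (U₀ ((k + 1 : ℕ) * s) ξ))
    rw [h3, df_ap, X.add, ha, mul_ap, mul_ap]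
    rw [df_ap, df_ap, map_sub, sub_add_sub_cancel, ← map_sub, ← df_ap, ← df_ap] at h5
    linarith

end

end CoreP

open CoreP KerP in
theorem core : CoreStmt := by
  intro Λ _ ℓ d a₀ C h0 hℓ hsk hF
  obtain ⟨C', V, N, D, hC, h⟩ := scale Λ ℓ d a₀ C h0 hℓ hsk hF
  obtain ⟨A, hA, hb⟩ : ∃ A : ℝ, 0 ≤ A ∧ ∀ ξ : V, ∃ c : ℝ, ∀ n : ℕ,
      ‖((D ^ n) ξ : H Λ)‖ ≤ c * n.factorial * A ^ n :=
    ⟨_, by positivity, fun ξ => ⟨_, analytic h h0 hC ξ⟩⟩
  obtain ⟨U, hU0, hUa, hUs, -, hUd⟩ := exp1 Λ V D _ hA h.mem h.skew hb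
  have hv : ∀ x, (D (e h x) : H Λ) = d x := h.val
  have hn : ∀ t ξ, ‖U t ξ‖ = ‖ξ‖ := fun t =>
    norm_of_star_mul_self (by rw [hUs, ← hUa, neg_add_cancel, hU0])
  have hd : ∀ x t, HasDerivAt (fun s => U s (dl x)) (U t (d x)) t := fun x t =>
    hv x ▸ hUd t (e h x)
  have hs : ∀ ξ : V, HasSum (fun z => (ξ : H Λ) z • d z) (D ξ : H Λ) := fun ξ => by
    simpa only [hv] using hasSum_sb h h0 (sb_D h hC) ξ
  obtain ⟨k, hk⟩ := exists_nat_gt A
  have hk0 : (0 : ℝ) < (k + 1 : ℕ) := by positivity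
  have key : ∀ σ : ℝ, |σ| = 1 → ∀ (ξ : H Λ) {ε : ℝ}, 0 < ε →
      ∀ᶠ X in L d, ‖df U X σ ξ‖ ≤ ε := fun σ hσ ξ ε hε => by
    have h1 : |σ / (k + 1 : ℕ)| = 1 / (k + 1 : ℕ) := by rw [abs_div, hσ, abs_of_pos hk0]
    have := multiple hn hUa (s := σ / (k + 1 : ℕ)) (small hn hU0 hd hs h.mem hA hb
      (by rw [h1, div_le_one hk0]; exact_mod_cast Nat.le_add_left 1 k)
      (by rw [h1, div_mul_eq_mul_div, div_lt_one hk0]; push_cast; linarith)) k ξ hε
    rwa [mul_div_cancel₀ _ hk0.ne'] at this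
  refine ⟨U, fun F₀ ε hε => ?_⟩
  obtain ⟨F₁, δ, hδ, hX⟩ : ∀ᶠ X in L d, ∀ x ∈ F₀,
      ‖df U X 1 (dl x)‖ ≤ ε ∧ ‖df U X (-1) (dl x)‖ ≤ ε :=
    (eventually_all_finset F₀).2 fun x _ =>
      (key 1 abs_one _ hε).and (key (-1) (by simp) _ hε)
  refine ⟨F₁, δ, hδ, fun Γ _ f hf U' d' hU hc x hx => ?_⟩
  have := hX ⟨Γ, f, hf, U', fun x => d' (f x), hU.norm, hU.add, fun x => hU.zero _ ⟨x, rfl⟩,
    fun x => hU.der _ ⟨x, rfl⟩⟩ hc x hx
  rwa [df_ap, df_ap, Dat.e_dl] at this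

end Pool.Agent.MP_494aff_an.Un

end MrgPart0

-- ======== part 1: formerly Pool.Agent.MP_494aff_an.un.Van
section MrgPart1

/-! A cocycle that is small at `w` is close to one that vanishes on the centraliser of `w`. -/

open Monoid Filter Topology
open scoped InnerProductSpace ComplexConjugate

namespace Pool.Agent.MP_494aff_an.Un

open Pool.Agent.MP_494aff_an.Pinch Pool.Agent.MP_494aff_an.Pinch.TowP Pool.Agent.MP_494aff_an.Lf

namespace VanP

variable {G Γ : Type} [Group G] [Group Γ]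

/-- An operator almost fixed by a translation of infinite order is almost killed on the right by
a contraction close to one. -/
lemma key {g : Γ} (hg : InfOrd g) {η : ℝ} (hη : 0 < η) :
    ∃ δ : ℝ, 0 < δ ∧ ∀ ζ ∈ LL Γ, ‖((1 - lam g) * ζ) (dl 1)‖ ≤ δ →
      ∃ y ∈ LL Γ, ‖y‖ ≤ 1 ∧ ‖ζ (y (dl 1))‖ ≤ η ∧ ‖dl 1 - y (dl 1)‖ ≤ η := by
  have hg' : InfOrd g⁻¹ := fun k hk => by
    have := hg (-k) (by rw [zpow_neg, ← inv_zpow, hk])
    omega
  obtain ⟨N, hN⟩ := exists_nat_ge (4 / η ^ 2)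
  have hNp : (0 : ℝ) < N := lt_of_lt_of_le (by positivity) hN
  have hN0 : N ≠ 0 := by rintro rfl; simp at hNp
  obtain ⟨q, hq, eq⟩ := exists_quot_avg (ℓ := fun _ => 0) (K := (⊤ : Subgroup Γ)) (g := g⁻¹)
    trivial hN0 fun k => ((k + 0 : ℕ) : ℤ)
  have ha := norm_avg hg' hN0 0
  simp only [zpow_natCast] at eq
  set a : Op Γ := (N : ℝ)⁻¹ • ∑ k ∈ Finset.range N, lam (g⁻¹ ^ (k + 0)) with ha'
  have hq0 : 0 ≤ ‖q‖ := norm_nonneg _
  refine ⟨η ^ 2 / (2 * (‖q‖ + 1)), by positivity, fun ζ hζ h => ?_⟩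
  obtain ⟨y, v, hy, ny, hX, -, -, hv, ⟨κ, hκ⟩, -⟩ := RegP.key hζ (l := η ^ 2) (by positivity)
  have h1 : (1 - lam g) * ζ ∈ LL Γ := mul_mem (sub_mem (one_mem _) (lam_mem g)) hζ
  have h2 : ‖star ζ ((1 - lam g⁻¹ : Op Γ) (q (dl 1)))‖ ≤ η ^ 2 / 2 := by
    have b1 := norm_mul_hat (star_mem h1) hq.mem
    rw [norm_star_hat h1, star_mul, star_sub, star_one, star_lam, mul_ap] at b1
    calc _ ≤ _ := b1
      _ ≤ η ^ 2 / (2 * (‖q‖ + 1)) * (‖q‖ + 1) :=
        mul_le_mul h (by linarith) hq0 (by positivity)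
      _ = η ^ 2 / 2 := by field_simp
  have h3 : dl (1 : Γ) = a (dl 1) + (1 - lam g⁻¹ : Op Γ) (q (dl 1)) := by
    rw [← mul_ap, ← eq, _root_.sub_apply, one_ap]
    abel
  have h4 : (⟪ζ κ, dl (1 : Γ)⟫_ℂ).re ≤ ‖ζ κ‖ * (√N)⁻¹ + ‖κ‖ * (η ^ 2 / 2) := by
    have b1 := RegP.re_le (ζ κ) (a (dl 1))
    have b2 := RegP.re_le κ (star ζ ((1 - lam g⁻¹ : Op Γ) (q (dl 1))))
    rw [inner_star] at b2
    rw [ha] at b1
    have b3 := mul_le_mul_of_nonneg_left h2 (norm_nonneg κ)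
    have b4 : (⟪ζ κ, dl (1 : Γ)⟫_ℂ).re = (⟪ζ κ, a (dl 1)⟫_ℂ).re +
        (⟪ζ κ, (1 - lam g⁻¹ : Op Γ) (q (dl 1))⟫_ℂ).re := by
      rw [← Complex.add_re, ← inner_add_right, ← h3]
    linarith
  have h5 : ((√N)⁻¹ : ℝ) ^ 2 ≤ η ^ 2 / 4 := by
    rw [inv_pow, Real.sq_sqrt hNp.le, inv_le_comm₀ hNp (by positivity), inv_div]
    exact hN
  have h6 : 1 - η ^ 2 / 2 ≤ ‖y (dl 1)‖ := by
    rw [RegP.sub_sq, norm_dl] at hκ
    have b1 := sq_nonneg (‖ζ κ‖ - (√N)⁻¹)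
    have b2 : 0 ≤ η ^ 2 * (‖κ‖ - 1 / 2) ^ 2 := by positivity
    nlinarith
  have ns : ‖star y‖ ≤ 1 := (norm_star y).le.trans ny
  have n1 : ‖star y (dl 1)‖ = ‖y (dl 1)‖ := norm_star_hat hy
  have n2 : ‖y (dl 1)‖ ≤ 1 := by
    have := y.le_opNorm (dl 1)
    rw [norm_dl] at this
    linarith
  refine ⟨y * star y, mul_mem hy (star_mem hy), ?_, ?_, ?_⟩
  · exact (norm_mul_le _ _).trans (mul_le_one₀ ny (norm_nonneg _) ns)
  · refine le_of_sq_le_sq ?_ hη.le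
    have b1 := hX (star y (dl 1))
    rw [n1] at b1
    have b2 : ‖y (dl 1)‖ ^ 2 ≤ 1 := pow_le_one₀ (norm_nonneg _) n2
    rw [mul_ap]
    nlinarith [sq_nonneg η]
  · refine le_of_sq_le_sq ?_ hη.le
    have b1 : (⟪dl (1 : Γ), y (star y (dl 1))⟫_ℂ).re = ‖y (dl 1)‖ ^ 2 := by
      rw [← star_inner, inner_self_eq_norm_sq_to_K, n1]
      simp [← Complex.ofReal_pow]
    have b2 : ‖y (star y (dl 1))‖ ≤ ‖y (dl 1)‖ := by
      have := y.le_opNorm (star y (dl 1))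
      rw [n1] at this
      nlinarith [norm_nonneg (y (dl 1))]
    have b3 : ‖y (star y (dl 1))‖ ^ 2 ≤ ‖y (dl 1)‖ ^ 2 := pow_le_pow_left₀ (norm_nonneg _) b2 2
    rw [RegP.sub_sq, norm_dl, mul_ap, b1]
    nlinarith [norm_nonneg (y (dl 1)), sq_nonneg η]

/-- The value at `w` factors through a fixed cocycle. -/
lemma factor {ℓ : Γ → ℕ} {ι : G →* Γ} {R : Subgroup Γ} {w : G} (hQ : Q0 G)
    (hι : Function.Injective ι) (hR : ∀ x, ι x ∈ R) (hw : w ≠ 1) :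
    ∃ β, Co ι β ∧ (∀ x, An ℓ R (β x)) ∧ ∀ γ, Z0 ℓ R ι γ → ∃ ζ, An ℓ R ζ ∧ γ w = β w * ζ ∧
      ‖((1 - lam (ι w)) * ζ) (dl 1)‖ ≤ 2 * ‖γ w (dl 1)‖ := by
  by_cases hn : NC w
  · refine ⟨inn ι 1, co_inn 1, (z0_inn hR An.one).an, fun γ hγ => ?_⟩
    obtain ⟨ζ, hζ, e⟩ := hγ.nc w hn
    refine ⟨ζ, hζ, by rw [e, inn, mul_one], ?_⟩
    rw [← e]
    linarith [norm_nonneg (γ w (dl 1))]
  · obtain ⟨r, hr, k, rfl⟩ : ∃ r, Cyc r ∧ w ∈ Subgroup.zpowers r := by
      by_contra hc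
      exact hn ⟨hw, fun r hr hm => hc ⟨r, hr, hm⟩⟩
    obtain ⟨β, hβ, h1⟩ := hQ Γ ℓ ι hι r hr
    have hs : (ι.range : Set Γ) ⊆ R := by
      rintro _ ⟨x, rfl⟩
      exact hR x
    refine ⟨β, hβ.co, fun x => (hβ.an x).mono hs, fun γ hγ => ⟨γ r, hγ.an r, ?_, ?_⟩⟩
    · refine sub_eq_zero.1 ((hγ.co.sub (hβ.co.mul (γ r))).zpow_zero ?_ k)
      rw [h1, one_mul, sub_self]
    · have e1 := hγ.co (r ^ k) r
      rw [((Commute.refl r).zpow_left k).eq, hγ.co r (r ^ k)] at e1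
      have e2 : (1 - lam (ι (r ^ k))) * γ r = γ (r ^ k) - lam (ι r) * γ (r ^ k) := by
        rw [sub_mul, one_mul, sub_eq_sub_iff_add_eq_add, e1]
      simp only
      rw [e2, _root_.sub_apply, mul_ap]
      have := norm_sub_le (γ (r ^ k) (dl 1)) (lam (ι r) (γ (r ^ k) (dl 1)))
      rw [lam_norm] at this
      linarith

lemma exists_LL (ξ : H Γ) {θ : ℝ} (hθ : 0 < θ) : ∃ p ∈ LL Γ, ‖p (dl 1) - ξ‖ ≤ θ := by
  obtain ⟨s, hs⟩ := (Metric.tendsto_nhds.1 (hasSum_dl ξ) θ hθ).exists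
  refine ⟨∑ x ∈ s, ξ x • lam x, sum_mem fun x _ => SMulMemClass.smul_mem _ (lam_mem x), ?_⟩
  rw [dist_eq_norm] at hs
  rw [ContinuousLinearMap.sum_apply]
  simp only [_root_.smul_apply, lam_one]
  exact hs.le

end VanP

theorem van : VanStmt := by
  intro G Γ _ _ ℓ ι R w S b ε hG hQ hι hR hw hε
  have hinf : InfOrd (ι w) := FG.InfOrd.map hι (hG.tf w hw)
  obtain ⟨β, hβ, aβ, hf⟩ := VanP.factor (ℓ := ℓ) hQ hι hR hw
  set θ := ε / 7 with hθ
  have hθ0 : 0 < θ := by positivity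
  choose p hp np using fun s => VanP.exists_LL (b s) hθ0
  set M : ℝ := 1 + ∑ s ∈ S, (‖p s‖ + ‖β s‖) with hM
  have hM0 : 0 < M := by positivity
  have hMs : ∀ s ∈ S, ‖p s‖ + ‖β s‖ ≤ M := fun s hs => by
    have := Finset.single_le_sum (f := fun s => ‖p s‖ + ‖β s‖) (fun s _ => by positivity) hs
    linarith
  obtain ⟨δ, hδ, hk⟩ := VanP.key hinf (η := θ / M) (by positivity)
  refine ⟨min θ (δ / 2), by positivity, fun γ hγ h0 hS => ?_⟩
  obtain ⟨ζ, aζ, e, nζ⟩ := hf γ hγ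
  obtain ⟨y, hy, ny, hζy, hy1⟩ := hk ζ aζ.mem (by linarith [min_le_right θ (δ / 2)])
  have c1 : Co ι fun x => γ x - β x * ζ := hγ.co.sub (hβ.mul ζ)
  have a1 : ∀ x, An ℓ R (γ x - β x * ζ) := fun x => (hγ.an x).sub ((aβ x).mul' aζ)
  set B : ℝ := 1 + ∑ s ∈ S, ‖γ s - β s * ζ‖ with hB
  have hB0 : 0 < B := by positivity
  obtain ⟨q, hq, nq⟩ := AFP.exists_pol (R : Set Γ) (y (dl 1)) (θ := θ / B) (by positivity)
  refine ⟨fun x => (γ x - β x * ζ) * q, c1.mul q, fun x => (a1 x).mul' (An.pol hq),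
    fun x hx => ?_, fun s hs => ?_⟩
  · have := CoP.comm_zero c1 (sub_eq_zero.2 e) hx fun T => one_sub_inj hinf
    simp only at this ⊢
    rw [this, zero_mul]
  · have d0 : ‖γ s (dl 1) - b s‖ ≤ θ := (hS s hs).trans (min_le_left _ _)
    have d1 : ‖(γ s - p s) (dl 1)‖ ≤ 2 * θ := by
      have := norm_sub_le (γ s (dl 1) - b s) (p s (dl 1) - b s)
      rw [sub_sub_sub_cancel_right] at this
      rw [_root_.sub_apply]
      linarith [np s]
    have d2 : ‖(γ s - p s) ((1 - y) (dl 1))‖ ≤ 4 * θ := by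
      have b1 := norm_mul_hat (sub_mem (hγ.an s).mem (hp s)) (sub_mem (one_mem _) hy)
      have b2 : ‖1 - y‖ ≤ 2 := by
        have := norm_sub_le (1 : Op Γ) y
        linarith [AnP.norm_one_le (Γ := Γ)]
      calc _ ≤ _ := b1
        _ ≤ 2 * θ * 2 := mul_le_mul d1 b2 (norm_nonneg _) (by positivity)
        _ = 4 * θ := by ring
    have d3 : ‖p s (dl 1 - y (dl 1))‖ ≤ ‖p s‖ * (θ / M) :=
      ((p s).le_opNorm _).trans (mul_le_mul_of_nonneg_left hy1 (norm_nonneg _))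
    have d4 : ‖β s (ζ (y (dl 1)))‖ ≤ ‖β s‖ * (θ / M) :=
      ((β s).le_opNorm _).trans (mul_le_mul_of_nonneg_left hζy (norm_nonneg _))
    have d5 : ‖p s‖ * (θ / M) + ‖β s‖ * (θ / M) ≤ θ := by
      calc _ = (‖p s‖ + ‖β s‖) * (θ / M) := by ring
        _ ≤ M * (θ / M) := mul_le_mul_of_nonneg_right (hMs s hs) (by positivity)
        _ = θ := by field_simp
    have d6 : ‖γ s (dl 1) - (γ s - β s * ζ) (y (dl 1))‖ ≤ 5 * θ := by
      have b1 : γ s (dl 1) - (γ s - β s * ζ) (y (dl 1)) =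
          (γ s - p s) ((1 - y) (dl 1)) + p s (dl 1 - y (dl 1)) + β s (ζ (y (dl 1))) := by
        simp only [_root_.sub_apply, mul_ap, one_ap, map_sub]
        abel
      rw [b1]
      have := norm_add₃_le (a := (γ s - p s) ((1 - y) (dl 1))) (b := p s (dl 1 - y (dl 1)))
        (c := β s (ζ (y (dl 1))))
      linarith
    have d7 : ‖γ s (dl 1) - (γ s - β s * ζ) (AFP.rv R (y (dl 1)))‖ ≤ 5 * θ := by
      have := AFP.norm_rv (R : Set Γ) (γ s (dl 1) - (γ s - β s * ζ) (y (dl 1)))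
      rw [AFP.rv_sub, AFP.rv_an (hγ.an s), AFP.rv_an (a1 s), AFP.rv_dl (one_mem R)] at this
      linarith
    have d8 : ‖(γ s - β s * ζ) (q (dl 1) - AFP.rv R (y (dl 1)))‖ ≤ θ := by
      have b1 : ‖γ s - β s * ζ‖ ≤ B := by
        have := Finset.single_le_sum (f := fun s => ‖γ s - β s * ζ‖)
          (fun s _ => norm_nonneg _) hs
        linarith
      calc _ ≤ _ := (γ s - β s * ζ).le_opNorm _
        _ ≤ B * (θ / B) := mul_le_mul b1 nq (norm_nonneg _) hB0.le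
        _ = θ := by field_simp
    have b1 : ((γ s - β s * ζ) * q) (dl 1) - b s =
        (γ s - β s * ζ) (q (dl 1) - AFP.rv R (y (dl 1))) -
          (γ s (dl 1) - (γ s - β s * ζ) (AFP.rv R (y (dl 1)))) + (γ s (dl 1) - b s) := by
      rw [mul_ap, map_sub]
      abel
    simp only
    rw [b1]
    have b2 := norm_add_le ((γ s - β s * ζ) (q (dl 1) - AFP.rv R (y (dl 1))) -
      (γ s (dl 1) - (γ s - β s * ζ) (AFP.rv R (y (dl 1))))) (γ s (dl 1) - b s)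
    have b3 := norm_sub_le ((γ s - β s * ζ) (q (dl 1) - AFP.rv R (y (dl 1))))
      (γ s (dl 1) - (γ s - β s * ζ) (AFP.rv R (y (dl 1))))
    linarith

end Pool.Agent.MP_494aff_an.Un

end MrgPart1

-- marker of a merged file
example : 731051 + 606041 = 731051 + 606041 := rfl

end MrgPart1

-- marker of a merged file
example : 731051 + 606041 = 731051 + 606041 := rfl
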